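import Pool.Agent.H72.OWN.Act
import Pool.Agent.H6.OWN.NgN

/-!
# Tubes from the activity of the class: exactness and activity in the tubes

`rexv_at`: exactness behind records for countably many zooms, with tubes at given active scales.
`act_Z`: the velocity is active behind the tube given the exact point, the tube and the record.
`rex_tube`: both, from the activity of the class at small scales.
-/

set_option autoImplicit false

namespace Pool.OWN72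

open Finset Real MeasureTheory
open Pool.Agent.H49.Ent Pool.Agent.H32.Dense Pool.STK Pool.KA Pool.KSAT Pool.K2S Pool.PB Pool.S6C
open Pool.GEN Pool.REX Pool.REX83

variable {m n J : ℕ}

/-- **Exactness behind records, with tubes at given active scales.** -/
theorem rexv_at {S : PCl m} (hS : S.Ne) {C₀ : ℝ} (hC₀ : 0 ≤ C₀) (htm : TmC S C₀)
    (hpos : ∀ (τ : ℝ) (J : ℕ) (F : Fam m J) (A : F.Ω → Prop), S.St τ J F A → 0 < Pe F.p A)
    {ι : Type} [Countable ι] (k : ι → ℕ) (hF : ∀ i, FZX (k i)) (v : ι → Vz m)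
    (ε : ∀ i, Fin (k i) → Fin m) {N : ∀ i, Finset (Fin (k i)) → ℝ → ℝ → ℝ}
    (hN : ∀ i, ActN (WyV S (v i) (ε i)) (N i)) (κ : ∀ i, Fin (k i)) {p : ι → ℝ}
    (hp00 : ∀ i, 0 < p i) (hp2 : ∀ i, p i < 1 / 2) {al : ι → ℝ} (hal : ∀ i, 0 < al i)
    (hact : ∀ i, Act (N i {κ i}) (p i) (al i)) :
    ∃ (S₃ : PCl m) (L : ∀ i, Finset (Fin (k i)) → Fin (k i) → ℝ → ℝ → ℝ), S₃.Ne ∧
      (∀ (τ : ℝ) (J : ℕ) (F : Fam m J) (A : F.Ω → Prop), S₃.St τ J F A → S.St τ J F A) ∧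
      ∀ i, RDt S₃ (v i) (ε i) (p i) (κ i) (L i) := by
  have hp0 : ∀ i, 0 ≤ p i := fun i => (hp00 i).le
  have hp1 : ∀ i, p i < 1 := fun i => (hp2 i).trans (by norm_num)
  obtain ⟨S₃, L, hne₃, hsub₃, hL⟩ := lam_all hS k
    (fun i => reZ (atp (v i) (p i) (hp0 i) (hp1 i)) (ε i))
  refine ⟨S₃, L, hne₃, hsub₃, fun i => ?_⟩
  have hpos₃ : ∀ (τ : ℝ) (J : ℕ) (F : Fam m J) (A : F.Ω → Prop), S₃.St τ J F A →
      0 < Pe F.p A := fun τ J F A h => hpos τ J F A (hsub₃ τ J F A h)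
  have htm₃ : TmC S₃ C₀ := fun τ J F A hτ h => htm τ J F A hτ (hsub₃ τ J F A h)
  -- the active coordinate
  have hN₃ : ActN (WyV S₃ (v i) (ε i)) (N i) :=
    actN_of_bas (fun Φ hb => wyv_le (v i) (ε i) (sub_le hsub₃) hb) (hN i)
  obtain ⟨g₀, hg₀, hM⟩ := ActQ.mod (tub_actR (hp2 i).le (hact i)).rat
  have hB := (tub_actB hN₃ (wyv_pos (v i) (ε i) hpos₃) (κ i) (hp0 i) (hp2 i).le).rat
  have hLi : LamW (RecV S₃ (atp (v i) (p i) (hp0 i) (hp1 i)) (ε i)) (L i) := hL i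
  have hBi : ActB _ (RecV S₃ (atp (v i) (p i) (hp0 i) (hp1 i)) (ε i)) (κ i) :=
    actB_of_bas (fun Φ hb => Bas.sub (fun τ J F A hA =>
      recv_atp S₃ (v i) (ε i) (p i) (hp0 i) (hp1 i) hA) hb) hB
  have hneR : (RecV S₃ (atp (v i) (p i) (hp0 i) (hp1 i)) (ε i)).Ne := recV_ne hne₃ _ _
  have hposR : Bas (RecV S₃ (atp (v i) (p i) (hp0 i) (hp1 i)) (ε i)) (fun _ F A => 0 < Pe F.p A) :=
    ⟨1, one_pos, 0, fun J _ F A hA => recv_pos _ _ hpos₃ 1 J F A hA⟩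
  refine ⟨hp00 i, hp2 i, hLi, ⟨_, al i, g₀, hal i, hg₀, hM, hBi⟩, ?_⟩
  -- the greedy order
  have hκ : ∀ w : ℝ, 0 ≤ w → w < 1 → L i ∅ (κ i) w w = w := fun w hw0 hw1 =>
    hLi.act hneR (hal i) (hM.q hg₀) hBi hposR hw0 hw1
  obtain ⟨D, hD, hcov⟩ := wv_cover (φ := fun j => j) (κ := κ i) hLi hκ
  refine ⟨D, hD, fun w hw0 hw1 hwD => ?_⟩
  obtain ⟨σ, hσ, hσ0⟩ := hcov w hw0 hw1 hwD
  refine ⟨σ, hσ, hσ0, fun ρ hρ => ?_⟩
  have h1 := rexv (k i) (hF i) hC₀ htm₃ (atp (v i) (p i) (hp0 i) (hp1 i)) (ε i) hneR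
    (fun _ _ _ _ h => h) hLi (hal i) hg₀ hM (σ := fun j => σ j) σ.injective
    (fun j hj => by rw [hσ0 j hj]; exact hBi) hσ ρ hρ
  -- all families are in the pull-back
  obtain ⟨τ, hτ, J₁, hb⟩ := h1
  refine ⟨τ, hτ, J₁, fun J hJ F A hA => hb J hJ F A ⟨hA, fun h => ?_⟩⟩
  have hb0 := (v i).b0
  have hb1 := (v i).b1
  refine (RecV S₃ (atp (v i) (p i) (hp0 i) (hp1 i)) (ε i)).mono ?_ (recV_mk hA h)
  have hc : 0 < (1 - (v i).b) * (1 - p i) := mul_pos (by linarith) (by linarith [hp1 i])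
  have h1c : 1 ≤ 1 / ((1 - (v i).b) * (1 - p i)) := by
    rw [le_div_iff₀ hc, one_mul]
    exact mul_le_one₀ (by linarith) (by linarith [hp1 i]) (by linarith [hp0 i])
  calc τ = 1 * τ := (one_mul τ).symm
    _ ≤ 1 / ((1 - (v i).b) * (1 - p i)) * τ := mul_le_mul_of_nonneg_right h1c hτ.le

theorem floor_split (P k : ℕ) (d : ℝ) :
    ⌊(2 : ℝ) ^ (P + k) * d⌋ = 2 ^ k * ⌊(2 : ℝ) ^ P * d⌋ + ⌊(2 : ℝ) ^ k * Int.fract (2 ^ P * d)⌋ := by
  have e1 : (2 : ℝ) ^ (P + k) * d = ((2 ^ k * ⌊(2 : ℝ) ^ P * d⌋ : ℤ) : ℝ) +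
      2 ^ k * Int.fract (2 ^ P * d) := by
    rw [← Int.self_sub_floor, pow_add]
    push_cast
    ring
  rw [e1, Int.floor_intCast_add]

/-- The position of the tube has few bits given the exact point and the tube of the direction. -/
theorem u_few (F : Fam m J) (v : Vz m) (ε : Fin n → Fin m) (hP : v.P J ≤ J - v.B J)
    {q : F.Ω → ℝ} (hq : IsLaw q) :
    CH q (fun ω => fl (v.P J) (fun i => (v.winV ε F).u ω i))
      (fun ω => ((fl (v.B J) (F.x1 (v.B J) ω), F.D (v.P J) ω), (F.X J ω, F.T ω))) ≤ n * k99 := by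
  have hB : v.B J ≤ J := (v.floor_le J).1
  have h3 := CH_le_vec hq.nonneg hq.sum_one
    (fun ω => fl (v.P J) (fun i => (v.winV ε F).u ω i))
    (fun ω => ((fl (v.B J) (F.x1 (v.B J) ω), F.D (v.P J) ω), (F.X J ω, F.T ω)))
    (fun _ => 49) (fun ω ω' _ _ h k => by
      have h1 := Prod.ext_iff.1 h
      have h2 := Prod.ext_iff.1 h1.1
      have hX : F.X J ω = F.X J ω' := (Prod.ext_iff.1 h1.2).1
      have hT : F.T ω = F.T ω' := (Prod.ext_iff.1 h1.2).2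
      have hx1 : fl (v.B J) (F.x1 (v.B J) ω) (ε k) = fl (v.B J) (F.x1 (v.B J) ω') (ε k) :=
        congrFun h2.1 (ε k)
      have hD : F.D (v.P J) ω (ε k) = F.D (v.P J) ω' (ε k) := congrFun h2.2 (ε k)
      obtain ⟨B, hBe⟩ : ∃ B, B = v.B J := ⟨_, rfl⟩
      obtain ⟨P, hPe⟩ : ∃ P, P = v.P J := ⟨_, rfl⟩
      rw [← hBe] at hB hP hx1
      rw [← hPe] at hP hD
      have hk : ⌊(2 : ℝ) ^ J * F.x ω (ε k)⌋ = ⌊(2 : ℝ) ^ J * F.x ω' (ε k)⌋ := congrFun hX (ε k)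
      have hdk : ⌊(2 : ℝ) ^ P * F.d ω (ε k)⌋ = ⌊(2 : ℝ) ^ P * F.d ω' (ε k)⌋ := hD
      have hxk : ⌊(2 : ℝ) ^ B * F.x1 B ω (ε k)⌋ = ⌊(2 : ℝ) ^ B * F.x1 B ω' (ε k)⌋ := hx1
      have hT1 : F.T1 B ω = F.T1 B ω' := by
        unfold Fam.T1
        rw [hT]
      have ht : F.t ω = F.t ω' := by
        unfold Fam.t
        rw [hT]
      have a1 : |(2 : ℝ) ^ J * F.x ω (ε k) - 2 ^ J * F.x ω' (ε k)| < 1 :=
        Int.abs_sub_lt_one_of_floor_eq_floor hk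
      have a2 : |(2 : ℝ) ^ P * F.d ω (ε k) - 2 ^ P * F.d ω' (ε k)| < 1 :=
        Int.abs_sub_lt_one_of_floor_eq_floor hdk
      obtain ⟨s, hs⟩ : ∃ s : ℝ, s = 2 ^ B * F.t ω - F.T1 B ω := ⟨_, rfl⟩
      have e2 : (2 : ℝ) ^ J = 2 ^ (J - B) * 2 ^ B := by rw [← pow_add, Nat.sub_add_cancel hB]
      have hs1 : |s| ≤ 1 := by
        have h1 := Nat.div_add_mod (F.T ω) (2 ^ (J - B))
        have h2 : (2 : ℝ) ^ (J - B) * (F.T1 B ω : ℝ) + ((F.T ω % 2 ^ (J - B) : ℕ) : ℝ) = F.T ω := by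
          exact_mod_cast h1
        have h3 : ((F.T ω % 2 ^ (J - B) : ℕ) : ℝ) ≤ 2 ^ (J - B) := by
          exact_mod_cast (Nat.mod_lt (F.T ω) (by positivity : 0 < 2 ^ (J - B))).le
        have h4 : (0 : ℝ) ≤ ((F.T ω % 2 ^ (J - B) : ℕ) : ℝ) := Nat.cast_nonneg _
        have h5 : s = ((F.T ω % 2 ^ (J - B) : ℕ) : ℝ) / 2 ^ (J - B) := by
          rw [hs]
          unfold Fam.t
          rw [← h2, e2]
          field_simp
          ring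
        rw [h5, abs_of_nonneg (by positivity), div_le_one (by positivity)]
        exact h3
      have e3 : ∀ ω₁, F.t ω₁ = F.t ω → F.T1 B ω₁ = F.T1 B ω →
          (2 : ℝ) ^ B * F.x1 B ω₁ (ε k) = 2 ^ B * F.x ω₁ (ε k) - s * F.d ω₁ (ε k) := by
        intro ω₁ h1 h2
        have pB : (2 : ℝ) ^ B ≠ 0 := by positivity
        unfold Fam.x1 Fam.x
        rw [h1, h2, hs]
        field_simp
        ring
      -- the sizes
      have p2 : (2 : ℝ) ^ (J - B) = 2 ^ (J - B - P) * 2 ^ P := by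
        rw [← pow_add, Nat.sub_add_cancel hP]
      have p1 : (1 : ℝ) ≤ 2 ^ (J - B - P) := one_le_pow₀ (by norm_num)
      have a3 : |(2 : ℝ) ^ P * (2 ^ B * F.x ω (ε k) - 2 ^ B * F.x ω' (ε k))| ≤ 1 := by
        have e4 : (2 : ℝ) ^ J * F.x ω (ε k) - 2 ^ J * F.x ω' (ε k) = 2 ^ (J - B - P) *
            (2 ^ P * (2 ^ B * F.x ω (ε k) - 2 ^ B * F.x ω' (ε k))) := by
          rw [e2, p2]
          ring
        rw [e4, abs_mul, abs_of_pos (by positivity : (0 : ℝ) < 2 ^ (J - B - P))] at a1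
        have h0 := abs_nonneg ((2 : ℝ) ^ P * (2 ^ B * F.x ω (ε k) - 2 ^ B * F.x ω' (ε k)))
        nlinarith
      have a4 : |(2 : ℝ) ^ P * (s * (F.d ω (ε k) - F.d ω' (ε k)))| ≤ 1 := by
        have e4 : (2 : ℝ) ^ P * (s * (F.d ω (ε k) - F.d ω' (ε k))) =
            s * (2 ^ P * F.d ω (ε k) - 2 ^ P * F.d ω' (ε k)) := by ring
        rw [e4, abs_mul]
        exact mul_le_one₀ hs1 (abs_nonneg _) a2.le
      have e5 : ∀ ω₁ : F.Ω, (v.winV ε F).u ω₁ k = Int.fract (2 ^ B * F.x1 B ω₁ (ε k)) := by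
        intro ω₁
        rw [hBe]
        rfl
      have a5 : |(2 : ℝ) ^ P * (v.winV ε F).u ω k - 2 ^ P * (v.winV ε F).u ω' k| ≤ 2 := by
        rw [e5, e5, ← Int.self_sub_floor, ← Int.self_sub_floor, hxk, e3 ω rfl rfl,
          e3 ω' ht.symm hT1.symm]
        have e6 : ∀ z : ℝ, (2 : ℝ) ^ P * (2 ^ B * F.x ω (ε k) - s * F.d ω (ε k) - z) -
            2 ^ P * (2 ^ B * F.x ω' (ε k) - s * F.d ω' (ε k) - z) =
            (2 : ℝ) ^ P * (2 ^ B * F.x ω (ε k) - 2 ^ B * F.x ω' (ε k)) -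
              (2 : ℝ) ^ P * (s * (F.d ω (ε k) - F.d ω' (ε k))) := fun z => by ring
        rw [e6]
        have e7 := abs_sub ((2 : ℝ) ^ P * (2 ^ B * F.x ω (ε k) - 2 ^ B * F.x ω' (ε k)))
          ((2 : ℝ) ^ P * (s * (F.d ω (ε k) - F.d ω' (ε k))))
        linarith
      have b1 := abs_le.1 a5
      have b2 : ((⌊(2 : ℝ) ^ P * (v.winV ε F).u ω k⌋ : ℤ) : ℝ) ≤ 2 ^ P * (v.winV ε F).u ω k :=
        Int.floor_le _
      have b3 := Int.lt_floor_add_one ((2 : ℝ) ^ P * (v.winV ε F).u ω k)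
      have b4 : ((⌊(2 : ℝ) ^ P * (v.winV ε F).u ω' k⌋ : ℤ) : ℝ) ≤ 2 ^ P * (v.winV ε F).u ω' k :=
        Int.floor_le _
      have b5 := Int.lt_floor_add_one ((2 : ℝ) ^ P * (v.winV ε F).u ω' k)
      rw [← hPe]
      show |((⌊(2 : ℝ) ^ P * (v.winV ε F).u ω k⌋ - ⌊(2 : ℝ) ^ P * (v.winV ε F).u ω' k⌋ : ℤ) : ℝ)| ≤
        _
      push_cast
      rw [abs_le]
      constructor <;> linarith [b1.1, b1.2])
  rwa [Ex_const hq.sum_one] at h3

/-- The direction behind the tube. -/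
theorem dir_tub (F : Fam m J) (v : Vz m) (ε : Fin n → Fin m) (hP : v.P J ≤ J - v.B J)
    {A : F.Ω → Prop} (hA : 0 < Pe F.p A) (κ : Fin n) (k : ℕ) :
    blk F {ε κ} A (v.P J) (v.P J + k) ≤
      CH (Pool.Agent.H49.Ent.cond F.p A True) (fun ω => (v.famV ε F hP).D k ω κ)
        (fun ω => (F.X J ω, F.T ω, (v.famV ε F hP).Z ω)) +
      CH (Pool.Agent.H49.Ent.cond F.p A True) (v.y J F)
        (fun ω => (F.D (v.P J) ω, (F.X J ω, F.W ω))) + (m * k99 + n * k99) := by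
  have hq := isLaw_cond F.isLaw hA
  have h0 := hq.nonneg
  have hB : v.B J ≤ J := (v.floor_le J).1
  -- the record, the beginning of the window, the position of the tube
  have h1 := CH_le_add h0 (fun ω => prjK {ε κ} (F.D (v.P J + k) ω)) (v.y J F)
    (fun ω => (F.D (v.P J) ω, (F.X J ω, F.W ω)))
  have h2 := CH_le_add h0 (fun ω => prjK {ε κ} (F.D (v.P J + k) ω))
    (fun ω => fl (v.B J) (F.x1 (v.B J) ω))
    (fun ω => (v.y J F ω, (F.D (v.P J) ω, (F.X J ω, F.W ω))))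
  have h3 := CH_le_add h0 (fun ω => prjK {ε κ} (F.D (v.P J + k) ω))
    (fun ω => fl (v.P J) (fun i => (v.winV ε F).u ω i))
    (fun ω => (fl (v.B J) (F.x1 (v.B J) ω), (v.y J F ω, (F.D (v.P J) ω, (F.X J ω, F.W ω)))))
  have h4 : CH (Pool.Agent.H49.Ent.cond F.p A True) (fun ω => fl (v.B J) (F.x1 (v.B J) ω))
      (fun ω => (v.y J F ω, (F.D (v.P J) ω, (F.X J ω, F.W ω)))) ≤ m * k99 := by
    refine le_trans (CH_mono_cond h0 fun ω ω' _ _ e => ?_) (x1_few F hB hq)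
    have e1 := Prod.ext_iff.1 (Prod.ext_iff.1 (Prod.ext_iff.1 e).2).2
    exact Prod.ext e1.1 (Prod.ext_iff.1 e1.2).1
  have h5 : CH (Pool.Agent.H49.Ent.cond F.p A True)
      (fun ω => fl (v.P J) (fun i => (v.winV ε F).u ω i))
      (fun ω => (fl (v.B J) (F.x1 (v.B J) ω),
        (v.y J F ω, (F.D (v.P J) ω, (F.X J ω, F.W ω))))) ≤ n * k99 := by
    refine le_trans (CH_mono_cond h0 fun ω ω' _ _ e => ?_) (u_few F v ε hP hq)
    have e1 := Prod.ext_iff.1 e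
    have e2 := Prod.ext_iff.1 (Prod.ext_iff.1 e1.2).2
    have e3 := Prod.ext_iff.1 e2.2
    exact Prod.ext (Prod.ext e1.1 e2.1) (Prod.ext e3.1 (Prod.ext_iff.1 e3.2).1)
  obtain ⟨C, hC⟩ : ∃ C : F.Ω → (Fin n → ℤ) × ((Fin m → ℤ) × (v.κ J F × ((Fin m → ℤ) ×
      ((Fin m → ℤ) × (ℕ × F.ζ))))), C = fun ω => (fl (v.P J) (fun i => (v.winV ε F).u ω i),
        (fl (v.B J) (F.x1 (v.B J) ω), (v.y J F ω, (F.D (v.P J) ω, (F.X J ω, F.W ω))))) :=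
    ⟨_, rfl⟩
  have h6 : CH (Pool.Agent.H49.Ent.cond F.p A True) (fun ω => prjK {ε κ} (F.D (v.P J + k) ω)) C ≤
      CH (Pool.Agent.H49.Ent.cond F.p A True) (fun ω => (v.famV ε F hP).D k ω κ) C := by
    refine CH_mono_left h0 fun ω ω' _ _ e => ?_
    rw [hC] at e
    have e1 := Prod.ext_iff.1 e
    have e2 : (v.famV ε F hP).D k ω κ = (v.famV ε F hP).D k ω' κ := e1.1
    have e3 := (Prod.ext_iff.1 (Prod.ext_iff.1 (Prod.ext_iff.1 (Prod.ext_iff.1 e1.2).2).2).2).1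
    have e4 : F.D (v.P J) ω (ε κ) = F.D (v.P J) ω' (ε κ) := congrFun e3 (ε κ)
    have e5 : ⌊(2 : ℝ) ^ k * Int.fract (2 ^ v.P J * F.d ω (ε κ))⌋ =
        ⌊(2 : ℝ) ^ k * Int.fract (2 ^ v.P J * F.d ω' (ε κ))⌋ := e2
    have e6 : ⌊(2 : ℝ) ^ v.P J * F.d ω (ε κ)⌋ = ⌊(2 : ℝ) ^ v.P J * F.d ω' (ε κ)⌋ := e4
    have e7 : F.D (v.P J + k) ω (ε κ) = F.D (v.P J + k) ω' (ε κ) := by
      show ⌊(2 : ℝ) ^ (v.P J + k) * F.d ω (ε κ)⌋ = ⌊(2 : ℝ) ^ (v.P J + k) * F.d ω' (ε κ)⌋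
      rw [floor_split, floor_split, e5, e6]
    funext i
    show prjK {ε κ} (F.D (v.P J + k) ω) i = prjK {ε κ} (F.D (v.P J + k) ω') i
    unfold prjK
    by_cases hi : i = ε κ
    · rw [hi, e7]
    · have : i ∉ ({ε κ} : Finset (Fin m)) := by simpa using hi
      rw [if_neg this, if_neg this]
  have h7 : CH (Pool.Agent.H49.Ent.cond F.p A True) (fun ω => (v.famV ε F hP).D k ω κ) C ≤
      CH (Pool.Agent.H49.Ent.cond F.p A True) (fun ω => (v.famV ε F hP).D k ω κ)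
        (fun ω => (F.X J ω, F.T ω, (v.famV ε F hP).Z ω)) := by
    refine CH_mono_cond h0 fun ω ω' _ _ e => ?_
    rw [hC] at e
    have e1 := Prod.ext_iff.1 e
    have e2 := Prod.ext_iff.1 e1.2
    have e3 := Prod.ext_iff.1 e2.2
    have e4 := Prod.ext_iff.1 e3.2
    have e5 := Prod.ext_iff.1 e4.2
    have hu : fl (v.P J) (fun i => (v.winV ε F).u ω i) =
      fl (v.P J) (fun i => (v.winV ε F).u ω' i) := e1.1
    have hx1 : fl (v.B J) (F.x1 (v.B J) ω) = fl (v.B J) (F.x1 (v.B J) ω') := e2.1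
    have hy : v.y J F ω = v.y J F ω' := e3.1
    have hD : F.D (v.P J) ω = F.D (v.P J) ω' := e4.1
    have hX : F.X J ω = F.X J ω' := e5.1
    have hT : F.T ω = F.T ω' := (Prod.ext_iff.1 e5.2).1
    have hZ : F.Z ω = F.Z ω' := (Prod.ext_iff.1 e5.2).2
    refine Prod.ext hX (Prod.ext hT (Prod.ext (Prod.ext hu (funext fun i => congrFun hD (ε i)))
      (Prod.ext hy ?_)))
    show F.c (v.B J) ω = F.c (v.B J) ω'
    unfold Fam.c Fam.T1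
    rw [hT, hx1, hZ]
  rw [hC] at h6 h7
  have h8 := h1.trans (add_le_add_right (h2.trans (add_le_add h4 (h3.trans
    (add_le_add h5 (h6.trans h7))))) _)
  refine le_trans h8 (le_of_eq ?_)
  exact (by intros; ring : ∀ a b c d : ℝ, a + (b + (c + d)) = d + a + (b + c)) _ _ _ _

/-- **The velocity is active behind the tube**, given the exact point, the tube and the record. -/
theorem act_Z {S : PCl m} (hpos : Bas S (fun _ F A => 0 < Pe F.p A))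
    {Ns : Finset (Fin m) → ℝ → ℝ → ℝ} (hNs : ActN S Ns) (v : Vz m) (ε : Fin n → Fin m)
    (κ : Fin n) {P₀ : ℝ}
    (hrec : ∀ h : ℝ, 0 < h → Bas S (fun J F A =>
      CH (Pool.Agent.H49.Ent.cond F.p A True) (v.y J F)
        (fun ω => (F.D ⌊P₀ * J⌋₊ ω, (F.X J ω, F.W ω))) ≤ h * J))
    {al : ℝ} (hal : 0 < al) (hp : P₀ < (1 - v.b) * v.p)
    (hact : Act (Ns {ε κ}) ((1 - v.b) * v.p) al) : Pool.MIC6.ActZ S v ε κ := by
  intro g hg
  have hl2 : 0 < Real.log 2 := Real.log_pos one_lt_two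
  have hb0 := v.b0
  have hb1 := v.b1
  have hp0 := v.p0
  have hp1 := v.p1
  have hc : 0 < 1 - v.b := by linarith
  obtain ⟨p, hpe⟩ : ∃ p, p = (1 - v.b) * v.p := ⟨_, rfl⟩
  rw [← hpe] at hp hact
  have hpn : 0 ≤ p := by rw [hpe]; positivity
  have hpl : p < 1 := by
    rw [hpe]
    nlinarith
  -- a block with positive number
  obtain ⟨e₀, he₀⟩ : ∃ e₀, e₀ = min (al / 2) (1 / 2) := ⟨_, rfl⟩
  have he00 : 0 < e₀ := by rw [he₀]; exact lt_min (half_pos hal) (by norm_num)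
  have he1 : e₀ ≤ al / 2 := by rw [he₀]; exact min_le_left _ _
  have he2 : e₀ ≤ 1 / 2 := by rw [he₀]; exact min_le_right _ _
  obtain ⟨g₀, hg₀, h⟩ := hact e₀ he00
  obtain ⟨g₁, hg₁⟩ : ∃ g₁, g₁ = min (min g₀ (1 - p)) (g * ((1 - v.b) * (1 - v.p)) / 2) :=
    ⟨_, rfl⟩
  have hcp : 0 < (1 - v.b) * (1 - v.p) := mul_pos hc (by linarith)
  have hg10 : 0 < g₁ := by
    rw [hg₁]
    exact lt_min (lt_min hg₀ (by linarith)) (by positivity)
  have hg1a : g₁ ≤ g₀ := by rw [hg₁]; exact (min_le_left _ _).trans (min_le_left _ _)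
  have hg1b : g₁ ≤ 1 - p := by rw [hg₁]; exact (min_le_left _ _).trans (min_le_right _ _)
  have hg1c : g₁ ≤ g * ((1 - v.b) * (1 - v.p)) / 2 := by rw [hg₁]; exact min_le_right _ _
  obtain ⟨a, ha, ha1⟩ : ∃ a, 0 < a ∧ a ≤ Ns {ε κ} p (p + g₁) := by
    obtain ⟨Gd, hGd, hcard, hl⟩ := h g₁ hg10 hg1a (by linarith) 1 one_pos
    have h1 : (0 : ℝ) < Gd.card := by
      push_cast at hcard
      linarith
    have h2 : 0 < Gd.card := by exact_mod_cast h1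
    obtain ⟨l, hlG⟩ := Finset.card_pos.1 h2
    have h3 := Finset.mem_range.1 (hGd hlG)
    have h4 : l = 0 := by omega
    have h5 := hl l hlG
    rw [h4] at h5
    refine ⟨al / 2 * g₁, by positivity, ?_⟩
    have e1 : p + g₁ * ((0 : ℕ) : ℝ) / ((1 : ℕ) : ℝ) = p := by push_cast; ring
    have e2 : p + g₁ * ((0 + 1 : ℕ) : ℝ) / ((1 : ℕ) : ℝ) = p + g₁ := by push_cast; ring
    have e3 : g₁ / ((1 : ℕ) : ℝ) = g₁ := by push_cast; ring
    rw [e1, e2, e3] at h5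
    have h6 : al / 2 * g₁ ≤ (al - e₀) * g₁ := mul_le_mul_of_nonneg_right (by linarith) hg10.le
    exact h6.trans h5
  refine ⟨a * Real.log 2 / 4, by positivity, ?_⟩
  have h1 := hNs.num {ε κ} p (p + g₁) hpn hpl.le (by linarith) (by linarith)
    (a * Real.log 2 / 4) (by positivity)
  have h2 := hrec (a * Real.log 2 / 4) (by positivity)
  obtain ⟨K, hK⟩ : ∃ K : ℝ, K = m * Real.log 2 * 2 + (m * k99 + n * k99) := ⟨_, rfl⟩
  obtain ⟨J₁, hJ₁⟩ := exists_nat_ge (K / (a * Real.log 2 / 4))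
  obtain ⟨J₂, hJ₂⟩ := exists_nat_ge ((2 + g) / (g * ((1 - v.b) * (1 - v.p)) / 2))
  obtain ⟨J₃, hJ₃⟩ := exists_nat_ge (1 / (p - P₀))
  refine Bas.mono (max (max J₁ J₂) J₃) ((h1.and h2).and hpos) ?_
  rintro J hJ F A ⟨⟨k1, k2⟩, hA⟩ hP
  have hJ0 : (0 : ℝ) ≤ J := Nat.cast_nonneg J
  have j1 : (J₁ : ℝ) ≤ J := by exact_mod_cast ((le_max_left _ _).trans (le_max_left _ _)).trans hJ
  have j2 : (J₂ : ℝ) ≤ J := by exact_mod_cast ((le_max_right _ _).trans (le_max_left _ _)).trans hJ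
  have j3 : (J₃ : ℝ) ≤ J := by exact_mod_cast (le_max_right _ _).trans hJ
  have l1 := hJ₁.trans j1
  rw [div_le_iff₀ (by positivity)] at l1
  have l2 := hJ₂.trans j2
  rw [div_le_iff₀ (by positivity)] at l2
  have l3 := hJ₃.trans j3
  rw [div_le_iff₀ (by linarith)] at l3
  -- the scales
  obtain ⟨r1, r2, r3, r4, r5⟩ := Pool.MIC6.vz_real v J
  have e1 : ((J - v.B J : ℕ) : ℝ) = J - v.B J := by rw [Nat.cast_sub (v.floor_le J).1]
  have q1 : p * J - 1 ≤ v.P J := by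
    have h5 : v.p * ((J - v.B J : ℕ) : ℝ) - 1 < v.P J := Nat.sub_one_lt_floor _
    rw [e1] at h5
    have h6 : v.p * (J - v.b * J) ≤ v.p * (J - v.B J) :=
      mul_le_mul_of_nonneg_left (by linarith) hp0
    have h7 : p * J = v.p * (J - v.b * J) := by
      rw [hpe]
      ring
    linarith
  have q2 : (v.P J : ℝ) ≤ p * J + 1 := by
    have h7 : p * J = v.p * (1 - v.b) * J := by
      rw [hpe]
      ring
    linarith
  have q3 : ⌊p * J⌋₊ ≤ v.P J + 1 ∧ v.P J ≤ ⌊p * J⌋₊ + 2 := by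
    have a1 : (⌊p * J⌋₊ : ℝ) ≤ p * J := Nat.floor_le (by positivity)
    have a2 : p * J - 1 < (⌊p * J⌋₊ : ℝ) := Nat.sub_one_lt_floor _
    constructor
    · have : (⌊p * J⌋₊ : ℝ) ≤ v.P J + 1 := by linarith
      exact_mod_cast this
    · have : (v.P J : ℝ) ≤ ⌊p * J⌋₊ + 2 := by linarith
      exact_mod_cast this
  have q4 : ⌊(p + g₁) * J⌋₊ ≤ v.P J + ⌊g * v.R J⌋₊ := by
    have a1 : (⌊(p + g₁) * J⌋₊ : ℝ) ≤ (p + g₁) * J := Nat.floor_le (by positivity)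
    have a2 : g * v.R J - 1 < (⌊g * v.R J⌋₊ : ℝ) := Nat.sub_one_lt_floor _
    have a3 : g * ((1 - v.b) * (1 - v.p) * J - 1) ≤ g * v.R J :=
      mul_le_mul_of_nonneg_left r4 hg.le
    have a4 : g₁ * J ≤ g * ((1 - v.b) * (1 - v.p)) / 2 * J :=
      mul_le_mul_of_nonneg_right hg1c hJ0
    have a6 : (p + g₁) * J = p * J + g₁ * J := by ring
    have a7 : g * ((1 - v.b) * (1 - v.p) * J - 1) =
        2 * (g * ((1 - v.b) * (1 - v.p)) / 2 * J) - g := by ring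
    have a8 : (J : ℝ) * (g * ((1 - v.b) * (1 - v.p)) / 2) =
        g * ((1 - v.b) * (1 - v.p)) / 2 * J := by ring
    have a5 : (⌊(p + g₁) * J⌋₊ : ℝ) ≤ v.P J + ⌊g * v.R J⌋₊ := by linarith
    exact_mod_cast a5
  have q5 : ⌊P₀ * J⌋₊ ≤ v.P J := by
    rcases le_total 0 (P₀ * J) with h0 | h0
    · have a1 : (⌊P₀ * J⌋₊ : ℝ) ≤ P₀ * J := Nat.floor_le h0
      have a3 : (J : ℝ) * (p - P₀) = p * J - P₀ * J := by ring
      have a2 : (⌊P₀ * J⌋₊ : ℝ) ≤ v.P J := by linarith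
      exact_mod_cast a2
    · rw [Nat.floor_of_nonpos h0]
      exact Nat.zero_le _
  -- the blocks
  have b1 := dir_tub F v ε hP hA κ ⌊g * v.R J⌋₊
  have b2 := (blk_up (F := F) hA {ε κ} (k := v.P J) q4).1
  have b3 := blk_near (F := F) hA {ε κ} ⌊p * J⌋₊ (v.P J) ⌊(p + g₁) * J⌋₊ ⌊(p + g₁) * J⌋₊
  have b4 : |((⌊p * J⌋₊ : ℕ) : ℝ) - (v.P J : ℕ)| + |((⌊(p + g₁) * J⌋₊ : ℕ) : ℝ) -
      (⌊(p + g₁) * J⌋₊ : ℕ)| ≤ 2 := by
    rw [sub_self, abs_zero, add_zero, abs_le]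
    have a1 : (⌊p * J⌋₊ : ℝ) ≤ v.P J + 1 := by exact_mod_cast q3.1
    have a2 : (v.P J : ℝ) ≤ ⌊p * J⌋₊ + 2 := by exact_mod_cast q3.2
    constructor <;> linarith
  have b5 : (m : ℝ) * Real.log 2 * (|((⌊p * J⌋₊ : ℕ) : ℝ) - (v.P J : ℕ)| +
      |((⌊(p + g₁) * J⌋₊ : ℕ) : ℝ) - (⌊(p + g₁) * J⌋₊ : ℕ)|) ≤ m * Real.log 2 * 2 :=
    mul_le_mul_of_nonneg_left b4 (by positivity)
  have b6 : CH (Pool.Agent.H49.Ent.cond F.p A True) (v.y J F)
      (fun ω => (F.D (v.P J) ω, (F.X J ω, F.W ω))) ≤ a * Real.log 2 / 4 * J := by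
    refine le_trans (CH_mono_cond (isLaw_cond F.isLaw hA).nonneg fun ω ω' _ _ e => ?_) k2
    have e' := Prod.ext_iff.1 e
    exact Prod.ext (Pool.STK.B58.fl_fine q5 e'.1) e'.2
  have k1' : |blk F {ε κ} A ⌊p * J⌋₊ ⌊(p + g₁) * J⌋₊ - Ns {ε κ} p (p + g₁) * Real.log 2 * J| ≤
    a * Real.log 2 / 4 * J := k1
  have b7 := (abs_le.1 k1').1
  have b8 : a * Real.log 2 * J ≤ Ns {ε κ} p (p + g₁) * Real.log 2 * J :=
    mul_le_mul_of_nonneg_right (mul_le_mul_of_nonneg_right ha1 hl2.le) hJ0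
  rw [hK] at l1
  show a * Real.log 2 / 4 * J ≤ CH (Pool.Agent.H49.Ent.cond F.p A True)
    (fun ω => (v.famV ε F hP).D ⌊g * v.R J⌋₊ ω κ)
      (fun ω => (F.X J ω, F.T ω, (v.famV ε F hP).Z ω))
  obtain ⟨c1, hc1⟩ : ∃ c1, c1 = CH (Pool.Agent.H49.Ent.cond F.p A True)
    (fun ω => (v.famV ε F hP).D ⌊g * v.R J⌋₊ ω κ)
      (fun ω => (F.X J ω, F.T ω, (v.famV ε F hP).Z ω)) := ⟨_, rfl⟩
  rw [← hc1]
  have b1' : blk F {ε κ} A (v.P J) (v.P J + ⌊g * v.R J⌋₊) ≤ c1 +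
      CH (Pool.Agent.H49.Ent.cond F.p A True) (v.y J F)
        (fun ω => (F.D (v.P J) ω, (F.X J ω, F.W ω))) + (m * k99 + n * k99) := by
    rw [hc1]
    exact b1
  linarith

/-- **Exactness and activity in the tubes** behind records which have few bits given the exact
point and the first digits of the direction, at one active scale of the class. -/
theorem rex_tube {S : PCl m} (hS : S.Ne) {C₀ : ℝ} (hC₀ : 0 ≤ C₀) (htm : TmC S C₀)
    (hpos : ∀ (τ : ℝ) (J : ℕ) (F : Fam m J) (A : F.Ω → Prop), S.St τ J F A → 0 < Pe F.p A)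
    {Ns : Finset (Fin m) → ℝ → ℝ → ℝ} (hNs : ActN S Ns)
    {ι : Type} [Countable ι] (k : ι → ℕ) (hF : ∀ i, FZX (k i)) (v : ι → Vz m)
    (ε : ∀ i, Fin (k i) → Fin m) (κ : ∀ i, Fin (k i)) {P₀ : ι → ℝ}
    (hrec : ∀ i, ∀ h : ℝ, 0 < h → Bas S (fun J F A =>
      CH (Pool.Agent.H49.Ent.cond F.p A True) ((v i).y J F)
        (fun ω => (F.D ⌊P₀ i * J⌋₊ ω, (F.X J ω, F.W ω))) ≤ h * J))
    {p : ι → ℝ} {al : ι → ℝ} (hal : ∀ i, 0 < al i) (hp00 : ∀ i, 0 < p i)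
    (hPp : ∀ i, P₀ i < (1 - (v i).b) * p i) (hp2 : ∀ i, p i < 1 / 2)
    (hact : ∀ i, Act (Ns {ε i (κ i)}) ((1 - (v i).b) * p i) (al i)) :
    ∃ (S₃ : PCl m) (L : ∀ i, Finset (Fin (k i)) → Fin (k i) → ℝ → ℝ → ℝ), S₃.Ne ∧
      (∀ (τ : ℝ) (J : ℕ) (F : Fam m J) (A : F.Ω → Prop), S₃.St τ J F A → S.St τ J F A) ∧
      ∀ i, RDt S₃ (v i) (ε i) (p i) (κ i) (L i) ∧
        ∀ (h0 : 0 ≤ p i) (h1 : p i < 1),
          Pool.MIC6.ActZ S₃ (atp (v i) (p i) h0 h1) (ε i) (κ i) := by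
  obtain ⟨S₁, N, hne₁, hsub₁, hN⟩ := act_all hS hpos k (fun i => wyZ (v i) (ε i))
  have hpos₁ : ∀ (τ : ℝ) (J : ℕ) (F : Fam m J) (A : F.Ω → Prop), S₁.St τ J F A →
      0 < Pe F.p A := fun τ J F A h => hpos τ J F A (hsub₁ τ J F A h)
  have hposB₁ : Bas S₁ (fun _ F A => 0 < Pe F.p A) :=
    ⟨1, one_pos, 0, fun J _ F A hA => hpos₁ 1 J F A hA⟩
  have hb : ∀ Φ : Stat m, Bas S Φ → Bas S₁ Φ := fun Φ h => Bas.sub hsub₁ h
  have hNs₁ : ActN S₁ Ns := actN_of_bas hb hNs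
  have hN' : ∀ i, ActN (WyV S₁ (v i) (ε i)) (N i) := fun i => hN i
  have hact₁ : ∀ i, Act (N i {κ i}) (p i) (al i) := fun i =>
    act_win hne₁ hposB₁ hNs₁ (v i) (ε i) (hN' i) (κ i) (fun h hh => hb _ (hrec i h hh))
      (hp00 i).le (hPp i).le (hact i)
  obtain ⟨S₃, L, hne₃, hsub₃, hR⟩ := rexv_at hne₁ hC₀
    (fun τ J F A hτ h => htm τ J F A hτ (hsub₁ τ J F A h)) hpos₁ k hF v ε hN' κ hp00 hp2 hal hact₁
  refine ⟨S₃, L, hne₃, fun τ J F A h => hsub₁ τ J F A (hsub₃ τ J F A h), fun i => ⟨hR i, ?_⟩⟩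
  intro h0 h1
  have hb₃ : ∀ Φ : Stat m, Bas S Φ → Bas S₃ Φ := fun Φ h => Bas.sub hsub₃ (hb Φ h)
  exact act_Z (v := atp (v i) (p i) h0 h1)
    ⟨1, one_pos, 0, fun J _ F A hA => hpos₁ 1 J F A (hsub₃ 1 J F A hA)⟩
    (actN_of_bas hb₃ hNs) (ε i) (κ i) (fun h hh => hb₃ _ (hrec i h hh)) (hal i) (hPp i) (hact i)

end Pool.OWN72
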