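import Pool.Agent.H72.OWN.Tbp

/-!
# Tubes from the activity of the class

`leb_pick`: an active scale in an interval where the density has positive integral. `act_pt`: if
the class is active at small scales, it has active scales in all intervals near `0` which are not
too short. `blk_win`, `num_win`: if the record has few bits given the exact point and the first
digits of the direction, the activity numbers of the zooms behind these digits are at least the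
activity numbers of the class.
-/

set_option autoImplicit false

namespace Pool.OWN72

open Finset Real MeasureTheory
open Pool.Agent.H49.Ent Pool.Agent.H32.Dense Pool.STK Pool.KA Pool.KSAT Pool.K2S Pool.PB Pool.S6C
open Pool.GEN Pool.REX Pool.REX83

variable {m n J : ℕ}

/-- **An active scale where the density has positive integral.** -/
theorem leb_pick {N : ℝ → ℝ → ℝ} {b : ℝ → ℝ} {K : ℝ} (k1 : Measurable b) (k2 : ∀ x, 0 ≤ b x)
    (k3 : ∀ x, b x ≤ K) (k5 : ∀ x y, 0 ≤ x → x ≤ y → y ≤ 1 → ∫ t in x..y, b t ≤ N x y)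
    {P Q : ℝ} (hP : 0 ≤ P) (hPQ : P < Q) (hint : 0 < ∫ t in P..Q, b t) :
    ∃ p : ℝ, P < p ∧ p < Q ∧ ∃ al : ℝ, 0 < al ∧ Act N p al := by
  have hleb : ∀ᵐ p : ℝ, ∀ ε : ℝ, 0 < ε → ∃ g₀ : ℝ, 0 < g₀ ∧ ∀ g : ℝ, 0 < g → g ≤ g₀ →
      ∫ t in p..(p + g), |b t - b p| ≤ ε * g := leb k1 k2 k3
  by_contra hcon
  push Not at hcon
  have hz : ∀ᵐ p : ℝ, p ∈ Set.uIoc P Q → b p = 0 := by
    have hne : ∀ᵐ p : ℝ, p ≠ Q := by
      rw [ae_iff]
      simp
    filter_upwards [hleb, hne] with p hp hpQ hmem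
    rw [Set.uIoc_of_le hPQ.le] at hmem
    by_contra hb
    have hb0 : 0 < b p := lt_of_le_of_ne (k2 p) (Ne.symm hb)
    exact hcon p hmem.1 (lt_of_le_of_ne hmem.2 hpQ) (b p) hb0
      (act_leb k1 k2 k3 k5 (hP.trans hmem.1.le) hp)
  rw [intervalIntegral.integral_zero_ae hz] at hint
  exact lt_irrefl _ hint

/-- **Active scales near `0`**, pure form. -/
theorem act_int {N : ℝ → ℝ → ℝ} {K : ℝ} (hN : Pool.SUPA.SA N K) {Na : ℚ → ℚ → ℝ} {al : ℝ}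
    {g₀ : ℝ → ℝ} (hal : 0 < al) (hg₀ : ∀ e, 0 < e → 0 < g₀ e) (hM : ActM Na al g₀)
    (hNa : ∀ x y : ℚ, 0 ≤ x → x ≤ y → y ≤ 1 → Na x y ≤ N x y) {θ : ℝ} (hθ : 0 < θ) :
    ∃ r₀ : ℝ, 0 < r₀ ∧ r₀ ≤ 1 / 2 ∧ ∀ P Q : ℝ, 0 ≤ P → P < Q → Q ≤ r₀ → θ * Q ≤ Q - P →
      ∃ p : ℝ, P < p ∧ p < Q ∧ ∃ al' : ℝ, 0 < al' ∧ Act N p al' := by
  obtain ⟨F, b, kmono, -, -, k1, k2, k3, k4, k5, -, k6⟩ := Pool.SUPA.main hN
  obtain ⟨ε, hε⟩ : ∃ ε : ℝ, ε = min (al / 2) (θ / 4) := ⟨_, rfl⟩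
  have hε0 : 0 < ε := by rw [hε]; exact lt_min (by linarith) (by linarith)
  have hεal : ε ≤ al / 2 := by rw [hε]; exact min_le_left _ _
  have hεθ : ε ≤ θ / 4 := by rw [hε]; exact min_le_right _ _
  have hgε := hg₀ ε hε0
  refine ⟨min (1 / 2) (g₀ ε / 2), lt_min (by norm_num) (by linarith), min_le_left _ _, ?_⟩
  intro P Q hP hPQ hQ hθQ
  have hQ1 : Q ≤ 1 / 2 := hQ.trans (min_le_left _ _)
  have hQ2 : Q ≤ g₀ ε / 2 := hQ.trans (min_le_right _ _)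
  have hQ0 : 0 < Q := hP.trans_lt hPQ
  obtain ⟨g, hg1, hg2⟩ := exists_rat_btwn (show Q < 2 * Q by linarith)
  have hg0 : (0 : ℝ) < g := hQ0.trans hg1
  have hg0' : (0 : ℚ) < g := by exact_mod_cast hg0
  have hg11 : (g : ℝ) ≤ 1 := by linarith
  refine leb_pick k1 k2 k3 (fun x y a1 a2 a3 => by rw [k4]; exact k5 x y a1 a2 a3) hP hPQ ?_
  rw [k4]
  -- the mesh
  obtain ⟨d, hd⟩ : ∃ d, d = Q - P := ⟨_, rfl⟩
  have hd0 : 0 < d := by rw [hd]; linarith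
  obtain ⟨e, he⟩ : ∃ e, e = al * d / 16 := ⟨_, rfl⟩
  have he0 : 0 < e := by rw [he]; positivity
  obtain ⟨del, hdel, h8⟩ := k6 e he0
  obtain ⟨M₁, hM₁⟩ := exists_nat_ge ((g : ℝ) / del)
  obtain ⟨M₂, hM₂⟩ := exists_nat_ge (16 * (g : ℝ) / d)
  obtain ⟨M, hMM⟩ : ∃ M, M = M₁ + M₂ + 1 := ⟨_, rfl⟩
  have hM0 : 0 < M := by omega
  have hMR : (0 : ℝ) < M := by exact_mod_cast hM0
  have m1 : (g : ℝ) / M ≤ del := by
    rw [div_le_iff₀ hMR]
    rw [div_le_iff₀ hdel] at hM₁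
    have h1 : (M₁ : ℝ) ≤ M := by
      rw [hMM]
      push_cast
      have : (0 : ℝ) ≤ M₂ := Nat.cast_nonneg _
      linarith
    nlinarith
  have m2 : 16 * ((g : ℝ) / M) ≤ d := by
    rw [← mul_div_assoc, div_le_iff₀ hMR]
    rw [div_le_iff₀ hd0] at hM₂
    have h1 : (M₂ : ℝ) ≤ M := by
      rw [hMM]
      push_cast
      have : (0 : ℝ) ≤ M₁ := Nat.cast_nonneg _
      linarith
    nlinarith
  obtain ⟨η, hη⟩ : ∃ η : ℝ, η = (g : ℝ) / M := ⟨_, rfl⟩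
  have hη0 : 0 < η := by rw [hη]; positivity
  have hηM : η * M = g := by
    rw [hη]
    field_simp
  rw [← hη] at m1 m2
  obtain ⟨z, hz⟩ : ∃ z : ℕ → ℝ, z = fun l : ℕ => (l : ℝ) * η := ⟨_, rfl⟩
  have hzz : ∀ l, z l = l * η := fun l => by rw [hz]
  have hzm : Monotone z := by
    intro l l' hll
    have h1 : (l : ℝ) ≤ l' := by exact_mod_cast hll
    rw [hzz, hzz]
    exact mul_le_mul_of_nonneg_right h1 hη0.le
  have hz0 : z 0 = 0 := by rw [hzz]; simp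
  have hzM : z M ≤ 1 := by
    rw [hzz, mul_comm, hηM]
    exact hg11
  have h9 := h8 M z hzm hz0.ge hzM (fun i _ => by
    rw [hzz, hzz]
    push_cast
    linarith)
  -- the block
  obtain ⟨i₀, hi₀⟩ : ∃ i₀, i₀ = ⌈P / η⌉₊ := ⟨_, rfl⟩
  obtain ⟨i₁, hi₁⟩ : ∃ i₁, i₁ = ⌊Q / η⌋₊ := ⟨_, rfl⟩
  have a1 : P ≤ z i₀ := by
    rw [hzz, hi₀, ← div_le_iff₀ hη0]
    exact Nat.le_ceil _
  have a2 : z i₀ ≤ P + η := by
    rw [hzz, hi₀]
    have h1 : (⌈P / η⌉₊ : ℝ) < P / η + 1 := Nat.ceil_lt_add_one (by positivity)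
    have h2 : P / η * η = P := by field_simp
    nlinarith
  have a3 : z i₁ ≤ Q := by
    rw [hzz, hi₁, ← le_div_iff₀ hη0]
    exact Nat.floor_le (by positivity)
  have a4 : Q - η ≤ z i₁ := by
    rw [hzz, hi₁]
    have h1 : Q / η < (⌊Q / η⌋₊ : ℝ) + 1 := Nat.lt_floor_add_one _
    have h2 : Q / η * η = Q := by field_simp
    nlinarith
  have h01 : i₀ ≤ i₁ := by
    by_contra hcon
    push Not at hcon
    have h1 := hzm hcon.le
    linarith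
  have hi1M : i₁ ≤ M := by
    have h1 : (i₁ : ℝ) * η ≤ M * η := by
      rw [mul_comm (M : ℝ), hηM, ← hzz]
      linarith
    exact_mod_cast le_of_mul_le_mul_right h1 hη0
  have b1 : F (z i₁) - F (z i₀) ≤ F Q - F P := by
    have h1 := kmono a3
    have h2 := kmono a1
    linarith
  have b2 : ∑ i ∈ Ico i₀ i₁, (F (z (i + 1)) - F (z i)) = F (z i₁) - F (z i₀) := by
    rw [Finset.sum_Ico_eq_sum_range]
    have h1 := Finset.sum_range_sub (fun i => F (z (i₀ + i))) (i₁ - i₀)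
    rw [Nat.add_sub_cancel' h01, Nat.add_zero] at h1
    exact h1
  have b3 : ∑ i ∈ Ico i₀ i₁, N (z i) (z (i + 1)) - e ≤
      ∑ i ∈ Ico i₀ i₁, (F (z (i + 1)) - F (z i)) := by
    have h1 : ∑ i ∈ Ico i₀ i₁, |N (z i) (z (i + 1)) - (F (z (i + 1)) - F (z i))| ≤ e := by
      refine le_trans (Finset.sum_le_sum_of_subset_of_nonneg (fun i hi => ?_)
        (fun i _ _ => abs_nonneg _)) h9
      rw [Finset.mem_Ico] at hi
      rw [Finset.mem_range]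
      omega
    have h2 : ∑ i ∈ Ico i₀ i₁, (N (z i) (z (i + 1)) - (F (z (i + 1)) - F (z i))) ≤
        ∑ i ∈ Ico i₀ i₁, |N (z i) (z (i + 1)) - (F (z (i + 1)) - F (z i))| :=
      Finset.sum_le_sum fun i _ => le_abs_self _
    rw [Finset.sum_sub_distrib] at h2
    linarith
  -- the good places
  have hMr := hM ε hε0 g hg0' (by linarith) M
  obtain ⟨Bd, hBd⟩ : ∃ Bd : Finset ℕ, Bd = (range M).filter fun i : ℕ =>
      Na (i * (g / M)) ((i + 1) * (g / M)) < (al - ε) * ((g : ℝ) / M) := ⟨_, rfl⟩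
  rw [← hBd] at hMr
  have b4 : (al - ε) * η * (((i₁ - i₀ : ℕ) : ℝ) - Bd.card) ≤
      ∑ i ∈ Ico i₀ i₁, N (z i) (z (i + 1)) := by
    have hnn : ∀ i ∈ Ico i₀ i₁, 0 ≤ N (z i) (z (i + 1)) := fun i hi => by
      rw [Finset.mem_Ico] at hi
      exact hN.nn _ _ (hz0 ▸ hzm (Nat.zero_le i)) (hzm (Nat.le_succ i))
        ((hzm (by omega : i + 1 ≤ M)).trans hzM)
    have h1 : ∑ i ∈ (Ico i₀ i₁) \ Bd, (al - ε) * η ≤ ∑ i ∈ Ico i₀ i₁, N (z i) (z (i + 1)) := by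
      refine le_trans (Finset.sum_le_sum fun i hi => ?_)
        (Finset.sum_le_sum_of_subset_of_nonneg Finset.sdiff_subset (fun i hi _ => hnn i hi))
      rw [Finset.mem_sdiff, Finset.mem_Ico] at hi
      have h2 : ¬ Na (i * (g / M)) ((i + 1) * (g / M)) < (al - ε) * ((g : ℝ) / M) := fun h => by
        refine hi.2 ?_
        rw [hBd, Finset.mem_filter, Finset.mem_range]
        exact ⟨by omega, h⟩
      rw [not_lt, ← hη] at h2
      have hgM : (0 : ℚ) ≤ g / M := by positivity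
      have h3 := hNa (i * (g / M)) ((i + 1) * (g / M)) (by positivity)
        (mul_le_mul_of_nonneg_right (by linarith) hgM) (by
          have h4 : (((i : ℚ) + 1) * (g / M) : ℚ) ≤ (M : ℚ) * (g / M) := by
            refine mul_le_mul_of_nonneg_right ?_ hgM
            have : i + 1 ≤ M := by omega
            exact_mod_cast this
          have h5 : (M : ℚ) * (g / M) = g := by
            have : (M : ℚ) ≠ 0 := by exact_mod_cast hM0.ne'
            field_simp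
          have h6 : g ≤ 1 := by exact_mod_cast hg11
          linarith)
      refine h2.trans (h3.trans (le_of_eq ?_))
      have e1 : (((i : ℚ) * (g / M) : ℚ) : ℝ) = z i := by
        rw [hzz, hη]
        push_cast
        ring
      have e2 : ((((i : ℚ) + 1) * (g / M) : ℚ) : ℝ) = z (i + 1) := by
        rw [hzz, hη]
        push_cast
        ring
      rw [e1, e2]
    rw [Finset.sum_const, nsmul_eq_mul] at h1
    refine le_trans ?_ h1
    have h2 : ((i₁ - i₀ : ℕ) : ℝ) - Bd.card ≤ ((Ico i₀ i₁ \ Bd).card : ℝ) := by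
      have h3 := Finset.le_card_sdiff Bd (Ico i₀ i₁)
      rw [Nat.card_Ico] at h3
      have h4 : ((i₁ - i₀ - Bd.card : ℕ) : ℝ) ≤ ((Ico i₀ i₁ \ Bd).card : ℝ) := by exact_mod_cast h3
      have h5 : ((i₁ - i₀ : ℕ) : ℝ) - Bd.card ≤ ((i₁ - i₀ - Bd.card : ℕ) : ℝ) := by
        rcases le_total Bd.card (i₁ - i₀) with h6 | h6
        · rw [Nat.cast_sub h6]
        · have h7 : ((i₁ - i₀ : ℕ) : ℝ) ≤ Bd.card := by exact_mod_cast h6
          have h8 : (0 : ℝ) ≤ ((i₁ - i₀ - Bd.card : ℕ) : ℝ) := Nat.cast_nonneg _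
          linarith
      linarith
    have h3 : 0 ≤ (al - ε) * η := mul_nonneg (by linarith) hη0.le
    rw [mul_comm ((Ico i₀ i₁ \ Bd).card : ℝ)]
    exact mul_le_mul_of_nonneg_left h2 h3
  have c1 : (((i₁ - i₀ : ℕ) : ℝ)) * η = z i₁ - z i₀ := by
    rw [Nat.cast_sub h01, hzz, hzz]
    ring
  have c2 : (Bd.card : ℝ) * η ≤ ε * g := by
    have h1 := mul_le_mul_of_nonneg_right hMr hη0.le
    calc (Bd.card : ℝ) * η ≤ ε * M * η := h1
      _ = ε * (η * M) := by ring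
      _ = ε * g := by rw [hηM]
  have c3 : ε * g ≤ d / 2 := by
    have h1 : ε * g ≤ θ / 4 * (2 * Q) := mul_le_mul hεθ hg2.le hg0.le (by linarith)
    have h2 : θ * Q ≤ d := by rw [hd]; exact hθQ
    linarith
  have c4 : d / 4 ≤ (((i₁ - i₀ : ℕ) : ℝ) - Bd.card) * η := by
    rw [sub_mul, c1]
    rw [hd] at c3 m2 ⊢
    linarith
  have c5 : al / 2 * (d / 4) ≤ (al - ε) * η * (((i₁ - i₀ : ℕ) : ℝ) - Bd.card) := by
    have h1 : al / 2 * (d / 4) ≤ (al - ε) * ((((i₁ - i₀ : ℕ) : ℝ) - Bd.card) * η) :=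
      mul_le_mul (by linarith) c4 (by positivity) (by linarith)
    calc al / 2 * (d / 4) ≤ (al - ε) * ((((i₁ - i₀ : ℕ) : ℝ) - Bd.card) * η) := h1
      _ = _ := by ring
  have c6 : e < al / 2 * (d / 4) := by
    rw [he]
    have : 0 < al * d := by positivity
    linarith
  linarith

/-- Constant numbers. -/
theorem nbr_const (S : PCl n) (a : ℝ) : Nbr S (fun J _ _ => a * J) a := fun h hh =>
  ⟨1, one_pos, 0, fun J _ F A _ => by
    show |a * (J : ℝ) - a * (J : ℝ)| ≤ h * J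
    rw [sub_self, abs_zero]
    positivity⟩

/-- Numbers of activity are numbers of blocks. -/
theorem actB_le {S : PCl n} (hne : S.Ne) (hpos : Bas S (fun _ F A => 0 < Pe F.p A))
    {N : Finset (Fin n) → ℝ → ℝ → ℝ} (hN : ActN S N) {κ : Fin n} {Na : ℚ → ℚ → ℝ}
    (hB : ActB Na S κ) (x y : ℚ) (hx : 0 ≤ x) (hxy : x ≤ y) (hy : y ≤ 1) :
    Na x y ≤ N {κ} x y := by
  have hl2 : 0 < Real.log 2 := Real.log_pos one_lt_two
  have hx' : (0 : ℝ) ≤ x := by exact_mod_cast hx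
  have hxy' : (x : ℝ) ≤ y := by exact_mod_cast hxy
  have hy' : (y : ℝ) ≤ 1 := by exact_mod_cast hy
  refine le_of_forall_pos_le_add fun s hs => ?_
  have h2 := Nbr.le hne (nbr_const S (Na x y * Real.log 2))
    (hN.num {κ} x y hx' (hxy'.trans hy') (hx'.trans hxy') hy') (c := s * Real.log 2) (C := 0)
    (Bas.mono 0 ((hB x y hx hxy hy s hs).and hpos) (by
      rintro J - F A ⟨h3, h5⟩
      have h6 : CH (Pool.Agent.H49.Ent.cond F.p A True) (fun ω => F.D ⌊(y : ℝ) * J⌋₊ ω κ)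
          (fun ω => (F.D ⌊(x : ℝ) * J⌋₊ ω, (F.X J ω, F.W ω))) ≤ blk F {κ} A ⌊(x : ℝ) * J⌋₊
            ⌊(y : ℝ) * J⌋₊ := by
        refine CH_mono_left (isLaw_cond F.isLaw h5).nonneg fun ω ω' _ _ e => ?_
        have e1 := congrFun (Prod.ext_iff.1 e).1 κ
        unfold prjK at e1
        simpa using e1
      have e2 : (Na x y - s) * Real.log 2 * J = Na x y * Real.log 2 * J - s * Real.log 2 * J := by
        ring
      rw [e2] at h3
      linarith))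
  have h3 : Na x y * Real.log 2 ≤ (N {κ} x y + s) * Real.log 2 := by linarith
  exact le_of_mul_le_mul_right h3 hl2

/-- **Active scales near `0`**, for a class. -/
theorem act_pt {S : PCl n} (hne : S.Ne) (hpos : Bas S (fun _ F A => 0 < Pe F.p A))
    {N : Finset (Fin n) → ℝ → ℝ → ℝ} (hN : ActN S N) {κ : Fin n} {Na : ℚ → ℚ → ℝ}
    {al : ℝ} {g₀ : ℝ → ℝ} (hal : 0 < al) (hg₀ : ∀ e, 0 < e → 0 < g₀ e) (hM : ActM Na al g₀)
    (hB : ActB Na S κ) {θ : ℝ} (hθ : 0 < θ) :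
    ∃ r₀ : ℝ, 0 < r₀ ∧ r₀ ≤ 1 / 2 ∧ ∀ P Q : ℝ, 0 ≤ P → P < Q → Q ≤ r₀ → θ * Q ≤ Q - P →
      ∃ p : ℝ, P < p ∧ p < Q ∧ ∃ al' : ℝ, 0 < al' ∧ Act (N {κ}) p al' :=
  act_int (hN.sa {κ}) hal hg₀ hM (fun x y h1 h2 h3 => actB_le hne hpos hN hB x y h1 h2 h3) hθ

/-! ### From the class to the zooms -/

/-- The floors of the positions in a window. -/
theorem win_alg {J B T : ℕ} (hB : B ≤ J) (u d : ℝ) :
    ⌊(2 : ℝ) ^ (J - B) * (Int.fract (2 ^ B * (u + ((T / 2 ^ (J - B) : ℕ) : ℝ) / 2 ^ B * d)) +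
      ((T % 2 ^ (J - B) : ℕ) : ℝ) / 2 ^ (J - B) * d)⌋ =
    ⌊(2 : ℝ) ^ J * (u + (T : ℝ) / 2 ^ J * d)⌋ -
      2 ^ (J - B) * ⌊(2 : ℝ) ^ B * (u + ((T / 2 ^ (J - B) : ℕ) : ℝ) / 2 ^ B * d)⌋ := by
  have e1 : (T : ℝ) = 2 ^ (J - B) * ((T / 2 ^ (J - B) : ℕ) : ℝ) +
      ((T % 2 ^ (J - B) : ℕ) : ℝ) := by
    have h1 := Nat.div_add_mod T (2 ^ (J - B))
    have h2 : ((2 ^ (J - B) * (T / 2 ^ (J - B)) + T % 2 ^ (J - B) : ℕ) : ℝ) = T := by
      exact_mod_cast h1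
    rw [← h2]
    push_cast
    rfl
  obtain ⟨a, ha⟩ : ∃ a : ℝ, a = ((T / 2 ^ (J - B) : ℕ) : ℝ) := ⟨_, rfl⟩
  obtain ⟨r, hr⟩ : ∃ r : ℝ, r = ((T % 2 ^ (J - B) : ℕ) : ℝ) := ⟨_, rfl⟩
  rw [← ha, ← hr] at e1 ⊢
  rw [e1]
  have e2 : (2 : ℝ) ^ J = 2 ^ (J - B) * 2 ^ B := by rw [← pow_add, Nat.sub_add_cancel hB]
  have e3 : (2 : ℝ) ^ (J - B) * (Int.fract (2 ^ B * (u + a / 2 ^ B * d)) + r / 2 ^ (J - B) * d) =
      2 ^ J * (u + (2 ^ (J - B) * a + r) / 2 ^ J * d) -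
        ((2 ^ (J - B) * ⌊(2 : ℝ) ^ B * (u + a / 2 ^ B * d)⌋ : ℤ) : ℝ) := by
    rw [← Int.self_sub_floor, e2]
    push_cast
    field_simp
    ring
  rw [e3, Int.floor_sub_intCast]

/-- The positions in the window. -/
theorem winV_X (F : Fam m J) (v : Vz m) (ε : Fin n → Fin m) (ω : F.Ω) (i : Fin n) :
    (v.winV ε F).X (J - v.B J) ω i =
      F.X J ω (ε i) - 2 ^ (J - v.B J) * fl (v.B J) (F.x1 (v.B J) ω) (ε i) :=
  win_alg (v.floor_le J).1 (F.u ω (ε i)) (F.d ω (ε i))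

/-- The beginning of the window has few bits given the exact point. -/
theorem x1_few (F : Fam m J) {B : ℕ} (hB : B ≤ J) {q : F.Ω → ℝ} (hq : IsLaw q) :
    CH q (fun ω => fl B (F.x1 B ω)) (fun ω => (F.X J ω, F.T ω)) ≤ m * k99 := by
  have h3 := CH_le_vec hq.nonneg hq.sum_one (fun ω => fl B (F.x1 B ω))
    (fun ω => (F.X J ω, F.T ω)) (fun _ => 49) (fun ω ω' _ _ h k => by
      have hX : F.X J ω = F.X J ω' := (Prod.ext_iff.1 h).1
      have hT : F.T ω = F.T ω' := (Prod.ext_iff.1 h).2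
      have hk : ⌊(2 : ℝ) ^ J * F.x ω k⌋ = ⌊(2 : ℝ) ^ J * F.x ω' k⌋ := congrFun hX k
      have hT1 : F.T1 B ω = F.T1 B ω' := by
        unfold Fam.T1
        rw [hT]
      have ht : F.t ω = F.t ω' := by
        unfold Fam.t
        rw [hT]
      have a1 : |(2 : ℝ) ^ J * F.x ω k - 2 ^ J * F.x ω' k| < 1 :=
        Int.abs_sub_lt_one_of_floor_eq_floor hk
      have e2 : (2 : ℝ) ^ J = 2 ^ (J - B) * 2 ^ B := by rw [← pow_add, Nat.sub_add_cancel hB]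
      have p1 : (1 : ℝ) ≤ 2 ^ (J - B) := one_le_pow₀ (by norm_num)
      have a2 : |(2 : ℝ) ^ B * F.x ω k - 2 ^ B * F.x ω' k| < 1 := by
        have e3 : (2 : ℝ) ^ J * F.x ω k - 2 ^ J * F.x ω' k =
            2 ^ (J - B) * (2 ^ B * F.x ω k - 2 ^ B * F.x ω' k) := by
          rw [e2]
          ring
        rw [e3, abs_mul, abs_of_pos (by positivity : (0 : ℝ) < 2 ^ (J - B))] at a1
        refine lt_of_le_of_lt ?_ a1
        have h0 := abs_nonneg ((2 : ℝ) ^ B * F.x ω k - 2 ^ B * F.x ω' k)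
        nlinarith
      obtain ⟨s, hs⟩ : ∃ s : ℝ, s = 2 ^ B * F.t ω - F.T1 B ω := ⟨_, rfl⟩
      have hs1 : |s| ≤ 1 := by
        have h1 := Nat.div_add_mod (F.T ω) (2 ^ (J - B))
        have h2 : (2 : ℝ) ^ (J - B) * (F.T1 B ω : ℝ) + ((F.T ω % 2 ^ (J - B) : ℕ) : ℝ) = F.T ω := by
          exact_mod_cast h1
        have h3 : ((F.T ω % 2 ^ (J - B) : ℕ) : ℝ) ≤ 2 ^ (J - B) := by
          exact_mod_cast (Nat.mod_lt (F.T ω) (by positivity : 0 < 2 ^ (J - B))).le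
        have h4 : (0 : ℝ) ≤ ((F.T ω % 2 ^ (J - B) : ℕ) : ℝ) := Nat.cast_nonneg _
        have h5 : s = ((F.T ω % 2 ^ (J - B) : ℕ) : ℝ) / 2 ^ (J - B) := by
          rw [hs]
          unfold Fam.t
          rw [← h2, e2]
          field_simp
          ring
        rw [h5, abs_of_nonneg (by positivity), div_le_one (by positivity)]
        exact h3
      have e3 : ∀ ω₁, F.t ω₁ = F.t ω → F.T1 B ω₁ = F.T1 B ω →
          (2 : ℝ) ^ B * F.x1 B ω₁ k = 2 ^ B * F.x ω₁ k - s * F.d ω₁ k := by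
        intro ω₁ h1 h2
        have pB : (2 : ℝ) ^ B ≠ 0 := by positivity
        unfold Fam.x1 Fam.x
        rw [h1, h2, hs]
        field_simp
        ring
      have a3 : |(2 : ℝ) ^ B * F.x1 B ω k - 2 ^ B * F.x1 B ω' k| ≤ 3 := by
        rw [e3 ω rfl rfl, e3 ω' ht.symm hT1.symm]
        have e4 : (2 : ℝ) ^ B * F.x ω k - s * F.d ω k - (2 ^ B * F.x ω' k - s * F.d ω' k) =
            (2 ^ B * F.x ω k - 2 ^ B * F.x ω' k) - s * (F.d ω k - F.d ω' k) := by ring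
        rw [e4]
        have a4 : |s * (F.d ω k - F.d ω' k)| ≤ 1 * 2 := by
          rw [abs_mul]
          refine mul_le_mul hs1 ?_ (abs_nonneg _) zero_le_one
          have b1 := abs_le.1 (F.dir ω k)
          have b2 := abs_le.1 (F.dir ω' k)
          rw [abs_le]
          constructor <;> linarith [b1.1, b1.2, b2.1, b2.2]
        have a5 := abs_sub (2 ^ B * F.x ω k - 2 ^ B * F.x ω' k) (s * (F.d ω k - F.d ω' k))
        linarith
      have b1 := abs_le.1 a3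
      have b2 : ((⌊(2 : ℝ) ^ B * F.x1 B ω k⌋ : ℤ) : ℝ) ≤ 2 ^ B * F.x1 B ω k := Int.floor_le _
      have b3 := Int.lt_floor_add_one ((2 : ℝ) ^ B * F.x1 B ω k)
      have b4 : ((⌊(2 : ℝ) ^ B * F.x1 B ω' k⌋ : ℤ) : ℝ) ≤ 2 ^ B * F.x1 B ω' k := Int.floor_le _
      have b5 := Int.lt_floor_add_one ((2 : ℝ) ^ B * F.x1 B ω' k)
      show |((⌊(2 : ℝ) ^ B * F.x1 B ω k⌋ - ⌊(2 : ℝ) ^ B * F.x1 B ω' k⌋ : ℤ) : ℝ)| ≤ _
      push_cast
      rw [abs_le]
      constructor <;> linarith [b1.1, b1.2])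
  rwa [Ex_const hq.sum_one] at h3

/-- **The blocks of the zooms**, from the blocks of the family. -/
theorem blk_win (F : Fam m J) (v : Vz m) (ε : Fin n → Fin m) {A : F.Ω → Prop}
    (hA : 0 < Pe F.p A) (κ : Fin n) (k l : ℕ) :
    blk F {ε κ} A k l ≤ blk (v.winV ε F) {κ} A k l +
      CH (Pool.Agent.H49.Ent.cond F.p A True) (v.y J F) (fun ω => (F.D k ω, (F.X J ω, F.W ω))) +
      m * k99 := by
  have hq := isLaw_cond F.isLaw hA
  have h0 := hq.nonneg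
  have hB : v.B J ≤ J := (v.floor_le J).1
  have h1 := CH_le_add h0 (fun ω => prjK {ε κ} (F.D l ω))
    (fun ω => (v.y J F ω, fl (v.B J) (F.x1 (v.B J) ω))) (fun ω => (F.D k ω, (F.X J ω, F.W ω)))
  have h2 := CH_subadd h0 (v.y J F) (fun ω => fl (v.B J) (F.x1 (v.B J) ω))
    (fun ω => (F.D k ω, (F.X J ω, F.W ω)))
  have h3 : CH (Pool.Agent.H49.Ent.cond F.p A True) (fun ω => fl (v.B J) (F.x1 (v.B J) ω))
      (fun ω => (F.D k ω, (F.X J ω, F.W ω))) ≤ m * k99 := by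
    refine le_trans (CH_mono_cond h0 fun ω ω' _ _ e => ?_) (x1_few F hB hq)
    have e1 := Prod.ext_iff.1 (Prod.ext_iff.1 e).2
    exact Prod.ext e1.1 (Prod.ext_iff.1 e1.2).1
  have h4 : CH (Pool.Agent.H49.Ent.cond F.p A True) (fun ω => prjK {ε κ} (F.D l ω))
      (fun ω => ((v.y J F ω, fl (v.B J) (F.x1 (v.B J) ω)), (F.D k ω, (F.X J ω, F.W ω)))) ≤
      CH (Pool.Agent.H49.Ent.cond F.p A True) (fun ω => prjK {κ} ((v.winV ε F).D l ω))
      (fun ω => ((v.y J F ω, fl (v.B J) (F.x1 (v.B J) ω)), (F.D k ω, (F.X J ω, F.W ω)))) := by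
    refine CH_mono_left h0 fun ω ω' _ _ e => ?_
    have e1 := congrFun (Prod.ext_iff.1 e).1 κ
    have e2 : F.D l ω (ε κ) = F.D l ω' (ε κ) := by
      unfold prjK at e1
      have e3 : (v.winV ε F).D l ω κ = (v.winV ε F).D l ω' κ := by simpa using e1
      exact e3
    funext i
    show prjK {ε κ} (F.D l ω) i = prjK {ε κ} (F.D l ω') i
    unfold prjK
    by_cases hi : i = ε κ
    · rw [hi, e2]
    · have : i ∉ ({ε κ} : Finset (Fin m)) := by simpa using hi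
      rw [if_neg this, if_neg this]
  have h5 : CH (Pool.Agent.H49.Ent.cond F.p A True) (fun ω => prjK {κ} ((v.winV ε F).D l ω))
      (fun ω => ((v.y J F ω, fl (v.B J) (F.x1 (v.B J) ω)), (F.D k ω, (F.X J ω, F.W ω)))) ≤
      blk (v.winV ε F) {κ} A k l := by
    refine CH_mono_cond h0 fun ω ω' _ _ e => ?_
    have e1 := Prod.ext_iff.1 e
    have e2 := Prod.ext_iff.1 e1.1
    have e3 := Prod.ext_iff.1 e1.2
    have e4 := Prod.ext_iff.1 e3.2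
    have hy : v.y J F ω = v.y J F ω' := e2.1
    have hx1 : fl (v.B J) (F.x1 (v.B J) ω) = fl (v.B J) (F.x1 (v.B J) ω') := e2.2
    have hD : F.D k ω = F.D k ω' := e3.1
    have hX : F.X J ω = F.X J ω' := e4.1
    have hW : F.W ω = F.W ω' := e4.2
    have hT : F.T ω = F.T ω' := (Prod.ext_iff.1 hW).1
    have hZ : F.Z ω = F.Z ω' := (Prod.ext_iff.1 hW).2
    refine Prod.ext (funext fun i => congrFun hD (ε i)) (Prod.ext (funext fun i => ?_)
      (Prod.ext ?_ (Prod.ext hy ?_)))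
    · show (v.winV ε F).X (J - v.B J) ω i = (v.winV ε F).X (J - v.B J) ω' i
      rw [winV_X, winV_X, hX, hx1]
    · show F.T ω % 2 ^ (J - v.B J) = F.T ω' % 2 ^ (J - v.B J)
      rw [hT]
    · show F.c (v.B J) ω = F.c (v.B J) ω'
      unfold Fam.c Fam.T1
      rw [hT, hx1, hZ]
  unfold blk at h5 ⊢
  linarith

/-- A statement for the windows holds for the windows of all the families of the class. -/
theorem bas_wyV {S : PCl m} {v : Vz m} {ε : Fin n → Fin m} {Φ : Stat n}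
    (h : Bas (WyV S v ε) Φ) : Bas S (fun J F A => Φ (J - v.B J) (v.winV ε F) A) := by
  obtain ⟨τ, hτ, J₁, h⟩ := h
  have hb1 := v.b1
  have hc : 0 < 1 - v.b := by linarith
  obtain ⟨J₂, hJ₂⟩ := exists_nat_ge ((J₁ : ℝ) / (1 - v.b))
  refine ⟨τ, hτ, J₂, fun J hJ F A hA => h _ ?_ _ _ (WyVSt.mk J F A hA)⟩
  have h1 : (J₂ : ℝ) ≤ J := by exact_mod_cast hJ
  have h2 := hJ₂.trans h1
  rw [div_le_iff₀ hc] at h2
  have h3 : (v.B J : ℝ) ≤ v.b * J := Nat.floor_le (mul_nonneg v.b0 (Nat.cast_nonneg J))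
  have h4 : ((J - v.B J : ℕ) : ℝ) = J - v.B J := by rw [Nat.cast_sub (v.floor_le J).1]
  have h5 : (J₁ : ℝ) ≤ ((J - v.B J : ℕ) : ℝ) := by
    rw [h4]
    linarith
  exact_mod_cast h5

/-- **The activity numbers of the zooms behind the record.** -/
theorem num_win {S : PCl m} (hne : S.Ne) (hpos : Bas S (fun _ F A => 0 < Pe F.p A))
    {Ns : Finset (Fin m) → ℝ → ℝ → ℝ} (hNs : ActN S Ns) (v : Vz m) (ε : Fin n → Fin m)
    {N : Finset (Fin n) → ℝ → ℝ → ℝ} (hN : ActN (WyV S v ε) N) (κ : Fin n) {P₀ : ℝ}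
    (hrec : ∀ h : ℝ, 0 < h → Bas S (fun J F A =>
      CH (Pool.Agent.H49.Ent.cond F.p A True) (v.y J F)
        (fun ω => (F.D ⌊P₀ * J⌋₊ ω, (F.X J ω, F.W ω))) ≤ h * J))
    {x y : ℝ} (hx0 : 0 ≤ x) (hx : P₀ ≤ (1 - v.b) * x) (hxy : x ≤ y) (hy : y ≤ 1) :
    Ns {ε κ} ((1 - v.b) * x) ((1 - v.b) * y) ≤ (1 - v.b) * N {κ} x y := by
  have hl2 : 0 < Real.log 2 := Real.log_pos one_lt_two
  have hb0 := v.b0
  have hb1 := v.b1
  have hc : 0 < 1 - v.b := by linarith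
  have hx1 : x ≤ 1 := hxy.trans hy
  have hy0 : 0 ≤ y := hx0.trans hxy
  have h1 := hNs.num {ε κ} ((1 - v.b) * x) ((1 - v.b) * y) (by positivity)
    (by nlinarith) (by positivity) (by nlinarith)
  -- the numbers of the windows
  have h2 : Nbr S (fun J F A => blk (v.winV ε F) {κ} A ⌊x * ((J - v.B J : ℕ) : ℝ)⌋₊
      ⌊y * ((J - v.B J : ℕ) : ℝ)⌋₊) ((1 - v.b) * (N {κ} x y * Real.log 2)) := by
    intro h hh
    have k1 := bas_wyV (hN.num {κ} x y hx0 hx1 hy0 hy (h / 2) (half_pos hh))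
    obtain ⟨a, ha⟩ : ∃ a : ℝ, a = N {κ} x y * Real.log 2 := ⟨_, rfl⟩
    rw [← ha] at k1 ⊢
    obtain ⟨J₁, hJ₁⟩ := exists_nat_ge (2 * |a| / h)
    refine Bas.mono J₁ k1 fun J hJ F A hA => ?_
    have hJ0 : (0 : ℝ) ≤ J := Nat.cast_nonneg J
    have e1 : ((J - v.B J : ℕ) : ℝ) = J - v.B J := by rw [Nat.cast_sub (v.floor_le J).1]
    have e2 : (v.B J : ℝ) ≤ v.b * J := Nat.floor_le (mul_nonneg hb0 hJ0)
    have e3 : v.b * J - 1 < (v.B J : ℝ) := Nat.sub_one_lt_floor _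
    have e4 : 2 * |a| ≤ h * J := by
      have h3 : (J₁ : ℝ) ≤ J := by exact_mod_cast hJ
      have h4 := hJ₁.trans h3
      rw [div_le_iff₀ hh] at h4
      linarith
    show |blk (v.winV ε F) {κ} A ⌊x * ((J - v.B J : ℕ) : ℝ)⌋₊ ⌊y * ((J - v.B J : ℕ) : ℝ)⌋₊ -
      (1 - v.b) * a * J| ≤ h * J
    have hA' : |blk (v.winV ε F) {κ} A ⌊x * ((J - v.B J : ℕ) : ℝ)⌋₊
      ⌊y * ((J - v.B J : ℕ) : ℝ)⌋₊ - a * ((J - v.B J : ℕ) : ℝ)| ≤
        h / 2 * ((J - v.B J : ℕ) : ℝ) := hA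
    have e5 : |a * ((J - v.B J : ℕ) : ℝ) - (1 - v.b) * a * J| ≤ |a| := by
      rw [e1]
      have e6 : a * (J - v.B J) - (1 - v.b) * a * J = a * (v.b * J - v.B J) := by ring
      rw [e6, abs_mul]
      have : |v.b * J - v.B J| ≤ 1 := by
        rw [abs_le]
        constructor <;> linarith
      calc |a| * |v.b * J - v.B J| ≤ |a| * 1 := mul_le_mul_of_nonneg_left this (abs_nonneg _)
        _ = |a| := mul_one _
    have e7 : ((J - v.B J : ℕ) : ℝ) ≤ J := by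
      rw [e1]
      have : (0 : ℝ) ≤ v.B J := Nat.cast_nonneg _
      linarith
    have e8 := abs_sub_le (blk (v.winV ε F) {κ} A ⌊x * ((J - v.B J : ℕ) : ℝ)⌋₊
      ⌊y * ((J - v.B J : ℕ) : ℝ)⌋₊) (a * ((J - v.B J : ℕ) : ℝ)) ((1 - v.b) * a * J)
    have e9 : h / 2 * ((J - v.B J : ℕ) : ℝ) ≤ h / 2 * J :=
      mul_le_mul_of_nonneg_left e7 (by linarith)
    linarith
  have key : ∀ s : ℝ, 0 < s → Ns {ε κ} ((1 - v.b) * x) ((1 - v.b) * y) * Real.log 2 ≤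
      (1 - v.b) * (N {κ} x y * Real.log 2) + s := by
    intro s hs
    refine Nbr.le hne h1 h2 (c := s) (C := m * k99 + n * Real.log 2 * 4) ?_
    refine Bas.mono 0 ((hrec s hs).and hpos) ?_
    rintro J - F A ⟨h3, hA⟩
    have hJ0 : (0 : ℝ) ≤ J := Nat.cast_nonneg J
    have e1 : ((J - v.B J : ℕ) : ℝ) = J - v.B J := by rw [Nat.cast_sub (v.floor_le J).1]
    have e2 : (v.B J : ℝ) ≤ v.b * J := Nat.floor_le (mul_nonneg hb0 hJ0)
    have e3 : v.b * J - 1 < (v.B J : ℝ) := Nat.sub_one_lt_floor _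
    have near : ∀ z : ℝ, 0 ≤ z → z ≤ 1 → |((⌊(1 - v.b) * z * J⌋₊ : ℕ) : ℝ) -
        (⌊z * ((J - v.B J : ℕ) : ℝ)⌋₊ : ℕ)| ≤ 2 := by
      intro z hz0 hz1
      have a1 : (⌊(1 - v.b) * z * J⌋₊ : ℝ) ≤ (1 - v.b) * z * J := Nat.floor_le (by positivity)
      have a2 : (1 - v.b) * z * J - 1 < (⌊(1 - v.b) * z * J⌋₊ : ℝ) := Nat.sub_one_lt_floor _
      have a3 : (⌊z * ((J - v.B J : ℕ) : ℝ)⌋₊ : ℝ) ≤ z * ((J - v.B J : ℕ) : ℝ) :=
        Nat.floor_le (by positivity)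
      have a4 : z * ((J - v.B J : ℕ) : ℝ) - 1 < (⌊z * ((J - v.B J : ℕ) : ℝ)⌋₊ : ℝ) :=
        Nat.sub_one_lt_floor _
      rw [e1] at a3 a4 ⊢
      have a5 : 0 ≤ z * (v.b * J - v.B J) := mul_nonneg hz0 (by linarith)
      have a6 : z * (v.b * J - v.B J) ≤ 1 := mul_le_one₀ hz1 (by linarith) (by linarith)
      rw [abs_le]
      constructor <;> nlinarith
    have k1 := blk_win F v ε hA κ ⌊(1 - v.b) * x * J⌋₊ ⌊(1 - v.b) * y * J⌋₊
    have k2 := blk_near (F := v.winV ε F) hA {κ} ⌊(1 - v.b) * x * J⌋₊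
      ⌊x * ((J - v.B J : ℕ) : ℝ)⌋₊ ⌊(1 - v.b) * y * J⌋₊ ⌊y * ((J - v.B J : ℕ) : ℝ)⌋₊
    have k3 : CH (Pool.Agent.H49.Ent.cond F.p A True) (v.y J F)
        (fun ω => (F.D ⌊(1 - v.b) * x * J⌋₊ ω, (F.X J ω, F.W ω))) ≤ s * J := by
      refine le_trans (CH_mono_cond (isLaw_cond F.isLaw hA).nonneg fun ω ω' _ _ e => ?_) h3
      have e' := Prod.ext_iff.1 e
      refine Prod.ext (Pool.STK.B58.fl_fine (Nat.floor_le_floor ?_) e'.1) e'.2
      exact mul_le_mul_of_nonneg_right hx hJ0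
    have k4 : (n : ℝ) * Real.log 2 * (|((⌊(1 - v.b) * x * J⌋₊ : ℕ) : ℝ) -
        (⌊x * ((J - v.B J : ℕ) : ℝ)⌋₊ : ℕ)| + |((⌊(1 - v.b) * y * J⌋₊ : ℕ) : ℝ) -
        (⌊y * ((J - v.B J : ℕ) : ℝ)⌋₊ : ℕ)|) ≤ n * Real.log 2 * 4 := by
      refine mul_le_mul_of_nonneg_left ?_ (by positivity)
      linarith [near x hx0 hx1, near y hy0 hy]
    show blk F {ε κ} A ⌊(1 - v.b) * x * J⌋₊ ⌊(1 - v.b) * y * J⌋₊ ≤
      blk (v.winV ε F) {κ} A ⌊x * ((J - v.B J : ℕ) : ℝ)⌋₊ ⌊y * ((J - v.B J : ℕ) : ℝ)⌋₊ +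
        s * J + (m * k99 + n * Real.log 2 * 4)
    linarith
  refine le_of_mul_le_mul_right ?_ hl2
  refine le_of_forall_pos_le_add fun s hs => ?_
  have := key s hs
  linarith

/-- **Active scales of the zooms behind the record.** -/
theorem act_win {S : PCl m} (hne : S.Ne) (hpos : Bas S (fun _ F A => 0 < Pe F.p A))
    {Ns : Finset (Fin m) → ℝ → ℝ → ℝ} (hNs : ActN S Ns) (v : Vz m) (ε : Fin n → Fin m)
    {N : Finset (Fin n) → ℝ → ℝ → ℝ} (hN : ActN (WyV S v ε) N) (κ : Fin n) {P₀ : ℝ}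
    (hrec : ∀ h : ℝ, 0 < h → Bas S (fun J F A =>
      CH (Pool.Agent.H49.Ent.cond F.p A True) (v.y J F)
        (fun ω => (F.D ⌊P₀ * J⌋₊ ω, (F.X J ω, F.W ω))) ≤ h * J))
    {p al : ℝ} (hp0 : 0 ≤ p) (hp : P₀ ≤ (1 - v.b) * p)
    (hact : Act (Ns {ε κ}) ((1 - v.b) * p) al) : Act (N {κ}) p al := by
  have hb1 := v.b1
  have hc : 0 < 1 - v.b := by linarith
  intro e he
  obtain ⟨g₀, hg₀, h⟩ := hact e he
  refine ⟨g₀ / (1 - v.b), by positivity, fun g hg hgg hpg M hM => ?_⟩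
  have h1 : (1 - v.b) * g ≤ g₀ := by
    rw [le_div_iff₀ hc] at hgg
    linarith
  have hp1 : (1 - v.b) * p + (1 - v.b) * g ≤ 1 := by
    rw [← mul_add]
    have hb0 := v.b0
    exact mul_le_one₀ (by linarith) (by linarith) hpg
  obtain ⟨Gd, hGd, hcard, hl⟩ := h ((1 - v.b) * g) (by positivity) h1 hp1 M hM
  refine ⟨Gd, hGd, hcard, fun l hlG => ?_⟩
  have hMR : (0 : ℝ) < M := by exact_mod_cast hM
  have hlM : l + 1 ≤ M := by
    have := Finset.mem_range.1 (hGd hlG)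
    omega
  have hlM' : ((l + 1 : ℕ) : ℝ) ≤ M := by exact_mod_cast hlM
  have h2 := hl l hlG
  have e1 : ∀ k : ℕ, (1 - v.b) * p + (1 - v.b) * g * (k : ℝ) / M =
      (1 - v.b) * (p + g * (k : ℝ) / M) := fun k => by ring
  rw [e1, e1] at h2
  have a1 : 0 ≤ g * (l : ℝ) / M := by positivity
  have a2 : g * (l : ℝ) / M ≤ g * ((l + 1 : ℕ) : ℝ) / M := by
    refine div_le_div_of_nonneg_right (mul_le_mul_of_nonneg_left ?_ hg.le) hMR.le
    push_cast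
    linarith
  have a3 : g * ((l + 1 : ℕ) : ℝ) / M ≤ g := by
    rw [div_le_iff₀ hMR]
    exact mul_le_mul_of_nonneg_left hlM' hg.le
  have h3 := num_win hne hpos hNs v ε hN κ hrec (x := p + g * (l : ℝ) / M)
    (y := p + g * ((l + 1 : ℕ) : ℝ) / M) (by linarith)
    (hp.trans (mul_le_mul_of_nonneg_left (by linarith) hc.le)) (by linarith) (by linarith)
  have h4 := h2.trans h3
  have e2 : (al - e) * ((1 - v.b) * g / M) = (1 - v.b) * ((al - e) * (g / M)) := by ring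
  rw [e2] at h4
  exact le_of_mul_le_mul_left h4 hc

end Pool.OWN72
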