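import Pool.Agent.H72.OWN.Spr

/-!
# Closed gradients finer than the numbers

`lvl_cls`: in a class with the numbers `L`, the exact slopes of `v` over the coordinates `I` are not
functions of the line in the window `W` up to the precision `L I v W r - W + s`, but on events of
exponentially small relative mass.
-/

set_option autoImplicit false

namespace Pool.OWN72

open Finset MvPolynomial
open Pool.Agent.H49.Ent Pool.Agent.H32.Dense Pool.STK Pool.KA Pool.KSAT Pool.K2S Pool.PB Pool.GEN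
open Pool.S6C
open Pool.JVE (DpI lab_grd cI cI_pos)
open Pool.MIC6 (res_of)

variable {m n J : ℕ}

/-- **Closed gradients finer than the numbers live on small events.** -/
theorem lvl_cls {S : PCl m} {L : Finset (Fin m) → Fin m → ℝ → ℝ → ℝ} (hL : LamW S L)
    {I : Finset (Fin m)} {v : Fin m} {W r s : ℝ} (hW0 : 0 ≤ W) (hs : 0 < s)
    (hLW : W ≤ L I v W r) (hLs : L I v W r + 2 * s ≤ 1) :
    ∃ d : ℝ, 0 < d ∧ ∀ e : ℝ, 0 < e → e ≤ d → ∃ δ : ℝ, 0 < δ ∧ Bas S (fun J F A =>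
      ∀ (B : F.Ω → Prop) (M : ℕ) (a : PtT F → Fin m → ℝ) (c : PtT F → ℝ)
        (th : LnT F → Fin m → ℝ), Sub B A → DpI F B I v ⌊e * J⌋₊ M a c →
        (∀ ω, B ω → ∀ k ∈ I, |th (slam F ⌊W * J⌋₊ ω) k - a (ptr F J ω) k| ≤ 1 / 2 ^ M) →
        ⌊(L I v W r - W + s) * J⌋₊ ≤ M →
        Pe F.p B ≤ Real.exp (-(δ * J)) * Pe F.p A) := by
  classical
  obtain ⟨Lw, hLw⟩ : ∃ Lw, Lw = L I v W r := ⟨_, rfl⟩
  rw [← hLw] at hLs hLW
  obtain ⟨d, hd, hd1, habs⟩ := hL.abs I v W r (Lw + s / 2) (by rw [← hLw]; linarith)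
    (by linarith)
  rw [← hLw]
  refine ⟨min (d / 4) (s / 8), lt_min (by linarith) (by linarith), ?_⟩
  intro e he hed
  have hed1 : e ≤ d / 4 := hed.trans (min_le_left _ _)
  have hed2 : e ≤ s / 8 := hed.trans (min_le_right _ _)
  obtain ⟨τ₄, hτ₄, J₄, hb₄⟩ := habs d le_rfl 1
  have hm0 : (0 : ℝ) ≤ m := Nat.cast_nonneg m
  obtain ⟨J₅, hJ₅⟩ := exists_nat_ge ((m + 10 : ℝ) / min e (τ₄ / 2))
  obtain ⟨J₆, hJ₆⟩ := exists_nat_ge (Real.log (5 * cI m) / (τ₄ / 2))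
  refine ⟨τ₄ / 4, by linarith, τ₄ / 4, by linarith, max J₄ (max J₅ J₆), ?_⟩
  intro J hJ F A hA B M a c th hBA hdp hcls hM
  by_contra hcon
  push Not at hcon
  have hB : S.St (τ₄ / 4 + τ₄ / 4) J F B := S.res (by linarith) hA hBA hcon.le
  have e0 : τ₄ / 4 + τ₄ / 4 = τ₄ / 2 := by ring
  rw [e0] at hB
  have j4 : J₄ ≤ J := (le_max_left _ _).trans hJ
  have j5 : (J₅ : ℝ) ≤ J := by
    exact_mod_cast ((le_max_left _ _).trans (le_max_right _ _)).trans hJ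
  have j6 : (J₆ : ℝ) ≤ J := by
    exact_mod_cast ((le_max_right _ _).trans (le_max_right _ _)).trans hJ
  have hJ0 : (0 : ℝ) ≤ J := Nat.cast_nonneg J
  have q1 : (m + 10 : ℝ) ≤ e * J := by
    have h1 := hJ₅.trans j5
    rw [div_le_iff₀ (lt_min he (by linarith))] at h1
    have h2 : min e (τ₄ / 2) * J ≤ e * J := mul_le_mul_of_nonneg_right (min_le_left _ _) hJ0
    linarith
  have hlog : Real.log (5 * cI m) ≤ τ₄ / 2 * J := by
    have h1 := hJ₆.trans j6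
    rw [div_le_iff₀ (by linarith)] at h1
    linarith
  have f1 : (⌊W * (J : ℝ)⌋₊ : ℝ) ≤ W * J := Nat.floor_le (by positivity)
  have f1' : W * (J : ℝ) - 1 < ⌊W * (J : ℝ)⌋₊ := Nat.sub_one_lt_floor _
  have hx0 : 0 ≤ Lw - W + s := by linarith
  have f2 : (⌊(Lw - W + s) * (J : ℝ)⌋₊ : ℝ) ≤ (Lw - W + s) * J := Nat.floor_le (by positivity)
  have f2' : (Lw - W + s) * (J : ℝ) - 1 < ⌊(Lw - W + s) * (J : ℝ)⌋₊ := Nat.sub_one_lt_floor _
  have f3 : (⌊e * (J : ℝ)⌋₊ : ℝ) ≤ e * J := Nat.floor_le (by positivity)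
  have f4 : (⌊(Lw + s / 2) * (J : ℝ)⌋₊ : ℝ) ≤ (Lw + s / 2) * J :=
    Nat.floor_le (mul_nonneg (by linarith) hJ0)
  have f5 : d * (J : ℝ) - 1 < ⌊d * (J : ℝ)⌋₊ := Nat.sub_one_lt_floor _
  have f6 : (W + d) * (J : ℝ) - 1 < ⌊(W + d) * (J : ℝ)⌋₊ := Nat.sub_one_lt_floor _
  have f7 : (⌊(W + d) * (J : ℝ)⌋₊ : ℝ) ≤ (W + d) * J := Nat.floor_le (by positivity)
  have g1 : e * (J : ℝ) ≤ d / 4 * J := mul_le_mul_of_nonneg_right hed1 hJ0
  have g2 : e * (J : ℝ) ≤ s / 8 * J := mul_le_mul_of_nonneg_right hed2 hJ0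
  have g3 : (Lw + 2 * s) * J ≤ 1 * J := mul_le_mul_of_nonneg_right hLs hJ0
  have g4 : (W + d) * J ≤ 1 * J := mul_le_mul_of_nonneg_right hd1 hJ0
  have hcast : ∀ a b : ℕ, (a : ℝ) ≤ b → a ≤ b := fun a b h => by exact_mod_cast h
  obtain ⟨M', hM'⟩ : ∃ M', M' = ⌊(Lw - W + s) * (J : ℝ)⌋₊ := ⟨_, rfl⟩
  have hM'2 : (M' : ℝ) = (⌊(Lw - W + s) * (J : ℝ)⌋₊ : ℝ) := by rw [hM']
  have hMM : M' ≤ M := by rw [hM']; exact hM
  have hdp' : DpI F B I v ⌊e * J⌋₊ M' a c := fun ω hω =>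
    ⟨(hdp ω hω).1, (hdp ω hω).2.1, (hdp ω hω).2.2.trans (inv_mono hMM)⟩
  obtain ⟨B', b1, b2, b3⟩ := lab_grd (P := ⌊(Lw + s / 2) * J⌋₊) (M := M') (W := ⌊W * J⌋₊)
    (th := th) (hcast _ _ (by
      have : 0 ≤ d * (J : ℝ) := by positivity
      linarith only [f1, g4, this])) hdp' (fun ω hω k hk => (hcls ω hω k hk).trans (inv_mono hMM))
    (hcast _ _ (by
      push_cast
      linarith only [f1, f2, f3, g2, g3, q1, hM'2])) (hcast _ _ (by
      push_cast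
      linarith only [f1', f2', f4, g2, q1, hM'2]))
  have hcm : cI m ≤ 5 * cI m := by
    have := cI_pos m
    linarith
  have hB'S := res_of (by linarith : (0 : ℝ) ≤ τ₄ / 2) hB b1
    (by
      have := cI_pos m
      positivity : (0 : ℝ) < 5 * cI m) hlog (b2.trans
        (mul_le_mul_of_nonneg_right hcm (Pe_nonneg F.isLaw _)))
  have e1 : 2 * (τ₄ / 2) = τ₄ := by ring
  rw [e1] at hB'S
  refine hb₄ J j4 F B' hB'S ?_
  exact (b3 ⌊(r + d) * J⌋₊).mono (Finset.Subset.refl _) le_rfl (hcast _ _ (by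
      push_cast
      linarith only [f3, f5, g1, q1, hm0])) le_rfl (hcast _ _ (by
      linarith only [f1, f6, g1, q1, hm0])) (hcast _ _ (by linarith only [f7, g4])) le_rfl le_rfl

end Pool.OWN72
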