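import Pool.Agent.H92.GN.Num

/-!
# Lower bounds of conditional entropies for all data, from subclasses with one datum

`bas_low`: if in every nonempty subclass in which a datum `d J F` is valid for all events there is
a nonempty subclass in which the entropy of `X` given `W` is almost at least `N`, then in the class
this entropy is almost at least `N` for all data and all events on which the datum is valid.
-/

set_option autoImplicit false

namespace Pool.OWN72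

open Finset Real
open Pool.Agent.H49.Ent Pool.Agent.H32.Dense Pool.STK Pool.KA Pool.KSAT Pool.K2S Pool.PB Pool.S6C
  Pool.GEN Pool.RCD

variable {m : ℕ}

/-- The class of the subevents of one event for every family. -/
def rootC (S : PCl m) (κ : ∀ J : ℕ, Fam m J → ℝ) (B : ∀ (J : ℕ) (F : Fam m J), F.Ω → Prop)
    (R : ∀ J : ℕ, Fam m J → Prop) : PCl m where
  St τ J F A := R J F ∧ S.St (κ J F) J F (B J F) ∧ κ J F ≤ τ ∧ Sub A (B J F) ∧
    Real.exp (-((τ - κ J F) * J)) * Pe F.p (B J F) ≤ Pe F.p A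
  mono := by
    rintro τ τ' J F A h ⟨h0, h1, h2, h3, h4⟩
    refine ⟨h0, h1, h2.trans h, h3, le_trans ?_ h4⟩
    refine mul_le_mul_of_nonneg_right (Real.exp_le_exp.2 ?_) (Pe_nonneg F.isLaw _)
    have hJ : (0 : ℝ) ≤ J := Nat.cast_nonneg J
    nlinarith
  res := by
    rintro τ τ' J F A B' h0 ⟨h1, h2, h3, h4, h5⟩ hB hP
    refine ⟨h1, h2, by linarith, fun ω hω => h4 ω (hB ω hω), ?_⟩
    refine le_trans ?_ hP
    have h6 := mul_le_mul_of_nonneg_left h5 (Real.exp_pos (-(τ' * J))).le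
    refine le_trans (le_of_eq ?_) h6
    rw [← mul_assoc, ← Real.exp_add]
    congr 2
    ring

theorem rootC_sub (S : PCl m) (κ : ∀ J : ℕ, Fam m J → ℝ)
    (B : ∀ (J : ℕ) (F : Fam m J), F.Ω → Prop) (R : ∀ J : ℕ, Fam m J → Prop) :
    ∀ (τ : ℝ) (J : ℕ) (F : Fam m J) (A : F.Ω → Prop), (rootC S κ B R).St τ J F A →
      S.St τ J F A := by
  rintro τ J F A ⟨-, h1, h2, h3, h4⟩
  have h5 := S.res (τ' := τ - κ J F) (by linarith) h1 h3 h4
  have e : κ J F + (τ - κ J F) = τ := by ring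
  rwa [e] at h5

/-- **Lower bounds for all data from subclasses with one datum.** -/
theorem bas_low {S : PCl m}
    (hpos : ∀ (τ : ℝ) (J : ℕ) (F : Fam m J) (A : F.Ω → Prop), S.St τ J F A → 0 < Pe F.p A)
    {Δ : ∀ J : ℕ, Fam m J → Type} [hΔ : ∀ (J : ℕ) (F : Fam m J), Nonempty (Δ J F)]
    (V : ∀ (J : ℕ) (F : Fam m J), Δ J F → (F.Ω → Prop) → Prop)
    (hV : ∀ (J : ℕ) (F : Fam m J) (d : Δ J F) (A B : F.Ω → Prop), V J F d A → Sub B A →
      V J F d B)
    {β γ : ∀ (J : ℕ) (F : Fam m J), Δ J F → Type}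
    (X : ∀ (J : ℕ) (F : Fam m J) (d : Δ J F), F.Ω → β J F d)
    (W : ∀ (J : ℕ) (F : Fam m J) (d : Δ J F), F.Ω → γ J F d)
    (N : ∀ (J : ℕ) (F : Fam m J), Δ J F → ℝ) {C δ : ℝ}
    (hN : ∀ (J : ℕ) (F : Fam m J) (d : Δ J F), N J F d ≤ C * J) (hδ : 0 < δ)
    (h : ∀ S' : PCl m, S'.Ne → (∀ (τ : ℝ) (J : ℕ) (F : Fam m J) (A : F.Ω → Prop),
        S'.St τ J F A → S.St τ J F A) → ∀ d : ∀ (J : ℕ) (F : Fam m J), Δ J F,
      (∀ (τ : ℝ) (J : ℕ) (F : Fam m J) (A : F.Ω → Prop), S'.St τ J F A → V J F (d J F) A) →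
      ∃ S'' : PCl m, S''.Ne ∧ (∀ (τ : ℝ) (J : ℕ) (F : Fam m J) (A : F.Ω → Prop),
        S''.St τ J F A → S'.St τ J F A) ∧
        Bas S'' (fun J F A => N J F (d J F) - δ / 4 * J ≤
          CH (Pool.Agent.H49.Ent.cond F.p A True) (X J F (d J F)) (W J F (d J F)))) :
    Bas S (fun J F A => ∀ d : Δ J F, V J F d A →
      N J F d - δ * J ≤ CH (Pool.Agent.H49.Ent.cond F.p A True) (X J F d) (W J F d)) := by
  classical
  by_contra hcon
  obtain ⟨Rt, hRt⟩ : ∃ Rt : ℕ → ∀ (J : ℕ) (F : Fam m J), Δ J F → (F.Ω → Prop) → Prop,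
    Rt = fun (k : ℕ) J F d B => S.St (2 / ((k : ℝ) + 1)) J F B ∧ V J F d B ∧
      ∀ v, (cnt F.p (X J F d) (fun ω => B ω ∧ W J F d ω = v) : ℝ) ≤
        Real.exp (N J F d - δ / 2 * J) := ⟨_, rfl⟩
  have hroot : ∀ k J₁ : ℕ, ∃ J ≥ J₁, ∃ (F : Fam m J) (d : Δ J F) (B : F.Ω → Prop),
      Rt k J F d B := by
    intro k J₁
    obtain ⟨τ, hτ⟩ : ∃ τ : ℝ, τ = 1 / ((k : ℝ) + 1) := ⟨_, rfl⟩
    have hτ0 : 0 < τ := by rw [hτ]; positivity
    obtain ⟨C', hC'⟩ : ∃ C', C' = max 1 (2 * |C| / δ) := ⟨_, rfl⟩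
    have hC1 : 1 ≤ C' := by rw [hC']; exact le_max_left _ _
    have hC2 : 2 * |C| / δ ≤ C' := by rw [hC']; exact le_max_right _ _
    obtain ⟨J₂, hJ₂⟩ := exp_small' hτ0 hC1
    have h1 : ¬ (∀ J ≥ max (max J₁ 1) J₂, ∀ (F : Fam m J) (A : F.Ω → Prop), S.St τ J F A →
        ∀ d : Δ J F, V J F d A →
        N J F d - δ * J ≤ CH (Pool.Agent.H49.Ent.cond F.p A True) (X J F d) (W J F d)) :=
      fun h' => hcon ⟨τ, hτ0, _, h'⟩
    push Not at h1
    obtain ⟨J, hJ, F, A, hA, d, hd, hlt⟩ := h1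
    have j1 : J₁ ≤ J := ((le_max_left _ _).trans (le_max_left _ _)).trans hJ
    have j2 : 1 ≤ J := ((le_max_right _ _).trans (le_max_left _ _)).trans hJ
    have j3 : J₂ ≤ J := (le_max_right _ _).trans hJ
    have hJ0 : (1 : ℝ) ≤ J := by exact_mod_cast j2
    have hApos := hpos τ J F A hA
    have hcl := isLaw_cond F.isLaw hApos
    have hCH0 := CH_nonneg hcl.nonneg (X J F d) (W J F d)
    obtain ⟨L, hL⟩ : ∃ L, L = N J F d - δ / 2 * J := ⟨_, rfl⟩
    have hL0 : 0 < L := by rw [hL]; nlinarith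
    have hM1 : 1 ≤ Real.exp L := Real.one_le_exp hL0.le
    by_contra hno
    have hall : ∀ B : F.Ω → Prop, Sub B A → Real.exp (-(τ * J)) * Pe F.p A ≤ Pe F.p B →
        ∃ v, Real.exp L < cnt F.p (X J F d) (fun ω => B ω ∧ W J F d ω = v) := by
      intro B hB hP
      by_contra hc
      push Not at hc
      refine hno ⟨J, j1, F, d, B, ?_⟩
      rw [hRt]
      refine ⟨?_, hV J F d A B hd hB, fun v => by rw [← hL]; exact hc v⟩
      have h2 := S.res hτ0.le hA hB hP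
      have e : τ + τ = 2 / ((k : ℝ) + 1) := by rw [hτ]; ring
      rwa [e] at h2
    have key := CH_ge_cells F.isLaw (X J F d) (W J F d) hApos hM1 hall
    rw [Real.log_exp] at key
    have e1 := hJ₂ J j3
    have hCN := hN J F d
    have e2 : Real.exp (-(τ * J)) * L ≤ δ / 2 * J := by
      have a1 : L ≤ |C| * J := by
        have := le_abs_self C
        rw [hL]
        nlinarith
      have a2 : 1 / C' * (|C| * J) ≤ δ / 2 * J := by
        have hC0 : 0 < C' := by linarith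
        rw [div_le_iff₀ hδ] at hC2
        rw [one_div, inv_mul_le_iff₀ hC0]
        nlinarith
      calc Real.exp (-(τ * J)) * L ≤ 1 / C' * L := mul_le_mul_of_nonneg_right e1 hL0.le
        _ ≤ 1 / C' * (|C| * J) := mul_le_mul_of_nonneg_left a1 (by positivity)
        _ ≤ δ / 2 * J := a2
    rw [hL] at key e2
    nlinarith
  -- the choice
  obtain ⟨E, hE⟩ : ∃ E : ∀ (J : ℕ) (F : Fam m J), ℕ → Prop, E = fun J F k =>
    k ≤ J ∧ ∃ (d : Δ J F) (B : F.Ω → Prop), Rt k J F d B := ⟨_, rfl⟩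
  obtain ⟨kk, hkk⟩ : ∃ kk : ∀ J : ℕ, Fam m J → ℕ, kk = fun J F => Nat.findGreatest (E J F) J :=
    ⟨_, rfl⟩
  have hmax : ∀ (J : ℕ) (F : Fam m J) (k : ℕ), E J F k → E J F (kk J F) ∧ k ≤ kk J F := by
    intro J F k hk
    have hkJ : k ≤ J := by rw [hE] at hk; exact hk.1
    rw [hkk]
    exact ⟨Nat.findGreatest_spec hkJ hk, Nat.le_findGreatest hkJ hk⟩
  have hch : ∀ (J : ℕ) (F : Fam m J), ∃ (d : Δ J F) (B : F.Ω → Prop),
      E J F (kk J F) → Rt (kk J F) J F d B := by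
    intro J F
    by_cases h1 : E J F (kk J F)
    · have h2 := h1
      rw [hE] at h2
      obtain ⟨-, d, B, h3⟩ := h2
      exact ⟨d, B, fun _ => h3⟩
    · exact ⟨Classical.choice (hΔ J F), fun _ => False, fun h => absurd h h1⟩
  choose d B hdB using hch
  obtain ⟨S', hS'⟩ : ∃ S' : PCl m, S' = rootC S (fun J F => 2 / ((kk J F : ℝ) + 1)) B
    (fun J F => E J F (kk J F)) := ⟨_, rfl⟩
  have hsub : ∀ (τ : ℝ) (J : ℕ) (F : Fam m J) (A : F.Ω → Prop), S'.St τ J F A →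
      S.St τ J F A := by
    rw [hS']
    exact rootC_sub _ _ _ _
  have hne : S'.Ne := by
    intro τ hτ J₁
    obtain ⟨k₀, hk₀⟩ := exists_nat_ge (2 / τ)
    obtain ⟨J, hJ, F, d₀, B₀, h1⟩ := hroot k₀ (max J₁ k₀)
    have h2 : E J F k₀ := by
      rw [hE]
      exact ⟨(le_max_right _ _).trans hJ, d₀, B₀, h1⟩
    obtain ⟨h3, h4⟩ := hmax J F k₀ h2
    have h5 := hdB J F h3
    rw [hRt] at h5
    refine ⟨J, (le_max_left _ _).trans hJ, F, B J F, ?_⟩
    rw [hS']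
    have h6 : 2 / ((kk J F : ℝ) + 1) ≤ τ := by
      rw [div_le_iff₀ (by positivity)]
      rw [div_le_iff₀ hτ] at hk₀
      have h7 : (k₀ : ℝ) ≤ kk J F := by exact_mod_cast h4
      nlinarith
    refine ⟨h3, h5.1, h6, fun _ hω => hω, ?_⟩
    have h8 : Real.exp (-((τ - 2 / ((kk J F : ℝ) + 1)) * J)) ≤ 1 := by
      rw [Real.exp_le_one_iff]
      have : (0 : ℝ) ≤ J := Nat.cast_nonneg J
      have : 0 ≤ (τ - 2 / ((kk J F : ℝ) + 1)) * J := mul_nonneg (by linarith) this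
      linarith
    exact mul_le_of_le_one_left (Pe_nonneg F.isLaw _) h8
  obtain ⟨S'', hne'', hsub'', hb⟩ := h S' hne hsub d (by
    intro τ J F A hA
    rw [hS'] at hA
    obtain ⟨h1, -, -, h2, -⟩ := hA
    have h3 := hdB J F h1
    rw [hRt] at h3
    exact hV J F _ _ _ h3.2.1 h2)
  obtain ⟨τ, hτ, J₁, hb⟩ := hb
  obtain ⟨J, hJ, F, A, hA⟩ := hne'' τ hτ (max J₁ 1)
  have h1 := hb J ((le_max_left _ _).trans hJ) F A hA
  have h2 := hsub'' τ J F A hA
  have hAp := hpos τ J F A (hsub τ J F A h2)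
  rw [hS'] at h2
  obtain ⟨h3, -, -, h4, -⟩ := h2
  have h5 := hdB J F h3
  rw [hRt] at h5
  have h6 := CH_le_cells F.isLaw (X J F (d J F)) (W J F (d J F)) hAp
    (M := Real.exp (N J F (d J F) - δ / 2 * J)) (fun v => by
      refine le_trans ?_ (h5.2.2 v)
      have h7 : Sub (fun ω => A ω ∧ W J F (d J F) ω = v) (fun ω => B J F ω ∧
        W J F (d J F) ω = v) := fun ω hω => ⟨h4 ω hω.1, hω.2⟩
      exact_mod_cast cnt_mono F.p (X J F (d J F)) h7)
  rw [Real.log_exp] at h6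
  have hJ1 : (1 : ℝ) ≤ J := by exact_mod_cast (le_max_right _ _).trans hJ
  nlinarith

end Pool.OWN72
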