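import Pool.Agent.H72.OWN.RepC

/-!
# Own velocities, for codes which are closed in a smaller window

`HasB`: affine closed labels exist, the slopes may be large. `RepX`: the velocity of `v` relative to
an affine label of the precision `N` at the window `w` is affine in the velocity of `y` with
coefficients which are functions of the exact point, up to `P` natural digits; the label may be
closed in the smaller window `W` only, and there is no bound for its slopes. `AfE`: the data of a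
chain. `own_x`, `own_top`: the own velocities of the levels and of the target. `vis_x`: they are
visible.
-/

set_option autoImplicit false

namespace Pool.OWN72

open Finset MvPolynomial
open Pool.Agent.H49.Ent Pool.Agent.H32.Dense Pool.STK Pool.KA Pool.KSAT Pool.K2S Pool.PB Pool.GEN
open Pool.S6C
open Pool.JVE (DpI)
open Pool.MIC6 (res_of)
open Pool.BFL (Pb)
open Pool.STAT (cond_supp)

variable {m n J : ℕ}

/-- **Affine closed labels exist**, with slopes up to `2 ^ (E J)`. -/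
def HasB (S : PCl m) (I : Finset (Fin m)) (v : Fin m) (w N E : ℝ) : Prop :=
  ∀ x : ℝ, 0 < x → Bas S (fun J F A => ∃ (a : PtT F → Fin m → ℝ) (c : PtT F → ℝ),
      ClA F A I v ⌊w * J⌋₊ ⌊(E + x) * J⌋₊ ⌊(N - w - x) * J⌋₊ a c)

theorem HasA.hasB {S : PCl m} {I : Finset (Fin m)} {v : Fin m} {w N : ℝ}
    (h : HasA S I v w N) : HasB S I v w N 0 := by
  intro x hx
  have h1 := h x hx
  simpa only [zero_add] using h1

theorem HasB.subc {S S' : PCl m} (hs : ∀ (τ : ℝ) (J : ℕ) (F : Fam m J) (A : F.Ω → Prop),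
    S'.St τ J F A → S.St τ J F A) {I : Finset (Fin m)} {v : Fin m} {w N E : ℝ}
    (h : HasB S I v w N E) : HasB S' I v w N E := fun x hx => (h x hx).sub hs

/-- **Own velocities are affine in the active velocity** at the exact point. -/
def RepX (S : PCl m) (y : Fin m) (I : Finset (Fin m)) (v : Fin m) (w W N P x : ℝ) : Prop :=
  ∀ h : ℝ, 0 < h → Bas S (fun J F A => ∀ (e : ℕ) (a : PtT F → Fin m → ℝ) (c : PtT F → ℝ),
      ClA F A I v ⌊W * J⌋₊ e ⌊(N - w - x) * J⌋₊ a c →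
      ∃ B : F.Ω → Prop, Sub B A ∧ (1 - h) * Pe F.p A ≤ Pe F.p B ∧ ∃ p q : PtT F → ℝ,
        ∀ ω, B ω → |F.d ω v - c (ptr F J ω) - ∑ k ∈ I, a (ptr F J ω) k * F.d ω k -
          p (ptr F J ω) - q (ptr F J ω) * F.d ω y| ≤ 1 / 2 ^ ⌊(N - w + P) * J⌋₊)

/-- **The representation from a finer window.** -/
theorem rep_x {S : PCl m} {y : Fin m} {I : Finset (Fin m)} {v : Fin m}
    {w W a N N' P P' x E : ℝ} (hwa : W ≤ a) (ha1 : a ≤ 1) (hx : 0 < x) (hNw : 2 * x ≤ N - w)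
    (hPP : P + 2 * x ≤ P') (hP : 0 ≤ P) (hNN : N - w + P < N' - a) (hA : HasB S I v a N' E)
    (hR : RedP S y I a P') : RepX S y I v w W N P x := by
  obtain ⟨x', hx'⟩ : ∃ x', x' = (N' - a - (N - w + P)) / 2 := ⟨_, rfl⟩
  have hx'0 : 0 < x' := by rw [hx']; linarith
  intro h hh
  obtain ⟨J₁, hJ₁⟩ := exists_nat_ge (4 / min x' x)
  refine Bas.mono J₁ ((hA x' hx'0).and (hR h hh)) ?_
  rintro J hJ F A ⟨⟨a₁, c₁, hl₁⟩, hred⟩ e₀ a₀ c₀ hl₀
  have hJr : (J₁ : ℝ) ≤ J := by exact_mod_cast hJ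
  have hJ0 : (0 : ℝ) ≤ J := Nat.cast_nonneg J
  have hmn : 0 < min x' x := lt_min hx'0 hx
  have q0 : 4 ≤ min x' x * J := by
    have h1 := hJ₁.trans hJr
    rw [div_le_iff₀ hmn] at h1
    linarith
  have q1 : 4 ≤ x' * J := q0.trans (mul_le_mul_of_nonneg_right (min_le_left _ _) hJ0)
  have q2 : 4 ≤ x * J := q0.trans (mul_le_mul_of_nonneg_right (min_le_right _ _) hJ0)
  obtain ⟨n₀, hn₀⟩ : ∃ n₀, n₀ = ⌊(N - w - x) * (J : ℝ)⌋₊ := ⟨_, rfl⟩
  obtain ⟨n₁, hn₁⟩ : ∃ n₁, n₁ = ⌊(N' - a - x') * (J : ℝ)⌋₊ := ⟨_, rfl⟩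
  obtain ⟨n₂, hn₂⟩ : ∃ n₂, n₂ = ⌊P' * (J : ℝ)⌋₊ := ⟨_, rfl⟩
  obtain ⟨n₃, hn₃⟩ : ∃ n₃, n₃ = ⌊(N - w + P) * (J : ℝ)⌋₊ := ⟨_, rfl⟩
  have f0 : (N - w - x) * (J : ℝ) - 1 < n₀ := by rw [hn₀]; exact Nat.sub_one_lt_floor _
  have f1 : (N' - a - x') * (J : ℝ) - 1 < n₁ := by rw [hn₁]; exact Nat.sub_one_lt_floor _
  have f2 : P' * (J : ℝ) - 1 < n₂ := by rw [hn₂]; exact Nat.sub_one_lt_floor _
  have f3 : (n₃ : ℝ) ≤ (N - w + P) * J := by
    rw [hn₃]
    exact Nat.floor_le (mul_nonneg (by linarith) hJ0)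
  have f0' : (n₀ : ℝ) ≤ (N - w - x) * J := by
    rw [hn₀]
    exact Nat.floor_le (mul_nonneg (by linarith) hJ0)
  have g1 : (N' - a) * (J : ℝ) = (N - w + P) * J + 2 * (x' * J) := by rw [hx']; ring
  have g2 : (P + 2 * x) * J ≤ P' * J := mul_le_mul_of_nonneg_right (by linarith) hJ0
  have hPJ : 0 ≤ P * J := mul_nonneg hP hJ0
  have p1 : n₃ + 1 ≤ n₁ := by
    have : (n₃ : ℝ) + 1 < n₁ + 1 := by nlinarith
    have h2 : n₃ + 1 < n₁ + 1 := by exact_mod_cast this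
    omega
  have p2 : n₀ ≤ n₁ := by
    have : (n₀ : ℝ) < n₁ + 1 := by nlinarith
    have h2 : n₀ < n₁ + 1 := by exact_mod_cast this
    omega
  have p3 : n₃ + 2 ≤ n₀ + n₂ := by
    have : (n₃ : ℝ) + 2 < n₀ + n₂ + 1 := by nlinarith
    have h2 : n₃ + 2 < n₀ + n₂ + 1 := by exact_mod_cast this
    omega
  rw [← hn₀] at hl₀
  rw [← hn₁] at hl₁
  rw [← hn₃]
  have hwJ : ⌊W * (J : ℝ)⌋₊ ≤ ⌊a * (J : ℝ)⌋₊ :=
    Nat.floor_le_floor (mul_le_mul_of_nonneg_right hwa hJ0)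
  have haJ : ⌊a * (J : ℝ)⌋₊ ≤ J := by
    have h1 : a * (J : ℝ) ≤ J := by nlinarith
    exact Nat.floor_le_of_le h1
  have P0 : (0 : ℝ) < 2 ^ n₀ := by positivity
  have P1 : (0 : ℝ) < 2 ^ n₁ := by positivity
  have P3 : (0 : ℝ) < 2 ^ n₃ := by positivity
  have i1 : (1 : ℝ) / 2 ^ n₁ ≤ 1 / 2 ^ n₀ :=
    one_div_le_one_div_of_le P0 (pow_le_pow_right₀ (by norm_num) p2)
  obtain ⟨B, b1, b2, p, q, b3⟩ := hred (fun p k => a₁ p k - a₀ p k) (fun p => c₁ p - c₀ p)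
    (2 / 2 ^ n₀) (by positivity)
    (fun k hk => Cl1.map2 (fun x y => x - y) (hl₁.ca k hk) ((hl₀.ca k hk).win hwJ haJ))
    (Cl1.map2 (fun x y => x - y) hl₁.cc (hl₀.cc.win hwJ haJ)) (fun ω hω => by
      have h1 := (hl₀.dp ω hω).2.2
      have h2 := (hl₁.dp ω hω).2.2
      have h5 : ∑ k ∈ I, (a₁ (ptr F J ω) k - a₀ (ptr F J ω) k) * F.d ω k =
          ∑ k ∈ I, a₁ (ptr F J ω) k * F.d ω k - ∑ k ∈ I, a₀ (ptr F J ω) k * F.d ω k := by
        rw [← Finset.sum_sub_distrib]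
        exact Finset.sum_congr rfl fun k _ => by ring
      have h4 : c₁ (ptr F J ω) - c₀ (ptr F J ω) +
          ∑ k ∈ I, (a₁ (ptr F J ω) k - a₀ (ptr F J ω) k) * F.d ω k =
          (F.d ω v - c₀ (ptr F J ω) - ∑ k ∈ I, a₀ (ptr F J ω) k * F.d ω k) -
          (F.d ω v - c₁ (ptr F J ω) - ∑ k ∈ I, a₁ (ptr F J ω) k * F.d ω k) := by
        rw [h5]
        ring
      rw [h4]
      refine (abs_sub _ _).trans ?_
      have h6 : (2 : ℝ) / 2 ^ n₀ = 1 / 2 ^ n₀ + 1 / 2 ^ n₀ := by ring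
      linarith)
  refine ⟨B, b1, b2, p, q, fun ω hω => ?_⟩
  have h1 := b3 ω hω
  rw [← hn₂] at h1
  have h2 := (hl₁.dp ω (b1 ω hω)).2.2
  have h5 : ∑ k ∈ I, (a₁ (ptr F J ω) k - a₀ (ptr F J ω) k) * F.d ω k =
      ∑ k ∈ I, a₁ (ptr F J ω) k * F.d ω k - ∑ k ∈ I, a₀ (ptr F J ω) k * F.d ω k := by
    rw [← Finset.sum_sub_distrib]
    exact Finset.sum_congr rfl fun k _ => by ring
  have h3 : F.d ω v - c₀ (ptr F J ω) - ∑ k ∈ I, a₀ (ptr F J ω) k * F.d ω k - p (ptr F J ω) -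
      q (ptr F J ω) * F.d ω y =
      (F.d ω v - c₁ (ptr F J ω) - ∑ k ∈ I, a₁ (ptr F J ω) k * F.d ω k) +
      (c₁ (ptr F J ω) - c₀ (ptr F J ω) +
        ∑ k ∈ I, (a₁ (ptr F J ω) k - a₀ (ptr F J ω) k) * F.d ω k - p (ptr F J ω) -
        q (ptr F J ω) * F.d ω y) := by
    rw [h5]
    ring
  rw [h3]
  refine (abs_add_le _ _).trans ((add_le_add h2 h1).trans ?_)
  have k1 : (1 : ℝ) / 2 ^ n₁ ≤ 1 / 2 ^ n₃ / 2 := by
    rw [div_div, ← pow_succ]
    exact one_div_le_one_div_of_le (by positivity) (pow_le_pow_right₀ (by norm_num) p1)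
  have k2 : (2 : ℝ) / 2 ^ n₀ / 2 ^ n₂ ≤ 1 / 2 ^ n₃ / 2 := by
    rw [div_div, div_div, ← pow_add, div_le_div_iff₀ (by positivity) (by positivity), one_mul]
    have h7 : (2 : ℝ) ^ (n₃ + 2) ≤ 2 ^ (n₀ + n₂) := pow_le_pow_right₀ (by norm_num) p3
    rw [pow_add] at h7
    linarith
  linarith

/-- **Own velocities are visible**, for codes which are closed in a smaller window. -/
theorem vis_x {S : PCl m} {C₀ : ℝ} (htm : TmC S C₀) {y : Fin m}
    (hact : Pool.MIC6.ActF S y) {I : Finset (Fin m)} {v : Fin m} {w W N P P₀ x : ℝ} (hP : 0 ≤ P)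
    (hx : 0 < x) (hPP : P + 8 * x ≤ P₀) (hNw : w < N) (hrep : RepX S y I v w W N P x) :
    ∀ ε : ℝ, 0 < ε → Bas S (fun J F A =>
      ∀ (e : ℕ) (a : PtT F → Fin m → ℝ) (c : PtT F → ℝ),
      ClA F A I v ⌊W * J⌋₊ e ⌊(N - w - x) * J⌋₊ a c → ∀ Q ≤ ⌊(N - w + P) * J⌋₊,
      CH (Pool.Agent.H49.Ent.cond F.p A True) (fun ω => ⌊(2 : ℝ) ^ Q * (F.d ω v -
        c (ptr F J ω) - ∑ k ∈ I, a (ptr F J ω) k * F.d ω k)⌋)
        (fun ω => (F.D ⌊P₀ * J⌋₊ ω, (F.X J ω, F.W ω))) ≤ ε * J) := by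
  intro ε hε
  obtain ⟨γ, hγ⟩ : ∃ γ, γ = x := ⟨_, rfl⟩
  have hγ0 : 0 < γ := by rw [hγ]; exact hx
  obtain ⟨h, hh⟩ : ∃ h, h = min (1 / 4) (ε / (8 * (N - w + P + 5))) := ⟨_, rfl⟩
  have hden : 0 < 8 * (N - w + P + 5) := by linarith
  have hh0 : 0 < h := by
    rw [hh]
    exact lt_min (by norm_num) (by positivity)
  have hh1 : h ≤ 1 / 4 := by rw [hh]; exact min_le_left _ _
  have hh2 : h * (8 * (N - w + P + 5)) ≤ ε := by
    have : h ≤ ε / (8 * (N - w + P + 5)) := by rw [hh]; exact min_le_right _ _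
    rwa [le_div_iff₀ hden] at this
  obtain ⟨τ₁, hτ₁, J₁, hb₁⟩ := hrep h hh0
  obtain ⟨τ₂, hτ₂, J₂, hb₂⟩ := spr_cls htm hact (γ := γ) hγ0 hh0
  obtain ⟨J₃, hfit⟩ := vis_fit (N := N) (w := w) (x := x) (γ := γ) (P := P) (P₀ := P₀) hP hx hγ0
    hNw (by rw [hγ]; linarith)
  obtain ⟨τ, hτ⟩ : ∃ τ, τ = min τ₁ (τ₂ / 2) := ⟨_, rfl⟩
  have hτ0 : 0 < τ := by rw [hτ]; exact lt_min hτ₁ (by linarith)
  have t1 : τ ≤ τ₁ := by rw [hτ]; exact min_le_left _ _
  have t2 : 2 * τ ≤ τ₂ := by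
    have : τ ≤ τ₂ / 2 := by rw [hτ]; exact min_le_right _ _
    linarith
  obtain ⟨J₄, hJ₄⟩ := exists_nat_ge (Real.log 2 / τ)
  obtain ⟨J₅, hJ₅⟩ := exists_nat_ge ((Real.log 2 + Real.log 9 + 4) / (ε / 2))
  refine ⟨τ, hτ0, max (max J₁ J₂) (max J₃ (max J₄ J₅)), ?_⟩
  intro J hJ F A hAS e a c hl Q hQ
  have j1 : J₁ ≤ J := ((le_max_left _ _).trans (le_max_left _ _)).trans hJ
  have j2 : J₂ ≤ J := ((le_max_right _ _).trans (le_max_left _ _)).trans hJ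
  have j3 : J₃ ≤ J := ((le_max_left _ _).trans (le_max_right _ _)).trans hJ
  have j4 : (J₄ : ℝ) ≤ J := by
    exact_mod_cast ((le_max_left _ _).trans ((le_max_right _ _).trans (le_max_right _ _))).trans hJ
  have j5 : (J₅ : ℝ) ≤ J := by
    exact_mod_cast ((le_max_right _ _).trans ((le_max_right _ _).trans (le_max_right _ _))).trans hJ
  have hJ0 : (0 : ℝ) ≤ J := Nat.cast_nonneg J
  have hlog : Real.log 2 ≤ τ * J := by
    have h1 := hJ₄.trans j4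
    rw [div_le_iff₀ hτ0] at h1
    linarith
  have hεJ : Real.log 2 + Real.log 9 + 4 ≤ ε / 2 * J := by
    have h1 := hJ₅.trans j5
    rw [div_le_iff₀ (by linarith)] at h1
    linarith
  have hA0 := (htm τ J F A hτ0 hAS).1
  obtain ⟨p1, p2⟩ := hfit J j3
  obtain ⟨n₀, hn₀⟩ : ∃ n, n = ⌊(N - w - x) * (J : ℝ)⌋₊ := ⟨_, rfl⟩
  obtain ⟨n₃, hn₃⟩ : ∃ n, n = ⌊(N - w + P) * (J : ℝ)⌋₊ := ⟨_, rfl⟩
  obtain ⟨nγ, hnγ⟩ : ∃ n, n = ⌊γ * (J : ℝ)⌋₊ := ⟨_, rfl⟩
  obtain ⟨nD, hnD⟩ : ∃ n, n = ⌊P₀ * (J : ℝ)⌋₊ := ⟨_, rfl⟩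
  rw [← hn₀, ← hn₃] at p1
  rw [← hn₀, ← hn₃, ← hnγ, ← hnD] at p2
  obtain ⟨B₁, b11, b12, p, q, b13⟩ := hb₁ J j1 F A (S.mono t1 hAS) e a c hl
  rw [← hn₀] at hl
  rw [← hn₃] at b13 hQ
  rw [← hnD]
  have P0 : (0 : ℝ) < 2 ^ n₀ := by positivity
  have P3 : (0 : ℝ) < 2 ^ n₃ := by positivity
  have PD : (0 : ℝ) < 2 ^ nD := by positivity
  have PQ : (0 : ℝ) < 2 ^ Q := by positivity
  have hB₁ : S.St (2 * τ) J F B₁ := res_of hτ0.le hAS b11 two_pos hlog (by nlinarith)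
  obtain ⟨V, hV⟩ : ∃ V : F.Ω → ℝ, V = fun ω => F.d ω v - c (ptr F J ω) -
    ∑ k ∈ I, a (ptr F J ω) k * F.d ω k := ⟨_, rfl⟩
  have hVb : ∀ ω, A ω → |V ω| ≤ 1 / 2 ^ n₀ := fun ω hω => by
    rw [hV]
    exact (hl.dp ω hω).2.2
  have hVr : ∀ ω, B₁ ω → |V ω - p (ptr F J ω) - q (ptr F J ω) * F.d ω y| ≤ 1 / 2 ^ n₃ :=
    fun ω hω => by
      rw [hV]
      exact b13 ω hω
  have i1 : (1 : ℝ) / 2 ^ n₃ ≤ 1 / 2 ^ n₀ :=
    one_div_le_one_div_of_le P0 (pow_le_pow_right₀ (by norm_num) p1)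
  obtain ⟨B₂, b21, b22, b23⟩ := hb₂ J j2 F B₁ (S.mono t2 hB₁) p q (2 / 2 ^ n₀) (by positivity)
    (fun ω hω => by
      have h1 := hVb ω (b11 ω hω)
      have h2 := hVr ω hω
      have e1 : p (ptr F J ω) + q (ptr F J ω) * F.d ω y =
          V ω - (V ω - p (ptr F J ω) - q (ptr F J ω) * F.d ω y) := by ring
      rw [e1]
      refine (abs_sub _ _).trans ?_
      have h6 : (2 : ℝ) / 2 ^ n₀ = 1 / 2 ^ n₀ + 1 / 2 ^ n₀ := by ring
      linarith)
  rw [← hnγ] at b23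
  have hB₂A : Sub B₂ A := fun ω hω => b11 ω (b21 ω hω)
  have hB₂P : (1 - 2 * h) * Pe F.p A ≤ Pe F.p B₂ := by
    have h1 : (1 - h) * ((1 - h) * Pe F.p A) ≤ (1 - h) * Pe F.p B₁ :=
      mul_le_mul_of_nonneg_left b12 (by linarith)
    nlinarith [mul_nonneg (mul_self_nonneg h) hA0.le]
  -- the entropy
  obtain ⟨r, hr⟩ : ∃ r, r = Pool.Agent.H49.Ent.cond F.p A True := ⟨_, rfl⟩
  have hrl : IsLaw r := by rw [hr]; exact isLaw_cond F.isLaw hA0
  rw [← hr]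
  have hrA : ∀ ω, 0 < r ω → A ω := fun ω hω => by
    rw [hr] at hω
    exact cond_supp hω
  have hbad : Pb r (fun ω => ¬ B₂ ω) ≤ 2 * h := by
    rw [hr, Pool.LA91.Pb_cond hA0, div_le_iff₀ hA0]
    have h1 := Pe_parts (p := F.p) (B := A) (B' := B₂) hB₂A
    linarith
  have hfl : ∀ ω, ⌊(2 : ℝ) ^ Q * (F.d ω v - c (ptr F J ω) -
      ∑ k ∈ I, a (ptr F J ω) k * F.d ω k)⌋ = ⌊(2 : ℝ) ^ Q * V ω⌋ := fun ω => by
    rw [hV]
  simp only [hfl]
  have key := Pool.P4N.few_ev hrl (d := 1) B₂ (fun ω _ => ⌊(2 : ℝ) ^ Q * V ω⌋)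
    (fun ω => (F.D nD ω, (F.X J ω, F.W ω))) (L := 4) (Q := 2 ^ Q + 1) (by norm_num) (by positivity)
    (fun ω ω' hω hω' e1 e2 e3 i => by
      have hD : F.D nD ω = F.D nD ω' := (Prod.ext_iff.1 e3).1
      have hpt : ptr F J ω = ptr F J ω' := (Prod.ext_iff.1 e3).2
      have hE : |F.d ω y - F.d ω' y| ≤ 1 / 2 ^ nD := near_of_fl (congrFun hD y)
      have h1 := hVr ω (b21 ω e1)
      have h2 := hVr ω' (b21 ω' e2)
      have h3 := b23 ω e1
      rw [← hpt] at h2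
      have h4 : |q (ptr F J ω) * (F.d ω y - F.d ω' y)| ≤ 1 / 2 ^ n₃ := by
        rw [abs_mul]
        refine (mul_le_mul h3 hE (abs_nonneg _) (by positivity)).trans ?_
        rw [mul_div_assoc', mul_div_assoc', mul_one, div_div,
          div_le_div_iff₀ (by positivity) P3, one_mul]
        have h5 : (2 : ℝ) ^ (n₃ + nγ + 1) ≤ 2 ^ (n₀ + nD) :=
          pow_le_pow_right₀ (by norm_num) p2
        rw [pow_add, pow_add, pow_add] at h5
        linarith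
      have h5 : V ω - V ω' = (V ω - p (ptr F J ω) - q (ptr F J ω) * F.d ω y) -
          (V ω' - p (ptr F J ω) - q (ptr F J ω) * F.d ω' y) +
          q (ptr F J ω) * (F.d ω y - F.d ω' y) := by ring
      have h6 : |V ω - V ω'| ≤ 3 / 2 ^ Q := by
        rw [h5]
        refine (abs_add_le _ _).trans ?_
        have h7 := abs_sub (V ω - p (ptr F J ω) - q (ptr F J ω) * F.d ω y)
          (V ω' - p (ptr F J ω) - q (ptr F J ω) * F.d ω' y)
        have h8 : (3 : ℝ) / 2 ^ n₃ = 1 / 2 ^ n₃ + 1 / 2 ^ n₃ + 1 / 2 ^ n₃ := by ring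
        have h9 : (3 : ℝ) / 2 ^ n₃ ≤ 3 / 2 ^ Q := by
          refine div_le_div_of_nonneg_left (by norm_num) PQ ?_
          exact pow_le_pow_right₀ (by norm_num) hQ
        linarith
      have h7 := floor_near h6
      have e4 : (3 : ℝ) + 1 = 4 := by norm_num
      rwa [e4] at h7)
    (fun ω hω i => by
      have h1 := hVb ω (hrA ω hω)
      have h2 : |V ω| ≤ 1 := h1.trans (by
        rw [div_le_one P0]
        exact one_le_pow₀ (by norm_num))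
      have h3 := Int.floor_le ((2 : ℝ) ^ Q * V ω)
      have h4 := Int.lt_floor_add_one ((2 : ℝ) ^ Q * V ω)
      have h5 : |(2 : ℝ) ^ Q * V ω| ≤ 2 ^ Q := by
        rw [abs_mul, abs_of_pos PQ]
        exact mul_le_of_le_one_right PQ.le h2
      obtain ⟨h6, h7⟩ := abs_le.1 h5
      rw [abs_le]
      constructor <;> linarith)
  have hleft : CH r (fun ω => ⌊(2 : ℝ) ^ Q * V ω⌋) (fun ω => (F.D nD ω, (F.X J ω, F.W ω))) ≤
      CH r (fun ω (_ : Fin 1) => ⌊(2 : ℝ) ^ Q * V ω⌋)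
        (fun ω => (F.D nD ω, (F.X J ω, F.W ω))) := by
    refine CH_mono_left hrl.nonneg fun ω ω' _ _ e => ?_
    exact congrFun (Prod.ext_iff.1 e).1 0
  refine hleft.trans (key.trans ?_)
  have l2 : Real.log 2 ≤ 1 := by
    have := Real.log_two_lt_d9
    linarith
  have l20 : 0 < Real.log 2 := Real.log_pos one_lt_two
  have e1 : (2 : ℝ) * 4 + 1 = 9 := by norm_num
  have h1 : Real.log (4 * (2 ^ Q + 1) + 1) ≤ Q + 4 := by
    have h2 : (4 : ℝ) * (2 ^ Q + 1) + 1 ≤ 2 ^ (Q + 4) := by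
      rw [pow_add]
      have : (1 : ℝ) ≤ 2 ^ Q := one_le_pow₀ (by norm_num)
      linarith
    refine (Real.log_le_log (by positivity) h2).trans ?_
    rw [Real.log_pow]
    push_cast
    have h3 : (0 : ℝ) ≤ Q + 4 := by positivity
    nlinarith
  have h2 : (Q : ℝ) ≤ (N - w + P) * J := by
    have h3 : (Q : ℝ) ≤ n₃ := by exact_mod_cast hQ
    refine h3.trans ?_
    rw [hn₃]
    exact Nat.floor_le (mul_nonneg (by linarith) hJ0)
  have h3 : 0 ≤ Pb r (fun ω => ¬ B₂ ω) := by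
    unfold Pb
    exact Finset.sum_nonneg fun ω _ => by
      split_ifs
      · exact hrl.nonneg ω
      · exact le_rfl
  have h4 : Pb r (fun ω => ¬ B₂ ω) * Real.log (4 * (2 ^ Q + 1) + 1) ≤
      2 * h * ((N - w + P) * J + 4) := by
    refine mul_le_mul hbad (h1.trans (by linarith)) (Real.log_nonneg (by
      have : (1 : ℝ) ≤ 2 ^ Q := one_le_pow₀ (by norm_num)
      linarith)) (by linarith)
  have h5 : 2 * h * ((N - w + P) * J) ≤ ε / 4 * J := by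
    have h6 : h * (8 * (N - w + P)) ≤ ε := by nlinarith
    have h7 := mul_le_mul_of_nonneg_right h6 hJ0
    nlinarith
  have h6 : 2 * h * 4 ≤ 2 := by linarith
  rw [e1, Nat.cast_one, one_mul]
  have h7 : 0 ≤ ε / 4 * J := by positivity
  nlinarith

/-- **The data of a chain with affine closed labels** at the windows of a dense set, `n` levels. -/
structure AfE (S : PCl m) (L : Finset (Fin m) → Fin m → ℝ → ℝ → ℝ) (c : ℕ → Fin m) (n : ℕ)
    (Wd : Set ℝ) : Prop where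
  inj : Set.InjOn c (Set.Iio n)
  act : Pool.MIC6.ActF S (c 0)
  win : ∀ w ∈ Wd, 0 ≤ w ∧ w < 1
  low : ∀ w ∈ Wd, ∀ l, 1 ≤ l → l < n → w ≤ L (img c l) (c l) w 0
  up : ∀ w ∈ Wd, ∀ l, 1 ≤ l → l < n → L (img c l) (c l) w 0 < 1
  srt : ∀ w ∈ Wd, ∀ l, 1 ≤ l → l + 1 < n →
    L (img c l) (c l) w 0 ≤ L (img c (l + 1)) (c (l + 1)) w 0
  lab : ∀ w ∈ Wd, ∀ l, 1 ≤ l → l < n → HasA S (img c l) (c l) w (L (img c l) (c l) w 0)

theorem AfE.subc {S S' : PCl m} {L : Finset (Fin m) → Fin m → ℝ → ℝ → ℝ} {c : ℕ → Fin m} {n : ℕ}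
    {Wd : Set ℝ} (h : AfE S L c n Wd)
    (hs : ∀ (τ : ℝ) (J : ℕ) (F : Fam m J) (A : F.Ω → Prop), S'.St τ J F A → S.St τ J F A)
    (hact : Pool.MIC6.ActF S' (c 0)) : AfE S' L c n Wd :=
  ⟨h.inj, hact, h.win, h.low, h.up, h.srt, fun w hw l h1 h2 => (h.lab w hw l h1 h2).subc hs⟩

/-- **The coefficients of closed relations** over a chain. -/
theorem cf_alE {S : PCl m} {C₀ : ℝ} (htm : TmC S C₀)
    {L : Finset (Fin m) → Fin m → ℝ → ℝ → ℝ} (hL : LamW S L) {c : ℕ → Fin m} {n : ℕ}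
    {Wd : Set ℝ} (hD : AfE S L c n Wd) {w : ℝ} (hw : w ∈ Wd) :
    ∀ l, 1 ≤ l → l ≤ n → CfP S (img c l) w (Xc L c w l) := by
  intro l
  induction l with
  | zero => intro h; omega
  | succ l ih =>
    intro _ hl
    rcases Nat.eq_zero_or_pos l with h0 | h0
    · subst h0
      rw [zero_add, img_one]
      unfold Xc
      rw [if_pos le_rfl]
      exact cf_zero htm hD.act w
    · have h1 := ih h0 (by omega)
      have e1 : Xc L c w (l + 1) = L (img c l) (c l) w 0 - w := by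
        unfold Xc
        rw [if_neg (by omega), Nat.add_sub_cancel]
      rw [e1, img_succ]
      refine cf_step htm hL (notMem_img hD.inj (by omega)) (hD.win w hw).1 h1 ?_ ?_
        (hD.up w hw l h0 (by omega)) (hD.lab w hw l h0 (by omega))
      · unfold Xc
        split_ifs with h2
        · exact le_rfl
        · have := hD.low w hw (l - 1) (by omega) (by omega)
          linarith
      · unfold Xc
        split_ifs with h2
        · have := hD.low w hw l h0 (by omega)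
          linarith
        · have := hD.srt w hw (l - 1) (by omega) (by omega)
          rw [Nat.sub_add_cancel h0] at this
          linarith

/-- Relations over the chain, from the own velocities at the same window. -/
theorem red_alE {S : PCl m} {C₀ : ℝ} (htm : TmC S C₀)
    {L : Finset (Fin m) → Fin m → ℝ → ℝ → ℝ} (hL : LamW S L) {c : ℕ → Fin m} {n : ℕ}
    {Wd : Set ℝ} (hD : AfE S L c n Wd) {a : ℝ} (ha : a ∈ Wd) {ε P : ℝ} (hε : 0 < ε) (hP : 0 ≤ P)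
    (N : ℕ) : ∀ l, 1 ≤ l → l ≤ n → l ≤ N → (∀ j, 1 ≤ j → j < l → ∀ P' ≤ P + N * ε, 0 ≤ P' →
      RepP S (c 0) (img c j) (c j) a (L (img c j) (c j) a 0) P') →
      RedP S (c 0) (img c l) a (P + (N - l : ℕ) * ε) := by
  intro l
  induction l with
  | zero => intro h; omega
  | succ l ih =>
    intro _ hl hlN hrep
    rcases Nat.eq_zero_or_pos l with h0 | h0
    · subst h0
      rw [zero_add, img_one]
      exact red_zero S (c 0) a _
    · have h1 := ih h0 (by omega) (by omega) fun j j1 j2 P' hP' => hrep j j1 (by omega) P' hP'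
      have e2 : ((N - l : ℕ) : ℝ) = ((N - (l + 1) : ℕ) : ℝ) + 1 := by
        have : N - l = N - (l + 1) + 1 := by omega
        rw [this]
        push_cast
        ring
      have h3 : (0 : ℝ) ≤ ((N - (l + 1) : ℕ) : ℝ) := Nat.cast_nonneg _
      have h4 : ((N - l : ℕ) : ℝ) ≤ N := by exact_mod_cast Nat.sub_le _ _
      have hcf := cf_alE htm hL hD ha (l + 1) (by omega) (by omega)
      have e1 : Xc L c a (l + 1) = L (img c l) (c l) a 0 - a := by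
        unfold Xc
        rw [if_neg (by omega), Nat.add_sub_cancel]
      rw [e1, img_succ] at hcf
      rw [img_succ]
      refine red_step htm (notMem_img hD.inj (by omega)) (P' := P + ((N - l : ℕ) : ℝ) * ε)
        (add_nonneg hP (mul_nonneg h3 hε.le)) (by rw [e2]; nlinarith)
        (hD.low a ha l h0 (by omega)) hcf (hD.lab a ha l h0 (by omega))
        (hrep l h0 (by omega) _ (by nlinarith) (by
          rw [e2]
          nlinarith)) h1

/-- **The numbers of a chain near a window**: dense windows, the numbers are larger than the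
window, the numbers grow by `Pm` digits more than the window on the length `Δ`. -/
structure GrE (L : Finset (Fin m) → Fin m → ℝ → ℝ → ℝ) (c : ℕ → Fin m) (n : ℕ) (Wd : Set ℝ)
    (g R Pm Δ : ℝ) : Prop where
  den : ∀ x y : ℝ, g ≤ x → x < y → y ≤ g + R → ∃ w ∈ Wd, x < w ∧ w < y
  hlw : ∀ w : ℝ, g ≤ w → w ≤ g + R → ∀ l, 1 ≤ l → l < n → w < L (img c l) (c l) w 0
  gr : ∀ l, 1 ≤ l → l < n → ∀ w : ℝ, g ≤ w → w + Δ ≤ g + R → ∃ a₀ < w + Δ, w ≤ a₀ ∧
      ∀ a, a₀ < a → a < w + Δ → L (img c l) (c l) w 0 - w + Pm < L (img c l) (c l) a 0 - a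

/-- The relations over the chain at one window. -/
theorem red_at {S : PCl m} {C₀ : ℝ} (htm : TmC S C₀)
    {L : Finset (Fin m) → Fin m → ℝ → ℝ → ℝ} (hL : LamW S L) {c : ℕ → Fin m} {n : ℕ}
    {Wd : Set ℝ} (hD : AfE S L c n Wd) {κ a P : ℝ} (hκ : 0 < κ) (ha : a ∈ Wd) (hP : 0 ≤ P)
    {l : ℕ} (h1l : 1 ≤ l) (hln : l ≤ n)
    (hrep : ∀ j, 1 ≤ j → j < l → ∀ P', 0 ≤ P' → P' ≤ P + κ →
      RepP S (c 0) (img c j) (c j) a (L (img c j) (c j) a 0) P') :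
    RedP S (c 0) (img c l) a P := by
  obtain ⟨ε, hε⟩ : ∃ ε, ε = κ / (l + 1) := ⟨_, rfl⟩
  have hε0 : 0 < ε := by rw [hε]; positivity
  have hε1 : (l : ℝ) * ε ≤ κ := by
    rw [hε, mul_div_assoc', div_le_iff₀ (by positivity)]
    nlinarith
  have hred := red_alE htm hL hD ha hε0 hP l l h1l hln le_rfl
    (fun j j1 j2 P' hP' hP0 => hrep j j1 j2 P' hP0 (by linarith))
  rwa [Nat.sub_self, Nat.cast_zero, zero_mul, add_zero] at hred

/-- **Own velocities of a chain.** -/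
theorem rep_alE {S : PCl m} {C₀ : ℝ} (htm : TmC S C₀)
    {L : Finset (Fin m) → Fin m → ℝ → ℝ → ℝ} (hL : LamW S L) {c : ℕ → Fin m} {n : ℕ}
    {Wd : Set ℝ} (hD : AfE S L c n Wd) {g R Pm Δ κ : ℝ} (hκ : 0 < κ)
    (hG : GrE L c n Wd g R Pm Δ) :
    ∀ l, 1 ≤ l → l < n → ∀ w, g ≤ w → w + l * Δ ≤ g + R → 0 < Δ → ∀ P, 0 ≤ P →
      P + l * κ ≤ Pm → RepP S (c 0) (img c l) (c l) w (L (img c l) (c l) w 0) P := by
  intro l
  induction l using Nat.strong_induction_on with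
  | _ l ih =>
    intro hl1 hln w hw hwR hΔ P hP hPm
    have hl0 : (0 : ℝ) < l := by exact_mod_cast hl1
    have hl1' : (1 : ℝ) ≤ l := by exact_mod_cast hl1
    have hwΔ : w + Δ ≤ g + R := by nlinarith
    obtain ⟨a₀, h1, h2, h3⟩ := hG.gr l hl1 hln w hw hwΔ
    obtain ⟨a, ha, h4, h5⟩ := hG.den a₀ (w + Δ) (hw.trans h2) h1 hwΔ
    have h6 := h3 a h4 h5
    have hwa : w ≤ a := h2.trans h4.le
    have hlκ : κ ≤ l * κ := by nlinarith
    have hred : RedP S (c 0) (img c l) a (P + κ / 2) := by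
      refine red_at htm hL hD (κ := κ / 2) (by positivity) ha (by positivity) hl1 hln.le ?_
      intro j j1 j2 P' hP' hPP'
      have hj : (j : ℝ) + 1 ≤ l := by exact_mod_cast j2
      refine ih j j2 j1 (by omega) a (hw.trans hwa) ?_ hΔ P' hP' ?_
      · have : ((j : ℝ) + 1) * Δ ≤ l * Δ := mul_le_mul_of_nonneg_right hj hΔ.le
        linarith
      · have : ((j : ℝ) + 1) * κ ≤ l * κ := mul_le_mul_of_nonneg_right hj hκ.le
        linarith
    exact rep_of hwa (hD.win a ha).2.le (hG.hlw w hw (by linarith) l hl1 hln)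
      (by linarith) hP (by linarith) (hD.lab a ha l hl1 hln) hred

/-- **Closed relations of a chain.** -/
theorem own_red {S : PCl m} {C₀ : ℝ} (htm : TmC S C₀)
    {L : Finset (Fin m) → Fin m → ℝ → ℝ → ℝ} (hL : LamW S L) {c : ℕ → Fin m} {n : ℕ}
    {Wd : Set ℝ} (hD : AfE S L c n Wd) {g R Pm Δ κ : ℝ} (hκ : 0 < κ)
    (hG : GrE L c n Wd g R Pm Δ) (hΔ : 0 < Δ) {l : ℕ} (h1l : 1 ≤ l) (hln : l ≤ n) {a : ℝ}
    (ha : a ∈ Wd) (hga : g ≤ a) (haR : a + l * Δ ≤ g + R + Δ) {P : ℝ} (hP : 0 ≤ P)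
    (hPm : P + l * κ ≤ Pm) : RedP S (c 0) (img c l) a P := by
  refine red_at htm hL hD hκ ha hP h1l hln ?_
  intro j j1 j2 P' hP' hPP'
  have hj : (j : ℝ) + 1 ≤ l := by exact_mod_cast j2
  refine rep_alE htm hL hD hκ hG j j1 (by omega) a hga ?_ hΔ P' hP' ?_
  · have : ((j : ℝ) + 1) * Δ ≤ l * Δ := mul_le_mul_of_nonneg_right hj hΔ.le
    linarith
  · have : ((j : ℝ) + 1) * κ ≤ l * κ := mul_le_mul_of_nonneg_right hj hκ.le
    linarith

/-- **Own velocities over a chain**, for codes which are closed in the window `W`: `v` is any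
coordinate with affine closed labels over the first `l` coordinates, of the precision `NT a` at the
window `a`. -/
theorem own_x {S : PCl m} {C₀ : ℝ} (htm : TmC S C₀)
    {L : Finset (Fin m) → Fin m → ℝ → ℝ → ℝ} (hL : LamW S L) {c : ℕ → Fin m} {n : ℕ}
    {Wd : Set ℝ} (hD : AfE S L c n Wd) {g R Pm Δ κ : ℝ} (hκ : 0 < κ)
    (hG : GrE L c n Wd g R Pm Δ) (hΔ : 0 < Δ) {l : ℕ} (h1l : 1 ≤ l) (hln : l ≤ n)
    {v : Fin m} {NT : ℝ → ℝ} {E : ℝ}
    (hT : ∀ a ∈ Wd, g ≤ a → a ≤ g + R → HasB S (img c l) v a (NT a) E)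
    {w W N P x : ℝ} (hw : g ≤ w) (hwR : w + l * Δ ≤ g + R) (hW : W < w + Δ) (hP : 0 ≤ P)
    (hx : 0 < x) (hNw : 2 * x ≤ N - w) (hPm : P + 2 * x + l * κ ≤ Pm)
    (hN : ∃ a₀ < w + Δ, w ≤ a₀ ∧ ∀ a, a₀ < a → a < w + Δ → N - w + P < NT a - a) :
    RepX S (c 0) (img c l) v w W N P x := by
  obtain ⟨a₀, h1, h2, h3⟩ := hN
  have hl1' : (1 : ℝ) ≤ l := by exact_mod_cast h1l
  have hwΔ : w + Δ ≤ g + R := by nlinarith
  obtain ⟨a, ha, h4, h5⟩ := hG.den (max a₀ W) (w + Δ) (hw.trans (h2.trans (le_max_left _ _)))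
    (max_lt h1 hW) hwΔ
  have h4' : a₀ < a := (le_max_left _ _).trans_lt h4
  have h6 := h3 a h4' h5
  have hWa : W ≤ a := ((le_max_right _ _).trans_lt h4).le
  have hwa : w ≤ a := h2.trans h4'.le
  exact rep_x hWa (hD.win a ha).2.le hx hNw le_rfl hP h6 (hT a ha (hw.trans hwa) (by linarith))
    (own_red htm hL hD hκ hG hΔ h1l hln ha (hw.trans hwa) (by linarith) (by positivity) hPm)

end Pool.OWN72
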