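import Pool.Agent.H72.OWN.Rxd

/-!
# Exactness behind visible records: the items
-/

set_option autoImplicit false

namespace Pool.OWN72

open Finset
open Pool.Agent.H49.Ent Pool.Agent.H32.Dense Pool.STK Pool.KA Pool.KSAT Pool.K2S Pool.PB Pool.GEN
open Pool.S6C Pool.REX Pool.REX83
open Pool.MIC6 (ActZ ActF ng_num)

variable {m n J : ℕ}

theorem ActF.subc {S S' : PCl m} (hs : ∀ (τ : ℝ) (J : ℕ) (F : Fam m J) (A : F.Ω → Prop),
    S'.St τ J F A → S.St τ J F A) {y : Fin m} (h : ActF S y) : ActF S' y := fun g hg => by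
  obtain ⟨c, hc, h1⟩ := h g hg
  exact ⟨c, hc, h1.sub hs⟩

/-- The data of a chain pass to subclasses. -/
theorem NrD.subc {S S' : PCl m} (hs : ∀ (τ : ℝ) (J : ℕ) (F : Fam m J) (A : F.Ω → Prop),
    S'.St τ J F A → S.St τ J F A) {L : Finset (Fin m) → Fin m → ℝ → ℝ → ℝ} {c : ℕ → Fin m}
    {n₀ : ℕ} {Wd : Set ℝ} {g R d be co : ℝ} {Dg sl : ℕ → ℝ}
    (h : NrD S L c n₀ Wd g R d be co Dg sl) : NrD S' L c n₀ Wd g R d be co Dg sl where
  aff := h.aff.subc hs (ActF.subc hs h.aff.act)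
  af2 a w hw := (h.af2 a w hw).subc hs
  con := h.con
  co2 := h.co2
  den := h.den
  g0 := h.g0
  g1 := h.g1
  lin := h.lin
  slo := h.slo
  sld := h.sld
  dlo := h.dlo
  dhi := h.dhi
  gap := h.gap
  tie := h.tie

/-- The bound of the slopes may be taken smaller. -/
theorem NrD.be_le {S : PCl m} {L : Finset (Fin m) → Fin m → ℝ → ℝ → ℝ} {c : ℕ → Fin m}
    {n₀ : ℕ} {Wd : Set ℝ} {g R d be be' co : ℝ} {Dg sl : ℕ → ℝ} (hb : 0 < be') (hbb : be' ≤ be)
    (h : NrD S L c n₀ Wd g R d be co Dg sl) : NrD S L c n₀ Wd g R d be' co Dg sl where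
  aff := h.aff
  af2 := h.af2
  con := h.con
  co2 := h.co2
  den := h.den
  g0 := h.g0
  g1 := h.g1
  lin := h.lin
  slo l a1 a2 := ⟨by linarith [(h.slo l a1 a2).1],
    (h.slo l a1 a2).2.trans (one_div_le_one_div_of_le hb hbb)⟩
  sld a := hbb.trans (h.sld a)
  dlo := h.dlo
  dhi := h.dhi
  gap := h.gap
  tie := h.tie

/-- The first bound. -/
theorem fst_le {b p w y P₀ η : ℝ} (_hb0 : 0 ≤ b) (_hb1 : b < 1) (hp0 : 0 ≤ p) (hp1 : p < 1)
    (hw : 0 ≤ w) (hps : p * (1 - b) ≤ P₀ + η) (hy : b ≤ y) :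
    b + (1 - b) * (p + (1 - p) * w) ≤ y + P₀ + η + w := by
  have h1 : (1 - b) * (1 - p) ≤ 1 := mul_le_one₀ (by linarith) (by linarith) (by linarith)
  have h2 := mul_le_mul_of_nonneg_right h1 hw
  have e1 : b + (1 - b) * (p + (1 - p) * w) = b + p * (1 - b) + (1 - b) * (1 - p) * w := by ring
  rw [e1]
  linarith

section item

variable {S : PCl m} {C₀ : ℝ} {L : Finset (Fin m) → Fin m → ℝ → ℝ → ℝ} {c : ℕ → Fin m}
  {Wd : Set ℝ} {g R d be co : ℝ} {Dg sl : ℕ → ℝ} {v : Vz m} {p P₀ η : ℝ}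

/-- **One coordinate.** -/
theorem item_one (hne : S.Ne) (htm : TmC S C₀) (hL : LamW S L)
    {L' : Finset (Fin 1) → Fin 1 → ℝ → ℝ → ℝ} (hrd : RDt S v (fun l : Fin 1 => c l) p 0 L')
    (hη : 0 < η) (hps : p * (1 - v.b) ≤ P₀ + η / 32) : ∀ ρ : ℝ, 0 < ρ → Bas S (fun J F A =>
      ((∑ l : Fin 1, (1 - L (img c l) (c l) v.b 0 - P₀)) - η - ρ) * Real.log 2 * J ≤
        CH (Pool.Agent.H49.Ent.cond F.p A True) (fun ω (l : Fin 1) => F.X J ω (c l))
          (fun ω => (v.y J F ω, F.W ω))) := by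
  obtain ⟨D, hDc, hex⟩ := hrd.exa
  obtain ⟨w, hw0, hw1, hwD⟩ := Pool.OWN43.small_win hDc (x := min (1 / 2) (η / 4))
    (lt_min (by norm_num) (by linarith))
  have hwh : w < 1 / 2 := hw1.trans_le (min_le_left _ _)
  have hwη : w < η / 4 := hw1.trans_le (min_le_right _ _)
  obtain ⟨σ, hWv, hσ0, hent⟩ := hex w hw0 (by linarith) hwD
  have v1 : vs L' (fun j => σ j) w 1 = w := by
    rw [vs_one]
    rw [hσ0 0 rfl]
    exact it_zero hne htm hrd hw0.le (by linarith)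
  have hlow := hL.low (img c 0) (c 0) v.b 0 v.b1.le
  have h1 := fst_le v.b0 v.b1 hrd.p0.le (hrd.p1.trans (by norm_num)) hw0.le hps hlow
  have key := exa_fin (S := S) (v := v) (ε := fun l : Fin 1 => c l) (p := p)
    (x := fun j => vs L' (fun j => σ j) w (j + 1))
    (T := L (img c 0) (c 0) v.b 0 + P₀ + η) (by
      rw [Fin.sum_univ_one]
      simp only [Fin.val_zero, zero_add]
      rw [v1]
      linarith) hent
  intro ρ hρ
  refine Bas.mono 0 (key ρ hρ) ?_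
  intro J _ F A h2
  refine le_trans (le_of_eq ?_) h2
  rw [Fin.sum_univ_one]
  simp only [Fin.val_zero]
  push_cast
  ring

/-- **Two coordinates.** -/
theorem item_two (hne : S.Ne) (hC₀ : 0 ≤ C₀) (htm : TmC S C₀) (hL : LamW S L)
    (hD : NrR S L c 2 Wd g R d be co Dg sl) (hbe : 0 < be) (hbe1 : be ≤ 1) (hco : 0 < co)
    (hd0 : 0 ≤ d) {L' : Finset (Fin 2) → Fin 2 → ℝ → ℝ → ℝ}
    (hrd : RDt S v (fun l : Fin 2 => c l) p 0 L')
    (hact : ∀ (h0 : 0 ≤ p) (h1 : p < 1), ActZ S (atp v p h0 h1) (fun l : Fin 2 => c l) 0)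
    (hP₀ : 0 ≤ P₀) (hη : 0 < η) (hη1 : η ≤ 1) (hps : p * (1 - v.b) ≤ P₀ + η / 32)
    (hdη : 64 * d ≤ η) (hgb : g ≤ v.b)
    (hroom : v.b + 4 * ((P₀ + η) / be) ≤ g + R) : ∀ ρ : ℝ, 0 < ρ → Bas S (fun J F A =>
      ((∑ l : Fin 2, (1 - L (img c l) (c l) v.b 0 - P₀)) - η - ρ) * Real.log 2 * J ≤
        CH (Pool.Agent.H49.Ent.cond F.p A True) (fun ω (l : Fin 2) => F.X J ω (c l))
          (fun ω => (v.y J F ω, F.W ω))) := by
  have hb1 := v.b1
  obtain ⟨D, hDc, hex⟩ := hrd.exa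
  obtain ⟨w₂, hw₂⟩ : ∃ w₂, w₂ = be * η / 64 := ⟨_, rfl⟩
  have hw₂0 : 0 < w₂ := by rw [hw₂]; positivity
  have hbη : be * η ≤ η := by nlinarith
  have hw₂1 : w₂ ≤ η / 64 := by rw [hw₂]; linarith
  obtain ⟨w, hw0, hw1, hwD⟩ := Pool.OWN43.small_win hDc hw₂0
  obtain ⟨σ, hWv, hσ0, hent⟩ := hex w hw0 (by linarith) hwD
  have hp1 : p < 1 := hrd.p1.trans (by norm_num)
  have s0 : σ 0 = 0 := hσ0 0 rfl
  have s1 : σ 1 = 1 := by
    have h1 : σ 1 ≠ 0 := fun h => by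
      have := σ.injective (h.trans s0.symm)
      exact absurd this (by decide)
    have h2 : ∀ x : Fin 2, x ≠ 0 → x = 1 := by decide
    exact h2 _ h1
  have v1 : vs L' (fun j => σ j) w 1 = w := by
    rw [vs_one]
    rw [s0]
    exact it_zero hne htm hrd hw0.le (by linarith)
  have v2 : vs L' (fun j => σ j) w 2 = L' {0} 1 w w := by
    rw [vs_two, v1, s0, s1]
  have hlow := hL.low (img c 0) (c 0) v.b 0 v.b1.le
  have h1 := fst_le v.b0 v.b1 hrd.p0.le hp1 hw0.le hps hlow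
  have hps0 : 0 ≤ p * (1 - v.b) := mul_nonneg hrd.p0.le (by linarith)
  have hX : 0 < (P₀ + η) / be := by positivity
  have hX2 : P₀ + η ≤ (P₀ + η) / be := by
    rw [le_div_iff₀ hbe]
    nlinarith
  have hX1 : (2 * d + p * (1 - v.b)) / be ≤ (P₀ + η) / be :=
    div_le_div_of_nonneg_right (by linarith) hbe.le
  have hwb : w₂ / be = η / 64 := by
    rw [hw₂]
    field_simp
  have h2 := it_one hne hC₀ htm hL (by norm_num) hD hbe hco hd0 hrd.p0.le hp1 hrd.lam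
    (hact hrd.p0.le hp1) (show ((fun l : Fin 2 => c l) 0) = c 0 from rfl) (k := 1)
    (show ((fun l : Fin 2 => c l) 1) = c 1 from rfl) (r' := w) hw1 hw₂0 (by linarith) hgb
    (by linarith)
  rw [hwb] at h2
  have key := exa_fin (S := S) (v := v) (ε := fun l : Fin 2 => c l) (p := p)
    (x := fun j => vs L' (fun j => σ j) w (j + 1))
    (T := L (img c 0) (c 0) v.b 0 + L (img c 1) (c 1) v.b 0 + 2 * P₀ + η) (by
      rw [Fin.sum_univ_two]
      simp only [Fin.val_zero, zero_add, Fin.val_one, Nat.reduceAdd]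
      rw [v1, v2]
      linarith) hent
  intro ρ hρ
  refine Bas.mono 0 (key ρ hρ) ?_
  intro J _ F A h3
  refine le_trans (le_of_eq ?_) h3
  rw [Fin.sum_univ_two]
  simp only [Fin.val_zero, Fin.val_one]
  push_cast
  ring

/-- **Three coordinates.** -/
theorem item_thr (hne : S.Ne) (hC₀ : 0 ≤ C₀) (htm : TmC S C₀) (hL : LamW S L)
    (hD : NrR S L c 3 Wd g R d be co Dg sl) (hbe : 0 < be) (hbe1 : be ≤ 1) (hco : 0 < co)
    (hd0 : 0 < d) {L' : Finset (Fin 3) → Fin 3 → ℝ → ℝ → ℝ}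
    (hrd : RDt S v (fun l : Fin 3 => c l) p 0 L')
    (hact : ∀ (h0 : 0 ≤ p) (h1 : p < 1), ActZ S (atp v p h0 h1) (fun l : Fin 3 => c l) 0)
    (hP₀ : 0 ≤ P₀) (hη : 0 < η) (hη1 : P₀ + η ≤ co / 64) (hps : p * (1 - v.b) ≤ P₀ + η / 32)
    (hdη : 2 ^ 22 * d ≤ be ^ 3 * co * η) (hgb : g ≤ v.b)
    (hroom : v.b + 4 * ((P₀ + η) / be) ≤ g + R) : ∀ ρ : ℝ, 0 < ρ → Bas S (fun J F A =>
      ((∑ l : Fin 3, (1 - L (img c l) (c l) v.b 0 - P₀)) - η - ρ) * Real.log 2 * J ≤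
        CH (Pool.Agent.H49.Ent.cond F.p A True) (fun ω (l : Fin 3) => F.X J ω (c l))
          (fun ω => (v.y J F ω, F.W ω))) := by
  have hb0 := v.b0
  have hb1 := v.b1
  have hg0 := hD.g0
  have hg1 := hD.g1
  obtain ⟨D, hDc, hex⟩ := hrd.exa
  have hp1 : p < 1 := hrd.p1.trans (by norm_num)
  have hp2 := hrd.p1
  have hp0 := hrd.p0
  have hX : 0 < (P₀ + η) / be := by positivity
  have hX2 : P₀ + η ≤ (P₀ + η) / be := by
    rw [le_div_iff₀ hbe]
    nlinarith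
  have hbco : co ≤ 1 - v.b := by linarith
  have hco1 : co ≤ 1 := by linarith
  have hcc : co / 2 ≤ (1 - v.b) * (1 - p) := by
    have h1 : co * (1 / 2) ≤ (1 - v.b) * (1 - p) :=
      mul_le_mul hbco (by linarith) (by norm_num) (by linarith)
    linarith
  have hc1 : (1 - v.b) * (1 - p) ≤ 1 := mul_le_one₀ (by linarith) (by linarith) (by linarith)
  have hc0 : 0 < (1 - v.b) * (1 - p) := by linarith
  have hps0 : 0 ≤ p * (1 - v.b) := mul_nonneg hp0.le (by linarith)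
  -- the window of the numbers
  obtain ⟨wm, hwm⟩ : ∃ wm, wm = be * η / 64 := ⟨_, rfl⟩
  have hwm0 : 0 < wm := by rw [hwm]; positivity
  have hbη : be * η ≤ η := by nlinarith
  have hwm1 : wm ≤ η / 64 := by rw [hwm]; linarith
  have hcwm : d < (1 - v.b) * (1 - p) * (wm / 2) := by
    have h5 : co / 2 * (be * η / 128) ≤ (1 - v.b) * (1 - p) * (wm / 2) :=
      mul_le_mul hcc (by rw [hwm]; linarith) (by positivity) hc0.le
    have h6 : be ^ 3 * co * η ≤ co * (be * η) := by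
      have h7 : be ^ 2 ≤ 1 := pow_le_one₀ hbe.le hbe1
      have h8 : 0 ≤ co * (be * η) := by positivity
      have e8 : be ^ 3 * co * η = be ^ 2 * (co * (be * η)) := by ring
      rw [e8]
      nlinarith
    have h9 : 0 < co * (be * η) := by positivity
    norm_num at hdη
    linarith
  have hcwm2 : (1 - v.b) * (1 - p) * wm ≤ wm := by nlinarith
  obtain ⟨W₂, hW₂, hW1, hW2⟩ := hD.den (v.b + (1 - v.b) * (1 - p) * (wm / 2))
    (v.b + (1 - v.b) * (1 - p) * wm)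
    (by
      have : 0 < (1 - v.b) * (1 - p) * (wm / 2) := by positivity
      linarith)
    (by
      have e5 : (1 - v.b) * (1 - p) * wm = (1 - v.b) * (1 - p) * (wm / 2) +
        (1 - v.b) * (1 - p) * (wm / 2) := by ring
      linarith) (by linarith)
  obtain ⟨w₂, hw₂⟩ : ∃ w₂, w₂ = (W₂ - v.b) / ((1 - v.b) * (1 - p)) := ⟨_, rfl⟩
  have hWw : v.b + (1 - v.b) * (1 - p) * w₂ = W₂ := by
    have e5 : (1 - v.b) * (1 - p) * ((W₂ - v.b) / ((1 - v.b) * (1 - p))) = W₂ - v.b := by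
      rw [mul_div_assoc']
      exact mul_div_cancel_left₀ _ hc0.ne'
    rw [hw₂, e5]
    ring
  have h21 : wm / 2 < w₂ := by
    rw [hw₂, lt_div_iff₀ hc0]
    linarith
  have h22 : w₂ < wm := by
    rw [hw₂, div_lt_iff₀ hc0]
    linarith
  have hw₂0 : 0 < w₂ := by linarith
  have hw₂1 : w₂ < 1 := by linarith
  obtain ⟨w, hw0, hw1, hwD⟩ := Pool.OWN43.small_win hDc hw₂0
  obtain ⟨σ, hWv, hσ0, hent⟩ := hex w hw0 (by linarith) hwD
  have s0 : σ 0 = 0 := hσ0 0 rfl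
  have v1 : vs L' (fun j => σ j) w 1 = w := by
    rw [vs_one]
    rw [s0]
    exact it_zero hne htm hrd hw0.le (by linarith)
  have hlow := hL.low (img c 0) (c 0) v.b 0 v.b1.le
  have h1 := fst_le v.b0 v.b1 hp0.le hp1 hw0.le hps hlow
  have hX1 : (2 * d + p * (1 - v.b)) / be ≤ (P₀ + η) / be := by
    refine div_le_div_of_nonneg_right ?_ hbe.le
    have h5 : be ^ 3 * co * η ≤ η := by
      have h6 : be ^ 3 * co ≤ 1 := mul_le_one₀ (pow_le_one₀ hbe.le hbe1) hco.le hco1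
      nlinarith
    linarith
  have hwb : w₂ / be ≤ η / 64 := by
    rw [div_le_iff₀ hbe]
    have : wm = η / 64 * be := by rw [hwm]; ring
    linarith
  have hd1 : 64 * d ≤ η := by
    have h5 : be ^ 3 * co * η ≤ η := by
      have h6 : be ^ 3 * co ≤ 1 := mul_le_one₀ (pow_le_one₀ hbe.le hbe1) hco.le hco1
      nlinarith
    linarith
  have h2 := it_one hne hC₀ htm hL (by norm_num) hD hbe hco hd0.le hp0.le hp1 hrd.lam
    (hact hp0.le hp1) (show ((fun l : Fin 3 => c l) 0) = c 0 from rfl) (k := 1)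
    (show ((fun l : Fin 3 => c l) 1) = c 1 from rfl) (r' := w) hw1 hw₂0 (by linarith) hgb
    (by linarith)
  -- the numbers
  obtain ⟨x, hx⟩ : ∃ x, x = (1 - v.b) * (1 - p) * w₂ / 4 := ⟨_, rfl⟩
  have hx0 : 0 < x := by rw [hx]; positivity
  have hx1 : x ≤ w₂ / 4 := by
    have := mul_le_mul_of_nonneg_right hc1 hw₂0.le
    rw [hx]
    linarith
  have hx2 : co * (be * η) / 1024 ≤ x := by
    have h5 : co / 2 * (be * η / 128) ≤ (1 - v.b) * (1 - p) * w₂ :=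
      mul_le_mul hcc (by rw [hwm] at h21; linarith) (by positivity) hc0.le
    rw [hx]
    linarith
  obtain ⟨ka, hka⟩ : ∃ ka, ka = x / 64 := ⟨_, rfl⟩
  have hka0 : 0 < ka := by rw [hka]; positivity
  have hdk : 32 * d ≤ be ^ 2 * ka := by
    have h5 : be ^ 2 * (co * (be * η) / 1024) ≤ be ^ 2 * x :=
      mul_le_mul_of_nonneg_left hx2 (by positivity)
    have e5 : be ^ 2 * (co * (be * η) / 1024) = be ^ 3 * co * η / 1024 := by ring
    have e6 : be ^ 2 * ka = be ^ 2 * x / 64 := by rw [hka]; ring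
    rw [e6]
    rw [e5] at h5
    norm_num at hdη
    linarith
  have hsm : p * (1 - v.b) + 8 * x ≤ co / 2 := by linarith
  have hroom2 : v.b + w₂ + 2 * ((p * (1 - v.b) + 8 * x) / be) < g + R := by
    have h5 : (p * (1 - v.b) + 8 * x) / be ≤ (P₀ + η) / be :=
      div_le_div_of_nonneg_right (by linarith) hbe.le
    linarith
  have h3 := fun r' : ℝ => it_two hne hC₀ htm hL hD hbe hbe1 hco hd0 hp0.le hp1 hrd.lam
    (hact hp0.le hp1) (fun i => rfl) (r' := r') hw1 hw₂0 hw₂1 hgb hx0 (by rw [hx]; nlinarith) hka0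
    (by rw [hka]; linarith) hdk hsm hroom2 (by rw [hWw]; exact hW₂)
  have v2 : vs L' (fun j => σ j) w 2 = L' {0} (σ 1) w w := by
    rw [vs_two, v1, s0]
  have v3 : vs L' (fun j => σ j) w 3 = L' {0, σ 1} (σ 2) w (vs L' (fun j => σ j) w 2) := by
    rw [vs_thr, s0]
  have hcases : (σ 1 = 1 ∧ σ 2 = 2) ∨ (σ 1 = 2 ∧ σ 2 = 1) := by
    have a1 : σ 1 ≠ 0 := fun h => absurd (σ.injective (h.trans s0.symm)) (by decide)
    have a2 : σ 2 ≠ 0 := fun h => absurd (σ.injective (h.trans s0.symm)) (by decide)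
    have a3 : σ 1 ≠ σ 2 := fun h => absurd (σ.injective h) (by decide)
    have h5 : ∀ x y : Fin 3, x ≠ 0 → y ≠ 0 → x ≠ y → (x = 1 ∧ y = 2) ∨ (x = 2 ∧ y = 1) := by
      decide
    exact h5 _ _ a1 a2 a3
  have hmul : ∀ y y' : ℝ, y ≤ y' → v.b + (1 - v.b) * (p + (1 - p) * y) ≤
      v.b + (1 - v.b) * (p + (1 - p) * y') := by
    intro y y' h
    have h5 : (1 - p) * y ≤ (1 - p) * y' := mul_le_mul_of_nonneg_left h (by linarith)
    have h6 : (1 - v.b) * (p + (1 - p) * y) ≤ (1 - v.b) * (p + (1 - p) * y') :=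
      mul_le_mul_of_nonneg_left (by linarith) (by linarith)
    linarith
  have k2 : v.b + (1 - v.b) * (p + (1 - p) * vs L' (fun j => σ j) w 2) ≤
      p * (1 - v.b) + L (img c 1) (c 1) v.b 0 + w₂ / be + 2 * d := by
    rcases hcases with ⟨t1, t2⟩ | ⟨t1, t2⟩
    · rw [v2, t1]
      exact h2
    · have h5 := vs_grd L' (fun j => σ j) hWv.2.2.1
      rw [v1, s0, t2] at h5
      exact (hmul _ _ h5).trans h2
  have k3 : v.b + (1 - v.b) * (p + (1 - p) * vs L' (fun j => σ j) w 3) ≤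
      p * (1 - v.b) + L (img c 2) (c 2) v.b 0 + w₂ / be + 2 * d + 3 * x := by
    rcases hcases with ⟨t1, t2⟩ | ⟨t1, t2⟩
    · rw [v3, t1, t2]
      exact (h3 _).1
    · rw [v3, t1, t2]
      exact (h3 _).2
  have key := exa_fin (S := S) (v := v) (ε := fun l : Fin 3 => c l) (p := p)
    (x := fun j => vs L' (fun j => σ j) w (j + 1))
    (T := L (img c 0) (c 0) v.b 0 + L (img c 1) (c 1) v.b 0 + L (img c 2) (c 2) v.b 0 +
      3 * P₀ + η) (by
      rw [Fin.sum_univ_three]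
      simp only [Fin.val_zero, zero_add, Fin.val_one, Nat.reduceAdd, Fin.val_two]
      rw [v1]
      linarith) hent
  intro ρ hρ
  refine Bas.mono 0 (key ρ hρ) ?_
  intro J _ F A h5
  refine le_trans (le_of_eq ?_) h5
  rw [Fin.sum_univ_three]
  simp only [Fin.val_zero, Fin.val_one, Fin.val_two]
  push_cast
  ring

end item

end Pool.OWN72
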