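import Pool.Agent.H72.OWN.Lvl

/-!
# The coefficients of closed relations between the velocities

`Cl1`: closed functions of the exact point. `ClA`: an affine closed label, velocities only. `HasA`:
such labels exist in a class. `CfP`: the coefficients of a closed relation between the velocities of
the coordinates `I` have their natural size. `cf_zero`, `cf_step`: this is so for a chain of
coordinates with affine closed labels whose precisions are the numbers.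
-/

set_option autoImplicit false

namespace Pool.OWN72

open Finset MvPolynomial
open Pool.Agent.H49.Ent Pool.Agent.H32.Dense Pool.STK Pool.KA Pool.KSAT Pool.K2S Pool.PB Pool.GEN
open Pool.S6C
open Pool.JVE (DpI)
open Pool.MIC6 (res_of)

variable {m n J : ℕ}

/-- **Closed functions** of the exact point. -/
def Cl1 (F : Fam m J) (A : F.Ω → Prop) (w : ℕ) (f : PtT F → ℝ) : Prop :=
  ∃ f' : LnT F → ℝ, ∀ ω, A ω → f (ptr F J ω) = f' (slam F w ω)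

section cl

variable {F : Fam m J} {A B : F.Ω → Prop} {w w' : ℕ} {f g : PtT F → ℝ}

theorem Cl1.sub (h : Cl1 F A w f) (hB : Sub B A) : Cl1 F B w f := by
  obtain ⟨f', hf⟩ := h
  exact ⟨f', fun ω hω => hf ω (hB ω hω)⟩

theorem Cl1.win (h : Cl1 F A w f) (hw : w ≤ w') (hw' : w' ≤ J) : Cl1 F A w' f := by
  obtain ⟨f', hf⟩ := h
  refine ⟨fun s => f' (s.1, s.2.1, s.2.2 / 2 ^ (w' - w)), fun ω hω => ?_⟩
  show f (ptr F J ω) = f' ((slam F w' ω).1, (slam F w' ω).2.1, (slam F w' ω).2.2 / 2 ^ (w' - w))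
  rw [← slam_coarse F hw hw' ω]
  exact hf ω hω

theorem Cl1.map2 (φ : ℝ → ℝ → ℝ) (h : Cl1 F A w f) (h' : Cl1 F A w g) :
    Cl1 F A w (fun p => φ (f p) (g p)) := by
  obtain ⟨f', hf⟩ := h
  obtain ⟨g', hg⟩ := h'
  exact ⟨fun s => φ (f' s) (g' s), fun ω hω => by
    show φ (f (ptr F J ω)) (g (ptr F J ω)) = _
    rw [hf ω hω, hg ω hω]⟩

end cl

/-- **An affine closed label**, velocities only. -/
structure ClA (F : Fam m J) (A : F.Ω → Prop) (I : Finset (Fin m)) (v : Fin m) (w e M : ℕ)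
    (a : PtT F → Fin m → ℝ) (c : PtT F → ℝ) : Prop where
  dp : DpI F A I v e M a c
  ca : ∀ k ∈ I, Cl1 F A w (fun p => a p k)
  cc : Cl1 F A w c

theorem ClA.sub {F : Fam m J} {A B : F.Ω → Prop} {I : Finset (Fin m)} {v : Fin m} {w e M : ℕ}
    {a : PtT F → Fin m → ℝ} {c : PtT F → ℝ} (h : ClA F A I v w e M a c) (hB : Sub B A) :
    ClA F B I v w e M a c :=
  ⟨h.dp.sub hB, fun k hk => (h.ca k hk).sub hB, h.cc.sub hB⟩

/-- **Affine closed labels exist.** -/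
def HasA (S : PCl m) (I : Finset (Fin m)) (v : Fin m) (w N : ℝ) : Prop :=
  ∀ x : ℝ, 0 < x → Bas S (fun J F A => ∃ (a : PtT F → Fin m → ℝ) (c : PtT F → ℝ),
      ClA F A I v ⌊w * J⌋₊ ⌊x * J⌋₊ ⌊(N - w - x) * J⌋₊ a c)

theorem HasA.subc {S S' : PCl m} (hs : ∀ (τ : ℝ) (J : ℕ) (F : Fam m J) (A : F.Ω → Prop),
    S'.St τ J F A → S.St τ J F A) {I : Finset (Fin m)} {v : Fin m} {w N : ℝ}
    (h : HasA S I v w N) : HasA S' I v w N := fun x hx => (h x hx).sub hs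

/-- **The coefficients of closed relations have their natural size.** -/
def CfP (S : PCl m) (I : Finset (Fin m)) (w X : ℝ) : Prop :=
  ∀ s h : ℝ, 0 < s → 0 < h → Bas S (fun J F A => ∀ (δ : PtT F → Fin m → ℝ) (δc : PtT F → ℝ)
    (η : ℝ), 0 < η → (∀ k ∈ I, Cl1 F A ⌊w * J⌋₊ (fun p => δ p k)) → Cl1 F A ⌊w * J⌋₊ δc →
    (∀ ω, A ω → |δc (ptr F J ω) + ∑ k ∈ I, δ (ptr F J ω) k * F.d ω k| ≤ η) →
    ∃ B : F.Ω → Prop, Sub B A ∧ (1 - h) * Pe F.p A ≤ Pe F.p B ∧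
      ∀ ω, B ω → (∀ k ∈ I, |δ (ptr F J ω) k| ≤ η * 2 ^ ⌊(X + s) * J⌋₊) ∧
        |δc (ptr F J ω)| ≤ η * 2 ^ ⌊(X + s) * J⌋₊)

/-- One active coordinate. -/
theorem cf_zero {S : PCl m} {C₀ : ℝ} (htm : TmC S C₀) {y : Fin m} (hact : Pool.MIC6.ActF S y)
    (w : ℝ) : CfP S {y} w 0 := by
  intro s h hs hh
  obtain ⟨τ, hτ, J₁, hb⟩ := spr_cls htm hact (γ := s / 2) (by linarith : (0 : ℝ) < s / 2) hh
  obtain ⟨J₂, hJ₂⟩ := exists_nat_ge ((4 : ℝ) / s)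
  refine ⟨τ, hτ, max J₁ J₂, ?_⟩
  intro J hJ F A hA δ δc η hη _ _ hrel
  have j1 : J₁ ≤ J := (le_max_left _ _).trans hJ
  have j2 : (J₂ : ℝ) ≤ J := by exact_mod_cast (le_max_right _ _).trans hJ
  have hsJ : 4 ≤ s * J := by
    have h1 := hJ₂.trans j2
    rw [div_le_iff₀ hs] at h1
    linarith
  have hrel' : ∀ ω, A ω → |δc (ptr F J ω) + δ (ptr F J ω) y * F.d ω y| ≤ η := by
    intro ω hω
    have h1 := hrel ω hω
    rwa [Finset.sum_singleton] at h1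
  obtain ⟨B, b1, b2, b3⟩ := hb J j1 F A hA δc (fun p => δ p y) η hη hrel'
  have hfl : ⌊s / 2 * (J : ℝ)⌋₊ + 1 ≤ ⌊(0 + s) * (J : ℝ)⌋₊ := by
    have f1 : (⌊s / 2 * (J : ℝ)⌋₊ : ℝ) ≤ s / 2 * J := Nat.floor_le (by positivity)
    have f2 : (0 + s) * (J : ℝ) - 1 < ⌊(0 + s) * (J : ℝ)⌋₊ := Nat.sub_one_lt_floor _
    rw [← Nat.cast_le (α := ℝ)]
    push_cast
    linarith
  have hpw : (2 : ℝ) ^ ⌊s / 2 * (J : ℝ)⌋₊ * 2 ≤ 2 ^ ⌊(0 + s) * (J : ℝ)⌋₊ := by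
    rw [← pow_succ]
    exact pow_le_pow_right₀ (by norm_num) hfl
  have hp1 : (1 : ℝ) ≤ 2 ^ ⌊s / 2 * (J : ℝ)⌋₊ := one_le_pow₀ (by norm_num)
  refine ⟨B, b1, b2, fun ω hω => ⟨fun k hk => ?_, ?_⟩⟩
  · rw [Finset.mem_singleton.1 hk]
    have h1 := b3 ω hω
    have h2 : η * (2 ^ ⌊s / 2 * (J : ℝ)⌋₊ * 2) ≤ η * 2 ^ ⌊(0 + s) * (J : ℝ)⌋₊ :=
      mul_le_mul_of_nonneg_left hpw hη.le
    have h3 : η * 1 ≤ η * 2 ^ ⌊s / 2 * (J : ℝ)⌋₊ := mul_le_mul_of_nonneg_left hp1 hη.le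
    linarith
  · have h1 := b3 ω hω
    have h2 := hrel' ω (b1 ω hω)
    have h3 : |δ (ptr F J ω) y * F.d ω y| ≤ 2 ^ ⌊s / 2 * (J : ℝ)⌋₊ * η := by
      rw [abs_mul]
      refine le_trans ?_ h1
      exact mul_le_of_le_one_right (abs_nonneg _) (F.dir ω y)
    have h4 : δc (ptr F J ω) = (δc (ptr F J ω) + δ (ptr F J ω) y * F.d ω y) -
        δ (ptr F J ω) y * F.d ω y := by ring
    rw [h4]
    refine (abs_sub _ _).trans ?_
    have h5 : η * (2 ^ ⌊s / 2 * (J : ℝ)⌋₊ * 2) ≤ η * 2 ^ ⌊(0 + s) * (J : ℝ)⌋₊ :=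
      mul_le_mul_of_nonneg_left hpw hη.le
    have h6 : η * 1 ≤ η * 2 ^ ⌊s / 2 * (J : ℝ)⌋₊ := mul_le_mul_of_nonneg_left hp1 hη.le
    linarith

/-- The numbers fit. -/
theorem cf_fit {N w X s s₀ x e : ℝ} (hX : 0 ≤ X) (hXN : X ≤ N - w) (hs₀ : 0 < s₀) (hs₀s : 8 * s₀ ≤ s) (hx : 0 < x) (hxs : 32 * x ≤ s)
    (hxe : 8 * x ≤ e) (hxs₀ : x ≤ s₀) :
    ∃ J₁ : ℕ, ∀ J ≥ J₁,
      ⌊x * (J : ℝ)⌋₊ + 1 ≤ ⌊e * (J : ℝ)⌋₊ ∧
      ⌊(X + x) * (J : ℝ)⌋₊ + 2 ≤ ⌊(N - w - x) * (J : ℝ)⌋₊ + ⌊e * (J : ℝ)⌋₊ ∧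
      ⌊(X + x) * (J : ℝ)⌋₊ + 2 ≤ ⌊(N - w + s) * (J : ℝ)⌋₊ ∧
      ⌊(X + x) * (J : ℝ)⌋₊ + ⌊(N - w + s₀) * (J : ℝ)⌋₊ + 2 ≤
        ⌊(N - w - x) * (J : ℝ)⌋₊ + ⌊(N - w + s) * (J : ℝ)⌋₊ ∧
      ⌊(N - w + s₀) * (J : ℝ)⌋₊ + ⌊x * (J : ℝ)⌋₊ + 2 ≤ ⌊(N - w + s) * (J : ℝ)⌋₊ ∧
      ⌊(N - w - x) * (J : ℝ)⌋₊ ≤ ⌊(N - w + s₀) * (J : ℝ)⌋₊ := by
  obtain ⟨J₁, hJ₁⟩ := exists_nat_ge ((8 : ℝ) / x)
  refine ⟨J₁, fun J hJ => ?_⟩
  have hJr : (J₁ : ℝ) ≤ J := by exact_mod_cast hJ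
  have hJ0 : (0 : ℝ) ≤ J := Nat.cast_nonneg J
  have hxJ : 8 ≤ x * J := by
    have h1 := hJ₁.trans hJr
    rw [div_le_iff₀ hx] at h1
    linarith
  have f1 : (⌊x * (J : ℝ)⌋₊ : ℝ) ≤ x * J := Nat.floor_le (by positivity)
  have f2 : e * (J : ℝ) - 1 < ⌊e * (J : ℝ)⌋₊ := Nat.sub_one_lt_floor _
  have f3 : (⌊(X + x) * (J : ℝ)⌋₊ : ℝ) ≤ (X + x) * J := Nat.floor_le (by positivity)
  have f4 : (N - w - x) * (J : ℝ) - 1 < ⌊(N - w - x) * (J : ℝ)⌋₊ := Nat.sub_one_lt_floor _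
  have f5 : (N - w + s) * (J : ℝ) - 1 < ⌊(N - w + s) * (J : ℝ)⌋₊ := Nat.sub_one_lt_floor _
  have hNs : 0 ≤ N - w + s₀ := by linarith
  have f6 : (⌊(N - w + s₀) * (J : ℝ)⌋₊ : ℝ) ≤ (N - w + s₀) * J :=
    Nat.floor_le (mul_nonneg hNs hJ0)
  have g1 : X * (J : ℝ) ≤ (N - w) * J := mul_le_mul_of_nonneg_right hXN hJ0
  have g2 : 8 * x * J ≤ e * J := mul_le_mul_of_nonneg_right hxe hJ0
  have g3 : 32 * x * J ≤ s * J := mul_le_mul_of_nonneg_right hxs hJ0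
  have g4 : 8 * s₀ * J ≤ s * J := mul_le_mul_of_nonneg_right hs₀s hJ0
  have g5 : x * J ≤ s₀ * J := mul_le_mul_of_nonneg_right hxs₀ hJ0
  refine ⟨?_, ?_, ?_, ?_, ?_, ?_⟩
  · rw [← Nat.cast_le (α := ℝ)]
    push_cast
    linarith only [f1, f2, g2, hxJ]
  · rw [← Nat.cast_le (α := ℝ)]
    push_cast
    linarith only [f3, f4, f2, g1, g2, hxJ]
  · rw [← Nat.cast_le (α := ℝ)]
    push_cast
    linarith only [f3, f5, g1, g3, hxJ]
  · rw [← Nat.cast_le (α := ℝ)]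
    push_cast
    linarith only [f3, f6, f4, f5, g1, g3, g4, g5, hxJ]
  · rw [← Nat.cast_le (α := ℝ)]
    push_cast
    linarith only [f6, f1, f5, g3, g4, hxJ]
  · refine Nat.floor_le_floor (mul_le_mul_of_nonneg_right (by linarith) hJ0)

/-- **The step of the chain.** -/
theorem cf_step {S : PCl m} {C₀ : ℝ} (htm : TmC S C₀)
    {L : Finset (Fin m) → Fin m → ℝ → ℝ → ℝ} (hL : LamW S L) {I : Finset (Fin m)} {v : Fin m}
    (hv : v ∉ I) {w X : ℝ} (hw0 : 0 ≤ w) (hI : CfP S I w X) (hX : 0 ≤ X)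
    (hXN : X ≤ L I v w 0 - w) (hN1 : L I v w 0 < 1) (hA : HasA S I v w (L I v w 0)) :
    CfP S (insert v I) w (L I v w 0 - w) := by
  classical
  intro s h hs hh
  obtain ⟨N, hN⟩ : ∃ N, N = L I v w 0 := ⟨_, rfl⟩
  rw [← hN] at hXN hN1 hA ⊢
  obtain ⟨s₀, hs₀⟩ : ∃ s₀, s₀ = min (s / 8) ((1 - N) / 2) := ⟨_, rfl⟩
  have hs₀0 : 0 < s₀ := by
    rw [hs₀]
    exact lt_min (by linarith) (by linarith)
  have hs₀1 : 8 * s₀ ≤ s := by
    have : s₀ ≤ s / 8 := by rw [hs₀]; exact min_le_left _ _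
    linarith
  have hs₀2 : 2 * s₀ ≤ 1 - N := by
    have : s₀ ≤ (1 - N) / 2 := by rw [hs₀]; exact min_le_right _ _
    linarith
  obtain ⟨d, hd, hlvl⟩ := lvl_cls hL (I := I) (v := v) (W := w) (r := 0) hw0 hs₀0
    (by rw [← hN]; linarith) (by rw [← hN]; linarith)
  rw [← hN] at hlvl
  obtain ⟨δ₀, hδ₀, τ₃, hτ₃, J₃, hb₃⟩ := hlvl d hd le_rfl
  obtain ⟨x, hx⟩ : ∃ x, x = min (min (s / 32) (d / 8)) s₀ := ⟨_, rfl⟩
  have hx0 : 0 < x := by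
    rw [hx]
    exact lt_min (lt_min (by linarith) (by linarith)) hs₀0
  have hx1 : 32 * x ≤ s := by
    have : x ≤ s / 32 := by rw [hx]; exact (min_le_left _ _).trans (min_le_left _ _)
    linarith
  have hx2 : 8 * x ≤ d := by
    have : x ≤ d / 8 := by rw [hx]; exact (min_le_left _ _).trans (min_le_right _ _)
    linarith
  have hx3 : x ≤ s₀ := by rw [hx]; exact min_le_right _ _
  obtain ⟨τ₁, hτ₁, J₁, hb₁⟩ := hA x hx0
  obtain ⟨τ₂, hτ₂, J₂, hb₂⟩ := hI x (1 / 2) hx0 (by norm_num)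
  obtain ⟨J₅, hfit⟩ := cf_fit hX hXN hs₀0 hs₀1 hx0 hx1 hx2 hx3
  obtain ⟨τ, hτ⟩ : ∃ τ, τ = min (min τ₁ (τ₂ / 2)) τ₃ := ⟨_, rfl⟩
  have hτ0 : 0 < τ := by
    rw [hτ]
    exact lt_min (lt_min (by linarith) (by linarith)) hτ₃
  have t1 : τ ≤ τ₁ := by
    rw [hτ]
    exact (min_le_left _ _).trans (min_le_left _ _)
  have t2 : 2 * τ ≤ τ₂ := by
    have : τ ≤ τ₂ / 2 := by rw [hτ]; exact (min_le_left _ _).trans (min_le_right _ _)
    linarith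
  have t3 : τ ≤ τ₃ := by rw [hτ]; exact min_le_right _ _
  obtain ⟨J₆, hJ₆⟩ := exists_nat_ge (Real.log (4 / h) / τ)
  obtain ⟨J₇, hJ₇⟩ := exists_nat_ge ((Real.log (8 / h) + 1) / δ₀)
  refine ⟨τ, hτ0, max (max (max J₁ J₂) (max J₃ J₅)) (max J₆ J₇), ?_⟩
  intro J hJ F A hAS δ δc η hη hcl hcc hrel
  have j1 : J₁ ≤ J :=
    ((le_max_left _ _).trans ((le_max_left _ _).trans (le_max_left _ _))).trans hJ
  have j2 : J₂ ≤ J :=
    ((le_max_right _ _).trans ((le_max_left _ _).trans (le_max_left _ _))).trans hJ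
  have j3 : J₃ ≤ J :=
    ((le_max_left _ _).trans ((le_max_right _ _).trans (le_max_left _ _))).trans hJ
  have j5 : J₅ ≤ J :=
    ((le_max_right _ _).trans ((le_max_right _ _).trans (le_max_left _ _))).trans hJ
  have j6 : (J₆ : ℝ) ≤ J := by
    exact_mod_cast ((le_max_left _ _).trans (le_max_right _ _)).trans hJ
  have j7 : (J₇ : ℝ) ≤ J := by
    exact_mod_cast ((le_max_right _ _).trans (le_max_right _ _)).trans hJ
  have hτJ : Real.log (4 / h) ≤ τ * J := by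
    have h1 := hJ₆.trans j6
    rw [div_le_iff₀ hτ0] at h1
    linarith
  have hδJ : Real.log (8 / h) + 1 ≤ δ₀ * J := by
    have h1 := hJ₇.trans j7
    rw [div_le_iff₀ hδ₀] at h1
    linarith
  have hA0 := (htm τ J F A hτ0 hAS).1
  obtain ⟨a₀, c₀, hlab⟩ := hb₁ J j1 F A (S.mono t1 hAS)
  obtain ⟨p1, p2, p3, p4, p5, p6⟩ := hfit J j5
  obtain ⟨n₀, hn₀⟩ : ∃ n₀, n₀ = ⌊(N - w - x) * (J : ℝ)⌋₊ := ⟨_, rfl⟩
  obtain ⟨n₁, hn₁⟩ : ∃ n₁, n₁ = ⌊(N - w + s₀) * (J : ℝ)⌋₊ := ⟨_, rfl⟩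
  obtain ⟨n₂, hn₂⟩ : ∃ n₂, n₂ = ⌊(X + x) * (J : ℝ)⌋₊ := ⟨_, rfl⟩
  obtain ⟨n₃, hn₃⟩ : ∃ n₃, n₃ = ⌊x * (J : ℝ)⌋₊ := ⟨_, rfl⟩
  obtain ⟨n₄, hn₄⟩ : ∃ n₄, n₄ = ⌊(N - w + s) * (J : ℝ)⌋₊ := ⟨_, rfl⟩
  obtain ⟨nd, hnd⟩ : ∃ nd, nd = ⌊d * (J : ℝ)⌋₊ := ⟨_, rfl⟩
  rw [← hn₃, ← hnd] at p1
  rw [← hn₂, ← hn₀, ← hnd] at p2
  rw [← hn₂, ← hn₄] at p3
  rw [← hn₂, ← hn₁, ← hn₀, ← hn₄] at p4
  rw [← hn₁, ← hn₃, ← hn₄] at p5
  rw [← hn₀, ← hn₁] at p6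
  rw [← hn₃, ← hn₀] at hlab
  rw [← hn₄]
  have hpn : ∀ a b c e : ℕ, a + b ≤ c + e → (2 : ℝ) ^ a * 2 ^ b ≤ 2 ^ c * 2 ^ e := by
    intro a b c e h1
    rw [← pow_add, ← pow_add]
    exact pow_le_pow_right₀ (by norm_num) h1
  have P0 : (0 : ℝ) < 2 ^ n₀ := by positivity
  have P1 : (0 : ℝ) < 2 ^ n₁ := by positivity
  have P2 : (0 : ℝ) < 2 ^ n₂ := by positivity
  have P3 : (1 : ℝ) ≤ 2 ^ n₃ := one_le_pow₀ (by norm_num)
  have P4 : (0 : ℝ) < 2 ^ n₄ := by positivity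
  have Pd : (0 : ℝ) < 2 ^ nd := by positivity
  have P01 : (2 : ℝ) ^ n₀ ≤ 2 ^ n₁ := pow_le_pow_right₀ (by norm_num) p6
  obtain ⟨T, hT⟩ : ∃ T, T = η * 2 ^ n₁ := ⟨_, rfl⟩
  have hT0 : 0 < T := by rw [hT]; positivity
  -- sub-events
  have hsubS : ∀ Bd : F.Ω → Prop, Sub Bd A → h / 4 * Pe F.p A < Pe F.p Bd →
      S.St τ₂ J F Bd := by
    intro Bd hBd hPBd
    have hS1 := res_of hτ0.le hAS hBd (by positivity : (0 : ℝ) < 4 / h) hτJ (by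
      rw [div_mul_eq_mul_div, le_div_iff₀ hh]
      linarith)
    exact S.mono t2 hS1
  obtain ⟨B₁, hB₁⟩ : ∃ B₁ : F.Ω → Prop, B₁ = fun ω => A ω ∧ T < |δ (ptr F J ω) v| := ⟨_, rfl⟩
  have hB₁A : Sub B₁ A := fun ω hω => by
    rw [hB₁] at hω
    exact hω.1
  obtain ⟨B₂, hB₂⟩ : ∃ B₂ : F.Ω → Prop, B₂ = fun ω => A ω ∧ |δ (ptr F J ω) v| ≤ T ∧
    ¬ ((∀ k ∈ I, |δ (ptr F J ω) k| ≤ η * 2 ^ n₄) ∧ |δc (ptr F J ω)| ≤ η * 2 ^ n₄) := ⟨_, rfl⟩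
  have hB₂A : Sub B₂ A := fun ω hω => by
    rw [hB₂] at hω
    exact hω.1
  -- the coefficient of `v`
  have hst1 : Pe F.p B₁ ≤ h / 4 * Pe F.p A := by
    by_contra hcon
    push Not at hcon
    have hSt := hsubS B₁ hB₁A hcon
    have hB₁0 : 0 < Pe F.p B₁ := lt_of_le_of_lt (by positivity) hcon
    obtain ⟨a, ha⟩ : ∃ a : PtT F → Fin m → ℝ, a = fun p k => -(δ p k) / δ p v := ⟨_, rfl⟩
    obtain ⟨c, hc⟩ : ∃ c : PtT F → ℝ, c = fun p => -(δc p) / δ p v := ⟨_, rfl⟩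
    have hvin : v ∈ insert v I := Finset.mem_insert_self _ _
    have hkin : ∀ k ∈ I, k ∈ insert v I := fun k hk => Finset.mem_insert_of_mem hk
    have hacl : ∀ k ∈ I, Cl1 F B₁ ⌊w * J⌋₊ (fun p => a p k) := fun k hk => by
      rw [ha]
      exact Cl1.map2 (fun x y => -x / y) ((hcl k (hkin k hk)).sub hB₁A)
        ((hcl v hvin).sub hB₁A)
    have hccl : Cl1 F B₁ ⌊w * J⌋₊ c := by
      rw [hc]
      exact Cl1.map2 (fun x y => -x / y) (hcc.sub hB₁A) ((hcl v hvin).sub hB₁A)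
    have hrel1 : ∀ ω, B₁ ω → |F.d ω v - c (ptr F J ω) - ∑ k ∈ I, a (ptr F J ω) k * F.d ω k| ≤
        1 / 2 ^ n₁ := by
      intro ω hω
      have h1 := hrel ω (hB₁A ω hω)
      rw [hB₁] at hω
      have h2 : T < |δ (ptr F J ω) v| := hω.2
      rw [Finset.sum_insert hv] at h1
      have h3 : δ (ptr F J ω) v ≠ 0 := by
        intro h4
        rw [h4, abs_zero] at h2
        linarith
      have h4 : F.d ω v - c (ptr F J ω) - ∑ k ∈ I, a (ptr F J ω) k * F.d ω k =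
          (δc (ptr F J ω) + (δ (ptr F J ω) v * F.d ω v + ∑ k ∈ I, δ (ptr F J ω) k * F.d ω k)) /
            δ (ptr F J ω) v := by
        rw [ha, hc]
        have h5 : ∑ k ∈ I, -(δ (ptr F J ω) k) / δ (ptr F J ω) v * F.d ω k =
            -(∑ k ∈ I, δ (ptr F J ω) k * F.d ω k) / δ (ptr F J ω) v := by
          rw [← Finset.sum_neg_distrib, Finset.sum_div]
          refine Finset.sum_congr rfl fun k _ => ?_
          ring
        show F.d ω v - -(δc (ptr F J ω)) / δ (ptr F J ω) v -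
          ∑ k ∈ I, -(δ (ptr F J ω) k) / δ (ptr F J ω) v * F.d ω k = _
        rw [h5]
        field_simp
        ring
      rw [h4, abs_div, div_le_div_iff₀ (abs_pos.2 h3) P1, one_mul]
      calc |δc (ptr F J ω) + (δ (ptr F J ω) v * F.d ω v +
            ∑ k ∈ I, δ (ptr F J ω) k * F.d ω k)| * 2 ^ n₁ ≤ η * 2 ^ n₁ :=
            mul_le_mul_of_nonneg_right h1 P1.le
        _ = T := hT.symm
        _ ≤ |δ (ptr F J ω) v| := h2.le
    -- the difference of the two labels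
    obtain ⟨B₃, b31, b32, b33⟩ := hb₂ J j2 F B₁ hSt (fun p k => a p k - a₀ p k)
      (fun p => c p - c₀ p) (2 / 2 ^ n₀) (by positivity)
      (fun k hk => Cl1.map2 (fun x y => x - y) (hacl k hk) ((hlab.ca k hk).sub hB₁A))
      (Cl1.map2 (fun x y => x - y) hccl (hlab.cc.sub hB₁A)) (fun ω hω => by
        have h1 := hrel1 ω hω
        have h2 := (hlab.dp ω (hB₁A ω hω)).2.2
        have h3 : (1 : ℝ) / 2 ^ n₁ ≤ 1 / 2 ^ n₀ := one_div_le_one_div_of_le P0 P01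
        have h4 : c (ptr F J ω) - c₀ (ptr F J ω) +
            ∑ k ∈ I, (a (ptr F J ω) k - a₀ (ptr F J ω) k) * F.d ω k =
            (F.d ω v - c₀ (ptr F J ω) - ∑ k ∈ I, a₀ (ptr F J ω) k * F.d ω k) -
            (F.d ω v - c (ptr F J ω) - ∑ k ∈ I, a (ptr F J ω) k * F.d ω k) := by
          have h5 : ∑ k ∈ I, (a (ptr F J ω) k - a₀ (ptr F J ω) k) * F.d ω k =
              ∑ k ∈ I, a (ptr F J ω) k * F.d ω k - ∑ k ∈ I, a₀ (ptr F J ω) k * F.d ω k := by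
            rw [← Finset.sum_sub_distrib]
            exact Finset.sum_congr rfl fun k _ => by ring
          rw [h5]
          ring
        rw [h4]
        refine (abs_sub _ _).trans ?_
        have h6 : (2 : ℝ) / 2 ^ n₀ = 1 / 2 ^ n₀ + 1 / 2 ^ n₀ := by ring
        linarith)
    have hnum : (2 : ℝ) ^ n₃ + 2 / 2 ^ n₀ * 2 ^ n₂ ≤ 2 ^ nd := by
      have h1 : (2 : ℝ) ^ n₃ * 2 ≤ 2 ^ nd := by
        rw [← pow_succ]
        exact pow_le_pow_right₀ (by norm_num) p1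
      have h2 : (2 : ℝ) ^ n₂ * 2 ^ 2 ≤ 2 ^ n₀ * 2 ^ nd := hpn _ _ _ _ p2
      have h3 : 2 / 2 ^ n₀ * (2 : ℝ) ^ n₂ ≤ 2 ^ nd / 2 := by
        rw [div_mul_eq_mul_div, div_le_div_iff₀ P0 (by norm_num)]
        linarith
      linarith
    have hdp : DpI F B₃ I v nd n₁ a c := by
      intro ω hω
      obtain ⟨k1, k2⟩ := b33 ω hω
      rw [← hn₂] at k1 k2
      have k2' : |c (ptr F J ω) - c₀ (ptr F J ω)| ≤ 2 / 2 ^ n₀ * 2 ^ n₂ := k2
      obtain ⟨l1, l2, -⟩ := hlab.dp ω (hB₁A ω (b31 ω hω))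
      refine ⟨fun k hk => ?_, ?_, hrel1 ω (b31 ω hω)⟩
      · have h1 : |a (ptr F J ω) k - a₀ (ptr F J ω) k| ≤ 2 / 2 ^ n₀ * 2 ^ n₂ := k1 k hk
        have h2 := l1 k hk
        have h3 : a (ptr F J ω) k = a₀ (ptr F J ω) k + (a (ptr F J ω) k - a₀ (ptr F J ω) k) := by
          ring
        rw [h3]
        exact (abs_add_le _ _).trans (by linarith)
      · have h3 : c (ptr F J ω) = c₀ (ptr F J ω) + (c (ptr F J ω) - c₀ (ptr F J ω)) := by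
          ring
        rw [h3]
        exact (abs_add_le _ _).trans (by linarith)
    -- closed slopes
    have hth : ∃ th : LnT F → Fin m → ℝ, ∀ ω, B₁ ω → ∀ k ∈ I,
        a (ptr F J ω) k = th (slam F ⌊w * J⌋₊ ω) k := by
      choose! f' hf' using hacl
      exact ⟨fun s k => f' k s, fun ω hω k hk => hf' k hk ω hω⟩
    obtain ⟨th, hth⟩ := hth
    have h1 := hb₃ J j3 F A (S.mono t3 hAS) B₃ n₁ a c th (fun ω hω => hB₁A ω (b31 ω hω))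
      (by rw [← hnd]; exact hdp) (fun ω hω k hk => by
        rw [hth ω (b31 ω hω) k hk, sub_self, abs_zero]
        positivity) (by rw [← hn₁])
    have h2 : h / 8 * Pe F.p A < Pe F.p B₃ := by linarith
    have h3 : Real.exp (-(δ₀ * J)) < h / 8 := by
      have h4 : -(δ₀ * J) < Real.log (h / 8) := by
        have h5 : Real.log (8 / h) = -Real.log (h / 8) := by
          rw [← Real.log_inv]
          congr 1
          field_simp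
        linarith
      have h6 := Real.exp_lt_exp.2 h4
      rwa [Real.exp_log (by positivity)] at h6
    have h4 := mul_lt_mul_of_pos_right h3 hA0
    linarith
  -- the other coefficients
  have hst2 : Pe F.p B₂ ≤ h / 4 * Pe F.p A := by
    by_contra hcon
    push Not at hcon
    have hSt := hsubS B₂ hB₂A hcon
    have hB₂0 : 0 < Pe F.p B₂ := lt_of_le_of_lt (by positivity) hcon
    have hvin : v ∈ insert v I := Finset.mem_insert_self _ _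
    have hkin : ∀ k ∈ I, k ∈ insert v I := fun k hk => Finset.mem_insert_of_mem hk
    have hcl2 := (hcl v hvin).sub hB₂A
    obtain ⟨B₃, b31, b32, b33⟩ := hb₂ J j2 F B₂ hSt (fun p k => δ p k + δ p v * a₀ p k)
      (fun p => δc p + δ p v * c₀ p) (η + T * (1 / 2 ^ n₀)) (by positivity)
      (fun k hk => Cl1.map2 (fun x y => x + y) ((hcl k (hkin k hk)).sub hB₂A)
        (Cl1.map2 (fun x y => x * y) hcl2 ((hlab.ca k hk).sub hB₂A)))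
      (Cl1.map2 (fun x y => x + y) (hcc.sub hB₂A)
        (Cl1.map2 (fun x y => x * y) hcl2 (hlab.cc.sub hB₂A))) (fun ω hω => by
        have h1 := hrel ω (hB₂A ω hω)
        have h2 := (hlab.dp ω (hB₂A ω hω)).2.2
        rw [hB₂] at hω
        have h3 := hω.2.1
        rw [Finset.sum_insert hv] at h1
        have h4 : δc (ptr F J ω) + δ (ptr F J ω) v * c₀ (ptr F J ω) +
            ∑ k ∈ I, (δ (ptr F J ω) k + δ (ptr F J ω) v * a₀ (ptr F J ω) k) * F.d ω k =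
            (δc (ptr F J ω) + (δ (ptr F J ω) v * F.d ω v +
              ∑ k ∈ I, δ (ptr F J ω) k * F.d ω k)) -
            δ (ptr F J ω) v *
              (F.d ω v - c₀ (ptr F J ω) - ∑ k ∈ I, a₀ (ptr F J ω) k * F.d ω k) := by
          have h5 : ∑ k ∈ I, (δ (ptr F J ω) k + δ (ptr F J ω) v * a₀ (ptr F J ω) k) * F.d ω k =
              ∑ k ∈ I, δ (ptr F J ω) k * F.d ω k + δ (ptr F J ω) v *
                ∑ k ∈ I, a₀ (ptr F J ω) k * F.d ω k := by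
            rw [Finset.mul_sum, ← Finset.sum_add_distrib]
            exact Finset.sum_congr rfl fun k _ => by ring
          rw [h5]
          ring
        rw [h4]
        refine (abs_sub _ _).trans (add_le_add h1 ?_)
        rw [abs_mul]
        exact mul_le_mul h3 h2 (abs_nonneg _) hT0.le)
    have hB₃0 : 0 < Pe F.p B₃ := by linarith
    obtain ⟨ω, hω⟩ : ∃ ω, B₃ ω := by
      by_contra hcon2
      push Not at hcon2
      have h1 : Pe F.p B₃ = 0 := by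
        unfold Pe
        refine Finset.sum_eq_zero fun ω _ => ?_
        exact if_neg (fun h2 => hcon2 ω (of_eq_true h2))
      linarith
    obtain ⟨k1, k2⟩ := b33 ω hω
    rw [← hn₂] at k1 k2
    have k2' : |δc (ptr F J ω) + δ (ptr F J ω) v * c₀ (ptr F J ω)| ≤
      (η + T * (1 / 2 ^ n₀)) * 2 ^ n₂ := k2
    have hω2 := b31 ω hω
    have hωA := hB₂A ω hω2
    obtain ⟨l1, l2, -⟩ := hlab.dp ω hωA
    rw [hB₂] at hω2
    obtain ⟨-, m1, m2⟩ := hω2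
    have hη' : (η + T * (1 / 2 ^ n₀)) * 2 ^ n₂ ≤ η * 2 ^ n₄ / 2 := by
      have h1 : (2 : ℝ) ^ n₀ * (η + T * (1 / 2 ^ n₀)) ≤ 2 * T := by
        have h2 : (2 : ℝ) ^ n₀ * (η + T * (1 / 2 ^ n₀)) = η * 2 ^ n₀ + T := by
          field_simp
        have h3 : η * 2 ^ n₀ ≤ η * 2 ^ n₁ := mul_le_mul_of_nonneg_left P01 hη.le
        rw [h2, hT]
        linarith
      have h2 : (2 : ℝ) ^ (n₂ + n₁) * 2 ^ 2 ≤ 2 ^ n₀ * 2 ^ n₄ := hpn _ _ _ _ p4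
      rw [pow_add] at h2
      have h3 : 2 ^ n₀ * ((η + T * (1 / 2 ^ n₀)) * 2 ^ n₂) ≤ 2 ^ n₀ * (η * 2 ^ n₄ / 2) := by
        calc (2 : ℝ) ^ n₀ * ((η + T * (1 / 2 ^ n₀)) * 2 ^ n₂) =
            2 ^ n₀ * (η + T * (1 / 2 ^ n₀)) * 2 ^ n₂ := by ring
          _ ≤ 2 * T * 2 ^ n₂ := mul_le_mul_of_nonneg_right h1 P2.le
          _ = η * (2 ^ n₂ * 2 ^ n₁ * 2 ^ 2) / 2 := by rw [hT]; ring
          _ ≤ η * (2 ^ n₀ * 2 ^ n₄) / 2 := by
              have := mul_le_mul_of_nonneg_left h2 hη.le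
              linarith
          _ = 2 ^ n₀ * (η * 2 ^ n₄ / 2) := by ring
      exact le_of_mul_le_mul_left h3 P0
    have hT3 : T * 2 ^ n₃ ≤ η * 2 ^ n₄ / 2 := by
      have h2 : (2 : ℝ) ^ (n₁ + n₃) * 2 ^ 2 ≤ 2 ^ n₄ * 2 ^ 0 := hpn _ _ _ _ (by omega)
      rw [pow_add, pow_zero, mul_one] at h2
      have h3 := mul_le_mul_of_nonneg_left h2 hη.le
      have h4 : η * (2 ^ n₁ * 2 ^ n₃ * 2 ^ 2) = 4 * (T * 2 ^ n₃) := by rw [hT]; ring
      rw [h4] at h3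
      have h5 : 0 ≤ T * 2 ^ n₃ := by positivity
      linarith
    refine m2 ⟨fun k hk => ?_, ?_⟩
    · have h1 : |δ (ptr F J ω) k + δ (ptr F J ω) v * a₀ (ptr F J ω) k| ≤
        (η + T * (1 / 2 ^ n₀)) * 2 ^ n₂ := k1 k hk
      have h2 := l1 k hk
      have h3 : δ (ptr F J ω) k = (δ (ptr F J ω) k + δ (ptr F J ω) v * a₀ (ptr F J ω) k) -
          δ (ptr F J ω) v * a₀ (ptr F J ω) k := by ring
      rw [h3]
      refine (abs_sub _ _).trans ?_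
      have h4 : |δ (ptr F J ω) v * a₀ (ptr F J ω) k| ≤ T * 2 ^ n₃ := by
        rw [abs_mul]
        exact mul_le_mul m1 h2 (abs_nonneg _) hT0.le
      linarith
    · have h3 : δc (ptr F J ω) = (δc (ptr F J ω) + δ (ptr F J ω) v * c₀ (ptr F J ω)) -
          δ (ptr F J ω) v * c₀ (ptr F J ω) := by ring
      rw [h3]
      refine (abs_sub _ _).trans ?_
      have h4 : |δ (ptr F J ω) v * c₀ (ptr F J ω)| ≤ T * 2 ^ n₃ := by
        rw [abs_mul]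
        exact mul_le_mul m1 l2 (abs_nonneg _) hT0.le
      linarith
  -- the rest
  refine ⟨fun ω => A ω ∧ ¬ B₁ ω ∧ ¬ B₂ ω, fun ω hω => hω.1, ?_, fun ω hω => ?_⟩
  · have h1 := Pe_parts (p := F.p) (B := A) (B' := B₁) hB₁A
    have hB₂' : Sub B₂ (fun ω => A ω ∧ ¬ B₁ ω) := fun ω hω => by
      refine ⟨hB₂A ω hω, fun h2 => ?_⟩
      rw [hB₂] at hω
      rw [hB₁] at h2
      exact absurd hω.2.1 (not_le.2 h2.2)
    have h2 := Pe_parts (p := F.p) (B := fun ω => A ω ∧ ¬ B₁ ω) (B' := B₂) hB₂'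
    have h3 : Pe F.p (fun ω => A ω ∧ ¬ B₁ ω ∧ ¬ B₂ ω) =
        Pe F.p (fun ω => (A ω ∧ ¬ B₁ ω) ∧ ¬ B₂ ω) := by
      congr 1
      funext ω
      rw [and_assoc]
    rw [h3]
    have h4 := mul_nonneg hh.le hA0.le
    linarith
  · obtain ⟨h1, h2, h3⟩ := hω
    have h4 : |δ (ptr F J ω) v| ≤ T := by
      by_contra hcon
      refine h2 ?_
      rw [hB₁]
      exact ⟨h1, not_le.1 hcon⟩
    have h5 : (∀ k ∈ I, |δ (ptr F J ω) k| ≤ η * 2 ^ n₄) ∧ |δc (ptr F J ω)| ≤ η * 2 ^ n₄ := by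
      by_contra hcon
      refine h3 ?_
      rw [hB₂]
      exact ⟨h1, h4, hcon⟩
    refine ⟨fun k hk => ?_, h5.2⟩
    rcases Finset.mem_insert.1 hk with rfl | hk
    · refine h4.trans ?_
      rw [hT]
      exact mul_le_mul_of_nonneg_left (pow_le_pow_right₀ (by norm_num) (by omega)) hη.le
    · exact h5.1 k hk

end Pool.OWN72
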