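import Pool.Agent.H72.OWN.Vis

/-!
# Own velocities of a chain of coordinates at the exact point

`cf_all`: the coefficients of closed relations over a chain with affine closed labels. `rep_all`: the
own velocities of all levels are affine in the velocity of the first coordinate, at the exact point,
to `P` natural digits, if the numbers of the levels grow faster than the window.
-/

set_option autoImplicit false

namespace Pool.OWN72

open Finset MvPolynomial
open Pool.Agent.H49.Ent Pool.Agent.H32.Dense Pool.STK Pool.KA Pool.KSAT Pool.K2S Pool.PB Pool.GEN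
open Pool.S6C

variable {m n J : ℕ}

/-- The first `l` coordinates of a chain. -/
def img (c : ℕ → Fin m) (l : ℕ) : Finset (Fin m) := (range l).image c

theorem img_succ (c : ℕ → Fin m) (l : ℕ) : img c (l + 1) = insert (c l) (img c l) := by
  unfold img
  rw [Finset.range_add_one, Finset.image_insert]

theorem img_one (c : ℕ → Fin m) : img c 1 = {c 0} := by
  unfold img
  rw [Finset.range_one, Finset.image_singleton]

theorem notMem_img {c : ℕ → Fin m} {n l : ℕ} (hc : Set.InjOn c (Set.Iio n)) (hl : l < n) :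
    c l ∉ img c l := by
  unfold img
  intro h
  obtain ⟨k, hk, he⟩ := Finset.mem_image.1 h
  have h1 := Finset.mem_range.1 hk
  have := hc (show k < n by omega) (show l < n from hl) he
  omega

/-- **The data of a chain with affine closed labels** at the windows of a dense set. -/
structure AfD (S : PCl m) (L : Finset (Fin m) → Fin m → ℝ → ℝ → ℝ) (c : ℕ → Fin m) (n : ℕ)
    (Wd : Set ℝ) : Prop where
  inj : Set.InjOn c (Set.Iio n)
  act : Pool.MIC6.ActF S (c 0)
  win : ∀ w ∈ Wd, 0 ≤ w ∧ w < 1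
  low : ∀ w ∈ Wd, ∀ l, 1 ≤ l → l < n → w ≤ L (img c l) (c l) w 0
  up : ∀ w ∈ Wd, ∀ l, 1 ≤ l → l < n → L (img c l) (c l) w 0 < 1
  srt : ∀ w ∈ Wd, ∀ l, 1 ≤ l → l + 2 < n →
    L (img c l) (c l) w 0 ≤ L (img c (l + 1)) (c (l + 1)) w 0
  lab : ∀ w ∈ Wd, ∀ l, 1 ≤ l → l < n → HasA S (img c l) (c l) w (L (img c l) (c l) w 0)

/-- The sizes of the coefficients. -/
noncomputable def Xc (L : Finset (Fin m) → Fin m → ℝ → ℝ → ℝ) (c : ℕ → Fin m) (w : ℝ) (l : ℕ) : ℝ :=
  if l ≤ 1 then 0 else L (img c (l - 1)) (c (l - 1)) w 0 - w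

/-- **The coefficients of closed relations** over a chain. -/
theorem cf_all {S : PCl m} {C₀ : ℝ} (htm : TmC S C₀)
    {L : Finset (Fin m) → Fin m → ℝ → ℝ → ℝ} (hL : LamW S L) {c : ℕ → Fin m} {n : ℕ}
    {Wd : Set ℝ} (hD : AfD S L c n Wd) {w : ℝ} (hw : w ∈ Wd) :
    ∀ l, 1 ≤ l → l < n → CfP S (img c l) w (Xc L c w l) := by
  intro l
  induction l with
  | zero => intro h; omega
  | succ l ih =>
    intro _ hl
    rcases Nat.eq_zero_or_pos l with h0 | h0
    · subst h0
      rw [zero_add, img_one]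
      unfold Xc
      rw [if_pos le_rfl]
      exact cf_zero htm hD.act w
    · have h1 := ih h0 (by omega)
      have e1 : Xc L c w (l + 1) = L (img c l) (c l) w 0 - w := by
        unfold Xc
        rw [if_neg (by omega), Nat.add_sub_cancel]
      rw [e1, img_succ]
      refine cf_step htm hL (notMem_img hD.inj (by omega)) (hD.win w hw).1 h1 ?_ ?_
        (hD.up w hw l h0 (by omega)) (hD.lab w hw l h0 (by omega))
      · unfold Xc
        split_ifs with h2
        · exact le_rfl
        · have := hD.low w hw (l - 1) (by omega) (by omega)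
          linarith
      · unfold Xc
        split_ifs with h2
        · have := hD.low w hw l h0 (by omega)
          linarith
        · have := hD.srt w hw (l - 1) (by omega) (by omega)
          rw [Nat.sub_add_cancel h0] at this
          linarith

/-- Relations over the chain, from the own velocities at the same window. -/
theorem red_all {S : PCl m} {C₀ : ℝ} (htm : TmC S C₀)
    {L : Finset (Fin m) → Fin m → ℝ → ℝ → ℝ} (hL : LamW S L) {c : ℕ → Fin m} {n : ℕ}
    {Wd : Set ℝ} (hD : AfD S L c n Wd) {a : ℝ} (ha : a ∈ Wd) {ε P : ℝ} (hε : 0 < ε) (hP : 0 ≤ P)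
    (N : ℕ) : ∀ l, 1 ≤ l → l < n → l ≤ N → (∀ j, 1 ≤ j → j < l → ∀ P' ≤ P + N * ε, 0 ≤ P' →
      RepP S (c 0) (img c j) (c j) a (L (img c j) (c j) a 0) P') →
      RedP S (c 0) (img c l) a (P + (N - l : ℕ) * ε) := by
  intro l
  induction l with
  | zero => intro h; omega
  | succ l ih =>
    intro _ hl hlN hrep
    rcases Nat.eq_zero_or_pos l with h0 | h0
    · subst h0
      rw [zero_add, img_one]
      exact red_zero S (c 0) a _
    · have h1 := ih h0 (by omega) (by omega) fun j j1 j2 P' hP' => hrep j j1 (by omega) P' hP'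
      have e2 : ((N - l : ℕ) : ℝ) = ((N - (l + 1) : ℕ) : ℝ) + 1 := by
        have : N - l = N - (l + 1) + 1 := by omega
        rw [this]
        push_cast
        ring
      have h3 : (0 : ℝ) ≤ ((N - (l + 1) : ℕ) : ℝ) := Nat.cast_nonneg _
      have h4 : ((N - l : ℕ) : ℝ) ≤ N := by exact_mod_cast Nat.sub_le _ _
      have hcf := cf_all htm hL hD ha (l + 1) (by omega) (by omega)
      have e1 : Xc L c a (l + 1) = L (img c l) (c l) a 0 - a := by
        unfold Xc
        rw [if_neg (by omega), Nat.add_sub_cancel]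
      rw [e1, img_succ] at hcf
      rw [img_succ]
      refine red_step htm (notMem_img hD.inj (by omega)) (P' := P + ((N - l : ℕ) : ℝ) * ε)
        (add_nonneg hP (mul_nonneg h3 hε.le)) (by rw [e2]; nlinarith)
        (hD.low a ha l h0 (by omega)) hcf (hD.lab a ha l h0 (by omega))
        (hrep l h0 (by omega) _ (by nlinarith) (by
          rw [e2]
          nlinarith)) h1

/-- **Own velocities of a chain.** -/
theorem rep_all {S : PCl m} {C₀ : ℝ} (htm : TmC S C₀)
    {L : Finset (Fin m) → Fin m → ℝ → ℝ → ℝ} (hL : LamW S L) {c : ℕ → Fin m} {n : ℕ}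
    {Wd : Set ℝ} (hD : AfD S L c n Wd) {g R Pm Δ κ : ℝ} (hκ : 0 < κ)
    (hden : ∀ x y : ℝ, g ≤ x → x < y → y ≤ g + R → ∃ w ∈ Wd, x < w ∧ w < y)
    (hlw : ∀ w : ℝ, g ≤ w → w ≤ g + R → ∀ l, 1 ≤ l → l < n → w < L (img c l) (c l) w 0)
    (hgr : ∀ l, 1 ≤ l → l < n → ∀ w : ℝ, g ≤ w → w + Δ ≤ g + R → ∃ a₀ < w + Δ, w ≤ a₀ ∧
      ∀ a, a₀ < a → a < w + Δ → L (img c l) (c l) w 0 - w + Pm < L (img c l) (c l) a 0 - a) :
    ∀ l, 1 ≤ l → l < n → ∀ w, g ≤ w → w + l * Δ ≤ g + R → 0 < Δ → ∀ P, 0 ≤ P →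
      P + l * κ ≤ Pm → RepP S (c 0) (img c l) (c l) w (L (img c l) (c l) w 0) P := by
  intro l
  induction l using Nat.strong_induction_on with
  | _ l ih =>
    intro hl1 hln w hw hwR hΔ P hP hPm
    have hl0 : (0 : ℝ) < l := by exact_mod_cast hl1
    have hl1' : (1 : ℝ) ≤ l := by exact_mod_cast hl1
    have hwΔ : w + Δ ≤ g + R := by nlinarith
    obtain ⟨a₀, h1, h2, h3⟩ := hgr l hl1 hln w hw hwΔ
    obtain ⟨a, ha, h4, h5⟩ := hden a₀ (w + Δ) (hw.trans h2) h1 hwΔ
    have h6 := h3 a h4 h5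
    have hwa : w ≤ a := h2.trans h4.le
    obtain ⟨ε, hε⟩ : ∃ ε, ε = κ / (l + 1) := ⟨_, rfl⟩
    have hε0 : 0 < ε := by rw [hε]; positivity
    have hε1 : (l + 1 : ℕ) * ε ≤ κ := by
      rw [hε]
      push_cast
      exact (mul_div_cancel₀ κ (by positivity : (l : ℝ) + 1 ≠ 0)).le
    have hred := red_all htm hL hD ha hε0 hP (l + 1) l hl1 hln (by omega)
      (fun j j1 j2 P' hP' hP0 => by
        have hj : (j : ℝ) + 1 ≤ l := by exact_mod_cast j2
        refine ih j j2 j1 (by omega) a (hw.trans hwa) ?_ hΔ P' hP0 ?_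
        · have : ((j : ℝ) + 1) * Δ ≤ l * Δ := mul_le_mul_of_nonneg_right hj hΔ.le
          linarith
        · have : ((j : ℝ) + 1) * κ ≤ l * κ := mul_le_mul_of_nonneg_right hj hκ.le
          linarith)
    have e1 : ((l + 1 - l : ℕ) : ℝ) = 1 := by
      have : l + 1 - l = 1 := by omega
      rw [this, Nat.cast_one]
    rw [e1, one_mul] at hred
    have hlκ : κ ≤ l * κ := by nlinarith
    exact rep_of hwa (hD.win a ha).2.le (hlw w hw (by linarith) l hl1 hln)
      (by linarith) hP (by linarith) (hD.lab a ha l hl1 hln) hred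

end Pool.OWN72
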