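import Pool.Agent.H72.OWN.Rep2

/-!
# Own velocities of a chain, from windows with labels which are not dense

`GrF`: the numbers are larger than the window, and grow by `Pm` digits more than the window at some
window with labels on every interval of the length `Δ`.
-/

set_option autoImplicit false

namespace Pool.OWN72

open Finset MvPolynomial
open Pool.Agent.H49.Ent Pool.Agent.H32.Dense Pool.STK Pool.KA Pool.KSAT Pool.K2S Pool.PB Pool.GEN
open Pool.S6C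

variable {m n J : ℕ}

/-- **The numbers of a chain near a window.** -/
structure GrF (L : Finset (Fin m) → Fin m → ℝ → ℝ → ℝ) (c : ℕ → Fin m) (n : ℕ) (Wd : Set ℝ)
    (g R Pm Δ : ℝ) : Prop where
  hlw : ∀ w : ℝ, g ≤ w → w ≤ g + R → ∀ l, 1 ≤ l → l < n → w < L (img c l) (c l) w 0
  nx : ∀ l, 1 ≤ l → l < n → ∀ w : ℝ, g ≤ w → w + Δ ≤ g + R → ∃ a ∈ Wd, w ≤ a ∧ a < w + Δ ∧
      L (img c l) (c l) w 0 - w + Pm < L (img c l) (c l) a 0 - a

theorem GrE.grf {L : Finset (Fin m) → Fin m → ℝ → ℝ → ℝ} {c : ℕ → Fin m} {n : ℕ} {Wd : Set ℝ}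
    {g R Pm Δ : ℝ} (h : GrE L c n Wd g R Pm Δ) : GrF L c n Wd g R Pm Δ where
  hlw := h.hlw
  nx l h1 h2 w h3 h4 := by
    obtain ⟨a₀, k1, k2, k3⟩ := h.gr l h1 h2 w h3 h4
    obtain ⟨a, ha, k4, k5⟩ := h.den a₀ (w + Δ) (h3.trans k2) k1 h4
    exact ⟨a, ha, k2.trans k4.le, k5, k3 a k4 k5⟩

/-- **Own velocities of a chain.** -/
theorem rep_alF {S : PCl m} {C₀ : ℝ} (htm : TmC S C₀)
    {L : Finset (Fin m) → Fin m → ℝ → ℝ → ℝ} (hL : LamW S L) {c : ℕ → Fin m} {n : ℕ}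
    {Wd : Set ℝ} (hD : AfE S L c n Wd) {g R Pm Δ κ : ℝ} (hκ : 0 < κ)
    (hG : GrF L c n Wd g R Pm Δ) :
    ∀ l, 1 ≤ l → l < n → ∀ w, g ≤ w → w + l * Δ ≤ g + R → 0 < Δ → ∀ P, 0 ≤ P →
      P + l * κ ≤ Pm → RepP S (c 0) (img c l) (c l) w (L (img c l) (c l) w 0) P := by
  intro l
  induction l using Nat.strong_induction_on with
  | _ l ih =>
    intro hl1 hln w hw hwR hΔ P hP hPm
    have hl0 : (0 : ℝ) < l := by exact_mod_cast hl1
    have hl1' : (1 : ℝ) ≤ l := by exact_mod_cast hl1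
    have hwΔ : w + Δ ≤ g + R := by nlinarith
    obtain ⟨a, ha, hwa, h5, h6⟩ := hG.nx l hl1 hln w hw hwΔ
    have hlκ : κ ≤ l * κ := by nlinarith
    have hred : RedP S (c 0) (img c l) a (P + κ / 2) := by
      refine red_at htm hL hD (κ := κ / 2) (by positivity) ha (by positivity) hl1 hln.le ?_
      intro j j1 j2 P' hP' hPP'
      have hj : (j : ℝ) + 1 ≤ l := by exact_mod_cast j2
      refine ih j j2 j1 (by omega) a (hw.trans hwa) ?_ hΔ P' hP' ?_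
      · have : ((j : ℝ) + 1) * Δ ≤ l * Δ := mul_le_mul_of_nonneg_right hj hΔ.le
        linarith
      · have : ((j : ℝ) + 1) * κ ≤ l * κ := mul_le_mul_of_nonneg_right hj hκ.le
        linarith
    exact rep_of hwa (hD.win a ha).2.le (hG.hlw w hw (by linarith) l hl1 hln)
      (by linarith) hP (by linarith) (hD.lab a ha l hl1 hln) hred

/-- **Closed relations of a chain.** -/
theorem own_redF {S : PCl m} {C₀ : ℝ} (htm : TmC S C₀)
    {L : Finset (Fin m) → Fin m → ℝ → ℝ → ℝ} (hL : LamW S L) {c : ℕ → Fin m} {n : ℕ}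
    {Wd : Set ℝ} (hD : AfE S L c n Wd) {g R Pm Δ κ : ℝ} (hκ : 0 < κ)
    (hG : GrF L c n Wd g R Pm Δ) (hΔ : 0 < Δ) {l : ℕ} (h1l : 1 ≤ l) (hln : l ≤ n) {a : ℝ}
    (ha : a ∈ Wd) (hga : g ≤ a) (haR : a + l * Δ ≤ g + R + Δ) {P : ℝ} (hP : 0 ≤ P)
    (hPm : P + l * κ ≤ Pm) : RedP S (c 0) (img c l) a P := by
  refine red_at htm hL hD hκ ha hP h1l hln ?_
  intro j j1 j2 P' hP' hPP'
  have hj : (j : ℝ) + 1 ≤ l := by exact_mod_cast j2
  refine rep_alF htm hL hD hκ hG j j1 (by omega) a hga ?_ hΔ P' hP' ?_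
  · have : ((j : ℝ) + 1) * Δ ≤ l * Δ := mul_le_mul_of_nonneg_right hj hΔ.le
    linarith
  · have : ((j : ℝ) + 1) * κ ≤ l * κ := mul_le_mul_of_nonneg_right hj hκ.le
    linarith

/-- **Own velocities over a chain**, for codes which are closed in the window `W`: `v` is any
coordinate with affine closed labels over the first `l` coordinates, of the precision `NT` at a
window `a` with labels. -/
theorem own_xF {S : PCl m} {C₀ : ℝ} (htm : TmC S C₀)
    {L : Finset (Fin m) → Fin m → ℝ → ℝ → ℝ} (hL : LamW S L) {c : ℕ → Fin m} {n : ℕ}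
    {Wd : Set ℝ} (hD : AfE S L c n Wd) {g R Pm Δ κ : ℝ} (hκ : 0 < κ)
    (hG : GrF L c n Wd g R Pm Δ) (hΔ : 0 < Δ) {l : ℕ} (h1l : 1 ≤ l) (hln : l ≤ n)
    {v : Fin m} {NT E a : ℝ} (ha : a ∈ Wd) (hT : HasB S (img c l) v a NT E)
    {w W N P x : ℝ} (hw : g ≤ w) (hwa : w ≤ a) (haR : a + l * Δ ≤ g + R + Δ) (hW : W ≤ a)
    (hP : 0 ≤ P)
    (hx : 0 < x) (hNw : 2 * x ≤ N - w) (hPm : P + 2 * x + l * κ ≤ Pm)
    (hN : N - w + P < NT - a) :
    RepX S (c 0) (img c l) v w W N P x :=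
  rep_x hW (hD.win a ha).2.le hx hNw le_rfl hP hN hT
    (own_redF htm hL hD hκ hG hΔ h1l hln ha (hw.trans hwa) haR (by positivity) hPm)

end Pool.OWN72
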