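import Pool.Agent.H72.OWN.Rep2
import Pool.Agent.H40.OWN.Ngr
import Pool.Agent.H6.OWN.Rcr
import Pool.Agent.H45.EXA.Exv
import Pool.Agent.H21.PRV.Cla

/-!
# The own velocities of two coordinates at the exact points, on large events

`OwE`: the own velocity of `u` over `y` and of `v` over `y` and `u`, with bounded coefficients which
are functions of the exact point; the slope `th` of `v` over `u` is closed. `own_ev`: they exist on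
large parts of all events.
-/

set_option autoImplicit false

namespace Pool.OWN72

open Finset MvPolynomial
open Pool.Agent.H49.Ent Pool.Agent.H32.Dense Pool.STK Pool.KA Pool.KSAT Pool.K2S Pool.PB Pool.GEN
open Pool.S6C
open Pool.JVE (DpI)
open Pool.MIC6 (res_of Dp Dt ActF ActZ rel_zcr)
open Pool.GRW (bas_part)
open Pool.REX

variable {m n J : ℕ}

/-- **The own velocities** of `u` over `y` and of `v` over `y` and `u` at the exact points. -/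
structure OwE (F : Fam m J) (A : F.Ω → Prop) (y u v : Fin m) (W e Mu Mv Nv : ℕ)
    (au cu av cv th a0 c0 : PtT F → ℝ) : Prop where
  bu : ∀ ω, A ω → |au (ptr F J ω)| ≤ 2 ^ e ∧ |cu (ptr F J ω)| ≤ 2 ^ e
  bv : ∀ ω, A ω → |th (ptr F J ω)| ≤ 2 ^ e ∧ |av (ptr F J ω)| ≤ 2 ^ e ∧ |cv (ptr F J ω)| ≤ 2 ^ e
  du : ∀ ω, A ω → |F.d ω u - cu (ptr F J ω) - au (ptr F J ω) * F.d ω y| ≤ 1 / 2 ^ Mu
  dv : ∀ ω, A ω → |F.d ω v - th (ptr F J ω) * F.d ω u - cv (ptr F J ω) -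
    av (ptr F J ω) * F.d ω y| ≤ 1 / 2 ^ Mv
  d0 : ∀ ω, A ω → |F.d ω v - c0 (ptr F J ω) - a0 (ptr F J ω) * F.d ω y -
    th (ptr F J ω) * F.d ω u| ≤ 1 / 2 ^ Nv
  cth : Cl1 F A W th
  ca0 : Cl1 F A W a0
  cc0 : Cl1 F A W c0

theorem OwE.sub {F : Fam m J} {A B : F.Ω → Prop} {y u v : Fin m} {W e Mu Mv Nv : ℕ}
    {au cu av cv th a0 c0 : PtT F → ℝ} (h : OwE F A y u v W e Mu Mv Nv au cu av cv th a0 c0)
    (hB : Sub B A) : OwE F B y u v W e Mu Mv Nv au cu av cv th a0 c0 :=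
  ⟨fun ω hω => h.bu ω (hB ω hω), fun ω hω => h.bv ω (hB ω hω), fun ω hω => h.du ω (hB ω hω),
    fun ω hω => h.dv ω (hB ω hω), fun ω hω => h.d0 ω (hB ω hω), h.cth.sub hB, h.ca0.sub hB,
    h.cc0.sub hB⟩

/-- The numbers fit. -/
theorem own_fit {e₀ x γ : ℝ} (hx : 0 < x) (hγ : 0 < γ) (h : 4 * (x + γ) ≤ e₀) :
    ∃ J₁ : ℕ, ∀ J ≥ J₁, ⌊x * (J : ℝ)⌋₊ + ⌊γ * (J : ℝ)⌋₊ + 4 ≤ ⌊e₀ * (J : ℝ)⌋₊ := by
  obtain ⟨J₁, hJ₁⟩ := exists_nat_ge (5 / x)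
  refine ⟨J₁, fun J hJ => ?_⟩
  have hJr : (J₁ : ℝ) ≤ J := by exact_mod_cast hJ
  have hJ0 : (0 : ℝ) ≤ J := Nat.cast_nonneg J
  have q1 : 5 ≤ x * J := by
    have h1 := hJ₁.trans hJr
    rw [div_le_iff₀ hx] at h1
    linarith
  have f1 : (⌊x * (J : ℝ)⌋₊ : ℝ) ≤ x * J := Nat.floor_le (by positivity)
  have f2 : (⌊γ * (J : ℝ)⌋₊ : ℝ) ≤ γ * J := Nat.floor_le (by positivity)
  have f3 : e₀ * (J : ℝ) - 1 < ⌊e₀ * (J : ℝ)⌋₊ := Nat.sub_one_lt_floor _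
  have g1 : 4 * (x + γ) * J ≤ e₀ * J := mul_le_mul_of_nonneg_right h hJ0
  have g2 : 0 ≤ γ * J := by positivity
  have h2 : (⌊x * (J : ℝ)⌋₊ : ℝ) + ⌊γ * (J : ℝ)⌋₊ + 4 ≤ ⌊e₀ * (J : ℝ)⌋₊ := by nlinarith
  exact_mod_cast h2

/-- **The own velocities exist on large events.** -/
theorem own_ev {S : PCl m} {C₀ : ℝ} (htm : TmC S C₀) {y u v : Fin m} (hyu : y ≠ u)
    (hact : ActF S y) {W U D P : ℝ}
    (hu : HasA S {y} u W U) (hv : HasA S {y, u} v W D) (ru : RepP S y {y} u W U P)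
    (rv : RepP S y {y, u} v W D P) {e₀ η x : ℝ} (he₀ : 0 < e₀) (hη : 0 < η) (hx : 0 < x) :
    Bas S (fun J F A => ∃ (B : F.Ω → Prop) (au cu av cv th a0 c0 : PtT F → ℝ), Sub B A ∧
      (1 - η) * Pe F.p A ≤ Pe F.p B ∧ OwE F B y u v ⌊W * J⌋₊ ⌊e₀ * J⌋₊ ⌊(U - W + P) * J⌋₊
        ⌊(D - W + P) * J⌋₊ ⌊(D - W - x) * J⌋₊ au cu av cv th a0 c0) := by
  obtain ⟨xu, hxu, ru⟩ := ru
  obtain ⟨xv, hxv, rv⟩ := rv
  obtain ⟨x₁, hx₁⟩ : ∃ x₁, x₁ = min (min xu xv) (min x (e₀ / 8)) := ⟨_, rfl⟩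
  have hx₁0 : 0 < x₁ := by
    rw [hx₁]
    exact lt_min (lt_min hxu hxv) (lt_min hx (by positivity))
  have x1 : x₁ ≤ xu := by rw [hx₁]; exact (min_le_left _ _).trans (min_le_left _ _)
  have x2 : x₁ ≤ xv := by rw [hx₁]; exact (min_le_left _ _).trans (min_le_right _ _)
  have x3 : x₁ ≤ x := by rw [hx₁]; exact (min_le_right _ _).trans (min_le_left _ _)
  have x4 : x₁ ≤ e₀ / 8 := by rw [hx₁]; exact (min_le_right _ _).trans (min_le_right _ _)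
  obtain ⟨γ, hγ⟩ : ∃ γ, γ = e₀ / 8 := ⟨_, rfl⟩
  have hγ0 : 0 < γ := by rw [hγ]; positivity
  obtain ⟨h, hh⟩ : ∃ h, h = min (1 / 2) (η / 4) := ⟨_, rfl⟩
  have hh0 : 0 < h := by rw [hh]; exact lt_min (by norm_num) (by positivity)
  have hh1 : h ≤ 1 / 2 := by rw [hh]; exact min_le_left _ _
  have hh2 : 4 * h ≤ η := by
    have : h ≤ η / 4 := by rw [hh]; exact min_le_right _ _
    linarith
  obtain ⟨J₁, hJ₁⟩ := own_fit (e₀ := e₀) hx₁0 hγ0 (by rw [hγ]; linarith)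
  have hspr := spr_cls htm hact (γ := γ) hγ0 hh0
  refine Bas.mono J₁ (((hu x₁ hx₁0).and (hv x₁ hx₁0)).and (((ru x₁ hx₁0 x1 h hh0).and
    (bas_part (rv x₁ hx₁0 x2 h hh0) (c := 2) two_pos)).and
    ((bas_part hspr (c := 4) (by norm_num)).and (bas_part hspr (c := 8) (by norm_num))))) ?_
  rintro J hJ F A ⟨⟨⟨a₁, c₁, hl₁⟩, ⟨a₂, c₂, hl₂⟩⟩, ⟨hru, hrv⟩, ⟨hs1, hs2⟩⟩
  have hfit := hJ₁ J hJ
  have hA0 := Pe_nonneg F.isLaw A
  obtain ⟨B₁, b11, b12, p₁, q₁, b13⟩ := hru a₁ c₁ hl₁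
  have t1 : Pe F.p A ≤ 2 * Pe F.p B₁ := by nlinarith
  obtain ⟨B₂, b21, b22, p₂, q₂, b23⟩ := hrv B₁ b11 t1 a₂ c₂ (hl₂.sub b11)
  have t2 : Pe F.p A ≤ 4 * Pe F.p B₂ := by
    have := Pe_nonneg F.isLaw B₁
    nlinarith
  have s21 : Sub B₂ A := fun ω hω => b11 ω (b21 ω hω)
  obtain ⟨e, he⟩ : ∃ e, e = ⌊e₀ * (J : ℝ)⌋₊ := ⟨_, rfl⟩
  obtain ⟨ex, hex⟩ : ∃ e, e = ⌊x₁ * (J : ℝ)⌋₊ := ⟨_, rfl⟩
  obtain ⟨eg, heg⟩ : ∃ e, e = ⌊γ * (J : ℝ)⌋₊ := ⟨_, rfl⟩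
  rw [← he, ← hex, ← heg] at hfit
  have P1 : ∀ k : ℕ, (1 : ℝ) ≤ 2 ^ k := fun k => one_le_pow₀ (by norm_num)
  have i1 : ∀ k : ℕ, (1 : ℝ) / 2 ^ k ≤ 1 := fun k => by
    rw [div_le_one (by positivity)]
    exact P1 k
  have hyu' : u ∉ ({y} : Finset (Fin m)) := by
    rw [Finset.mem_singleton]
    exact fun h => hyu h.symm
  have sm : ∀ (f : Fin m → ℝ), ∑ k ∈ ({y, u} : Finset (Fin m)), f k = f y + f u := fun f =>
    Finset.sum_pair hyu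
  -- the slope of `u`
  obtain ⟨B₃, b31, b32, b33⟩ := hs1 B₂ s21 t2 (fun p => c₁ p + p₁ p) (fun p => a₁ p y + q₁ p) 2
    two_pos (fun ω hω => by
      have h1 := b13 ω (b21 ω hω)
      rw [Finset.sum_singleton] at h1
      have h2 := F.dir ω u
      have e1 : c₁ (ptr F J ω) + p₁ (ptr F J ω) + (a₁ (ptr F J ω) y + q₁ (ptr F J ω)) * F.d ω y =
          F.d ω u - (F.d ω u - c₁ (ptr F J ω) - a₁ (ptr F J ω) y * F.d ω y - p₁ (ptr F J ω) -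
            q₁ (ptr F J ω) * F.d ω y) := by ring
      rw [e1]
      refine (abs_sub _ _).trans ?_
      have := i1 ⌊(U - W + P) * (J : ℝ)⌋₊
      linarith)
  have t3 : Pe F.p A ≤ 8 * Pe F.p B₃ := by
    have := Pe_nonneg F.isLaw B₂
    nlinarith
  have s31 : Sub B₃ A := fun ω hω => s21 ω (b31 ω hω)
  have hth : ∀ ω, A ω → |a₂ (ptr F J ω) u| ≤ 2 ^ ex := fun ω hω => by
    have h1 := (hl₂.dp ω hω).1 u (by simp)
    rwa [← hex] at h1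
  -- the slope of `v`
  obtain ⟨B₄, b41, b42, b43⟩ := hs2 B₃ s31 t3 (fun p => c₂ p + p₂ p) (fun p => a₂ p y + q₂ p)
    (4 * 2 ^ ex) (by positivity) (fun ω hω => by
      have h1 := b23 ω (b31 ω hω)
      rw [sm] at h1
      have h2 := F.dir ω v
      have h3 := F.dir ω u
      have h4 := hth ω (s31 ω hω)
      have e1 : c₂ (ptr F J ω) + p₂ (ptr F J ω) + (a₂ (ptr F J ω) y + q₂ (ptr F J ω)) * F.d ω y =
          F.d ω v - a₂ (ptr F J ω) u * F.d ω u - (F.d ω v - c₂ (ptr F J ω) -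
            (a₂ (ptr F J ω) y * F.d ω y + a₂ (ptr F J ω) u * F.d ω u) - p₂ (ptr F J ω) -
            q₂ (ptr F J ω) * F.d ω y) := by ring
      rw [e1]
      refine (abs_sub _ _).trans ?_
      have h5 : |F.d ω v - a₂ (ptr F J ω) u * F.d ω u| ≤ 1 + 2 ^ ex := by
        refine (abs_sub _ _).trans (add_le_add h2 ?_)
        rw [abs_mul]
        calc |a₂ (ptr F J ω) u| * |F.d ω u| ≤ 2 ^ ex * 1 :=
              mul_le_mul h4 h3 (abs_nonneg _) (by positivity)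
          _ = 2 ^ ex := mul_one _
      have h6 := i1 ⌊(D - W + P) * (J : ℝ)⌋₊
      have h7 := P1 ex
      linarith)
  have s41 : Sub B₄ A := fun ω hω => s31 ω (b41 ω hω)
  have s43 : Sub B₄ B₂ := fun ω hω => b31 ω (b41 ω hω)
  refine ⟨B₄, fun p => a₁ p y + q₁ p, fun p => c₁ p + p₁ p, fun p => a₂ p y + q₂ p,
    fun p => c₂ p + p₂ p, fun p => a₂ p u, fun p => a₂ p y, c₂, s41, ?_, ?_⟩
  · have g1 : (1 - h) * ((1 - h) * ((1 - h) * ((1 - h) * Pe F.p A))) ≤ Pe F.p B₄ := by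
      have k0 : (0 : ℝ) ≤ 1 - h := by linarith
      refine le_trans (mul_le_mul_of_nonneg_left ?_ k0) b42
      refine le_trans (mul_le_mul_of_nonneg_left ?_ k0) b32
      exact le_trans (mul_le_mul_of_nonneg_left b12 k0) b22
    refine le_trans ?_ g1
    have g2 : (1 : ℝ) - 4 * h ≤ (1 - h) * ((1 - h) * ((1 - h) * (1 - h))) := by nlinarith [sq_nonneg h, sq_nonneg (1 - h), mul_pos hh0 hh0]
    calc (1 - η) * Pe F.p A ≤ ((1 - h) * ((1 - h) * ((1 - h) * (1 - h)))) * Pe F.p A :=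
          mul_le_mul_of_nonneg_right (by linarith) hA0
      _ = (1 - h) * ((1 - h) * ((1 - h) * ((1 - h) * Pe F.p A))) := by ring
  -- powers
  have k1 : (2 : ℝ) ^ eg * 2 ≤ 2 ^ e := by
    rw [← pow_succ]
    exact pow_le_pow_right₀ (by norm_num) (by omega)
  have k2 : (2 : ℝ) + 2 ^ eg * 2 ≤ 2 ^ e := by
    have h1 : (2 : ℝ) ^ (eg + 2) ≤ 2 ^ e := pow_le_pow_right₀ (by norm_num) (by omega)
    rw [pow_add] at h1
    have := P1 eg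
    linarith
  have k3 : (2 : ℝ) ^ eg * (4 * 2 ^ ex) ≤ 2 ^ e := by
    have h1 : (2 : ℝ) ^ (ex + eg + 2) ≤ 2 ^ e := pow_le_pow_right₀ (by norm_num) (by omega)
    rw [pow_add, pow_add] at h1
    linarith
  have k4 : (4 : ℝ) * 2 ^ ex + 2 ^ eg * (4 * 2 ^ ex) ≤ 2 ^ e := by
    have h1 : (2 : ℝ) ^ (ex + eg + 3) ≤ 2 ^ e := pow_le_pow_right₀ (by norm_num) (by omega)
    rw [pow_add, pow_add] at h1
    have h2 := P1 eg
    have h3 := P1 ex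
    nlinarith
  have k5 : (2 : ℝ) ^ ex ≤ 2 ^ e := pow_le_pow_right₀ (by norm_num) (by omega)
  have cd : ∀ (f g E X : ℝ) (ω : F.Ω), |f + g * F.d ω y| ≤ E → |g| ≤ X → |f| ≤ E + X := by
    intro f g E X ω h1 h2
    have h3 := F.dir ω y
    have h4 : |g * F.d ω y| ≤ X := by
      rw [abs_mul]
      calc |g| * |F.d ω y| ≤ X * 1 := mul_le_mul h2 h3 (abs_nonneg _) ((abs_nonneg _).trans h2)
        _ = X := mul_one _
    have e1 : f = (f + g * F.d ω y) - g * F.d ω y := by ring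
    rw [e1]
    exact (abs_sub _ _).trans (add_le_add h1 h4)
  refine ⟨fun ω hω => ?_, fun ω hω => ?_, fun ω hω => ?_, fun ω hω => ?_, fun ω hω => ?_, ?_, ?_,
    ?_⟩
  · have h1 := b33 ω (b41 ω hω)
    rw [← heg] at h1
    rw [← he]
    refine ⟨h1.trans k1, ?_⟩
    refine (cd _ (a₁ (ptr F J ω) y + q₁ (ptr F J ω)) 2 _ ω ?_ h1).trans k2
    have h2 := b13 ω (b21 ω (s43 ω hω))
    rw [Finset.sum_singleton] at h2
    have h3 := F.dir ω u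
    have e1 : c₁ (ptr F J ω) + p₁ (ptr F J ω) + (a₁ (ptr F J ω) y + q₁ (ptr F J ω)) * F.d ω y =
        F.d ω u - (F.d ω u - c₁ (ptr F J ω) - a₁ (ptr F J ω) y * F.d ω y - p₁ (ptr F J ω) -
          q₁ (ptr F J ω) * F.d ω y) := by ring
    rw [e1]
    refine (abs_sub _ _).trans ?_
    have := i1 ⌊(U - W + P) * (J : ℝ)⌋₊
    linarith
  · have h1 := b43 ω hω
    rw [← heg] at h1
    rw [← he]
    refine ⟨(hth ω (s41 ω hω)).trans k5, h1.trans k3, ?_⟩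
    refine (cd _ (a₂ (ptr F J ω) y + q₂ (ptr F J ω)) (4 * 2 ^ ex) _ ω ?_ h1).trans k4
    have h2 := b23 ω (s43 ω hω)
    rw [sm] at h2
    have h3 := F.dir ω v
    have h3' := F.dir ω u
    have h4 := hth ω (s41 ω hω)
    have e1 : c₂ (ptr F J ω) + p₂ (ptr F J ω) + (a₂ (ptr F J ω) y + q₂ (ptr F J ω)) * F.d ω y =
        F.d ω v - a₂ (ptr F J ω) u * F.d ω u - (F.d ω v - c₂ (ptr F J ω) -
          (a₂ (ptr F J ω) y * F.d ω y + a₂ (ptr F J ω) u * F.d ω u) - p₂ (ptr F J ω) -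
          q₂ (ptr F J ω) * F.d ω y) := by ring
    rw [e1]
    refine (abs_sub _ _).trans ?_
    have h5 : |F.d ω v - a₂ (ptr F J ω) u * F.d ω u| ≤ 1 + 2 ^ ex := by
      refine (abs_sub _ _).trans (add_le_add h3 ?_)
      rw [abs_mul]
      calc |a₂ (ptr F J ω) u| * |F.d ω u| ≤ 2 ^ ex * 1 :=
            mul_le_mul h4 h3' (abs_nonneg _) (by positivity)
        _ = 2 ^ ex := mul_one _
    have h6 := i1 ⌊(D - W + P) * (J : ℝ)⌋₊
    have h7 := P1 ex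
    linarith
  · have h2 := b13 ω (b21 ω (s43 ω hω))
    rw [Finset.sum_singleton] at h2
    have e1 : F.d ω u - (c₁ (ptr F J ω) + p₁ (ptr F J ω)) -
        (a₁ (ptr F J ω) y + q₁ (ptr F J ω)) * F.d ω y = F.d ω u - c₁ (ptr F J ω) -
        a₁ (ptr F J ω) y * F.d ω y - p₁ (ptr F J ω) - q₁ (ptr F J ω) * F.d ω y := by ring
    rw [e1]
    exact h2
  · have h2 := b23 ω (s43 ω hω)
    rw [sm] at h2
    have e1 : F.d ω v - a₂ (ptr F J ω) u * F.d ω u - (c₂ (ptr F J ω) + p₂ (ptr F J ω)) -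
        (a₂ (ptr F J ω) y + q₂ (ptr F J ω)) * F.d ω y = F.d ω v - c₂ (ptr F J ω) -
        (a₂ (ptr F J ω) y * F.d ω y + a₂ (ptr F J ω) u * F.d ω u) - p₂ (ptr F J ω) -
        q₂ (ptr F J ω) * F.d ω y := by ring
    rw [e1]
    exact h2
  · have h2 := (hl₂.dp ω (s41 ω hω)).2.2
    rw [sm] at h2
    have e1 : F.d ω v - c₂ (ptr F J ω) - a₂ (ptr F J ω) y * F.d ω y -
        a₂ (ptr F J ω) u * F.d ω u = F.d ω v - c₂ (ptr F J ω) -
        (a₂ (ptr F J ω) y * F.d ω y + a₂ (ptr F J ω) u * F.d ω u) := by ring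
    rw [e1]
    refine h2.trans (one_div_le_one_div_of_le (by positivity) (pow_le_pow_right₀ (by norm_num) ?_))
    exact Nat.floor_le_floor (mul_le_mul_of_nonneg_right (by linarith) (Nat.cast_nonneg J))
  · exact (hl₂.ca u (by simp)).sub s41
  · exact (hl₂.ca y (by simp)).sub s41
  · exact hl₂.cc.sub s41

/-- Closed in a smaller window: closed on a large part. -/
theorem cut_sl {F : Fam m J} {w w' g : ℕ} (hw : w ≤ w') (hg : w' ≤ w + g) (hw' : w' ≤ J)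
    (A : F.Ω → Prop) : ∃ B : F.Ω → Prop, Sub B A ∧ Pe F.p A ≤ 2 ^ g * Pe F.p B ∧
      ∃ φ : LnT F → LnT F, ∀ ω, B ω → slam F w' ω = φ (slam F w ω) := by
  obtain ⟨B, h1, h2, i, h3⟩ := Pool.PRV.win_cut (F := F) w (w' - w) (by omega) A
  refine ⟨B, h1, h2.trans ?_, fun s => (s.1, s.2.1, 2 ^ (w' - w) * s.2.2 + i), fun ω hω => ?_⟩
  · exact mul_le_mul_of_nonneg_right (pow_le_pow_right₀ (by norm_num) (by omega))
      (Pe_nonneg F.isLaw B)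
  · have h4 := h3 ω hω
    rw [show w + (w' - w) = w' by omega] at h4
    unfold slam
    simp only [h4]

/-- The windows of a zoom. -/
theorem tm_ge (v : Vz m) {w : ℝ} (hw : 0 ≤ w) (hw1 : w ≤ 1) (J : ℕ) :
    v.B J + (⌊w * v.R J⌋₊ + 4) ≤ ⌊v.tm w * J⌋₊ + 7 := by
  obtain ⟨b1, b2, b3, b4, b5⟩ := Pool.MIC6.vz_real v J
  have hJ0 : (0 : ℝ) ≤ J := Nat.cast_nonneg J
  have hR0 : (0 : ℝ) ≤ v.R J := Nat.cast_nonneg _
  have h1 : (⌊w * (v.R J : ℝ)⌋₊ : ℝ) ≤ w * v.R J := Nat.floor_le (by positivity)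
  have h2 : w * (v.R J : ℝ) ≤ w * ((1 - v.b) * (1 - v.p) * J + 2) :=
    mul_le_mul_of_nonneg_left b5 hw
  have h3 : v.tm w * (J : ℝ) = v.b * J + w * ((1 - v.b) * (1 - v.p) * J) := by
    unfold Vz.tm
    ring
  have h4 : (v.tm w * (J : ℝ)) < ⌊v.tm w * (J : ℝ)⌋₊ + 1 := Nat.lt_floor_add_one _
  have h5 : ((v.B J + (⌊w * (v.R J : ℝ)⌋₊ + 4) : ℕ) : ℝ) < ((⌊v.tm w * (J : ℝ)⌋₊ + 7 + 1 : ℕ) : ℝ) := by
    push_cast
    nlinarith
  have h6 := (Nat.cast_lt (α := ℝ)).1 h5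
  omega

/-- The windows fit. -/
theorem win_fit (v : Vz m) {w : ℝ} (hw : 0 ≤ w) (hw1 : w ≤ 1) (h0 : 0 ≤ v.tm w)
    (h1 : v.tm w < 1) : ∃ J₂ : ℕ, ∀ J ≥ J₂, v.P J ≤ J - v.B J ∧
      v.B J + (⌊w * v.R J⌋₊ + 4) ≤ J := by
  obtain ⟨J₂, hJ₂⟩ := exists_nat_ge (8 / (1 - v.tm w))
  refine ⟨J₂, fun J hJ => ⟨?_, ?_⟩⟩
  · unfold Vz.P
    refine Nat.floor_le_of_le ?_
    calc v.p * ((J - v.B J : ℕ) : ℝ) ≤ 1 * ((J - v.B J : ℕ) : ℝ) :=
          mul_le_mul_of_nonneg_right v.p1.le (Nat.cast_nonneg _)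
      _ = _ := one_mul _
  · have hJr : (J₂ : ℝ) ≤ J := by exact_mod_cast hJ
    have hJ0 : (0 : ℝ) ≤ J := Nat.cast_nonneg J
    have h2 := hJ₂.trans hJr
    rw [div_le_iff₀ (by linarith)] at h2
    have h3 := tm_ge v hw hw1 J
    have h4 : (⌊v.tm w * (J : ℝ)⌋₊ : ℝ) ≤ v.tm w * J := Nat.floor_le (mul_nonneg h0 hJ0)
    have h5 : ((⌊v.tm w * (J : ℝ)⌋₊ + 7 : ℕ) : ℝ) ≤ J := by
      push_cast
      nlinarith
    have h6 : ⌊v.tm w * (J : ℝ)⌋₊ + 7 ≤ J := by exact_mod_cast h5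
    omega

/-- **The number of `v` over `y` and `u` in a tube**: it is at most the number of the class plus the
tube. -/
theorem num_012 {S : PCl m} (hne : S.Ne) {C₀ : ℝ} (hC₀ : 0 ≤ C₀) (htm : TmC S C₀)
    {L : Finset (Fin m) → Fin m → ℝ → ℝ → ℝ} (hL : LamW S L) (v : Vz m)
    (ε : Fin n → Fin m) {L' : Finset (Fin n) → Fin n → ℝ → ℝ → ℝ} (hL' : LamW (RecV S v ε) L')
    {κ ι k : Fin n} (hκι : κ ≠ ι) (hyu : ε κ ≠ ε ι) (hact : ActZ S v ε κ)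
    (hactF : ActF S (ε κ)) {w' w r' x q : ℝ} (hw' : w' < w) (hw0 : 0 < w) (hw1 : w < 1)
    (hx : 0 < x) (hxw : x ≤ (1 - v.b) * (1 - v.p) * w)
    (hcont : ContinuousAt (fun W => L {ε κ} (ε ι) W 0) (v.tm w))
    (hUt : v.tm w < L {ε κ} (ε ι) (v.tm w) 0)
    (hUx : L {ε κ} (ε ι) (v.tm w) 0 + v.p * (1 - v.b) + x ≤ 1) {D P ka : ℝ}
    (hD0 : v.tm w ≤ D) (hu : HasA S {ε κ} (ε ι) (v.tm w) (L {ε κ} (ε ι) (v.tm w) 0))
    (hv : HasA S {ε κ, ε ι} (ε k) (v.tm w) D)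
    (ru : RepP S (ε κ) {ε κ} (ε ι) (v.tm w) (L {ε κ} (ε ι) (v.tm w) 0) P)
    (rv : RepP S (ε κ) {ε κ, ε ι} (ε k) (v.tm w) D P)
    (hPx : v.p * (1 - v.b) + x ≤ P) (hPq : q + v.p * (1 - v.b) + x ≤ D - v.tm w + P)
    (hka : 0 < ka) (hkax : 2 * ka ≤ x) (hqk : D - v.tm w + ka + x ≤ q)
    (hng : Pool.OWN40.NgC S (ε κ) (ε ι) (ε k) (v.tm w) (L {ε κ} (ε ι) (v.tm w) 0) D ka) :
    v.sc (L' {κ, ι} k w' r') - v.p * (1 - v.b) - v.tm w < q + x := by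
  by_contra hcon
  push Not at hcon
  have hqx : x ≤ q := by linarith
  obtain ⟨e₁, he₁, hrel⟩ := rel_zcr hC₀ htm hL v ε hL' hκι hact hactF hw' hw0 hw1 hx hxw hqx hcon
    hcont hUt hUx
  obtain ⟨e₂, he₂, δ, hδ, hng⟩ := hng
  obtain ⟨e, he⟩ : ∃ e, e = min e₁ e₂ := ⟨_, rfl⟩
  have he0 : 0 < e := by rw [he]; exact lt_min he₁ he₂
  have hp0 : 0 ≤ v.p * (1 - v.b) := mul_nonneg v.p0 (by linarith [v.b1])
  have hown := own_ev htm hyu hactF hu hv ru rv (e₀ := e) (η := 1 / 2) (x := e₂) he0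
    (by norm_num) he₂
  obtain ⟨J₁, hJ₁⟩ := exists_nat_ge (32 / δ)
  have htm1 : v.tm w < 1 := by
    have h1 := v.b1
    have h2 := v.p0
    have : 0 ≤ v.p * (1 - v.b) := mul_nonneg h2 (by linarith)
    linarith
  have htm0 : 0 ≤ v.tm w := by
    have h1 := v.b1
    have h2 := v.p1
    have h3 := v.b0
    have : 0 ≤ (1 - v.b) * (1 - v.p) * w :=
      mul_nonneg (mul_nonneg (by linarith) (by linarith)) hw0.le
    unfold Vz.tm
    linarith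
  obtain ⟨J₂, hJ₂⟩ := win_fit v hw0.le hw1.le htm0 htm1
  have hfalse : Bas S (fun _ _ _ => False) := by
    refine Bas.mono (max J₁ J₂) ((hown.and (bas_part hrel (c := 2) two_pos)).and
      (hng.and ⟨1, one_pos, 0, fun J _ F A hA => (htm 1 J F A one_pos hA).1⟩)) ?_
    rintro J hJ F A ⟨⟨⟨B₁, au, cu, av, cv, th, a0, c0, s1, t1, ho⟩, hr⟩, ⟨hn, hA0⟩⟩
    have j1 : (J₁ : ℝ) ≤ J := by exact_mod_cast (le_max_left _ _).trans hJ
    obtain ⟨hPJ, hWJ⟩ := hJ₂ J ((le_max_right _ _).trans hJ)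
    have hJ0 : (0 : ℝ) ≤ J := Nat.cast_nonneg J
    have t1' : Pe F.p A ≤ 2 * Pe F.p B₁ := by linarith
    obtain ⟨th', hth'⟩ := ho.cth
    have hWle := Pool.MIC6.tm_le v hw0.le hw1.le J
    have hWge := tm_ge v hw0.le hw1.le J
    obtain ⟨Wz, hWz⟩ : ∃ Wz, Wz = v.B J + (⌊w * (v.R J : ℝ)⌋₊ + 4) := ⟨_, rfl⟩
    rw [← hWz] at hWle hWge hWJ
    have hee₁ : ⌊e * (J : ℝ)⌋₊ ≤ ⌊e₁ * (J : ℝ)⌋₊ :=
      Nat.floor_le_floor (mul_le_mul_of_nonneg_right (by rw [he]; exact min_le_left _ _) hJ0)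
    have hee₂ : ⌊e * (J : ℝ)⌋₊ ≤ ⌊e₂ * (J : ℝ)⌋₊ :=
      Nat.floor_le_floor (mul_le_mul_of_nonneg_right (by rw [he]; exact min_le_right _ _) hJ0)
    have hfl : ∀ a b : ℝ, a ≤ b → ⌊a * (J : ℝ)⌋₊ ≤ ⌊b * (J : ℝ)⌋₊ := fun a b h =>
      Nat.floor_le_floor (mul_le_mul_of_nonneg_right h hJ0)
    obtain ⟨B₂, s2, t2, sg, tu, hst⟩ := hr B₁ s1 t1' au cu av cv th th' ⌊e * (J : ℝ)⌋₊
      ⌊(L {ε κ} (ε ι) (v.tm w) 0 - v.tm w + P) * J⌋₊ ⌊(D - v.tm w + P) * J⌋₊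
      ⌊v.tm w * (J : ℝ)⌋₊ hee₁ (hfl _ _ (by linarith)) (hfl _ _ (by linarith))
      (by rw [← hWz]; exact hWle)
      (fun ω hω => ⟨(ho.bu ω hω).1, (ho.bu ω hω).2, ho.du ω hω⟩)
      (fun ω hω => ⟨(ho.bv ω hω).1, (ho.bv ω hω).2.1, ho.dv ω hω, hth' ω hω⟩) hPJ
    rw [← hWz] at hst
    obtain ⟨B₃, s3, t3, φ, hφ⟩ := cut_sl hWle hWge hWJ B₂
    have s31 : Sub B₃ B₁ := fun ω hω => s2 ω (s3 ω hω)
    have s3A : Sub B₃ A := fun ω hω => s1 ω (s31 ω hω)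
    have ho3 := ho.sub s31
    have key := hn B₃ au cu av cv th (sg ∘ φ) (tu ∘ φ) ⌊e * (J : ℝ)⌋₊
      ⌊(L {ε κ} (ε ι) (v.tm w) 0 - v.tm w + P) * J⌋₊ ⌊(D - v.tm w + P) * J⌋₊ s3A hee₂
      (hfl _ _ (by linarith)) (hfl _ _ (by linarith))
      (fun ω hω => ⟨(ho3.bu ω hω).1, (ho3.bu ω hω).2, ho3.du ω hω⟩)
      (fun ω hω => ⟨(ho3.bv ω hω).1, (ho3.bv ω hω).2.1, (ho3.bv ω hω).2.2, ho3.dv ω hω⟩)
      ho3.cth ⟨c0, a0, ho3.cc0, ho3.ca0, ho3.d0⟩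
      (fun ω hω => by
        have h1 := (hst ω (s3 ω hω)).2
        rw [hφ ω hω] at h1
        refine h1.trans (add_le_add ?_ ?_)
        · exact one_div_le_one_div_of_le (by positivity)
            (pow_le_pow_right₀ (by norm_num) (hfl _ _ (by linarith)))
        · rw [mul_one_div]
          exact div_le_div_of_nonneg_left (abs_nonneg _) (by positivity)
            (pow_le_pow_right₀ (by norm_num) (hfl _ _ (by linarith))))
    have h2 : Pe F.p A ≤ 2 * (64 * (2 ^ 7 * Pe F.p B₃)) := by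
      have := Pe_nonneg F.isLaw B₁
      linarith
    have h3 : Real.exp (-(δ * J)) ≤ 1 / 32768 := by
      have h4 : 32 ≤ δ * J := by
        have h1 := hJ₁.trans j1
        rw [div_le_iff₀ hδ] at h1
        linarith
      have h5 : (32768 : ℝ) ≤ Real.exp (δ * J) := by
        have h6 : (2 : ℝ) ≤ Real.exp 1 := by
          have := Real.add_one_le_exp (1 : ℝ)
          linarith
        have h7 : (2 : ℝ) ^ 32 ≤ Real.exp 32 := by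
          have h8 : Real.exp 32 = Real.exp 1 ^ 32 := by
            rw [← Real.exp_nat_mul]
            norm_num
          rw [h8]
          exact pow_le_pow_left₀ (by norm_num) h6 32
        have h9 := Real.exp_le_exp.2 h4
        have h10 : (32768 : ℝ) ≤ 2 ^ 32 := by norm_num
        linarith
      rw [Real.exp_neg, ← one_div]
      exact one_div_le_one_div_of_le (by norm_num) h5
    have h4 : Real.exp (-(δ * J)) * Pe F.p A ≤ 1 / 32768 * Pe F.p A :=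
      mul_le_mul_of_nonneg_right h3 hA0.le
    linarith
  obtain ⟨τ, hτ, J₀, hb⟩ := hfalse
  obtain ⟨J, hJ, F, A, hA⟩ := hne τ hτ J₀
  exact hb J hJ F A hA

end Pool.OWN72
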