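import Pool.Agent.H72.OWN.Vs3
import Pool.Agent.H72.OWN.Own3

/-!
# The numbers of the zooms behind visible records
-/

set_option autoImplicit false

namespace Pool.OWN72

open Finset
open Pool.Agent.H49.Ent Pool.Agent.H32.Dense Pool.STK Pool.KA Pool.KSAT Pool.K2S Pool.PB Pool.GEN
open Pool.S6C Pool.REX Pool.REX83
open Pool.MIC6 (ActZ ActF ng_num)

variable {m n J : ℕ}

/-- The growth of the numbers after the beginning. -/
theorem gre_of {S : PCl m} {L : Finset (Fin m) → Fin m → ℝ → ℝ → ℝ}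
    {c : ℕ → Fin m} {n₀ : ℕ} {Wd : Set ℝ} {g R d be co : ℝ} {Dg sl : ℕ → ℝ}
    (hD : NrR S L c n₀ Wd g R d be co Dg sl) (hbe : 0 < be) (hbe1 : be ≤ 1) (hd : 0 ≤ d)
    (hdc : d < co) {b R' Pm Δ : ℝ} (hb : g ≤ b) (hbR : b + R' ≤ g + R)
    (hP : Pm + 5 * d < be * Δ) (hP0 : 0 ≤ Pm) : GrF L c n₀ Wd b R' Pm Δ where
  hlw w h1 h2 l a1 a2 := by
    have hs := (hD.slo l a1 a2).1
    have h3 := (abs_le.1 (hD.lin l a1 a2 w (by linarith) (by linarith))).1
    have h4 := hD.dlo l a1 a2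
    have h5 : w - g ≤ sl l * (w - g) := by nlinarith
    linarith
  nx l a1 a2 w h1 h2 := by
    have hs := hD.slo l a1 a2
    have hbΔ : be * Δ ≤ Δ ∨ Δ < 0 := by
      rcases le_or_gt 0 Δ with h | h
      · left
        nlinarith
      · exact Or.inr h
    have hΔ0 : 0 < Δ := by
      by_contra hcon
      push Not at hcon
      have : be * Δ ≤ 0 := mul_nonpos_of_nonneg_of_nonpos hbe.le hcon
      linarith
    have hbΔ' : be * Δ ≤ Δ := by nlinarith
    obtain ⟨t, ht⟩ : ∃ t, t = be * Δ - Pm - 5 * d := ⟨_, rfl⟩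
    have ht0 : 0 < t := by rw [ht]; linarith
    obtain ⟨a, ha, ha1, ha2⟩ := hD.den (w + Δ - d - t) (w + Δ) (by linarith) (by linarith)
      (by linarith)
    refine ⟨a, ha, by linarith, ha2, ?_⟩
    have h3 := (abs_le.1 (hD.lin l a1 a2 w (by linarith) (by linarith))).2
    have h4 := (abs_le.1 (hD.lin l a1 a2 a (by linarith) (by linarith))).1
    have e1 : sl l * (a - g) = sl l * (w - g) + sl l * (a - w) := by ring
    have h5 : (1 + be) * (a - w) ≤ sl l * (a - w) :=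
      mul_le_mul_of_nonneg_right hs.1 (by linarith)
    have h6 : be * (Δ - d - t) ≤ be * (a - w) := mul_le_mul_of_nonneg_left (by linarith) hbe.le
    have h7 : be * d ≤ d := by nlinarith
    have h8 : be * t ≤ t := by nlinarith
    have e2 : be * (Δ - d - t) = be * Δ - be * d - be * t := by ring
    rcases eq_or_lt_of_le hd with h9 | h9
    · rw [← h9] at *
      nlinarith
    · nlinarith

/-- The number of the chain at the beginning of the window. -/
theorem nr_b {S : PCl m} {L : Finset (Fin m) → Fin m → ℝ → ℝ → ℝ}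
    {c : ℕ → Fin m} {n₀ : ℕ} {Wd : Set ℝ} {g R d be co : ℝ} {Dg sl : ℕ → ℝ}
    (hD : NrR S L c n₀ Wd g R d be co Dg sl) {b W : ℝ} (hb : g ≤ b) (hbW : b ≤ W)
    (hW : W ≤ g + R) {l : ℕ} (a1 : 1 ≤ l) (a2 : l < n₀) :
    L (img c l) (c l) W 0 ≤ L (img c l) (c l) b 0 + (W - b) / be + 2 * d := by
  have hs := hD.slo l a1 a2
  have h3 := (abs_le.1 (hD.lin l a1 a2 W (by linarith) hW)).2
  have h4 := (abs_le.1 (hD.lin l a1 a2 b hb (by linarith))).1
  have e1 : sl l * (W - g) = sl l * (b - g) + sl l * (W - b) := by ring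
  have h5 : sl l * (W - b) ≤ (W - b) / be := by
    have h6 := mul_le_mul_of_nonneg_right hs.2 (show 0 ≤ W - b by linarith)
    have e2 : 1 / be * (W - b) = (W - b) / be := by ring
    linarith
  linarith

/-- **The first number.** -/
theorem it_zero {S : PCl m} (hne : S.Ne) {C₀ : ℝ} (htm : TmC S C₀)
    {v : Vz m} {ε : Fin (n + 1) → Fin m} {p : ℝ}
    {L' : Finset (Fin (n + 1)) → Fin (n + 1) → ℝ → ℝ → ℝ} (hrd : RDt S v ε p 0 L')
    {w r : ℝ} (hw0 : 0 ≤ w) (hw1 : w < 1) : L' ∅ 0 w r = w := by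
  obtain ⟨Na, al, g₀, hal, hg₀, hM, hB⟩ := hrd.act
  exact Pool.OWN43.act_num hne htm _ ε hrd.lam hal hg₀ hM hB hw0 hw1

end Pool.OWN72
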