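import Pool.Agent.H72.OWN.Rxe

/-!
# Exactness behind visible records
-/

set_option autoImplicit false

namespace Pool.OWN72

open Finset
open Pool.Agent.H49.Ent Pool.Agent.H32.Dense Pool.STK Pool.KA Pool.KSAT Pool.K2S Pool.PB Pool.GEN
open Pool.S6C Pool.REX Pool.REX83
open Pool.MIC6 (ActZ ActF ng_num)

/-- **Exactness behind visible records**, at most three coordinates. -/
theorem rec_exa (m n₀ : ℕ) (hn1 : 1 ≤ n₀) (hn3 : n₀ ≤ 3) : RecExa m n₀ := by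
  intro al g₀ hal hg₀ be co θ hbe hco hθ
  obtain ⟨bb, hbb⟩ : ∃ bb, bb = min be 1 := ⟨_, rfl⟩
  have hbb0 : 0 < bb := by rw [hbb]; exact lt_min hbe one_pos
  have hbb1 : bb ≤ 1 := by rw [hbb]; exact min_le_right _ _
  have hbbe : bb ≤ be := by rw [hbb]; exact min_le_left _ _
  obtain ⟨r₁, hr₁, hr₁2, hpt⟩ := act_ptU hal hg₀ (show 0 < θ / 64 by linarith)
  have hb3 : 0 < bb ^ 3 * co := by positivity
  have hb4 : 0 < bb ^ 4 * co := by positivity
  refine ⟨2 ^ 25 / (bb ^ 4 * co) + 5 / bb, min r₁ (co / 64), by positivity,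
    lt_min hr₁ (by linarith), ?_⟩
  intro S C₀ L Na c Wd g R d Dg sl hne hC₀ htm hpos hL hF hM hB hd0 hND ι _ v P₀ η hnum hrec
  obtain ⟨K, hK⟩ : ∃ K, K = 2 ^ 25 / (bb ^ 4 * co) + 5 / bb := ⟨_, rfl⟩
  rw [← hK] at hnum
  have hKa : 0 < 2 ^ 25 / (bb ^ 4 * co) := by positivity
  have hKb : 0 < 5 / bb := by positivity
  have hND' := hND.be_le hbb0 hbbe
  -- the activity numbers
  obtain ⟨S₁, Ns, hne₁, hsub₁, hNs⟩ := actN_exists' hne hpos
  have hpos₁ : ∀ (τ : ℝ) (J : ℕ) (F : Fam m J) (A : F.Ω → Prop), S₁.St τ J F A → 0 < Pe F.p A :=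
    fun τ J F A h => hpos τ J F A (hsub₁ τ J F A h)
  have htm₁ : TmC S₁ C₀ := fun τ J F A hτ h => htm τ J F A hτ (hsub₁ τ J F A h)
  have hB₁ : ActB Na S₁ (c 0) := fun q q' a1 a2 a3 h hh => (hB q q' a1 a2 a3 h hh).sub hsub₁
  have hps : ∀ i, ∃ p : ℝ, P₀ i + η i / 64 < p ∧ p < P₀ i + η i / 32 ∧
      ∃ al' : ℝ, 0 < al' ∧ Act (Ns {c 0}) p al' := by
    intro i
    obtain ⟨a1, a2, a3, a4, a5, a6, a7⟩ := hnum i
    refine hpt m S₁ hne₁ ⟨1, one_pos, 0, fun J _ F A hA => hpos₁ 1 J F A hA⟩ Ns hNs (c 0) Na hM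
      hB₁ _ _ (by linarith) (by linarith) ?_ ?_
    · have := a5.trans (min_le_left _ _)
      linarith
    · have h1 : θ / 64 * (P₀ i + η i / 32) ≤ θ / 64 * (P₀ i + η i) :=
        mul_le_mul_of_nonneg_left (by linarith) (by linarith)
      have e1 : θ / 64 * (P₀ i + η i) = θ * (P₀ i + η i) / 64 := by ring
      linarith
  choose ps hps1 hps2 al' hal' hact' using hps
  have hg1 := hND.g1
  have hg0 := hND.g0
  have hb1' : ∀ i, co ≤ 1 - (v i).b := fun i => by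
    obtain ⟨a1, a2, a3, a4, a5, a6, a7⟩ := hnum i
    have : 0 < K * (P₀ i + η i) := by
      have : 0 < P₀ i + η i := by linarith
      have : 0 < K := by rw [hK]; positivity
      positivity
    linarith
  obtain ⟨p, hp⟩ : ∃ p : ι → ℝ, p = fun i => ps i / (1 - (v i).b) := ⟨_, rfl⟩
  have hpb : ∀ i, p i * (1 - (v i).b) = ps i := fun i => by
    have := hb1' i
    rw [hp]
    simp only
    rw [div_mul_cancel₀]
    linarith
  have hpb' : ∀ i, (1 - (v i).b) * p i = ps i := fun i => by rw [mul_comm]; exact hpb i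
  have hps0 : ∀ i, 0 < ps i := fun i => by
    obtain ⟨a1, a2, a3, a4, a5, a6, a7⟩ := hnum i
    have := hps1 i
    linarith
  have hp0 : ∀ i, 0 < p i := fun i => by
    have h1 := hb1' i
    have h2 := hps0 i
    rw [hp]
    exact div_pos h2 (by linarith)
  have hp2 : ∀ i, p i < 1 / 2 := fun i => by
    obtain ⟨a1, a2, a3, a4, a5, a6, a7⟩ := hnum i
    have h1 := hb1' i
    have h2 := hps2 i
    have h3 := a5.trans (min_le_right _ _)
    rw [hp]
    simp only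
    rw [div_lt_iff₀ (by linarith)]
    linarith
  obtain ⟨κ, hκ⟩ : ∃ κ : Fin n₀, (κ : ℕ) = 0 := ⟨⟨0, by omega⟩, rfl⟩
  obtain ⟨S₃, L', hne₃, hsub₃, hR⟩ := rex_tube hne₁ hC₀ htm₁ hpos₁ hNs (fun _ => n₀)
    (fun _ => hF n₀ le_rfl) v (fun _ l => c (l : ℕ)) (fun _ => κ) (P₀ := P₀)
    (fun i h hh => (hrec i h hh).sub hsub₁) hal' hp0
    (fun i => by rw [hpb' i]; have := hps1 i; have := (hnum i).2.2.1; linarith) hp2
    (fun i => by rw [hpb' i, hκ]; exact hact' i)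
  have hsub : ∀ (τ : ℝ) (J : ℕ) (F : Fam m J) (A : F.Ω → Prop), S₃.St τ J F A → S.St τ J F A :=
    fun τ J F A h => hsub₁ τ J F A (hsub₃ τ J F A h)
  refine ⟨S₃, hne₃, hsub, fun i => ?_⟩
  have htm₃ : TmC S₃ C₀ := fun τ J F A hτ h => htm τ J F A hτ (hsub τ J F A h)
  have hL₃ := hL.sub hsub
  have hN₃ := hND'.subc hsub
  obtain ⟨a1, a2, a3, a4, a5, a6, a7⟩ := hnum i
  obtain ⟨hrd, haz⟩ := hR i
  have hq : p i * (1 - (v i).b) ≤ P₀ i + η i / 32 := by rw [hpb i]; exact (hps2 i).le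
  have hPη : 0 < P₀ i + η i := by linarith
  have hsm : P₀ i + η i ≤ co / 64 := a5.trans (min_le_right _ _)
  have hco1 : co ≤ 1 := by linarith [hb1' i, (v i).b0]
  -- the error
  obtain ⟨d', hd'⟩ : ∃ d', d' = bb ^ 4 * co * η i / 2 ^ 25 := ⟨_, rfl⟩
  have hd'0 : 0 < d' := by rw [hd']; positivity
  have hdd : d ≤ d' := by
    have h1 : 2 ^ 25 / (bb ^ 4 * co) * d ≤ η i :=
      (mul_le_mul_of_nonneg_right (by rw [hK]; linarith) hd0).trans a7
    have h2 := mul_le_mul_of_nonneg_left h1 hb4.le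
    have e1 : bb ^ 4 * co * (2 ^ 25 / (bb ^ 4 * co) * d) = 2 ^ 25 * d := by field_simp
    rw [e1] at h2
    rw [hd', le_div_iff₀ (by positivity)]
    linarith
  have hNR := (hN₃.d_le hdd).real hL₃ hd'0 hbb0 hbb1
  obtain ⟨dd, hdd'⟩ : ∃ dd, dd = 8 * d' / bb := ⟨_, rfl⟩
  rw [← hdd'] at hNR
  have hdd0 : 0 < dd := by rw [hdd']; positivity
  have hd2 : 2 ^ 22 * dd ≤ bb ^ 3 * co * η i := by
    have e1 : 2 ^ 22 * dd = bb ^ 3 * co * η i := by
      rw [hdd', hd']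
      field_simp
      norm_num
    exact e1.le
  have hb3' : bb ^ 3 * co * η i ≤ η i := by
    have h6 : bb ^ 3 * co ≤ 1 := mul_le_one₀ (pow_le_one₀ hbb0.le hbb1) hco.le hco1
    nlinarith
  have hd1 : 64 * dd ≤ η i := by
    norm_num at hd2
    linarith
  have hd'η : 4 * d' ≤ η i := by
    have h6 : bb ^ 4 * co ≤ 1 := mul_le_one₀ (pow_le_one₀ hbb0.le hbb1) hco.le hco1
    have h7 : bb ^ 4 * co * η i ≤ η i := by nlinarith
    rw [hd']
    linarith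
  have hgb : g + 2 * d' ≤ (v i).b := by linarith
  have hroom : (v i).b + 4 * ((P₀ i + η i) / bb) ≤ g + 2 * d' + (R - 4 * d') := by
    have h1 : 5 / bb * (P₀ i + η i) ≤ K * (P₀ i + η i) :=
      mul_le_mul_of_nonneg_right (by rw [hK]; linarith) hPη.le
    have e1 : 5 / bb * (P₀ i + η i) = 5 * ((P₀ i + η i) / bb) := by ring
    have h2 : P₀ i + η i ≤ (P₀ i + η i) / bb := by
      rw [le_div_iff₀ hbb0]
      nlinarith
    linarith
  interval_cases n₀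
  · have hk : κ = 0 := Fin.ext hκ
    rw [hk] at hrd haz
    exact item_one hne₃ htm₃ hL₃ hrd a3 hq
  · have hk : κ = 0 := Fin.ext hκ
    rw [hk] at hrd haz
    exact item_two hne₃ hC₀ htm₃ hL₃ hNR hbb0 hbb1 hco hdd0.le hrd haz a2 a3 (by linarith) hq hd1
      hgb hroom
  · have hk : κ = 0 := Fin.ext hκ
    rw [hk] at hrd haz
    exact item_thr hne₃ hC₀ htm₃ hL₃ hNR hbb0 hbb1 hco hdd0 hrd haz a2 a3 hsm hq hd2 hgb hroom

end Pool.OWN72
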