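import Pool.Agent.H72.OWN.ActV
import Pool.Agent.H72.OWN.Rxf
import Pool.Agent.H89.TGT.RexA

/-!
# Exactness behind records with few bits

`RecExh`: as `RecExa`, the record has at most `h J` bits given the exact point and the first digits
of the direction, `h` a small multiple of the loss.
-/

set_option autoImplicit false

namespace Pool.OWN72

open Finset
open Pool.Agent.H49.Ent Pool.Agent.H32.Dense Pool.STK Pool.KA Pool.KSAT Pool.K2S Pool.PB Pool.GEN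
open Pool.S6C Pool.REX Pool.REX83
open Pool.MIC6 (ActZ ActF ng_num)

/-- **Exactness behind records with few bits.** -/
def RecExh (m n₀ : ℕ) : Prop :=
  ∀ (al : ℝ) (g₀ : ℝ → ℝ), 0 < al → (∀ e, 0 < e → 0 < g₀ e) →
  ∀ be co θ : ℝ, 0 < be → 0 < co → 0 < θ → ∃ K r₀ : ℝ, 0 < K ∧ 0 < r₀ ∧
  ∀ (S : PCl m) (C₀ : ℝ) (L : Finset (Fin m) → Fin m → ℝ → ℝ → ℝ) (Na : ℚ → ℚ → ℝ)
    (c : ℕ → Fin m) (Wd : Set ℝ) (g R d : ℝ) (Dg sl : ℕ → ℝ),
    S.Ne → 0 ≤ C₀ → TmC S C₀ →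
    (∀ (τ : ℝ) (J : ℕ) (F : Fam m J) (A : F.Ω → Prop), S.St τ J F A → 0 < Pe F.p A) →
    LamW S L → (∀ k ≤ n₀, FZX k) → ActM Na al g₀ → ActB Na S (c 0) → 0 ≤ d →
    NrD S L c n₀ Wd g R d be co Dg sl →
  ∀ (ι : Type) [Countable ι] (v : ι → Vz m) (P₀ η h : ι → ℝ),
    (∀ i, g + η i ≤ (v i).b ∧ 0 ≤ P₀ i ∧ 0 < η i ∧ (v i).b + K * (P₀ i + η i) ≤ g + R ∧
      P₀ i + η i ≤ r₀ ∧ θ * (P₀ i + η i) ≤ η i ∧ K * d ≤ η i) →
    (∀ i, K * h i ≤ η i) →
    (∀ i, Bas S (fun J F A =>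
      CH (Pool.Agent.H49.Ent.cond F.p A True) ((v i).y J F)
        (fun ω => (F.D ⌊P₀ i * J⌋₊ ω, (F.X J ω, F.W ω))) ≤ h i * J)) →
  ∃ S'' : PCl m, S''.Ne ∧
    (∀ (τ : ℝ) (J : ℕ) (F : Fam m J) (A : F.Ω → Prop), S''.St τ J F A → S.St τ J F A) ∧
    ∀ i, ∀ ρ : ℝ, 0 < ρ → Bas S'' (fun J F A =>
      ((∑ l : Fin n₀, (1 - L (img c l) (c l) (v i).b 0 - P₀ i)) - η i - ρ) * Real.log 2 * J ≤
        CH (Pool.Agent.H49.Ent.cond F.p A True) (fun ω (l : Fin n₀) => F.X J ω (c l))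
          (fun ω => ((v i).y J F ω, F.W ω)))

/-- **Exactness behind records with few bits**, at most three coordinates. -/
theorem rec_exh (m n₀ : ℕ) (hn1 : 1 ≤ n₀) (hn3 : n₀ ≤ 3) : RecExh m n₀ := by
  intro al g₀ hal hg₀ be co θ hbe hco hθ
  obtain ⟨bb, hbb⟩ : ∃ bb, bb = min be 1 := ⟨_, rfl⟩
  have hbb0 : 0 < bb := by rw [hbb]; exact lt_min hbe one_pos
  have hbb1 : bb ≤ 1 := by rw [hbb]; exact min_le_right _ _
  have hbbe : bb ≤ be := by rw [hbb]; exact min_le_left _ _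
  obtain ⟨r₁, hr₁, hr₁2, hpt⟩ := act_ptF hal hg₀ (show 0 < θ / 64 by linarith)
  have hb3 : 0 < bb ^ 3 * co := by positivity
  have hb4 : 0 < bb ^ 4 * co := by positivity
  refine ⟨2 ^ 25 / (bb ^ 4 * co) + 5 / bb + 2048 / al, min r₁ (co / 64), by positivity,
    lt_min hr₁ (by linarith), ?_⟩
  intro S C₀ L Na c Wd g R d Dg sl hne hC₀ htm hpos hL hF hM hB hd0 hND ι _ v P₀ η hh hnum hKh hrec
  obtain ⟨K, hK⟩ : ∃ K, K = 2 ^ 25 / (bb ^ 4 * co) + 5 / bb + 2048 / al := ⟨_, rfl⟩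
  rw [← hK] at hnum hKh
  have hKc : 0 < 2048 / al := by positivity
  have hKa : 0 < 2 ^ 25 / (bb ^ 4 * co) := by positivity
  have hKb : 0 < 5 / bb := by positivity
  have hND' := hND.be_le hbb0 hbbe
  -- the activity numbers
  obtain ⟨S₁, Ns, hne₁, hsub₁, hNs⟩ := actN_exists' hne hpos
  have hpos₁ : ∀ (τ : ℝ) (J : ℕ) (F : Fam m J) (A : F.Ω → Prop), S₁.St τ J F A → 0 < Pe F.p A :=
    fun τ J F A h => hpos τ J F A (hsub₁ τ J F A h)
  have htm₁ : TmC S₁ C₀ := fun τ J F A hτ h => htm τ J F A hτ (hsub₁ τ J F A h)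
  have hB₁ : ActB Na S₁ (c 0) := fun q q' a1 a2 a3 h hh => (hB q q' a1 a2 a3 h hh).sub hsub₁
  have hgr : ∀ i, hh i / Real.log 2 <
      Pool.SUPA.FF (Ns {c 0}) (P₀ i + η i / 32) - Pool.SUPA.FF (Ns {c 0}) (P₀ i + η i / 64) := by
    intro i
    obtain ⟨a1, a2, a3, a4, a5, a6, a7⟩ := hnum i
    refine lt_of_lt_of_le ?_ (hpt m S₁ hne₁ ⟨1, one_pos, 0, fun J _ F A hA => hpos₁ 1 J F A hA⟩
      Ns hNs (c 0) Na hM hB₁ _ _ (by linarith) (by linarith) ?_ ?_)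
    · have h1 : 2048 / al * hh i ≤ η i := by
        rcases le_or_gt 0 (hh i) with h2 | h2
        · exact (mul_le_mul_of_nonneg_right (by rw [hK]; linarith) h2).trans (hKh i)
        · have h3 : 2048 / al * hh i ≤ 0 := mul_nonpos_of_nonneg_of_nonpos hKc.le h2.le
          linarith
      have h2 : 2048 * hh i ≤ al * η i := by
        have h3 := mul_le_mul_of_nonneg_left h1 hal.le
        have e1 : al * (2048 / al * hh i) = 2048 * hh i := by field_simp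
        linarith
      have hl2 : 0 < Real.log 2 := Real.log_pos one_lt_two
      have hl3 : (1 : ℝ) / 2 < Real.log 2 := by
        have := Real.log_two_gt_d9
        linarith
      rw [div_lt_iff₀ hl2]
      have h4 : 0 < al * η i := by positivity
      have e2 : al * (P₀ i + η i / 32 - (P₀ i + η i / 64)) / 16 * Real.log 2 =
          al * η i * Real.log 2 / 1024 := by ring
      rw [e2]
      have h5 : al * η i * (1 / 2) < al * η i * Real.log 2 := mul_lt_mul_of_pos_left hl3 h4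
      linarith
    · have := a5.trans (min_le_left _ _)
      linarith
    · have h1 : θ / 64 * (P₀ i + η i / 32) ≤ θ / 64 * (P₀ i + η i) :=
        mul_le_mul_of_nonneg_left (by linarith) (by linarith)
      have e1 : θ / 64 * (P₀ i + η i) = θ * (P₀ i + η i) / 64 := by ring
      linarith
  have hg1 := hND.g1
  have hg0 := hND.g0
  have hb1' : ∀ i, co ≤ 1 - (v i).b := fun i => by
    obtain ⟨a1, a2, a3, a4, a5, a6, a7⟩ := hnum i
    have : 0 < K * (P₀ i + η i) := by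
      have : 0 < P₀ i + η i := by linarith
      have : 0 < K := by rw [hK]; positivity
      positivity
    linarith
  obtain ⟨κ, hκ⟩ : ∃ κ : Fin n₀, (κ : ℕ) = 0 := ⟨⟨0, by omega⟩, rfl⟩
  obtain ⟨p, S₃, L', hne₃, hsub₃, hR⟩ := Pool.TGT.rex_tubeZ hne₁ hC₀ htm₁ hpos₁ hNs (fun _ => n₀)
    (fun _ => hF n₀ le_rfl) v (fun _ l => c (l : ℕ)) (fun _ => κ) (P₀ := P₀) (h := hh)
    (P := fun i => P₀ i + η i / 64) (Q := fun i => P₀ i + η i / 32)
    (fun i => (hrec i).sub hsub₁) (fun i => (hnum i).2.1)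
    (fun i => by have := (hnum i).2.2.1; linarith) (fun i => by have := (hnum i).2.2.1; linarith)
    (fun i => by
      obtain ⟨a1, a2, a3, a4, a5, a6, a7⟩ := hnum i
      have h1 := hb1' i
      have h3 := a5.trans (min_le_right _ _)
      linarith)
    (fun i => by rw [hκ]; exact hgr i)
  have hps1 : ∀ i, P₀ i + η i / 64 < (1 - (v i).b) * p i := fun i => (hR i).1
  have hps2 : ∀ i, (1 - (v i).b) * p i < P₀ i + η i / 32 := fun i => (hR i).2.1
  have hsub : ∀ (τ : ℝ) (J : ℕ) (F : Fam m J) (A : F.Ω → Prop), S₃.St τ J F A → S.St τ J F A :=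
    fun τ J F A h => hsub₁ τ J F A (hsub₃ τ J F A h)
  refine ⟨S₃, hne₃, hsub, fun i => ?_⟩
  have htm₃ : TmC S₃ C₀ := fun τ J F A hτ h => htm τ J F A hτ (hsub τ J F A h)
  have hL₃ := hL.sub hsub
  have hN₃ := hND'.subc hsub
  obtain ⟨a1, a2, a3, a4, a5, a6, a7⟩ := hnum i
  obtain ⟨-, -, hrd, haz⟩ := hR i
  have hq : p i * (1 - (v i).b) ≤ P₀ i + η i / 32 := by rw [mul_comm]; exact (hps2 i).le
  have hPη : 0 < P₀ i + η i := by linarith
  have hsm : P₀ i + η i ≤ co / 64 := a5.trans (min_le_right _ _)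
  have hco1 : co ≤ 1 := by linarith [hb1' i, (v i).b0]
  -- the error
  obtain ⟨d', hd'⟩ : ∃ d', d' = bb ^ 4 * co * η i / 2 ^ 25 := ⟨_, rfl⟩
  have hd'0 : 0 < d' := by rw [hd']; positivity
  have hdd : d ≤ d' := by
    have h1 : 2 ^ 25 / (bb ^ 4 * co) * d ≤ η i :=
      (mul_le_mul_of_nonneg_right (by rw [hK]; linarith) hd0).trans a7
    have h2 := mul_le_mul_of_nonneg_left h1 hb4.le
    have e1 : bb ^ 4 * co * (2 ^ 25 / (bb ^ 4 * co) * d) = 2 ^ 25 * d := by field_simp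
    rw [e1] at h2
    rw [hd', le_div_iff₀ (by positivity)]
    linarith
  have hNR := (hN₃.d_le hdd).real hL₃ hd'0 hbb0 hbb1
  obtain ⟨dd, hdd'⟩ : ∃ dd, dd = 8 * d' / bb := ⟨_, rfl⟩
  rw [← hdd'] at hNR
  have hdd0 : 0 < dd := by rw [hdd']; positivity
  have hd2 : 2 ^ 22 * dd ≤ bb ^ 3 * co * η i := by
    have e1 : 2 ^ 22 * dd = bb ^ 3 * co * η i := by
      rw [hdd', hd']
      field_simp
      norm_num
    exact e1.le
  have hb3' : bb ^ 3 * co * η i ≤ η i := by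
    have h6 : bb ^ 3 * co ≤ 1 := mul_le_one₀ (pow_le_one₀ hbb0.le hbb1) hco.le hco1
    nlinarith
  have hd1 : 64 * dd ≤ η i := by
    norm_num at hd2
    linarith
  have hd'η : 4 * d' ≤ η i := by
    have h6 : bb ^ 4 * co ≤ 1 := mul_le_one₀ (pow_le_one₀ hbb0.le hbb1) hco.le hco1
    have h7 : bb ^ 4 * co * η i ≤ η i := by nlinarith
    rw [hd']
    linarith
  have hgb : g + 2 * d' ≤ (v i).b := by linarith
  have hroom : (v i).b + 4 * ((P₀ i + η i) / bb) ≤ g + 2 * d' + (R - 4 * d') := by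
    have h1 : 5 / bb * (P₀ i + η i) ≤ K * (P₀ i + η i) :=
      mul_le_mul_of_nonneg_right (by rw [hK]; linarith) hPη.le
    have e1 : 5 / bb * (P₀ i + η i) = 5 * ((P₀ i + η i) / bb) := by ring
    have h2 : P₀ i + η i ≤ (P₀ i + η i) / bb := by
      rw [le_div_iff₀ hbb0]
      nlinarith
    linarith
  interval_cases n₀
  · have hk : κ = 0 := Fin.ext hκ
    rw [hk] at hrd haz
    exact item_one hne₃ htm₃ hL₃ hrd a3 hq
  · have hk : κ = 0 := Fin.ext hκ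
    rw [hk] at hrd haz
    exact item_two hne₃ hC₀ htm₃ hL₃ hNR hbb0 hbb1 hco hdd0.le hrd haz a2 a3 (by linarith) hq hd1
      hgb hroom
  · have hk : κ = 0 := Fin.ext hκ
    rw [hk] at hrd haz
    exact item_thr hne₃ hC₀ htm₃ hL₃ hNR hbb0 hbb1 hco hdd0 hrd haz a2 a3 hsm hq hd2 hgb hroom

end Pool.OWN72
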