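import Pool.Agent.H72.OWN.Rep2
import Pool.Agent.H72.OWN.Act2

/-!
# Exactness behind visible records: statement

`NrD`: a chain of `n₀ ≤ 3` coordinates with affine closed labels, whose numbers are linear on
`[g, g + R]` up to `d`. `RecExa m n₀`: behind a record which has few bits given the exact point and
the first `P₀ J` digits of the direction the coordinates of the chain are free behind their numbers
at the window of the record, up to `P₀ + η`.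
-/

set_option autoImplicit false

namespace Pool.OWN72

open Finset
open Pool.Agent.H49.Ent Pool.Agent.H32.Dense Pool.STK Pool.KA Pool.KSAT Pool.K2S Pool.PB Pool.GEN
open Pool.S6C Pool.REX Pool.REX83

variable {m n J : ℕ}

/-- **The numbers of a chain of `n₀` coordinates** on `[g, g + R]`, linear up to `d`; the windows
with labels are dense up to `d`. -/
structure NrD (S : PCl m) (L : Finset (Fin m) → Fin m → ℝ → ℝ → ℝ) (c : ℕ → Fin m) (n₀ : ℕ)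
    (Wd : Set ℝ) (g R d be co : ℝ) (Dg sl : ℕ → ℝ) : Prop where
  aff : AfE S L c n₀ Wd
  af2 : 3 ≤ n₀ → ∀ w ∈ Wd, HasA S {c 0} (c 2) w (L {c 0} (c 2) w 0)
  con : 2 ≤ n₀ → ∀ w ∈ Wd, ContinuousAt (fun W => L {c 0} (c 1) W 0) w
  co2 : 3 ≤ n₀ → ∀ w ∈ Wd, ContinuousAt (fun W => L {c 0} (c 2) W 0) w
  den : ∀ x y : ℝ, g ≤ x → x + d < y → y ≤ g + R → ∃ w ∈ Wd, x < w ∧ w < y
  g0 : 0 ≤ g
  g1 : g + R + co ≤ 1
  lin : ∀ l, 1 ≤ l → l < n₀ → ∀ w ∈ Wd, g ≤ w → w ≤ g + R →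
    |L (img c l) (c l) w 0 - (Dg l + sl l * (w - g))| ≤ d
  slo : ∀ l, 1 ≤ l → l < n₀ → 1 + be ≤ sl l ∧ sl l ≤ 1 / be
  sld : 3 ≤ n₀ → be ≤ |sl 1 - sl 2|
  dlo : ∀ l, 1 ≤ l → l < n₀ → g + co ≤ Dg l
  dhi : ∀ l, 1 ≤ l → l < n₀ → Dg l + sl l * R + co ≤ 1
  gap : 3 ≤ n₀ → Dg 1 + sl 1 * R + co ≤ Dg 2
  tie : 3 ≤ n₀ → ∀ w ∈ Wd, g ≤ w → w ≤ g + R → L {c 0} (c 1) w 0 - d ≤ L {c 0} (c 2) w 0

/-- **Exactness behind visible records.** -/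
def RecExa (m n₀ : ℕ) : Prop :=
  ∀ (al : ℝ) (g₀ : ℝ → ℝ), 0 < al → (∀ e, 0 < e → 0 < g₀ e) →
  ∀ be co θ : ℝ, 0 < be → 0 < co → 0 < θ → ∃ K r₀ : ℝ, 0 < K ∧ 0 < r₀ ∧
  ∀ (S : PCl m) (C₀ : ℝ) (L : Finset (Fin m) → Fin m → ℝ → ℝ → ℝ) (Na : ℚ → ℚ → ℝ)
    (c : ℕ → Fin m) (Wd : Set ℝ) (g R d : ℝ) (Dg sl : ℕ → ℝ),
    S.Ne → 0 ≤ C₀ → TmC S C₀ →
    (∀ (τ : ℝ) (J : ℕ) (F : Fam m J) (A : F.Ω → Prop), S.St τ J F A → 0 < Pe F.p A) →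
    LamW S L → (∀ k ≤ n₀, FZX k) → ActM Na al g₀ → ActB Na S (c 0) → 0 ≤ d →
    NrD S L c n₀ Wd g R d be co Dg sl →
  ∀ (ι : Type) [Countable ι] (v : ι → Vz m) (P₀ η : ι → ℝ),
    (∀ i, g + η i ≤ (v i).b ∧ 0 ≤ P₀ i ∧ 0 < η i ∧ (v i).b + K * (P₀ i + η i) ≤ g + R ∧
      P₀ i + η i ≤ r₀ ∧ θ * (P₀ i + η i) ≤ η i ∧ K * d ≤ η i) →
    (∀ i, ∀ h : ℝ, 0 < h → Bas S (fun J F A =>
      CH (Pool.Agent.H49.Ent.cond F.p A True) ((v i).y J F)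
        (fun ω => (F.D ⌊P₀ i * J⌋₊ ω, (F.X J ω, F.W ω))) ≤ h * J)) →
  ∃ S'' : PCl m, S''.Ne ∧
    (∀ (τ : ℝ) (J : ℕ) (F : Fam m J) (A : F.Ω → Prop), S''.St τ J F A → S.St τ J F A) ∧
    ∀ i, ∀ ρ : ℝ, 0 < ρ → Bas S'' (fun J F A =>
      ((∑ l : Fin n₀, (1 - L (img c l) (c l) (v i).b 0 - P₀ i)) - η i - ρ) * Real.log 2 * J ≤
        CH (Pool.Agent.H49.Ent.cond F.p A True) (fun ω (l : Fin n₀) => F.X J ω (c l))
          (fun ω => ((v i).y J F ω, F.W ω)))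

end Pool.OWN72
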