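import Pool.Agent.H72.OWN.ActU

/-!
# The growth of the activity near zero, uniformly in the class

`act_intF`, `act_ptF`: on short intervals near zero the activity numbers of a class grow at least
with a fixed rate; the length depends only on the numbers of activity.
-/

set_option autoImplicit false

namespace Pool.OWN72

open Finset Real MeasureTheory
open Pool.Agent.H49.Ent Pool.Agent.H32.Dense Pool.STK Pool.KA Pool.KSAT Pool.K2S Pool.PB Pool.S6C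
open Pool.GEN Pool.REX Pool.REX83

variable {m n J : ℕ}

/-- **The growth of the activity near `0`**, pure form, uniform in the numbers. -/
theorem act_intF {al : ℝ} {g₀ : ℝ → ℝ} (hal : 0 < al) (hg₀ : ∀ e, 0 < e → 0 < g₀ e) {θ : ℝ}
    (hθ : 0 < θ) :
    ∃ r₀ : ℝ, 0 < r₀ ∧ r₀ ≤ 1 / 2 ∧ ∀ (N : ℝ → ℝ → ℝ) (K : ℝ), Pool.SUPA.SA N K →
      ∀ Na : ℚ → ℚ → ℝ, ActM Na al g₀ →
      (∀ x y : ℚ, 0 ≤ x → x ≤ y → y ≤ 1 → Na x y ≤ N x y) →
      ∀ P Q : ℝ, 0 ≤ P → P < Q → Q ≤ r₀ → θ * Q ≤ Q - P →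
      al * (Q - P) / 16 ≤ Pool.SUPA.FF N Q - Pool.SUPA.FF N P := by
  obtain ⟨ε, hε⟩ : ∃ ε : ℝ, ε = min (al / 2) (θ / 4) := ⟨_, rfl⟩
  have hε0 : 0 < ε := by rw [hε]; exact lt_min (by linarith) (by linarith)
  have hεal : ε ≤ al / 2 := by rw [hε]; exact min_le_left _ _
  have hεθ : ε ≤ θ / 4 := by rw [hε]; exact min_le_right _ _
  have hgε := hg₀ ε hε0
  refine ⟨min (1 / 2) (g₀ ε / 2), lt_min (by norm_num) (by linarith), min_le_left _ _, ?_⟩
  intro N K hN Na hM hNa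
  have kmono := Pool.SUPA.FF_mono hN
  have k6 : ∀ eps > 0, ∃ del > 0, ∀ (M : ℕ) (x : ℕ → ℝ), Monotone x → 0 ≤ x 0 → x M ≤ 1 →
      (∀ i < M, x (i + 1) - x i ≤ del) → ∑ i ∈ range M, |N (x i) (x (i + 1)) -
        (Pool.SUPA.FF N (x (i + 1)) - Pool.SUPA.FF N (x i))| ≤ eps := by
    intro eps he
    obtain ⟨del, hd, H⟩ := Pool.SUPA.rem_chain hN he
    refine ⟨del, hd, fun M x hx h0 h1 hm => ?_⟩
    refine le_trans (le_of_eq ?_) (H M x hx h0 h1 hm)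
    refine Finset.sum_congr rfl fun i hi => ?_
    have := (Pool.SUPA.rem_SA hN).nn (x i) (x (i + 1)) (h0.trans (hx (Nat.zero_le i)))
      (hx (Nat.le_succ i)) ((hx (Finset.mem_range.1 hi)).trans h1)
    exact abs_of_nonneg this
  obtain ⟨F, hF⟩ : ∃ F, F = Pool.SUPA.FF N := ⟨_, rfl⟩
  rw [← hF] at kmono k6 ⊢
  intro P Q hP hPQ hQ hθQ
  have hQ1 : Q ≤ 1 / 2 := hQ.trans (min_le_left _ _)
  have hQ2 : Q ≤ g₀ ε / 2 := hQ.trans (min_le_right _ _)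
  have hQ0 : 0 < Q := hP.trans_lt hPQ
  obtain ⟨g, hg1, hg2⟩ := exists_rat_btwn (show Q < 2 * Q by linarith)
  have hg0 : (0 : ℝ) < g := hQ0.trans hg1
  have hg0' : (0 : ℚ) < g := by exact_mod_cast hg0
  have hg11 : (g : ℝ) ≤ 1 := by linarith
  -- the mesh
  obtain ⟨d, hd⟩ : ∃ d, d = Q - P := ⟨_, rfl⟩
  have hd0 : 0 < d := by rw [hd]; linarith
  obtain ⟨e, he⟩ : ∃ e, e = al * d / 16 := ⟨_, rfl⟩
  have he0 : 0 < e := by rw [he]; positivity
  obtain ⟨del, hdel, h8⟩ := k6 e he0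
  obtain ⟨M₁, hM₁⟩ := exists_nat_ge ((g : ℝ) / del)
  obtain ⟨M₂, hM₂⟩ := exists_nat_ge (16 * (g : ℝ) / d)
  obtain ⟨M, hMM⟩ : ∃ M, M = M₁ + M₂ + 1 := ⟨_, rfl⟩
  have hM0 : 0 < M := by omega
  have hMR : (0 : ℝ) < M := by exact_mod_cast hM0
  have m1 : (g : ℝ) / M ≤ del := by
    rw [div_le_iff₀ hMR]
    rw [div_le_iff₀ hdel] at hM₁
    have h1 : (M₁ : ℝ) ≤ M := by
      rw [hMM]
      push_cast
      have : (0 : ℝ) ≤ M₂ := Nat.cast_nonneg _
      linarith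
    nlinarith
  have m2 : 16 * ((g : ℝ) / M) ≤ d := by
    rw [← mul_div_assoc, div_le_iff₀ hMR]
    rw [div_le_iff₀ hd0] at hM₂
    have h1 : (M₂ : ℝ) ≤ M := by
      rw [hMM]
      push_cast
      have : (0 : ℝ) ≤ M₁ := Nat.cast_nonneg _
      linarith
    nlinarith
  obtain ⟨η, hη⟩ : ∃ η : ℝ, η = (g : ℝ) / M := ⟨_, rfl⟩
  have hη0 : 0 < η := by rw [hη]; positivity
  have hηM : η * M = g := by
    rw [hη]
    field_simp
  rw [← hη] at m1 m2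
  obtain ⟨z, hz⟩ : ∃ z : ℕ → ℝ, z = fun l : ℕ => (l : ℝ) * η := ⟨_, rfl⟩
  have hzz : ∀ l, z l = l * η := fun l => by rw [hz]
  have hzm : Monotone z := by
    intro l l' hll
    have h1 : (l : ℝ) ≤ l' := by exact_mod_cast hll
    rw [hzz, hzz]
    exact mul_le_mul_of_nonneg_right h1 hη0.le
  have hz0 : z 0 = 0 := by rw [hzz]; simp
  have hzM : z M ≤ 1 := by
    rw [hzz, mul_comm, hηM]
    exact hg11
  have h9 := h8 M z hzm hz0.ge hzM (fun i _ => by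
    rw [hzz, hzz]
    push_cast
    linarith)
  -- the block
  obtain ⟨i₀, hi₀⟩ : ∃ i₀, i₀ = ⌈P / η⌉₊ := ⟨_, rfl⟩
  obtain ⟨i₁, hi₁⟩ : ∃ i₁, i₁ = ⌊Q / η⌋₊ := ⟨_, rfl⟩
  have a1 : P ≤ z i₀ := by
    rw [hzz, hi₀, ← div_le_iff₀ hη0]
    exact Nat.le_ceil _
  have a2 : z i₀ ≤ P + η := by
    rw [hzz, hi₀]
    have h1 : (⌈P / η⌉₊ : ℝ) < P / η + 1 := Nat.ceil_lt_add_one (by positivity)
    have h2 : P / η * η = P := by field_simp
    nlinarith
  have a3 : z i₁ ≤ Q := by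
    rw [hzz, hi₁, ← le_div_iff₀ hη0]
    exact Nat.floor_le (by positivity)
  have a4 : Q - η ≤ z i₁ := by
    rw [hzz, hi₁]
    have h1 : Q / η < (⌊Q / η⌋₊ : ℝ) + 1 := Nat.lt_floor_add_one _
    have h2 : Q / η * η = Q := by field_simp
    nlinarith
  have h01 : i₀ ≤ i₁ := by
    by_contra hcon
    push Not at hcon
    have h1 := hzm hcon.le
    linarith
  have hi1M : i₁ ≤ M := by
    have h1 : (i₁ : ℝ) * η ≤ M * η := by
      rw [mul_comm (M : ℝ), hηM, ← hzz]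
      linarith
    exact_mod_cast le_of_mul_le_mul_right h1 hη0
  have b1 : F (z i₁) - F (z i₀) ≤ F Q - F P := by
    have h1 := kmono a3
    have h2 := kmono a1
    linarith
  have b2 : ∑ i ∈ Ico i₀ i₁, (F (z (i + 1)) - F (z i)) = F (z i₁) - F (z i₀) := by
    rw [Finset.sum_Ico_eq_sum_range]
    have h1 := Finset.sum_range_sub (fun i => F (z (i₀ + i))) (i₁ - i₀)
    rw [Nat.add_sub_cancel' h01, Nat.add_zero] at h1
    exact h1
  have b3 : ∑ i ∈ Ico i₀ i₁, N (z i) (z (i + 1)) - e ≤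
      ∑ i ∈ Ico i₀ i₁, (F (z (i + 1)) - F (z i)) := by
    have h1 : ∑ i ∈ Ico i₀ i₁, |N (z i) (z (i + 1)) - (F (z (i + 1)) - F (z i))| ≤ e := by
      refine le_trans (Finset.sum_le_sum_of_subset_of_nonneg (fun i hi => ?_)
        (fun i _ _ => abs_nonneg _)) h9
      rw [Finset.mem_Ico] at hi
      rw [Finset.mem_range]
      omega
    have h2 : ∑ i ∈ Ico i₀ i₁, (N (z i) (z (i + 1)) - (F (z (i + 1)) - F (z i))) ≤
        ∑ i ∈ Ico i₀ i₁, |N (z i) (z (i + 1)) - (F (z (i + 1)) - F (z i))| :=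
      Finset.sum_le_sum fun i _ => le_abs_self _
    rw [Finset.sum_sub_distrib] at h2
    linarith
  -- the good places
  have hMr := hM ε hε0 g hg0' (by linarith) M
  obtain ⟨Bd, hBd⟩ : ∃ Bd : Finset ℕ, Bd = (range M).filter fun i : ℕ =>
      Na (i * (g / M)) ((i + 1) * (g / M)) < (al - ε) * ((g : ℝ) / M) := ⟨_, rfl⟩
  rw [← hBd] at hMr
  have b4 : (al - ε) * η * (((i₁ - i₀ : ℕ) : ℝ) - Bd.card) ≤
      ∑ i ∈ Ico i₀ i₁, N (z i) (z (i + 1)) := by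
    have hnn : ∀ i ∈ Ico i₀ i₁, 0 ≤ N (z i) (z (i + 1)) := fun i hi => by
      rw [Finset.mem_Ico] at hi
      exact hN.nn _ _ (hz0 ▸ hzm (Nat.zero_le i)) (hzm (Nat.le_succ i))
        ((hzm (by omega : i + 1 ≤ M)).trans hzM)
    have h1 : ∑ i ∈ (Ico i₀ i₁) \ Bd, (al - ε) * η ≤ ∑ i ∈ Ico i₀ i₁, N (z i) (z (i + 1)) := by
      refine le_trans (Finset.sum_le_sum fun i hi => ?_)
        (Finset.sum_le_sum_of_subset_of_nonneg Finset.sdiff_subset (fun i hi _ => hnn i hi))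
      rw [Finset.mem_sdiff, Finset.mem_Ico] at hi
      have h2 : ¬ Na (i * (g / M)) ((i + 1) * (g / M)) < (al - ε) * ((g : ℝ) / M) := fun h => by
        refine hi.2 ?_
        rw [hBd, Finset.mem_filter, Finset.mem_range]
        exact ⟨by omega, h⟩
      rw [not_lt, ← hη] at h2
      have hgM : (0 : ℚ) ≤ g / M := by positivity
      have h3 := hNa (i * (g / M)) ((i + 1) * (g / M)) (by positivity)
        (mul_le_mul_of_nonneg_right (by linarith) hgM) (by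
          have h4 : (((i : ℚ) + 1) * (g / M) : ℚ) ≤ (M : ℚ) * (g / M) := by
            refine mul_le_mul_of_nonneg_right ?_ hgM
            have : i + 1 ≤ M := by omega
            exact_mod_cast this
          have h5 : (M : ℚ) * (g / M) = g := by
            have : (M : ℚ) ≠ 0 := by exact_mod_cast hM0.ne'
            field_simp
          have h6 : g ≤ 1 := by exact_mod_cast hg11
          linarith)
      refine h2.trans (h3.trans (le_of_eq ?_))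
      have e1 : (((i : ℚ) * (g / M) : ℚ) : ℝ) = z i := by
        rw [hzz, hη]
        push_cast
        ring
      have e2 : ((((i : ℚ) + 1) * (g / M) : ℚ) : ℝ) = z (i + 1) := by
        rw [hzz, hη]
        push_cast
        ring
      rw [e1, e2]
    rw [Finset.sum_const, nsmul_eq_mul] at h1
    refine le_trans ?_ h1
    have h2 : ((i₁ - i₀ : ℕ) : ℝ) - Bd.card ≤ ((Ico i₀ i₁ \ Bd).card : ℝ) := by
      have h3 := Finset.le_card_sdiff Bd (Ico i₀ i₁)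
      rw [Nat.card_Ico] at h3
      have h4 : ((i₁ - i₀ - Bd.card : ℕ) : ℝ) ≤ ((Ico i₀ i₁ \ Bd).card : ℝ) := by exact_mod_cast h3
      have h5 : ((i₁ - i₀ : ℕ) : ℝ) - Bd.card ≤ ((i₁ - i₀ - Bd.card : ℕ) : ℝ) := by
        rcases le_total Bd.card (i₁ - i₀) with h6 | h6
        · rw [Nat.cast_sub h6]
        · have h7 : ((i₁ - i₀ : ℕ) : ℝ) ≤ Bd.card := by exact_mod_cast h6
          have h8 : (0 : ℝ) ≤ ((i₁ - i₀ - Bd.card : ℕ) : ℝ) := Nat.cast_nonneg _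
          linarith
      linarith
    have h3 : 0 ≤ (al - ε) * η := mul_nonneg (by linarith) hη0.le
    rw [mul_comm ((Ico i₀ i₁ \ Bd).card : ℝ)]
    exact mul_le_mul_of_nonneg_left h2 h3
  have c1 : (((i₁ - i₀ : ℕ) : ℝ)) * η = z i₁ - z i₀ := by
    rw [Nat.cast_sub h01, hzz, hzz]
    ring
  have c2 : (Bd.card : ℝ) * η ≤ ε * g := by
    have h1 := mul_le_mul_of_nonneg_right hMr hη0.le
    calc (Bd.card : ℝ) * η ≤ ε * M * η := h1
      _ = ε * (η * M) := by ring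
      _ = ε * g := by rw [hηM]
  have c3 : ε * g ≤ d / 2 := by
    have h1 : ε * g ≤ θ / 4 * (2 * Q) := mul_le_mul hεθ hg2.le hg0.le (by linarith)
    have h2 : θ * Q ≤ d := by rw [hd]; exact hθQ
    linarith
  have c4 : d / 4 ≤ (((i₁ - i₀ : ℕ) : ℝ) - Bd.card) * η := by
    rw [sub_mul, c1]
    rw [hd] at c3 m2 ⊢
    linarith
  have c5 : al / 2 * (d / 4) ≤ (al - ε) * η * (((i₁ - i₀ : ℕ) : ℝ) - Bd.card) := by
    have h1 : al / 2 * (d / 4) ≤ (al - ε) * ((((i₁ - i₀ : ℕ) : ℝ) - Bd.card) * η) :=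
      mul_le_mul (by linarith) c4 (by positivity) (by linarith)
    calc al / 2 * (d / 4) ≤ (al - ε) * ((((i₁ - i₀ : ℕ) : ℝ) - Bd.card) * η) := h1
      _ = _ := by ring
  have c6 : al / 2 * (d / 4) - e = al * (Q - P) / 16 := by
    rw [he, ← hd]
    ring
  linarith

/-- **The growth of the activity near `0`**, for a class, uniform in the class. -/
theorem act_ptF {al : ℝ} {g₀ : ℝ → ℝ} (hal : 0 < al) (hg₀ : ∀ e, 0 < e → 0 < g₀ e) {θ : ℝ}
    (hθ : 0 < θ) :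
    ∃ r₀ : ℝ, 0 < r₀ ∧ r₀ ≤ 1 / 2 ∧ ∀ (n : ℕ) (S : PCl n), S.Ne →
      Bas S (fun _ F A => 0 < Pe F.p A) → ∀ N : Finset (Fin n) → ℝ → ℝ → ℝ, ActN S N →
      ∀ (κ : Fin n) (Na : ℚ → ℚ → ℝ), ActM Na al g₀ → ActB Na S κ →
      ∀ P Q : ℝ, 0 ≤ P → P < Q → Q ≤ r₀ → θ * Q ≤ Q - P →
      al * (Q - P) / 16 ≤ Pool.SUPA.FF (N {κ}) Q - Pool.SUPA.FF (N {κ}) P := by
  obtain ⟨r₀, h0, h1, h2⟩ := act_intF hal hg₀ hθ
  refine ⟨r₀, h0, h1, fun n S hne hpos N hN κ Na hM hB => ?_⟩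
  exact h2 _ _ (hN.sa {κ}) Na hM (fun x y a1 a2 a3 => actB_le hne hpos hN hB x y a1 a2 a3)

end Pool.OWN72
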