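import Pool.Agent.H6.OWN.Cfn
import Pool.Agent.H62.OWN.TrL
import Pool.Agent.H75.S6C.Nat4
import Pool.Agent.H90.STAT.FulC

/-!
# Spread velocities and few bits

`spr_cls`: a function `f + g * E` of the exact point and of the velocity `E` of an active coordinate
which is bounded on an event has a bounded slope `g` on most of the event. `near_few`: a real number
which is determined by a datum up to `M / 2 ^ a` has few bits of resolution `a` given the datum.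
-/

set_option autoImplicit false

namespace Pool.OWN72

open Finset MvPolynomial
open Pool.Agent.H49.Ent Pool.Agent.H32.Dense Pool.STK Pool.KA Pool.KSAT Pool.K2S Pool.PB Pool.GEN
open Pool.S6C
open Pool.FLF (Fam.sub)
open Pool.GRD (LbP)
open Pool.MIC6 (Dp res_of)
open Pool.STAT (cond_supp)

variable {m n J : ℕ}

/-- The floors of near numbers. -/
theorem floor_near {a : ℕ} {x y M : ℝ} (h : |x - y| ≤ M / 2 ^ a) :
    |((⌊(2 : ℝ) ^ a * x⌋ - ⌊(2 : ℝ) ^ a * y⌋ : ℤ) : ℝ)| ≤ M + 1 := by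
  have pa : (0 : ℝ) < 2 ^ a := by positivity
  have a1 := Int.floor_le ((2 : ℝ) ^ a * x)
  have a2 := Int.lt_floor_add_one ((2 : ℝ) ^ a * x)
  have a3 := Int.floor_le ((2 : ℝ) ^ a * y)
  have a4 := Int.lt_floor_add_one ((2 : ℝ) ^ a * y)
  rw [le_div_iff₀ pa] at h
  have e1 : |x - y| * 2 ^ a = |2 ^ a * x - 2 ^ a * y| := by
    rw [← mul_sub, abs_mul, abs_of_pos pa, mul_comm]
  rw [e1] at h
  obtain ⟨h1, h2⟩ := abs_le.1 h
  push_cast
  rw [abs_le]
  constructor <;> linarith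

/-- A number which is determined by a datum has few bits given the datum. -/
theorem near_few {Ω U : Type} [Fintype Ω] {q : Ω → ℝ} (hq : IsLaw q) (f : Ω → ℝ) (Y : Ω → U)
    {a : ℕ} {M : ℝ}
    (h : ∀ ω ω', 0 < q ω → 0 < q ω' → Y ω = Y ω' → |f ω - f ω'| ≤ M / 2 ^ a) :
    CH q (fun ω => ⌊(2 : ℝ) ^ a * f ω⌋) Y ≤ Real.log (2 * (M + 1) + 1) :=
  CH_int hq Y _ fun ω ω' h1 h2 h3 => floor_near (h ω ω' h1 h2 h3)

/-- **Spread.** -/
theorem spr_cls {S : PCl m} {C₀ : ℝ} (htm : TmC S C₀) {y : Fin m} (hact : Pool.MIC6.ActF S y) {γ η : ℝ}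
    (hγ : 0 < γ) (hη : 0 < η) :
    Bas S (fun J F A => ∀ (f g : PtT F → ℝ) (E : ℝ), 0 < E →
      (∀ ω, A ω → |f (ptr F J ω) + g (ptr F J ω) * F.d ω y| ≤ E) →
      ∃ B : F.Ω → Prop, Sub B A ∧ (1 - η) * Pe F.p A ≤ Pe F.p B ∧
        ∀ ω, B ω → |g (ptr F J ω)| ≤ 2 ^ ⌊γ * J⌋₊ * E) := by
  classical
  obtain ⟨c, hc, τ₁, hτ₁, J₁, hb⟩ := hact γ hγ
  obtain ⟨J₂, hJ₂⟩ := exists_nat_ge (Real.log (1 / η) / (τ₁ / 2))
  obtain ⟨J₃, hJ₃⟩ := exists_nat_ge ((Real.log 7 + 1) / c)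
  refine ⟨τ₁ / 2, by linarith, max J₁ (max J₂ J₃), ?_⟩
  intro J hJ F A hA f g E hE hfg
  have j1 : J₁ ≤ J := (le_max_left _ _).trans hJ
  have j2 : (J₂ : ℝ) ≤ J := by exact_mod_cast ((le_max_left _ _).trans (le_max_right _ _)).trans hJ
  have j3 : (J₃ : ℝ) ≤ J := by exact_mod_cast ((le_max_right _ _).trans (le_max_right _ _)).trans hJ
  have hlog : Real.log (1 / η) ≤ τ₁ / 2 * J := by
    have h1 := hJ₂.trans j2
    rw [div_le_iff₀ (by linarith)] at h1
    linarith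
  have hcJ : Real.log 7 + 1 ≤ c * J := by
    have h1 := hJ₃.trans j3
    rw [div_le_iff₀ hc] at h1
    linarith
  have hA0 := (htm (τ₁ / 2) J F A (by linarith) hA).1
  obtain ⟨Bd, hBd⟩ : ∃ Bd : F.Ω → Prop, Bd = fun ω =>
    A ω ∧ 2 ^ ⌊γ * J⌋₊ * E < |g (ptr F J ω)| := ⟨_, rfl⟩
  have hsub : Sub Bd A := fun ω hω => by
    rw [hBd] at hω
    exact hω.1
  have hparts := Pe_parts (p := F.p) (B := A) (B' := Bd) hsub
  refine ⟨fun ω => A ω ∧ ¬ Bd ω, fun ω hω => hω.1, ?_, fun ω hω => ?_⟩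
  · by_contra hcon
    rw [not_le] at hcon
    have hbig : η * Pe F.p A < Pe F.p Bd := by linarith
    have hBd0 : 0 < Pe F.p Bd := (mul_pos hη hA0).trans hbig
    have hS := res_of (by linarith : (0 : ℝ) ≤ τ₁ / 2) hA hsub
      (by positivity : (0 : ℝ) < 1 / η) hlog (by
        rw [one_div, ← div_eq_inv_mul, le_div_iff₀ hη]
        linarith)
    have e1 : 2 * (τ₁ / 2) = τ₁ := by ring
    rw [e1] at hS
    have h1 := hb J j1 F Bd hS
    have hq := isLaw_cond F.isLaw hBd0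
    have h2 : CH (Pool.Agent.H49.Ent.cond F.p Bd True) (fun ω => F.D ⌊γ * J⌋₊ ω y) (ptr F J) ≤
        Real.log (2 * (2 + 1) + 1) := by
      refine near_few hq (fun ω => F.d ω y) (ptr F J) (M := 2) fun ω ω' hω hω' h => ?_
      have k1 : Bd ω := cond_supp hω
      have k2 : Bd ω' := cond_supp hω'
      have l1 := hfg ω (hsub _ k1)
      have l2 := hfg ω' (hsub _ k2)
      rw [hBd] at k1
      have l3 : 2 ^ ⌊γ * J⌋₊ * E < |g (ptr F J ω)| := k1.2
      rw [← h] at l2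
      have pg : (0 : ℝ) < 2 ^ ⌊γ * J⌋₊ := by positivity
      have l4 : |g (ptr F J ω)| * |F.d ω y - F.d ω' y| ≤ 2 * E := by
        rw [← abs_mul]
        have e2 : g (ptr F J ω) * (F.d ω y - F.d ω' y) =
            (f (ptr F J ω) + g (ptr F J ω) * F.d ω y) -
            (f (ptr F J ω) + g (ptr F J ω) * F.d ω' y) := by ring
        rw [e2]
        refine (abs_sub _ _).trans ?_
        linarith
      rw [le_div_iff₀ pg]
      have l5 : 2 ^ ⌊γ * J⌋₊ * E * |F.d ω y - F.d ω' y| ≤ 2 * E :=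
        (mul_le_mul_of_nonneg_right l3.le (abs_nonneg _)).trans l4
      have l6 : E * (|F.d ω y - F.d ω' y| * 2 ^ ⌊γ * J⌋₊) ≤ E * 2 := by linarith
      exact le_of_mul_le_mul_left l6 hE
    have e3 : (2 : ℝ) * (2 + 1) + 1 = 7 := by norm_num
    rw [e3] at h2
    linarith
  · by_contra hcon
    rw [not_le] at hcon
    refine hω.2 ?_
    rw [hBd]
    exact ⟨hω.1, hcon⟩

end Pool.OWN72
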