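import Pool.Agent.H72.OWN.ExaS
import Pool.Agent.H72.OWN.ActU
import Pool.Agent.H72.OWN.Rep3
import Pool.Agent.H6.OWN.NgD

/-!
# Monotone functions which are linear on a dense set, and numbers over one coordinate in a tube

`lin_up`, `lin_lo`: the bounds at all windows. `NrR`: the law of the numbers at all windows.
`num_one`: the number of a coordinate over the active coordinate in a tube.
-/

set_option autoImplicit false

namespace Pool.OWN72

open Finset
open Pool.Agent.H49.Ent Pool.Agent.H32.Dense Pool.STK Pool.KA Pool.KSAT Pool.K2S Pool.PB Pool.GEN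
open Pool.S6C Pool.REX Pool.REX83
open Pool.MIC6 (ActZ ng_num)

variable {m n J : ℕ}

/-- The upper bound at all windows. -/
theorem lin_up {f : ℝ → ℝ} (hf : Monotone f) {Wd : Set ℝ} {g R D s d : ℝ} (hs0 : 0 ≤ s)
    (hden : ∀ x y : ℝ, g ≤ x → x + d < y → y ≤ g + R → ∃ w ∈ Wd, x < w ∧ w < y)
    (hlin : ∀ w ∈ Wd, g ≤ w → w ≤ g + R → |f w - (D + s * (w - g))| ≤ d) {w : ℝ} (h1 : g ≤ w)
    (h2 : w + d < g + R) : f w ≤ D + s * (w - g) + d + s * d := by
  refine le_of_forall_pos_le_add fun e he => ?_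
  obtain ⟨t, ht⟩ : ∃ t, t = min (g + R) (w + d + e / (s + 1)) := ⟨_, rfl⟩
  have hs1 : 0 < s + 1 := by linarith
  have hte : 0 < e / (s + 1) := by positivity
  have t1 : w + d < t := by rw [ht]; exact lt_min h2 (by linarith)
  have t2 : t ≤ g + R := by rw [ht]; exact min_le_left _ _
  have t3 : t ≤ w + d + e / (s + 1) := by rw [ht]; exact min_le_right _ _
  obtain ⟨a, haW, ha1, ha2⟩ := hden w t h1 t1 t2
  have h3 := hlin a haW (by linarith) (by linarith)
  have h4 := (abs_le.1 h3).2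
  have h5 := hf ha1.le
  have h6 : s * (a - w) ≤ s * d + e := by
    have h7 : s * (a - w) ≤ s * (d + e / (s + 1)) := mul_le_mul_of_nonneg_left (by linarith) hs0
    have h8 : s * (e / (s + 1)) ≤ (s + 1) * (e / (s + 1)) :=
      mul_le_mul_of_nonneg_right (by linarith) hte.le
    have h9 : (s + 1) * (e / (s + 1)) = e := by field_simp
    have e7 : s * (d + e / (s + 1)) = s * d + s * (e / (s + 1)) := by ring
    linarith
  have e1 : s * (a - g) = s * (w - g) + s * (a - w) := by ring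
  linarith

/-- The lower bound at all windows. -/
theorem lin_lo {f : ℝ → ℝ} (hf : Monotone f) {Wd : Set ℝ} {g R D s d : ℝ} (hs0 : 0 ≤ s)
    (hden : ∀ x y : ℝ, g ≤ x → x + d < y → y ≤ g + R → ∃ w ∈ Wd, x < w ∧ w < y)
    (hlin : ∀ w ∈ Wd, g ≤ w → w ≤ g + R → |f w - (D + s * (w - g))| ≤ d) {w : ℝ}
    (h1 : g + d < w) (h2 : w ≤ g + R) : D + s * (w - g) - d - s * d ≤ f w := by
  refine le_of_forall_pos_le_add fun e he => ?_
  obtain ⟨t, ht⟩ : ∃ t, t = max g (w - d - e / (s + 1)) := ⟨_, rfl⟩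
  have hs1 : 0 < s + 1 := by linarith
  have hte : 0 < e / (s + 1) := by positivity
  have t1 : t + d < w := by
    have : t < w - d := by rw [ht]; exact max_lt (by linarith) (by linarith)
    linarith
  have t2 : g ≤ t := by rw [ht]; exact le_max_left _ _
  have t3 : w - d - e / (s + 1) ≤ t := by rw [ht]; exact le_max_right _ _
  obtain ⟨a, haW, ha1, ha2⟩ := hden t w t2 t1 h2
  have h3 := hlin a haW (by linarith) (by linarith)
  have h4 := (abs_le.1 h3).1
  have h5 := hf ha2.le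
  have h6 : s * (w - a) ≤ s * d + e := by
    have h7 : s * (w - a) ≤ s * (d + e / (s + 1)) := mul_le_mul_of_nonneg_left (by linarith) hs0
    have h8 : s * (e / (s + 1)) ≤ (s + 1) * (e / (s + 1)) :=
      mul_le_mul_of_nonneg_right (by linarith) hte.le
    have h9 : (s + 1) * (e / (s + 1)) = e := by field_simp
    have e7 : s * (d + e / (s + 1)) = s * d + s * (e / (s + 1)) := by ring
    linarith
  have e1 : s * (a - g) = s * (w - g) - s * (w - a) := by ring
  linarith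

/-- The numbers are monotone in the window. -/
theorem mono_w {S : PCl m} {L : Finset (Fin m) → Fin m → ℝ → ℝ → ℝ} (hL : LamW S L)
    (I : Finset (Fin m)) (k : Fin m) (r : ℝ) : Monotone fun w => L I k w r := fun _ _ h =>
  hL.mono _ _ _ _ _ _ _ (Finset.Subset.refl _) h le_rfl

/-- **The numbers of a chain** on `[g, g + R]`: a law at all windows, labels at the windows of
`Wd`. -/
structure NrR (S : PCl m) (L : Finset (Fin m) → Fin m → ℝ → ℝ → ℝ) (c : ℕ → Fin m) (n₀ : ℕ)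
    (Wd : Set ℝ) (g R d be co : ℝ) (Dg sl : ℕ → ℝ) : Prop where
  aff : AfE S L c n₀ Wd
  af2 : 3 ≤ n₀ → ∀ w ∈ Wd, HasA S {c 0} (c 2) w (L {c 0} (c 2) w 0)
  con : 2 ≤ n₀ → ∀ w ∈ Wd, ContinuousAt (fun W => L {c 0} (c 1) W 0) w
  co2 : 3 ≤ n₀ → ∀ w ∈ Wd, ContinuousAt (fun W => L {c 0} (c 2) W 0) w
  den : ∀ x y : ℝ, g ≤ x → x + d < y → y ≤ g + R → ∃ w ∈ Wd, x < w ∧ w < y
  g0 : 0 ≤ g
  g1 : g + R + co ≤ 1
  lin : ∀ l, 1 ≤ l → l < n₀ → ∀ w, g ≤ w → w ≤ g + R →
    |L (img c l) (c l) w 0 - (Dg l + sl l * (w - g))| ≤ d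
  slo : ∀ l, 1 ≤ l → l < n₀ → 1 + be ≤ sl l ∧ sl l ≤ 1 / be
  sld : 3 ≤ n₀ → be ≤ |sl 1 - sl 2|
  dlo : ∀ l, 1 ≤ l → l < n₀ → g + co ≤ Dg l
  dhi : ∀ l, 1 ≤ l → l < n₀ → Dg l + sl l * R + co ≤ 1
  gap : 3 ≤ n₀ → Dg 1 + sl 1 * R + co ≤ Dg 2
  tie : 3 ≤ n₀ → ∀ w, g ≤ w → w ≤ g + R → L {c 0} (c 1) w 0 - d ≤ L {c 0} (c 2) w 0

/-- A larger error. -/
theorem NrD.d_le {S : PCl m} {L : Finset (Fin m) → Fin m → ℝ → ℝ → ℝ} {c : ℕ → Fin m}
    {n₀ : ℕ} {Wd : Set ℝ} {g R d d' be co : ℝ} {Dg sl : ℕ → ℝ} (hd : d ≤ d')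
    (h : NrD S L c n₀ Wd g R d be co Dg sl) : NrD S L c n₀ Wd g R d' be co Dg sl where
  aff := h.aff
  af2 := h.af2
  con := h.con
  co2 := h.co2
  den x y a1 a2 a3 := h.den x y a1 (by linarith) a3
  g0 := h.g0
  g1 := h.g1
  lin l a1 a2 w a3 a4 a5 := (h.lin l a1 a2 w a3 a4 a5).trans hd
  slo := h.slo
  sld := h.sld
  dlo := h.dlo
  dhi := h.dhi
  gap := h.gap
  tie a w a1 a2 a3 := by linarith [h.tie a w a1 a2 a3]

/-- **The law at all windows.** -/
theorem NrD.real {S : PCl m} {L : Finset (Fin m) → Fin m → ℝ → ℝ → ℝ} (hL : LamW S L)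
    {c : ℕ → Fin m} {n₀ : ℕ} {Wd : Set ℝ} {g R d be co : ℝ} {Dg sl : ℕ → ℝ} (hd : 0 < d)
    (hbe : 0 < be) (hbe1 : be ≤ 1)
    (h : NrD S L c n₀ Wd g R d be co Dg sl) :
    NrR S L c n₀ Wd (g + 2 * d) (R - 4 * d) (8 * d / be) be co
      (fun l => Dg l + sl l * (2 * d)) sl := by
  have hdb : d ≤ d / be := by
    rw [le_div_iff₀ hbe]
    nlinarith
  have hdb0 : 0 < d / be := by positivity
  have e8 : 8 * d / be = 8 * (d / be) := by ring
  have hsd : ∀ l, 1 ≤ l → l < n₀ → 0 ≤ sl l * d ∧ sl l * d ≤ d / be := fun l a1 a2 => by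
    have hs := h.slo l a1 a2
    refine ⟨mul_nonneg (by linarith [hs.1]) hd.le, ?_⟩
    have := mul_le_mul_of_nonneg_right hs.2 hd.le
    have e1 : 1 / be * d = d / be := by ring
    linarith
  refine ⟨h.aff, h.af2, h.con, h.co2, ?_, by linarith [h.g0], ?_, ?_, h.slo, h.sld, ?_, ?_, ?_, ?_⟩
  · intro x y a1 a2 a3
    rw [e8] at a2
    exact h.den x y (by linarith) (by linarith) (by linarith)
  · have := h.g1
    linarith
  · intro l a1 a2 w a3 a4
    have hs := h.slo l a1 a2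
    have h3 := lin_up (mono_w hL (img c l) (c l) 0) (by linarith [hs.1]) h.den
      (h.lin l a1 a2) (w := w) (by linarith) (by linarith)
    have h4 := lin_lo (mono_w hL (img c l) (c l) 0) (by linarith [hs.1]) h.den
      (h.lin l a1 a2) (w := w) (by linarith) (by linarith)
    have h5 := hsd l a1 a2
    have e1 : sl l * (w - (g + 2 * d)) = sl l * (w - g) - 2 * (sl l * d) := by ring
    have e2 : sl l * (2 * d) = 2 * (sl l * d) := by ring
    rw [abs_le, e8, e1, e2]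
    constructor <;> linarith
  · intro l a1 a2
    have h5 := hsd l a1 a2
    have hs := h.slo l a1 a2
    have h6 : d ≤ sl l * d := by nlinarith [hs.1]
    have := h.dlo l a1 a2
    show g + 2 * d + co ≤ Dg l + sl l * (2 * d)
    linarith
  · intro l a1 a2
    have h5 := hsd l a1 a2
    have := h.dhi l a1 a2
    show Dg l + sl l * (2 * d) + sl l * (R - 4 * d) + co ≤ 1
    linarith
  · intro a
    have h5 := hsd 1 le_rfl (by omega)
    have h6 := hsd 2 (by norm_num) (by omega)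
    have := h.gap a
    show Dg 1 + sl 1 * (2 * d) + sl 1 * (R - 4 * d) + co ≤ Dg 2 + sl 2 * (2 * d)
    linarith
  · intro a w a1 a2
    have hs := h.slo 1 le_rfl (by omega)
    have h5 := hsd 1 le_rfl (by omega)
    obtain ⟨a', haW, ha1, ha2⟩ := h.den (w - 2 * d) w (by linarith) (by linarith) (by linarith)
    have h3 := lin_up (mono_w hL (img c 1) (c 1) 0) (by linarith [hs.1]) h.den
      (h.lin 1 le_rfl (by omega)) (w := w) (by linarith) (by linarith)
    have h4 := (abs_le.1 (h.lin 1 le_rfl (by omega) a' haW (by linarith) (by linarith))).1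
    have h7 := h.tie a a' haW (by linarith) (by linarith)
    have h8 := mono_w hL {c 0} (c 2) 0 ha2.le
    simp only [img_one] at h3 h4 h8
    have e1 : sl 1 * (w - g) = sl 1 * (a' - g) + sl 1 * (w - a') := by ring
    have h9 : sl 1 * (w - a') ≤ sl 1 * (2 * d) :=
      mul_le_mul_of_nonneg_left (by linarith) (by linarith [hs.1])
    rw [e8]
    linarith

/-- **The number of a coordinate over the active coordinate in a tube**, from a linear law. -/
theorem num_one {S : PCl m} {C₀ : ℝ} (hC₀ : 0 ≤ C₀) (htm : TmC S C₀) (hne : S.Ne) (v : Vz m)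
    (ε : Fin n → Fin m) {L : Finset (Fin m) → Fin m → ℝ → ℝ → ℝ} (hL : LamW S L)
    {L' : Finset (Fin n) → Fin n → ℝ → ℝ → ℝ} (hL' : LamW (RecV S v ε) L') {κ k : Fin n}
    (hact : ActZ S v ε κ) {g R D s d be : ℝ} (hg0 : 0 ≤ g) (hg1 : g + R ≤ 1)
    (hbe : 0 < be) (hs : 1 + be ≤ s)
    (hlin : ∀ w, g ≤ w → w ≤ g + R → |L {ε κ} (ε k) w 0 - (D + s * (w - g))| ≤ d)
    {w' w r' : ℝ} (hw' : w' < w) (hw0 : 0 < w)
    (hw1 : w < 1) (hgw : g ≤ v.tm w)
    (hroom : v.tm w + (2 * d + v.p * (1 - v.b)) / be < g + R) (hd0 : 0 ≤ d) :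
    v.sc (L' {κ} k w' r') - v.p * (1 - v.b) ≤ D + s * (v.tm w - g) + d := by
  have hp0 := v.p0
  have hb1 := v.b1
  have hp : 0 ≤ v.p * (1 - v.b) := mul_nonneg hp0 (by linarith)
  obtain ⟨W, hW⟩ : ∃ W, W = v.tm w := ⟨_, rfl⟩
  obtain ⟨p, hpp⟩ : ∃ p, p = v.p * (1 - v.b) := ⟨_, rfl⟩
  rw [← hW, ← hpp] at hroom
  rw [← hW] at hgw
  rw [← hpp] at hp
  have hX0 : 0 ≤ (2 * d + p) / be := by positivity
  have hup := (abs_le.1 (hlin W hgw (by linarith))).2
  -- the number at a later window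
  obtain ⟨t, ht⟩ : ∃ t, t = g + R - W - (2 * d + p) / be := ⟨_, rfl⟩
  have ht0 : 0 < t := by rw [ht]; linarith
  obtain ⟨a₀, ha₀⟩ : ∃ a₀, a₀ = W + (2 * d + p) / be + t / 2 := ⟨_, rfl⟩
  have hlo := (abs_le.1 (hlin a₀ (by linarith) (by linarith))).1
  obtain ⟨q, hq⟩ : ∃ q, q = min (be * (t / 4)) (1 - a₀) := ⟨_, rfl⟩
  have hq0 : 0 < q := by rw [hq]; exact lt_min (by positivity) (by linarith)
  have hq1 : q ≤ be * (t / 4) := by rw [hq]; exact min_le_left _ _
  have hq2 : q ≤ 1 - a₀ := by rw [hq]; exact min_le_right _ _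
  have h1 := ng_num hC₀ htm hne v ε hL hL' hact (k := k) (r' := r') hw' hw0 hw1
    (show a₀ < a₀ + q / 2 by linarith) (by linarith) (by linarith)
  rw [← hW, ← hpp] at h1
  rcases min_le_iff.1 h1 with h2 | h2
  · rw [← hW, ← hpp]
    linarith
  · exfalso
    have h3 := hL.mono _ _ (ε k) _ _ _ _ (Finset.Subset.refl ({ε κ} : Finset (Fin m)))
      (le_refl a₀) (show (0 : ℝ) ≤ a₀ by linarith)
    have e1 : s * (a₀ - g) = s * (W - g) + s * (a₀ - W) := by ring
    have h4 : (1 + be) * (a₀ - W) ≤ s * (a₀ - W) :=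
      mul_le_mul_of_nonneg_right hs (by linarith)
    have h5 : 2 * d + p + be * (t / 2) = be * (a₀ - W) := by
      rw [ha₀]
      field_simp
      ring
    have h8 : 0 < be * t := by positivity
    have e2 : be * (t / 2) = be * t / 2 := by ring
    have e3 : be * (t / 4) = be * t / 4 := by ring
    rw [e2] at h5
    rw [e3] at hq1
    linarith

end Pool.OWN72
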