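import Pool.Agent.H72.OWN.Cfl

/-!
# Own velocities are affine in the velocity of the active coordinate, at the exact point

`RepP`: the velocity of `v` relative to a closed affine label of the precision `N` at the window `w`
is affine in the velocity of `y` with coefficients which are functions of the exact point, up to `P`
natural digits. `RedP`: the same for closed relations between the velocities. `rep_of`, `red_step`:
the induction over the levels.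
-/

set_option autoImplicit false

namespace Pool.OWN72

open Finset MvPolynomial
open Pool.Agent.H49.Ent Pool.Agent.H32.Dense Pool.STK Pool.KA Pool.KSAT Pool.K2S Pool.PB Pool.GEN
open Pool.S6C
open Pool.JVE (DpI)
open Pool.MIC6 (res_of)

variable {m n J : ℕ}

/-- **Closed relations are affine in the active velocity** at the exact point. -/
def RedP (S : PCl m) (y : Fin m) (I : Finset (Fin m)) (a P : ℝ) : Prop :=
  ∀ h : ℝ, 0 < h → Bas S (fun J F A => ∀ (δ : PtT F → Fin m → ℝ) (δc : PtT F → ℝ) (η : ℝ),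
    0 < η → (∀ k ∈ I, Cl1 F A ⌊a * J⌋₊ (fun p => δ p k)) → Cl1 F A ⌊a * J⌋₊ δc →
    (∀ ω, A ω → |δc (ptr F J ω) + ∑ k ∈ I, δ (ptr F J ω) k * F.d ω k| ≤ η) →
    ∃ B : F.Ω → Prop, Sub B A ∧ (1 - h) * Pe F.p A ≤ Pe F.p B ∧ ∃ p q : PtT F → ℝ,
      ∀ ω, B ω → |δc (ptr F J ω) + ∑ k ∈ I, δ (ptr F J ω) k * F.d ω k - p (ptr F J ω) -
        q (ptr F J ω) * F.d ω y| ≤ η / 2 ^ ⌊P * J⌋₊)

/-- **Own velocities are affine in the active velocity** at the exact point. -/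
def RepP (S : PCl m) (y : Fin m) (I : Finset (Fin m)) (v : Fin m) (w N P : ℝ) : Prop :=
  ∃ x₀ : ℝ, 0 < x₀ ∧ ∀ x : ℝ, 0 < x → x ≤ x₀ → ∀ h : ℝ, 0 < h → Bas S (fun J F A =>
    ∀ (a : PtT F → Fin m → ℝ) (c : PtT F → ℝ),
      ClA F A I v ⌊w * J⌋₊ ⌊x * J⌋₊ ⌊(N - w - x) * J⌋₊ a c →
      ∃ B : F.Ω → Prop, Sub B A ∧ (1 - h) * Pe F.p A ≤ Pe F.p B ∧ ∃ p q : PtT F → ℝ,
        ∀ ω, B ω → |F.d ω v - c (ptr F J ω) - ∑ k ∈ I, a (ptr F J ω) k * F.d ω k -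
          p (ptr F J ω) - q (ptr F J ω) * F.d ω y| ≤ 1 / 2 ^ ⌊(N - w + P) * J⌋₊)

/-- Over the active coordinate there is nothing to do. -/
theorem red_zero (S : PCl m) (y : Fin m) (a P : ℝ) : RedP S y {y} a P := by
  intro h hh
  refine ⟨1, one_pos, 0, ?_⟩
  intro J _ F A _ δ δc η hη _ _ _
  refine ⟨A, fun _ h => h, ?_, δc, fun p => δ p y, fun ω _ => ?_⟩
  · have := Pe_nonneg F.isLaw A
    nlinarith
  · rw [Finset.sum_singleton]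
    have e1 : δc (ptr F J ω) + δ (ptr F J ω) y * F.d ω y - δc (ptr F J ω) -
        δ (ptr F J ω) y * F.d ω y = 0 := by ring
    rw [e1, abs_zero]
    positivity

/-- **The representation from a finer window.** -/
theorem rep_of {S : PCl m} {y : Fin m} {I : Finset (Fin m)} {v : Fin m} {w a N N' P P' : ℝ}
    (hwa : w ≤ a) (ha1 : a ≤ 1) (hNw : w < N) (hPP : P < P') (hP : 0 ≤ P)
    (hNN : N - w + P < N' - a) (hA : HasA S I v a N') (hR : RedP S y I a P') :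
    RepP S y I v w N P := by
  obtain ⟨x', hx'⟩ : ∃ x', x' = (N' - a - (N - w + P)) / 2 := ⟨_, rfl⟩
  have hx'0 : 0 < x' := by rw [hx']; linarith
  obtain ⟨x₀, hx₀⟩ : ∃ x₀, x₀ = min ((P' - P) / 2) ((N - w) / 2) := ⟨_, rfl⟩
  have hx₀0 : 0 < x₀ := by
    rw [hx₀]
    exact lt_min (by linarith) (by linarith)
  have hx₀1 : 2 * x₀ ≤ P' - P := by
    have : x₀ ≤ (P' - P) / 2 := by rw [hx₀]; exact min_le_left _ _
    linarith
  have hx₀2 : 2 * x₀ ≤ N - w := by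
    have : x₀ ≤ (N - w) / 2 := by rw [hx₀]; exact min_le_right _ _
    linarith
  refine ⟨x₀, hx₀0, ?_⟩
  intro x hx hxx h hh
  obtain ⟨J₁, hJ₁⟩ := exists_nat_ge (4 / min x' x₀)
  refine Bas.mono J₁ ((hA x' hx'0).and (hR h hh)) ?_
  rintro J hJ F A ⟨⟨a₁, c₁, hl₁⟩, hred⟩ a₀ c₀ hl₀
  have hJr : (J₁ : ℝ) ≤ J := by exact_mod_cast hJ
  have hJ0 : (0 : ℝ) ≤ J := Nat.cast_nonneg J
  have hmn : 0 < min x' x₀ := lt_min hx'0 hx₀0
  have q0 : 4 ≤ min x' x₀ * J := by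
    have h1 := hJ₁.trans hJr
    rw [div_le_iff₀ hmn] at h1
    linarith
  have q1 : 4 ≤ x' * J := q0.trans (mul_le_mul_of_nonneg_right (min_le_left _ _) hJ0)
  have q2 : 4 ≤ x₀ * J := q0.trans (mul_le_mul_of_nonneg_right (min_le_right _ _) hJ0)
  have q3 : x * J ≤ x₀ * J := mul_le_mul_of_nonneg_right hxx hJ0
  obtain ⟨n₀, hn₀⟩ : ∃ n₀, n₀ = ⌊(N - w - x) * (J : ℝ)⌋₊ := ⟨_, rfl⟩
  obtain ⟨n₁, hn₁⟩ : ∃ n₁, n₁ = ⌊(N' - a - x') * (J : ℝ)⌋₊ := ⟨_, rfl⟩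
  obtain ⟨n₂, hn₂⟩ : ∃ n₂, n₂ = ⌊P' * (J : ℝ)⌋₊ := ⟨_, rfl⟩
  obtain ⟨n₃, hn₃⟩ : ∃ n₃, n₃ = ⌊(N - w + P) * (J : ℝ)⌋₊ := ⟨_, rfl⟩
  have f0 : (N - w - x) * (J : ℝ) - 1 < n₀ := by rw [hn₀]; exact Nat.sub_one_lt_floor _
  have f1 : (N' - a - x') * (J : ℝ) - 1 < n₁ := by rw [hn₁]; exact Nat.sub_one_lt_floor _
  have f2 : P' * (J : ℝ) - 1 < n₂ := by rw [hn₂]; exact Nat.sub_one_lt_floor _
  have f3 : (n₃ : ℝ) ≤ (N - w + P) * J := by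
    rw [hn₃]
    exact Nat.floor_le (mul_nonneg (by linarith) hJ0)
  have f0' : (n₀ : ℝ) ≤ (N - w - x) * J := by
    rw [hn₀]
    exact Nat.floor_le (mul_nonneg (by linarith) hJ0)
  have g1 : (N' - a) * (J : ℝ) = (N - w + P) * J + 2 * (x' * J) := by rw [hx']; ring
  have g2 : (P + 2 * x₀) * J ≤ P' * J := mul_le_mul_of_nonneg_right (by linarith) hJ0
  have hPJ : 0 ≤ P * J := mul_nonneg hP hJ0
  have p1 : n₃ + 1 ≤ n₁ := by
    have : (n₃ : ℝ) + 1 < n₁ + 1 := by nlinarith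
    have h2 : n₃ + 1 < n₁ + 1 := by exact_mod_cast this
    omega
  have p2 : n₀ ≤ n₁ := by
    have : (n₀ : ℝ) < n₁ + 1 := by nlinarith
    have h2 : n₀ < n₁ + 1 := by exact_mod_cast this
    omega
  have p3 : n₃ + 2 ≤ n₀ + n₂ := by
    have : (n₃ : ℝ) + 2 < n₀ + n₂ + 1 := by nlinarith
    have h2 : n₃ + 2 < n₀ + n₂ + 1 := by exact_mod_cast this
    omega
  rw [← hn₀] at hl₀
  rw [← hn₁] at hl₁
  rw [← hn₃]
  have hwJ : ⌊w * (J : ℝ)⌋₊ ≤ ⌊a * (J : ℝ)⌋₊ :=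
    Nat.floor_le_floor (mul_le_mul_of_nonneg_right hwa hJ0)
  have haJ : ⌊a * (J : ℝ)⌋₊ ≤ J := by
    have h1 : a * (J : ℝ) ≤ J := by nlinarith
    exact Nat.floor_le_of_le h1
  have P0 : (0 : ℝ) < 2 ^ n₀ := by positivity
  have P1 : (0 : ℝ) < 2 ^ n₁ := by positivity
  have P3 : (0 : ℝ) < 2 ^ n₃ := by positivity
  have i1 : (1 : ℝ) / 2 ^ n₁ ≤ 1 / 2 ^ n₀ :=
    one_div_le_one_div_of_le P0 (pow_le_pow_right₀ (by norm_num) p2)
  obtain ⟨B, b1, b2, p, q, b3⟩ := hred (fun p k => a₁ p k - a₀ p k) (fun p => c₁ p - c₀ p)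
    (2 / 2 ^ n₀) (by positivity)
    (fun k hk => Cl1.map2 (fun x y => x - y) (hl₁.ca k hk) ((hl₀.ca k hk).win hwJ haJ))
    (Cl1.map2 (fun x y => x - y) hl₁.cc (hl₀.cc.win hwJ haJ)) (fun ω hω => by
      have h1 := (hl₀.dp ω hω).2.2
      have h2 := (hl₁.dp ω hω).2.2
      have h5 : ∑ k ∈ I, (a₁ (ptr F J ω) k - a₀ (ptr F J ω) k) * F.d ω k =
          ∑ k ∈ I, a₁ (ptr F J ω) k * F.d ω k - ∑ k ∈ I, a₀ (ptr F J ω) k * F.d ω k := by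
        rw [← Finset.sum_sub_distrib]
        exact Finset.sum_congr rfl fun k _ => by ring
      have h4 : c₁ (ptr F J ω) - c₀ (ptr F J ω) +
          ∑ k ∈ I, (a₁ (ptr F J ω) k - a₀ (ptr F J ω) k) * F.d ω k =
          (F.d ω v - c₀ (ptr F J ω) - ∑ k ∈ I, a₀ (ptr F J ω) k * F.d ω k) -
          (F.d ω v - c₁ (ptr F J ω) - ∑ k ∈ I, a₁ (ptr F J ω) k * F.d ω k) := by
        rw [h5]
        ring
      rw [h4]
      refine (abs_sub _ _).trans ?_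
      have h6 : (2 : ℝ) / 2 ^ n₀ = 1 / 2 ^ n₀ + 1 / 2 ^ n₀ := by ring
      linarith)
  refine ⟨B, b1, b2, p, q, fun ω hω => ?_⟩
  have h1 := b3 ω hω
  rw [← hn₂] at h1
  have h2 := (hl₁.dp ω (b1 ω hω)).2.2
  have h5 : ∑ k ∈ I, (a₁ (ptr F J ω) k - a₀ (ptr F J ω) k) * F.d ω k =
      ∑ k ∈ I, a₁ (ptr F J ω) k * F.d ω k - ∑ k ∈ I, a₀ (ptr F J ω) k * F.d ω k := by
    rw [← Finset.sum_sub_distrib]
    exact Finset.sum_congr rfl fun k _ => by ring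
  have h3 : F.d ω v - c₀ (ptr F J ω) - ∑ k ∈ I, a₀ (ptr F J ω) k * F.d ω k - p (ptr F J ω) -
      q (ptr F J ω) * F.d ω y =
      (F.d ω v - c₁ (ptr F J ω) - ∑ k ∈ I, a₁ (ptr F J ω) k * F.d ω k) +
      (c₁ (ptr F J ω) - c₀ (ptr F J ω) +
        ∑ k ∈ I, (a₁ (ptr F J ω) k - a₀ (ptr F J ω) k) * F.d ω k - p (ptr F J ω) -
        q (ptr F J ω) * F.d ω y) := by
    rw [h5]
    ring
  rw [h3]
  refine (abs_add_le _ _).trans ((add_le_add h2 h1).trans ?_)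
  have k1 : (1 : ℝ) / 2 ^ n₁ ≤ 1 / 2 ^ n₃ / 2 := by
    rw [div_div, ← pow_succ]
    exact one_div_le_one_div_of_le (by positivity) (pow_le_pow_right₀ (by norm_num) p1)
  have k2 : (2 : ℝ) / 2 ^ n₀ / 2 ^ n₂ ≤ 1 / 2 ^ n₃ / 2 := by
    rw [div_div, div_div, ← pow_add, div_le_div_iff₀ (by positivity) (by positivity), one_mul]
    have h7 : (2 : ℝ) ^ (n₃ + 2) ≤ 2 ^ (n₀ + n₂) := pow_le_pow_right₀ (by norm_num) p3
    rw [pow_add] at h7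
    linarith
  linarith

/-- The numbers fit. -/
theorem red_fit {N a s x P P' : ℝ} (haN : a ≤ N) (hP : 0 ≤ P) (hs : 0 < s) (hx : 0 < x)
    (h1 : P + 4 * (s + x) ≤ P') : ∃ J₁ : ℕ, ∀ J ≥ J₁,
      ⌊(N - a - x) * (J : ℝ)⌋₊ ≤ ⌊(N - a + s) * (J : ℝ)⌋₊ ∧
      ⌊(N - a + s) * (J : ℝ)⌋₊ + 2 + ⌊P * (J : ℝ)⌋₊ ≤
        ⌊(N - a - x) * (J : ℝ)⌋₊ + ⌊P' * (J : ℝ)⌋₊ ∧
      ⌊(N - a + s) * (J : ℝ)⌋₊ + ⌊P * (J : ℝ)⌋₊ + 1 ≤ ⌊(N - a + P') * (J : ℝ)⌋₊ := by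
  obtain ⟨J₁, hJ₁⟩ := exists_nat_ge (8 / min s x)
  refine ⟨J₁, fun J hJ => ?_⟩
  have hJr : (J₁ : ℝ) ≤ J := by exact_mod_cast hJ
  have hJ0 : (0 : ℝ) ≤ J := Nat.cast_nonneg J
  have hmn : 0 < min s x := lt_min hs hx
  have q0 : 8 ≤ min s x * J := by
    have h1 := hJ₁.trans hJr
    rw [div_le_iff₀ hmn] at h1
    linarith
  have q1 : 8 ≤ s * J := q0.trans (mul_le_mul_of_nonneg_right (min_le_left _ _) hJ0)
  have q2 : 8 ≤ x * J := q0.trans (mul_le_mul_of_nonneg_right (min_le_right _ _) hJ0)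
  have g1 : (P + 4 * (s + x)) * J ≤ P' * J := mul_le_mul_of_nonneg_right h1 hJ0
  have f1 : (N - a - x) * (J : ℝ) - 1 < ⌊(N - a - x) * (J : ℝ)⌋₊ := Nat.sub_one_lt_floor _
  have f2 : (⌊(N - a + s) * (J : ℝ)⌋₊ : ℝ) ≤ (N - a + s) * J :=
    Nat.floor_le (mul_nonneg (by linarith) hJ0)
  have f3 : P' * (J : ℝ) - 1 < ⌊P' * (J : ℝ)⌋₊ := Nat.sub_one_lt_floor _
  have f4 : (⌊P * (J : ℝ)⌋₊ : ℝ) ≤ P * J := Nat.floor_le (mul_nonneg hP hJ0)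
  have f5 : (N - a + P') * (J : ℝ) - 1 < ⌊(N - a + P') * (J : ℝ)⌋₊ := Nat.sub_one_lt_floor _
  refine ⟨Nat.floor_le_floor (mul_le_mul_of_nonneg_right (by linarith) hJ0), ?_, ?_⟩
  · have h2 : (⌊(N - a + s) * (J : ℝ)⌋₊ : ℝ) + 2 + ⌊P * (J : ℝ)⌋₊ ≤
        ⌊(N - a - x) * (J : ℝ)⌋₊ + ⌊P' * (J : ℝ)⌋₊ := by nlinarith
    exact_mod_cast h2
  · have h2 : (⌊(N - a + s) * (J : ℝ)⌋₊ : ℝ) + ⌊P * (J : ℝ)⌋₊ + 1 ≤
        ⌊(N - a + P') * (J : ℝ)⌋₊ := by nlinarith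
    exact_mod_cast h2

/-- **One more coordinate.** -/
theorem red_step {S : PCl m} {C₀ : ℝ} (htm : TmC S C₀) {y : Fin m} {I : Finset (Fin m)}
    {v : Fin m} (hv : v ∉ I) {a N P P' : ℝ} (hP : 0 ≤ P) (hPP : P < P') (haN : a ≤ N)
    (hcf : CfP S (insert v I) a (N - a)) (hA : HasA S I v a N)
    (hrep : RepP S y I v a N P') (hred : RedP S y I a P') : RedP S y (insert v I) a P := by
  intro h hh
  obtain ⟨h', hh'⟩ : ∃ h', h' = min h 1 / 4 := ⟨_, rfl⟩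
  have hh'0 : 0 < h' := by
    rw [hh']
    have := lt_min hh one_pos
    linarith
  have hh'1 : 4 * h' ≤ h := by
    rw [hh']
    have := min_le_left h 1
    linarith
  have hh'2 : 4 * h' ≤ 1 := by
    rw [hh']
    have := min_le_right h 1
    linarith
  obtain ⟨x₀, hx₀, hrep⟩ := hrep
  obtain ⟨s, hs⟩ : ∃ s, s = min ((P' - P) / 8) x₀ := ⟨_, rfl⟩
  have hs0 : 0 < s := by
    rw [hs]
    exact lt_min (by linarith) hx₀
  have hs1 : P + 4 * (s + s) ≤ P' := by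
    have : s ≤ (P' - P) / 8 := by rw [hs]; exact min_le_left _ _
    linarith
  have hs2 : s ≤ x₀ := by rw [hs]; exact min_le_right _ _
  obtain ⟨τ₁, hτ₁, J₁, hb₁⟩ := hcf s h' hs0 hh'0
  obtain ⟨τ₂, hτ₂, J₂, hb₂⟩ := hA s hs0
  obtain ⟨τ₃, hτ₃, J₃, hb₃⟩ := hrep s hs0 hs2 h' hh'0
  obtain ⟨τ₄, hτ₄, J₄, hb₄⟩ := hred h' hh'0
  obtain ⟨J₅, hfit⟩ := red_fit (N := N) (a := a) haN hP hs0 hs0 hs1
  obtain ⟨τ, hτ⟩ : ∃ τ, τ = min (min τ₁ τ₂) (min (τ₃ / 2) (τ₄ / 2)) := ⟨_, rfl⟩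
  have hτ0 : 0 < τ := by
    rw [hτ]
    exact lt_min (lt_min hτ₁ hτ₂) (lt_min (by linarith) (by linarith))
  have t1 : τ ≤ τ₁ := by rw [hτ]; exact (min_le_left _ _).trans (min_le_left _ _)
  have t2 : τ ≤ τ₂ := by rw [hτ]; exact (min_le_left _ _).trans (min_le_right _ _)
  have t3 : 2 * τ ≤ τ₃ := by
    have : τ ≤ τ₃ / 2 := by rw [hτ]; exact (min_le_right _ _).trans (min_le_left _ _)
    linarith
  have t4 : 2 * τ ≤ τ₄ := by
    have : τ ≤ τ₄ / 2 := by rw [hτ]; exact (min_le_right _ _).trans (min_le_right _ _)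
    linarith
  obtain ⟨J₆, hJ₆⟩ := exists_nat_ge (Real.log 2 / τ)
  refine ⟨τ, hτ0, max (max (max J₁ J₂) (max J₃ J₄)) (max J₅ J₆), ?_⟩
  intro J hJ F A hAS δ δc η hη hcl hcc hrel
  have j1 : J₁ ≤ J :=
    ((le_max_left _ _).trans ((le_max_left _ _).trans (le_max_left _ _))).trans hJ
  have j2 : J₂ ≤ J :=
    ((le_max_right _ _).trans ((le_max_left _ _).trans (le_max_left _ _))).trans hJ
  have j3 : J₃ ≤ J :=
    ((le_max_left _ _).trans ((le_max_right _ _).trans (le_max_left _ _))).trans hJ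
  have j4 : J₄ ≤ J :=
    ((le_max_right _ _).trans ((le_max_right _ _).trans (le_max_left _ _))).trans hJ
  have j5 : J₅ ≤ J := ((le_max_left _ _).trans (le_max_right _ _)).trans hJ
  have j6 : (J₆ : ℝ) ≤ J := by
    exact_mod_cast ((le_max_right _ _).trans (le_max_right _ _)).trans hJ
  have hlog : Real.log 2 ≤ τ * J := by
    have h1 := hJ₆.trans j6
    rw [div_le_iff₀ hτ0] at h1
    linarith
  have hA0 := (htm τ J F A hτ0 hAS).1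
  obtain ⟨p1, p2, p3⟩ := hfit J j5
  obtain ⟨ns, hns⟩ : ∃ n, n = ⌊(N - a + s) * (J : ℝ)⌋₊ := ⟨_, rfl⟩
  obtain ⟨nx, hnx⟩ : ∃ n, n = ⌊(N - a - s) * (J : ℝ)⌋₊ := ⟨_, rfl⟩
  obtain ⟨nP, hnP⟩ : ∃ n, n = ⌊P * (J : ℝ)⌋₊ := ⟨_, rfl⟩
  obtain ⟨nP', hnP'⟩ : ∃ n, n = ⌊P' * (J : ℝ)⌋₊ := ⟨_, rfl⟩
  obtain ⟨nr, hnr⟩ : ∃ n, n = ⌊(N - a + P') * (J : ℝ)⌋₊ := ⟨_, rfl⟩
  rw [← hnx, ← hns] at p1
  rw [← hnx, ← hns, ← hnP, ← hnP'] at p2
  rw [← hns, ← hnP, ← hnr] at p3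
  rw [← hnP]
  have Ps : (0 : ℝ) < 2 ^ ns := by positivity
  have Px : (0 : ℝ) < 2 ^ nx := by positivity
  have PP : (0 : ℝ) < 2 ^ nP := by positivity
  have PP' : (0 : ℝ) < 2 ^ nP' := by positivity
  have Pr : (0 : ℝ) < 2 ^ nr := by positivity
  -- the coefficient of `v`
  obtain ⟨B₁, b11, b12, b13⟩ := hb₁ J j1 F A (S.mono t1 hAS) δ δc η hη hcl hcc hrel
  have hB₁ : S.St (2 * τ) J F B₁ := res_of hτ0.le hAS b11 two_pos hlog (by nlinarith)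
  have hvin : v ∈ insert v I := Finset.mem_insert_self _ _
  have hkin : ∀ k ∈ I, k ∈ insert v I := fun k hk => Finset.mem_insert_of_mem hk
  have hδv : ∀ ω, B₁ ω → |δ (ptr F J ω) v| ≤ η * 2 ^ ns := fun ω hω => by
    rw [hns]
    exact (b13 ω hω).1 v hvin
  obtain ⟨a₀, c₀, hlab⟩ := hb₂ J j2 F A (S.mono t2 hAS)
  -- the own velocity of `v`
  obtain ⟨B₂, b21, b22, p', q', b23⟩ := hb₃ J j3 F B₁ (S.mono t3 hB₁) a₀ c₀ (hlab.sub b11)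
  rw [← hnr] at b23
  rw [← hnx] at hlab
  have hB₂A : Sub B₂ A := fun ω hω => b11 ω (b21 ω hω)
  have hB₂P : (1 - 2 * h') * Pe F.p A ≤ Pe F.p B₂ := by
    have h1 : (1 - h') * ((1 - h') * Pe F.p A) ≤ (1 - h') * Pe F.p B₁ :=
      mul_le_mul_of_nonneg_left b12 (by linarith)
    nlinarith [mul_nonneg (mul_self_nonneg h') hA0.le]
  have hB₂ : S.St (2 * τ) J F B₂ := res_of hτ0.le hAS hB₂A two_pos hlog (by nlinarith)
  obtain ⟨η', hη'⟩ : ∃ η', η' = η + η * 2 ^ ns * (1 / 2 ^ nx) := ⟨_, rfl⟩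
  have hη'0 : 0 < η' := by rw [hη']; positivity
  have hcl2 := (hcl v hvin).sub hB₂A
  have hsum : ∀ ω : F.Ω, ∑ k ∈ I, (δ (ptr F J ω) k + δ (ptr F J ω) v * a₀ (ptr F J ω) k) *
      F.d ω k = ∑ k ∈ I, δ (ptr F J ω) k * F.d ω k + δ (ptr F J ω) v *
        ∑ k ∈ I, a₀ (ptr F J ω) k * F.d ω k := by
    intro ω
    rw [Finset.mul_sum, ← Finset.sum_add_distrib]
    exact Finset.sum_congr rfl fun k _ => by ring
  obtain ⟨B₃, b31, b32, p'', q'', b33⟩ := hb₄ J j4 F B₂ (S.mono t4 hB₂)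
    (fun p k => δ p k + δ p v * a₀ p k) (fun p => δc p + δ p v * c₀ p) η' hη'0
    (fun k hk => Cl1.map2 (fun x y => x + y) ((hcl k (hkin k hk)).sub hB₂A)
      (Cl1.map2 (fun x y => x * y) hcl2 ((hlab.ca k hk).sub hB₂A)))
    (Cl1.map2 (fun x y => x + y) (hcc.sub hB₂A)
      (Cl1.map2 (fun x y => x * y) hcl2 (hlab.cc.sub hB₂A))) (fun ω hω => by
      have h1 := hrel ω (hB₂A ω hω)
      have h2 := (hlab.dp ω (hB₂A ω hω)).2.2
      have h3 := hδv ω (b21 ω hω)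
      rw [Finset.sum_insert hv] at h1
      have h4 : δc (ptr F J ω) + δ (ptr F J ω) v * c₀ (ptr F J ω) +
          ∑ k ∈ I, (δ (ptr F J ω) k + δ (ptr F J ω) v * a₀ (ptr F J ω) k) * F.d ω k =
          (δc (ptr F J ω) + (δ (ptr F J ω) v * F.d ω v +
            ∑ k ∈ I, δ (ptr F J ω) k * F.d ω k)) -
          δ (ptr F J ω) v *
            (F.d ω v - c₀ (ptr F J ω) - ∑ k ∈ I, a₀ (ptr F J ω) k * F.d ω k) := by
        rw [hsum]
        ring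
      rw [h4, hη']
      refine (abs_sub _ _).trans (add_le_add h1 ?_)
      rw [abs_mul]
      exact mul_le_mul h3 h2 (abs_nonneg _) (by positivity))
  rw [← hnP'] at b33
  refine ⟨B₃, fun ω hω => hB₂A ω (b31 ω hω), ?_, fun p => p'' p + δ p v * p' p,
    fun p => q'' p + δ p v * q' p, fun ω hω => ?_⟩
  · have h1 : (1 - h') * ((1 - 2 * h') * Pe F.p A) ≤ (1 - h') * Pe F.p B₂ :=
      mul_le_mul_of_nonneg_left hB₂P (by linarith)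
    nlinarith [mul_nonneg (mul_self_nonneg h') hA0.le, mul_le_mul_of_nonneg_right hh'1 hA0.le,
      mul_nonneg hh'0.le hA0.le]
  · have h1 := b33 ω hω
    have h2 := b23 ω (b31 ω hω)
    have h3 := hδv ω (b21 ω (b31 ω hω))
    rw [Finset.sum_insert hv]
    have h4 : δc (ptr F J ω) + (δ (ptr F J ω) v * F.d ω v +
        ∑ k ∈ I, δ (ptr F J ω) k * F.d ω k) - (p'' (ptr F J ω) + δ (ptr F J ω) v * p' (ptr F J ω)) -
        (q'' (ptr F J ω) + δ (ptr F J ω) v * q' (ptr F J ω)) * F.d ω y =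
        (δc (ptr F J ω) + δ (ptr F J ω) v * c₀ (ptr F J ω) +
          ∑ k ∈ I, (δ (ptr F J ω) k + δ (ptr F J ω) v * a₀ (ptr F J ω) k) * F.d ω k -
          p'' (ptr F J ω) - q'' (ptr F J ω) * F.d ω y) +
        δ (ptr F J ω) v * (F.d ω v - c₀ (ptr F J ω) -
          ∑ k ∈ I, a₀ (ptr F J ω) k * F.d ω k - p' (ptr F J ω) - q' (ptr F J ω) * F.d ω y) := by
      rw [hsum]
      ring
    rw [h4]
    refine (abs_add_le _ _).trans ?_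
    have h5 : |δ (ptr F J ω) v * (F.d ω v - c₀ (ptr F J ω) -
        ∑ k ∈ I, a₀ (ptr F J ω) k * F.d ω k - p' (ptr F J ω) - q' (ptr F J ω) * F.d ω y)| ≤
        η * 2 ^ ns * (1 / 2 ^ nr) := by
      rw [abs_mul]
      exact mul_le_mul h3 h2 (abs_nonneg _) (by positivity)
    refine (add_le_add h1 h5).trans ?_
    have k1 : η' / 2 ^ nP' ≤ η / 2 ^ nP / 2 := by
      have k3 : (2 : ℝ) ^ nx ≤ 2 ^ ns := pow_le_pow_right₀ (by norm_num) p1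
      have k4 : (2 : ℝ) ^ (ns + 2 + nP) ≤ 2 ^ (nx + nP') := pow_le_pow_right₀ (by norm_num) p2
      rw [pow_add, pow_add, pow_add] at k4
      have k5 : η' * 2 ^ nx ≤ 2 * (η * 2 ^ ns) := by
        have e1 : η' * 2 ^ nx = η * 2 ^ nx + η * 2 ^ ns := by
          rw [hη']
          field_simp
        rw [e1]
        have := mul_le_mul_of_nonneg_left k3 hη.le
        linarith
      rw [div_div, div_le_div_iff₀ PP' (by positivity)]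
      have k6 : 2 ^ nx * (η' * (2 ^ nP * 2)) ≤ 2 ^ nx * (η * 2 ^ nP') := by
        calc (2 : ℝ) ^ nx * (η' * (2 ^ nP * 2)) = η' * 2 ^ nx * (2 ^ nP * 2) := by ring
          _ ≤ 2 * (η * 2 ^ ns) * (2 ^ nP * 2) := mul_le_mul_of_nonneg_right k5 (by positivity)
          _ = η * (2 ^ ns * 2 ^ 2 * 2 ^ nP) := by ring
          _ ≤ η * (2 ^ nx * 2 ^ nP') := mul_le_mul_of_nonneg_left k4 hη.le
          _ = 2 ^ nx * (η * 2 ^ nP') := by ring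
      exact le_of_mul_le_mul_left k6 Px
    have k2 : η * 2 ^ ns * (1 / 2 ^ nr) ≤ η / 2 ^ nP / 2 := by
      have k4 : (2 : ℝ) ^ (ns + nP + 1) ≤ 2 ^ nr := pow_le_pow_right₀ (by norm_num) p3
      rw [pow_add, pow_add] at k4
      rw [div_div, mul_one_div, div_le_div_iff₀ Pr (by positivity)]
      calc η * 2 ^ ns * (2 ^ nP * 2) = η * (2 ^ ns * 2 ^ nP * 2 ^ 1) := by ring
        _ ≤ η * 2 ^ nr := mul_le_mul_of_nonneg_left k4 hη.le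
    linarith

end Pool.OWN72
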