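import Pool.Agent.H72.OWN.Rxb

/-!
# The numbers of the zooms behind visible records: two and three coordinates
-/

set_option autoImplicit false

namespace Pool.OWN72

open Finset
open Pool.Agent.H49.Ent Pool.Agent.H32.Dense Pool.STK Pool.KA Pool.KSAT Pool.K2S Pool.PB Pool.GEN
open Pool.S6C Pool.REX Pool.REX83
open Pool.MIC6 (ActZ ActF ng_num)

variable {m n J : ℕ}

/-- **The second number.** -/
theorem it_one {S : PCl m} (hne : S.Ne) {C₀ : ℝ} (hC₀ : 0 ≤ C₀) (htm : TmC S C₀)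
    {L : Finset (Fin m) → Fin m → ℝ → ℝ → ℝ} (hL : LamW S L)
    {c : ℕ → Fin m} {n₀ : ℕ} (hn : 1 < n₀) {Wd : Set ℝ} {g R d be co : ℝ} {Dg sl : ℕ → ℝ}
    (hD : NrR S L c n₀ Wd g R d be co Dg sl) (hbe : 0 < be) (hco : 0 < co) (hd0 : 0 ≤ d)
    {v : Vz m} {ε : Fin (n + 1) → Fin m} {p : ℝ} (hp0 : 0 ≤ p) (hp1 : p < 1)
    {L' : Finset (Fin (n + 1)) → Fin (n + 1) → ℝ → ℝ → ℝ}
    (hL' : LamW (RecV S (atp v p hp0 hp1) ε) L') (hact : ActZ S (atp v p hp0 hp1) ε 0)
    (hε0 : ε 0 = c 0) {k : Fin (n + 1)} (hεk : ε k = c 1) {w' w r' : ℝ} (hw' : w' < w)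
    (hw0 : 0 < w) (hw1 : w < 1) (hgb : g ≤ v.b)
    (hroom : v.b + w + (2 * d + p * (1 - v.b)) / be < g + R) :
    v.b + (1 - v.b) * (p + (1 - p) * L' {0} k w' r') ≤
      p * (1 - v.b) + L (img c 1) (c 1) v.b 0 + w / be + 2 * d := by
  have hb0 := v.b0
  have hb1 := v.b1
  have hlin := hD.lin 1 le_rfl hn
  have hs := hD.slo 1 le_rfl hn
  rw [img_one] at hlin
  have hc1 : (1 - v.b) * (1 - p) ≤ 1 := mul_le_one₀ (by linarith) (by linarith) (by linarith)
  have hc0 : 0 ≤ (1 - v.b) * (1 - p) := mul_nonneg (by linarith) (by linarith)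
  have etm : (atp v p hp0 hp1).tm w = v.b + (1 - v.b) * (1 - p) * w := rfl
  have h1 : (1 - v.b) * (1 - p) * w ≤ w := by
    have h2 := mul_le_mul_of_nonneg_right hc1 hw0.le
    linarith
  have h0 : 0 ≤ (1 - v.b) * (1 - p) * w := mul_nonneg hc0 hw0.le
  have key := num_one hC₀ htm hne (atp v p hp0 hp1) ε hL hL' hact (k := k) (g := g)
    (R := R) (D := Dg 1) (s := sl 1) (d := d) (be := be) (r' := r') hD.g0
    (by have := hD.g1; linarith) hbe hs.1
    (by rw [hε0, hεk]; exact hlin) hw' hw0 hw1 (by rw [etm]; linarith)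
    (by
      rw [etm]
      show v.b + (1 - v.b) * (1 - p) * w + (2 * d + p * (1 - v.b)) / be < g + R
      linarith) hd0
  have esc : (atp v p hp0 hp1).sc (L' {0} k w' r') =
    v.b + (1 - v.b) * (p + (1 - p) * L' {0} k w' r') := rfl
  have ep : (atp v p hp0 hp1).p * (1 - (atp v p hp0 hp1).b) = p * (1 - v.b) := rfl
  rw [esc, ep, etm] at key
  have hq : 0 ≤ (2 * d + p * (1 - v.b)) / be := by
    have : 0 ≤ p * (1 - v.b) := mul_nonneg hp0 (by linarith)
    positivity
  have h4 := (abs_le.1 (hD.lin 1 le_rfl hn v.b hgb (by linarith))).1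
  have h5 : sl 1 * ((1 - v.b) * (1 - p) * w) ≤ w / be := by
    calc sl 1 * ((1 - v.b) * (1 - p) * w) ≤ (1 / be) * w :=
          mul_le_mul hs.2 h1 h0 (by positivity)
      _ = w / be := by ring
  have e1 : sl 1 * (v.b + (1 - v.b) * (1 - p) * w - g) =
    sl 1 * (v.b - g) + sl 1 * ((1 - v.b) * (1 - p) * w) := by ring
  rw [e1] at key
  linarith

/-- The relation of the numbers at a window. -/
theorem ng_item {S : PCl m} {C₀ : ℝ} (htm : TmC S C₀)
    {L : Finset (Fin m) → Fin m → ℝ → ℝ → ℝ} (hL : LamW S L)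
    {c : ℕ → Fin m} {Wd : Set ℝ} {g R d be co : ℝ} {Dg sl : ℕ → ℝ}
    (hD : NrR S L c 3 Wd g R d be co Dg sl) (hbe : 0 < be) (hbe1 : be ≤ 1) (hco : 0 < co)
    (hd0 : 0 < d) (hdc : 2 * d < co) {W ka : ℝ} (hWd : W ∈ Wd) (hg : g ≤ W) (hka : 0 < ka)
    (hroom : W + ka * be < g + R) (hdk : 32 * d ≤ be ^ 2 * ka) :
    Pool.OWN40.NgC S (c 0) (c 1) (c 2) W (L {c 0} (c 1) W 0) (L {c 0, c 1} (c 2) W 0) ka := by
  have h3 : (3 : ℕ) ≤ 3 := le_rfl
  have hl1 := hD.lin 1 le_rfl (by norm_num)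
  have hl2 := hD.lin 2 (by norm_num) (by norm_num)
  have hs1 := hD.slo 1 le_rfl (by norm_num)
  have hs2 := hD.slo 2 (by norm_num) (by norm_num)
  have hA1 : ∀ w ∈ Wd, HasA S {c 0} (c 1) w (L {c 0} (c 1) w 0) := fun w hw => by
    have := hD.aff.lab w hw 1 le_rfl (by norm_num)
    rwa [img_one] at this
  have hA2 : ∀ w ∈ Wd, HasA S {c 0, c 1} (c 2) w (L {c 0, c 1} (c 2) w 0) := fun w hw => by
    have := hD.aff.lab w hw 2 (by norm_num) (by norm_num)
    rwa [img_two] at this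
  rw [img_one] at hl1
  rw [img_two] at hl2
  have hg0 := hD.g0
  have hg1 := hD.g1
  have hkb : 0 < ka * be := by positivity
  have hinj := hD.aff.inj
  have h01 : c 0 ≠ c 1 := fun h => by
    have := hinj (show (0 : ℕ) ∈ Set.Iio 3 by simp) (show (1 : ℕ) ∈ Set.Iio 3 by simp) h
    omega
  have hdkb : 32 * d ≤ ka * be := by
    have h5 : be ^ 2 * ka ≤ ka * be := by nlinarith
    linarith
  -- the other window
  obtain ⟨a, haW, ha1, ha2⟩ := hD.den (W + ka * be / 4) (W + ka * be / 2) (by linarith)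
    (by linarith) (by linarith)
  have haR : a ≤ g + R := by linarith
  -- bounds
  have u := abs_le.1 (hl1 W hg (by linarith))
  have v := abs_le.1 (hl2 W hg (by linarith))
  have a1 := abs_le.1 (hl1 a (by linarith) haR)
  have a2 := abs_le.1 (hl2 a (by linarith) haR)
  have D1 := hD.dlo 1 le_rfl (by norm_num)
  have D2 := hD.dlo 2 (by norm_num) (by norm_num)
  have E1 := hD.dhi 1 le_rfl (by norm_num)
  have E2 := hD.dhi 2 (by norm_num) (by norm_num)
  have gp := hD.gap h3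
  obtain ⟨t, ht⟩ : ∃ t, t = a - W := ⟨_, rfl⟩
  have ea : a = W + t := by rw [ht]; ring
  have t0 : ka * be / 4 < t := by rw [ht]; linarith
  have t1 : t < ka * be / 2 := by rw [ht]; linarith
  have tp : 0 < t := by linarith
  have eW1 : sl 1 * (a - g) = sl 1 * (W - g) + sl 1 * t := by rw [ea]; ring
  have eW2 : sl 2 * (a - g) = sl 2 * (W - g) + sl 2 * t := by rw [ea]; ring
  have q1 : W - g ≤ sl 1 * (W - g) := by nlinarith [hs1.1]
  have q2 : W - g ≤ sl 2 * (W - g) := by nlinarith [hs2.1]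
  have q3 : sl 1 * (a - g) ≤ sl 1 * R := mul_le_mul_of_nonneg_left (by linarith) (by linarith [hs1.1])
  have q4 : sl 2 * (a - g) ≤ sl 2 * R := mul_le_mul_of_nonneg_left (by linarith) (by linarith [hs2.1])
  have p1 : t ≤ sl 1 * t := by nlinarith [hs1.1]
  have p2 : t ≤ sl 2 * t := by nlinarith [hs2.1]
  have p3 : sl 1 * t ≤ ka / 2 := by
    have h5 : sl 1 * t ≤ 1 / be * (ka * be / 2) := mul_le_mul hs1.2 t1.le tp.le (by positivity)
    have e5 : 1 / be * (ka * be / 2) = ka / 2 := by field_simp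
    linarith
  have p4 : sl 2 * t ≤ ka / 2 := by
    have h5 : sl 2 * t ≤ 1 / be * (ka * be / 2) := mul_le_mul hs2.2 t1.le tp.le (by positivity)
    have e5 : 1 / be * (ka * be / 2) = ka / 2 := by field_simp
    linarith
  have p5 : be ^ 2 * ka / 4 < be * t := by
    have h5 := mul_lt_mul_of_pos_left t0 hbe
    have e5 : be * (ka * be / 4) = be ^ 2 * ka / 4 := by ring
    linarith
  have p6 : be ^ 2 * ka ≤ ka := by
    have h5 : be ^ 2 ≤ 1 := pow_le_one₀ hbe.le hbe1
    nlinarith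
  have hsl := hD.sld h3
  have q5 : sl 1 * (W - g) ≤ sl 1 * R :=
    mul_le_mul_of_nonneg_left (by linarith) (by linarith [hs1.1])
  refine Pool.OWN40.ng_rel htm hL h01 hD.aff.act (a := a) (by linarith) (by linarith)
    (by linarith) hka (by linarith) ?_ (by linarith) (by linarith) (by linarith) (by linarith)
    (by linarith) (hA1 W hWd) (hA1 a haW) (hA2 a haW) ?_
  · linarith
  · rcases le_total (sl 1) (sl 2) with h | h
    · left
      rw [abs_of_nonpos (by linarith)] at hsl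
      have h6 : be * t ≤ sl 2 * t - sl 1 * t := by
        have := mul_le_mul_of_nonneg_right hsl tp.le
        linarith
      constructor <;> linarith
    · right
      rw [abs_of_nonneg (by linarith)] at hsl
      have h6 : be * t ≤ sl 1 * t - sl 2 * t := by
        have := mul_le_mul_of_nonneg_right hsl tp.le
        linarith
      constructor <;> linarith

end Pool.OWN72
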