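import Pool.Agent.H72.OWN.Rxc
import Pool.Agent.H40.OWN.N021

/-!
# The numbers of the zooms behind visible records: the third number
-/

set_option autoImplicit false

namespace Pool.OWN72

open Finset
open Pool.Agent.H49.Ent Pool.Agent.H32.Dense Pool.STK Pool.KA Pool.KSAT Pool.K2S Pool.PB Pool.GEN
open Pool.S6C Pool.REX Pool.REX83
open Pool.MIC6 (ActZ ActF ng_num)

variable {m n J : ℕ}

/-- **The third number**, in both greedy orders. -/
theorem it_two {S : PCl m} (hne : S.Ne) {C₀ : ℝ} (hC₀ : 0 ≤ C₀) (htm : TmC S C₀)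
    {L : Finset (Fin m) → Fin m → ℝ → ℝ → ℝ} (hL : LamW S L)
    {c : ℕ → Fin m} {Wd : Set ℝ} {g R d be co : ℝ} {Dg sl : ℕ → ℝ}
    (hD : NrR S L c 3 Wd g R d be co Dg sl) (hbe : 0 < be) (hbe1 : be ≤ 1) (hco : 0 < co)
    (hd0 : 0 < d) {v : Vz m} {ε : Fin 3 → Fin m} {p : ℝ} (hp0 : 0 ≤ p) (hp1 : p < 1)
    {L' : Finset (Fin 3) → Fin 3 → ℝ → ℝ → ℝ} (hL' : LamW (RecV S (atp v p hp0 hp1) ε) L')
    (hact : ActZ S (atp v p hp0 hp1) ε 0) (hε : ∀ i : Fin 3, ε i = c i) {w' w r' x ka : ℝ}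
    (hw' : w' < w) (hw0 : 0 < w) (hw1 : w < 1) (hgb : g ≤ v.b) (hx : 0 < x)
    (hxw : x ≤ (1 - v.b) * (1 - p) * w) (hka : 0 < ka) (hkax : 64 * ka ≤ x)
    (hdk : 32 * d ≤ be ^ 2 * ka) (hsm : p * (1 - v.b) + 8 * x ≤ co / 2)
    (hroom : v.b + w + 2 * ((p * (1 - v.b) + 8 * x) / be) < g + R)
    (hWd : v.b + (1 - v.b) * (1 - p) * w ∈ Wd) :
    v.b + (1 - v.b) * (p + (1 - p) * L' {0, 1} 2 w' r') ≤
      p * (1 - v.b) + L (img c 2) (c 2) v.b 0 + w / be + 2 * d + 3 * x ∧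
    v.b + (1 - v.b) * (p + (1 - p) * L' {0, 2} 1 w' r') ≤
      p * (1 - v.b) + L (img c 2) (c 2) v.b 0 + w / be + 2 * d + 3 * x := by
  have hb0 := v.b0
  have hb1 := v.b1
  have hl1 := hD.lin 1 le_rfl (by norm_num)
  have hl2 := hD.lin 2 (by norm_num) (by norm_num)
  have hs1 := hD.slo 1 le_rfl (by norm_num)
  have hs2 := hD.slo 2 (by norm_num) (by norm_num)
  have hA1 : ∀ w ∈ Wd, HasA S {c 0} (c 1) w (L {c 0} (c 1) w 0) := fun w hw => by
    have := hD.aff.lab w hw 1 le_rfl (by norm_num)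
    rwa [img_one] at this
  have hA2 : ∀ w ∈ Wd, HasA S {c 0, c 1} (c 2) w (L {c 0, c 1} (c 2) w 0) := fun w hw => by
    have := hD.aff.lab w hw 2 (by norm_num) (by norm_num)
    rwa [img_two] at this
  rw [img_one] at hl1
  rw [img_two] at hl2
  have hg0 := hD.g0
  have hg1 := hD.g1
  have h01 : c 0 ≠ c 1 := fun h => by
    have := hD.aff.inj (show (0 : ℕ) ∈ Set.Iio 3 by simp) (show (1 : ℕ) ∈ Set.Iio 3 by simp) h
    omega
  have hc1' : (1 - v.b) * (1 - p) ≤ 1 := mul_le_one₀ (by linarith) (by linarith) (by linarith)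
  have hc0' : 0 < (1 - v.b) * (1 - p) := mul_pos (by linarith) (by linarith)
  obtain ⟨ps, hps⟩ : ∃ ps, ps = p * (1 - v.b) := ⟨_, rfl⟩
  have hps0 : 0 ≤ ps := by rw [hps]; exact mul_nonneg hp0 (by linarith)
  rw [← hps] at hsm hroom
  obtain ⟨W, hW⟩ : ∃ W, W = v.b + (1 - v.b) * (1 - p) * w := ⟨_, rfl⟩
  rw [← hW] at hWd
  have hc1 := hD.con (by norm_num) W hWd
  have hc2 := hD.co2 le_rfl W hWd
  have etm : (atp v p hp0 hp1).tm w = W := by rw [hW]; rfl
  have ep : (atp v p hp0 hp1).p * (1 - (atp v p hp0 hp1).b) = ps := by rw [hps]; rfl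
  have h1w : (1 - v.b) * (1 - p) * w ≤ w := by
    have h2 := mul_le_mul_of_nonneg_right hc1' hw0.le
    linarith
  have h0w : 0 < (1 - v.b) * (1 - p) * w := mul_pos hc0' hw0
  obtain ⟨Δ, hΔ⟩ : ∃ Δ, Δ = (ps + 8 * x) / be := ⟨_, rfl⟩
  rw [← hΔ] at hroom
  have hΔ0 : 0 < Δ := by rw [hΔ]; positivity
  have hΔb : be * Δ = ps + 8 * x := by rw [hΔ]; field_simp
  have hkb : ka * be ≤ Δ := by
    have h1 : ka * be ≤ ka * 1 := mul_le_mul_of_nonneg_left hbe1 hka.le
    have h2 : be * Δ ≤ 1 * Δ := mul_le_mul_of_nonneg_right hbe1 hΔ0.le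
    linarith
  have hkb0 : 0 < ka * be := by positivity
  have hbk : be ^ 2 * ka ≤ ka := by
    have h5 : be ^ 2 ≤ 1 := pow_le_one₀ hbe.le hbe1
    nlinarith
  have hgW : g ≤ W := by rw [hW]; linarith
  have hWR : W + 2 * Δ < g + R := by rw [hW]; linarith
  have hbW : v.b ≤ W := by rw [hW]; linarith
  have hG := gre_of hD hbe hbe1 hd0.le (by linarith) (b := v.b) (R' := (w + 2 * Δ))
    (Pm := ps + 7 * x) (Δ := Δ) hgb (by linarith) (by linarith) (by linarith)
  -- bounds of the numbers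
  obtain ⟨u2, u1⟩ := abs_le.1 (hl1 W hgW (by linarith))
  obtain ⟨v2, v1⟩ := abs_le.1 (hl2 W hgW (by linarith))
  have D1 := hD.dlo 1 le_rfl (by norm_num)
  have D2 := hD.dlo 2 (by norm_num) (by norm_num)
  have E1 := hD.dhi 1 le_rfl (by norm_num)
  have E2 := hD.dhi 2 (by norm_num) (by norm_num)
  have q1 : W - g ≤ sl 1 * (W - g) := by nlinarith [hs1.1]
  have q2 : W - g ≤ sl 2 * (W - g) := by nlinarith [hs2.1]
  have q3 : sl 1 * (W - g) ≤ sl 1 * R :=
    mul_le_mul_of_nonneg_left (by linarith) (by linarith [hs1.1])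
  have q4 : sl 2 * (W - g) ≤ sl 2 * R :=
    mul_le_mul_of_nonneg_left (by linarith) (by linarith [hs2.1])
  -- labels at the window
  have lU := hA1 W hWd
  have lV := hD.af2 le_rfl W hWd
  have lD := hA2 W hWd
  have ru := rep_alF htm hL hD.aff hx hG 1 le_rfl (by norm_num) W hbW
    (by push_cast; rw [hW]; linarith) hΔ0 (ps + 4 * x) (by linarith) (by push_cast; linarith)
  have rv := rep_alF htm hL hD.aff hx hG 2 (by norm_num) (by norm_num) W hbW
    (by push_cast; rw [hW]; linarith) hΔ0 (ps + 4 * x) (by linarith) (by push_cast; linarith)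
  rw [img_one] at ru
  rw [img_two] at rv
  have hng := ng_item htm hL hD hbe hbe1 hco hd0 (by linarith) hWd hgW hka (by linarith) hdk
  have hW0 : 0 ≤ W := by linarith
  have hcf : CfP S {c 0, c 1} W (L {c 0} (c 1) W 0 - W) := by
    have h1 := cf_step htm hL (I := {c 0}) (v := c 1) (by
      rw [Finset.mem_singleton]
      exact fun h => h01 h.symm) hW0 (cf_zero htm hD.aff.act W) le_rfl (by linarith)
      (by linarith) lU
    rwa [Finset.pair_comm] at h1
  -- the second coordinate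
  have hVU : L {c 0} (c 1) W 0 ≤ L {c 0} (c 2) W 0 + ka / 4 := by
    have h1 := hD.tie le_rfl W hgW (by linarith)
    linarith
  have hVD : L {c 0} (c 2) W 0 ≤ L {c 0, c 1} (c 2) W 0 :=
    hL.mono _ _ _ _ _ _ _ (by simp) le_rfl le_rfl
  have hlast := nr_b hD hgb hbW (by linarith) (l := 2) (by norm_num) (by norm_num)
  have hWb : (W - v.b) / be ≤ w / be := by
    refine div_le_div_of_nonneg_right ?_ hbe.le
    rw [hW]
    linarith
  have e0 : ε 0 = c 0 := hε 0
  have e1 : ε 1 = c 1 := hε 1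
  have e2 : ε 2 = c 2 := hε 2
  have esc : ∀ y : ℝ, (atp v p hp0 hp1).sc y = v.b + (1 - v.b) * (p + (1 - p) * y) :=
    fun y => rfl
  obtain ⟨q, hq⟩ : ∃ q, q = L {c 0, c 1} (c 2) W 0 - W + 2 * x := ⟨_, rfl⟩
  have exw : (1 - (atp v p hp0 hp1).b) * (1 - (atp v p hp0 hp1).p) * w =
    (1 - v.b) * (1 - p) * w := rfl
  have hactF := hD.aff.act
  constructor
  · have key := num_012 hne hC₀ htm hL (atp v p hp0 hp1) ε hL' (κ := 0) (ι := 1) (k := 2)
      (by decide) (by rw [e0, e1]; exact h01) hact (by rw [e0]; exact hactF) (w' := w') (w := w)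
      (r' := r') (x := x) (q := q) (D := L {c 0, c 1} (c 2) W 0) (P := ps + 4 * x) (ka := ka)
      hw' hw0 hw1 hx (by rw [exw]; exact hxw) (by rw [e0, e1, etm]; exact hc1)
      (by rw [e0, e1, etm]; linarith) (by rw [e0, e1, etm, ep]; linarith)
      (by rw [etm]; linarith) (by rw [e0, e1, etm]; exact lU)
      (by rw [e0, e1, e2, etm]; exact lD) (by rw [e0, e1, etm]; exact ru)
      (by rw [e0, e1, e2, etm]; exact rv) (by rw [ep]; linarith)
      (by rw [ep, etm]; linarith) hka (by linarith) (by rw [etm]; linarith)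
      (by rw [e0, e1, e2, etm]; exact hng)
    rw [esc, ep, etm] at key
    rw [img_two] at hlast ⊢
    rw [← hps]
    linarith
  · have key := num_021 hne hC₀ htm hL (atp v p hp0 hp1) ε hL' (κ := 0) (ι := 1) (k := 2)
      (by decide) (by rw [e0, e1]; exact h01) hact (by rw [e0]; exact hactF) (w' := w') (w := w)
      (r' := r') (x := x) (q := q) (D := L {c 0, c 1} (c 2) W 0) (P := ps + 4 * x) (ka := ka)
      hw' hw0 hw1 hx (by rw [exw]; exact hxw) (by rw [e0, e2, etm]; exact hc2)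
      (by rw [e0, e1, etm]; linarith) (by rw [e0, e2, etm]; linarith)
      (by rw [e0, e2, etm, ep]; linarith) (by rw [e0, e2, etm]; exact hVD)
      (by rw [e0, e1, etm]; exact lU) (by rw [e0, e2, etm]; exact lV)
      (by rw [e0, e1, e2, etm]; exact lD) (by rw [e0, e1, etm]; exact hcf)
      (by rw [e0, e1, etm]; exact ru)
      (by rw [e0, e1, e2, etm]; exact rv) (by rw [ep]; linarith)
      (by rw [ep, etm]; linarith) hka hkax (by rw [etm]; linarith)
      (by rw [e0, e1, e2, etm]; exact hVU) (by rw [e0, e1, etm]; linarith)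
      (by rw [e0, e1, e2, etm]; exact hng)
    rw [esc, ep, etm] at key
    rw [img_two] at hlast ⊢
    rw [← hps]
    linarith

end Pool.OWN72
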