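import Pool.Agent.H83.REC.Exq

/-!
# Tubes with a chosen active coordinate

`tub_pick`: if behind `P` the numbers of the coordinate `κ` are at least the numbers of the full
direction, and these are positive on `[P, Q]`, there is an active scale of `κ` between `P` and `Q`.
`rexv_pick`: exactness behind records for countably many zooms, with tubes in chosen intervals and
with chosen active coordinates.
-/

set_option autoImplicit false

namespace Pool.OWN72

open Finset Real MeasureTheory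
open Pool.Agent.H49.Ent Pool.Agent.H32.Dense Pool.STK Pool.KA Pool.KSAT Pool.K2S Pool.PB Pool.S6C
open Pool.GEN Pool.REX Pool.REX83

variable {m n J : ℕ}

/-- Smaller intervals. -/
theorem sup_le {S : PCl n} {N : Finset (Fin n) → ℝ → ℝ → ℝ} (hN : ActN S N) (κ : Finset (Fin n))
    {x x' y' y : ℝ} (h0 : 0 ≤ x) (h1 : x ≤ x') (h2 : x' ≤ y') (h3 : y' ≤ y) (h4 : y ≤ 1) :
    N κ x' y' ≤ N κ x y := by
  have a1 := hN.sup κ x x' y' h0 h1 h2 (h3.trans h4)
  have a2 := hN.sup κ x y' y h0 (h1.trans h2) h3 h4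
  have a3 := hN.nonneg κ x x' h0 (h1.trans (h2.trans (h3.trans h4))) (h0.trans h1)
    (h2.trans (h3.trans h4))
  have a4 := hN.nonneg κ y' y (h0.trans (h1.trans h2)) (h3.trans h4)
    (h0.trans (h1.trans (h2.trans h3))) h4
  linarith

/-- **An active scale of a chosen coordinate.** -/
theorem tub_pick {S : PCl n} {N : Finset (Fin n) → ℝ → ℝ → ℝ} (hN : ActN S N) {κ : Fin n}
    {P Q : ℝ} (hP : 0 ≤ P) (hPQ : P < Q) (hQ : Q ≤ 1)
    (h1 : ∀ x y, P ≤ x → x ≤ y → y ≤ Q → N univ x y ≤ N {κ} x y) (h2 : 0 < N univ P Q) :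
    ∃ p : ℝ, P < p ∧ p < Q ∧ ∃ al : ℝ, 0 < al ∧ Act (N {κ}) p al := by
  obtain ⟨F, b, -, -, -, k1, k2, k3, k4, k5, -, k6⟩ := Pool.SUPA.main (hN.sa {κ})
  -- the numbers of the full direction between `P` and `Q`
  obtain ⟨cl, hcl⟩ : ∃ cl : ℝ → ℝ, cl = fun x => max P (min x Q) := ⟨_, rfl⟩
  have cP : ∀ x, P ≤ cl x := fun x => by rw [hcl]; exact le_max_left _ _
  have cQ : ∀ x, cl x ≤ Q := fun x => by rw [hcl]; exact max_le hPQ.le (min_le_right _ _)
  have cm : ∀ x y, x ≤ y → cl x ≤ cl y := fun x y h => by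
    rw [hcl]
    exact max_le_max le_rfl (min_le_min h le_rfl)
  have c0 : ∀ x, 0 ≤ cl x := fun x => hP.trans (cP x)
  have c1 : ∀ x, cl x ≤ 1 := fun x => (cQ x).trans hQ
  have key := le_int (ι := Unit) (N := fun _ => N {κ}) (U := fun x y => N univ (cl x) (cl y))
    (b := fun _ => b) (K := n) (fun _ => k1) (fun _ => k2) (fun _ => k3)
    (fun x y z a1 a2 a3 a4 => (hN.add (cl x) (cl y) (cl z) (c0 x) (cm _ _ a2) (cm _ _ a3)
      (c1 z)).ge)
    (fun x y a1 a2 a3 => by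
      simp only [Finset.univ_unique, Finset.sum_singleton]
      refine (h1 _ _ (cP x) (cm _ _ a2) (cQ y)).trans ?_
      rcases le_or_gt y P with hy | hy
      · have e1 : cl y = P := by
          rw [hcl]
          simp only
          rw [min_eq_left (hy.trans hPQ.le), max_eq_left hy]
        have e2 : cl x = P := by
          rw [hcl]
          simp only
          rw [min_eq_left ((a2.trans hy).trans hPQ.le), max_eq_left (a2.trans hy)]
        rw [e1, e2]
        have := hN.le {κ} P P hP le_rfl (hPQ.le.trans hQ)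
        have h3 := hN.nonneg {κ} x y a1 (a2.trans a3) (a1.trans a2) a3
        rw [sub_self, mul_zero] at this
        linarith
      · rcases le_or_gt Q x with hx | hx
        · have e1 : cl x = Q := by
            rw [hcl]
            simp only
            rw [min_eq_right hx, max_eq_right hPQ.le]
          have e2 : cl y = Q := by
            rw [hcl]
            simp only
            rw [min_eq_right (hx.trans a2), max_eq_right hPQ.le]
          rw [e1, e2]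
          have := hN.le {κ} Q Q (hP.trans hPQ.le) le_rfl hQ
          have h3 := hN.nonneg {κ} x y a1 (a2.trans a3) (a1.trans a2) a3
          rw [sub_self, mul_zero] at this
          linarith
        · refine sup_le hN {κ} a1 ?_ (cm _ _ a2) ?_ a3
          · rw [hcl]
            simp only
            rw [min_eq_left hx.le]
            exact le_max_right _ _
          · rw [hcl]
            simp only
            exact max_le hy.le (min_le_left _ _))
    (fun x _ _ => ((hN.sa univ).self (c0 x) (c1 x)).le)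
    (fun _ e he => by
      obtain ⟨del, hdel, h8⟩ := k6 e he
      refine ⟨del, hdel, fun M x q1 q2 q3 q4 => ?_⟩
      refine le_trans (le_of_eq (Finset.sum_congr rfl fun l _ => ?_)) (h8 M x q1 q2 q3 q4)
      rw [k4]) hP hPQ.le hQ
  simp only [Finset.univ_unique, Finset.sum_singleton] at key
  have e1 : cl P = P := by
    rw [hcl]
    simp only
    rw [min_eq_left hPQ.le, max_self]
  have e2 : cl Q = Q := by
    rw [hcl]
    simp only
    rw [min_self, max_eq_right hPQ.le]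
  rw [e1, e2] at key
  have hint : 0 < ∫ t in P..Q, b t := h2.trans_le key
  -- a Lebesgue point
  have hleb : ∀ᵐ p : ℝ, ∀ ε : ℝ, 0 < ε → ∃ g₀ : ℝ, 0 < g₀ ∧ ∀ g : ℝ, 0 < g → g ≤ g₀ →
      ∫ t in p..(p + g), |b t - b p| ≤ ε * g := leb k1 k2 k3
  by_contra hcon
  push Not at hcon
  have hz : ∀ᵐ p : ℝ, p ∈ Set.uIoc P Q → b p = 0 := by
    have hne : ∀ᵐ p : ℝ, p ≠ Q := by
      rw [ae_iff]
      simp
    filter_upwards [hleb, hne] with p hp hpQ hmem
    rw [Set.uIoc_of_le hPQ.le] at hmem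
    by_contra hb
    have hb0 : 0 < b p := lt_of_le_of_ne (k2 p) (Ne.symm hb)
    exact hcon p hmem.1 (lt_of_le_of_ne hmem.2 hpQ) (b p) hb0
      (act_leb k1 k2 k3 (fun x y a1 a2 a3 => by rw [k4]; exact k5 x y a1 a2 a3)
        (hP.trans hmem.1.le) hp)
  rw [intervalIntegral.integral_zero_ae hz] at hint
  exact lt_irrefl _ hint

/-- **Exactness behind records, with tubes in chosen intervals** and chosen active coordinates. -/
theorem rexv_pick {S : PCl m} (hS : S.Ne) {C₀ : ℝ} (hC₀ : 0 ≤ C₀) (htm : TmC S C₀)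
    (hpos : ∀ (τ : ℝ) (J : ℕ) (F : Fam m J) (A : F.Ω → Prop), S.St τ J F A → 0 < Pe F.p A)
    {ι : Type} [Countable ι] (k : ι → ℕ) (hF : ∀ i, FZX (k i)) (v : ι → Vz m)
    (ε : ∀ i, Fin (k i) → Fin m) {N : ∀ i, Finset (Fin (k i)) → ℝ → ℝ → ℝ}
    (hN : ∀ i, ActN (WyV S (v i) (ε i)) (N i)) (κ : ∀ i, Fin (k i)) {P Q : ι → ℝ}
    (hP : ∀ i, 0 ≤ P i) (hPQ : ∀ i, P i < Q i) (hQ : ∀ i, Q i ≤ 1 / 2)
    (h1 : ∀ i x y, P i ≤ x → x ≤ y → y ≤ Q i → N i univ x y ≤ N i {κ i} x y)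
    (h2 : ∀ i, 0 < N i univ (P i) (Q i)) :
    ∃ p : ι → ℝ, (∀ i, P i < p i ∧ p i < Q i) ∧
      ∃ (S₃ : PCl m) (L : ∀ i, Finset (Fin (k i)) → Fin (k i) → ℝ → ℝ → ℝ), S₃.Ne ∧
        (∀ (τ : ℝ) (J : ℕ) (F : Fam m J) (A : F.Ω → Prop), S₃.St τ J F A → S.St τ J F A) ∧
        ∀ i, RDt S₃ (v i) (ε i) (p i) (κ i) (L i) := by
  have hpick := fun i => tub_pick (hN i) (κ := κ i) (hP i) (hPQ i)
    ((hQ i).trans (by norm_num)) (h1 i) (h2 i)
  choose p hpP hpQ al hal hact using hpick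
  have hp0 : ∀ i, 0 ≤ p i := fun i => (hP i).trans (hpP i).le
  have hp00 : ∀ i, 0 < p i := fun i => (hP i).trans_lt (hpP i)
  have hp2 : ∀ i, p i < 1 / 2 := fun i => (hpQ i).trans_le (hQ i)
  have hp1 : ∀ i, p i < 1 := fun i => (hp2 i).trans (by norm_num)
  obtain ⟨S₃, L, hne₃, hsub₃, hL⟩ := lam_all hS k
    (fun i => reZ (atp (v i) (p i) (hp0 i) (hp1 i)) (ε i))
  refine ⟨p, fun i => ⟨hpP i, hpQ i⟩, S₃, L, hne₃, hsub₃, fun i => ?_⟩
  have hpos₃ : ∀ (τ : ℝ) (J : ℕ) (F : Fam m J) (A : F.Ω → Prop), S₃.St τ J F A →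
      0 < Pe F.p A := fun τ J F A h => hpos τ J F A (hsub₃ τ J F A h)
  have htm₃ : TmC S₃ C₀ := fun τ J F A hτ h => htm τ J F A hτ (hsub₃ τ J F A h)
  -- the active coordinate
  have hN₃ : ActN (WyV S₃ (v i) (ε i)) (N i) :=
    actN_of_bas (fun Φ hb => wyv_le (v i) (ε i) (sub_le hsub₃) hb) (hN i)
  obtain ⟨g₀, hg₀, hM⟩ := ActQ.mod (tub_actR (hp2 i).le (hact i)).rat
  have hB := (tub_actB hN₃ (wyv_pos (v i) (ε i) hpos₃) (κ i) (hp0 i) (hp2 i).le).rat
  have hLi : LamW (RecV S₃ (atp (v i) (p i) (hp0 i) (hp1 i)) (ε i)) (L i) := hL i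
  have hBi : ActB _ (RecV S₃ (atp (v i) (p i) (hp0 i) (hp1 i)) (ε i)) (κ i) :=
    actB_of_bas (fun Φ hb => Bas.sub (fun τ J F A hA =>
      recv_atp S₃ (v i) (ε i) (p i) (hp0 i) (hp1 i) hA) hb) hB
  have hneR : (RecV S₃ (atp (v i) (p i) (hp0 i) (hp1 i)) (ε i)).Ne := recV_ne hne₃ _ _
  have hposR : Bas (RecV S₃ (atp (v i) (p i) (hp0 i) (hp1 i)) (ε i)) (fun _ F A => 0 < Pe F.p A) :=
    ⟨1, one_pos, 0, fun J _ F A hA => recv_pos _ _ hpos₃ 1 J F A hA⟩
  refine ⟨hp00 i, hp2 i, hLi, ⟨_, al i, g₀, hal i, hg₀, hM, hBi⟩, ?_⟩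
  -- the greedy order
  have hκ : ∀ w : ℝ, 0 ≤ w → w < 1 → L i ∅ (κ i) w w = w := fun w hw0 hw1 =>
    hLi.act hneR (hal i) (hM.q hg₀) hBi hposR hw0 hw1
  obtain ⟨D, hD, hcov⟩ := wv_cover (φ := fun j => j) (κ := κ i) hLi hκ
  refine ⟨D, hD, fun w hw0 hw1 hwD => ?_⟩
  obtain ⟨σ, hσ, hσ0⟩ := hcov w hw0 hw1 hwD
  refine ⟨σ, hσ, hσ0, fun ρ hρ => ?_⟩
  have h1 := rexv (k i) (hF i) hC₀ htm₃ (atp (v i) (p i) (hp0 i) (hp1 i)) (ε i) hneR
    (fun _ _ _ _ h => h) hLi (hal i) hg₀ hM (σ := fun j => σ j) σ.injective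
    (fun j hj => by rw [hσ0 j hj]; exact hBi) hσ ρ hρ
  -- all families are in the pull-back
  obtain ⟨τ, hτ, J₁, hb⟩ := h1
  refine ⟨τ, hτ, J₁, fun J hJ F A hA => hb J hJ F A ⟨hA, fun h => ?_⟩⟩
  have hb0 := (v i).b0
  have hb1 := (v i).b1
  refine (RecV S₃ (atp (v i) (p i) (hp0 i) (hp1 i)) (ε i)).mono ?_ (recV_mk hA h)
  have hc : 0 < (1 - (v i).b) * (1 - p i) := mul_pos (by linarith) (by linarith [hp1 i])
  have h1c : 1 ≤ 1 / ((1 - (v i).b) * (1 - p i)) := by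
    rw [le_div_iff₀ hc, one_mul]
    exact mul_le_one₀ (by linarith) (by linarith [hp1 i]) (by linarith [hp0 i])
  calc τ = 1 * τ := (one_mul τ).symm
    _ ≤ 1 / ((1 - (v i).b) * (1 - p i)) * τ := mul_le_mul_of_nonneg_right h1c hτ.le

end Pool.OWN72
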