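import Pool.Agent.H72.OWN.Rep
import Pool.Agent.H98.P4.Few
import Pool.Agent.H91.LA.Own

/-!
# Own velocities are visible

`vis_cls`: the velocity of `v` relative to a closed affine label has few bits, up to `P` natural
digits, given the exact point and a little more than `P J` digits of the direction.
-/

set_option autoImplicit false

namespace Pool.OWN72

open Finset MvPolynomial
open Pool.Agent.H49.Ent Pool.Agent.H32.Dense Pool.STK Pool.KA Pool.KSAT Pool.K2S Pool.PB Pool.GEN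
open Pool.S6C
open Pool.JVE (DpI)
open Pool.MIC6 (res_of)
open Pool.BFL (Pb)
open Pool.STAT (cond_supp)

variable {m n J : ℕ}

/-- Two numbers with the same floor. -/
theorem near_of_fl {a : ℕ} {x x' : ℝ} (h : ⌊(2 : ℝ) ^ a * x⌋ = ⌊(2 : ℝ) ^ a * x'⌋) :
    |x - x'| ≤ 1 / 2 ^ a := by
  have h1 : |(2 : ℝ) ^ a * x - 2 ^ a * x'| < 1 := Int.abs_sub_lt_one_of_floor_eq_floor h
  rw [← mul_sub, abs_mul, abs_of_pos (by positivity : (0 : ℝ) < 2 ^ a)] at h1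
  rw [le_div_iff₀ (by positivity)]
  linarith

/-- The numbers fit. -/
theorem vis_fit {N w x γ P P₀ : ℝ} (hP : 0 ≤ P) (hx : 0 < x) (hγ : 0 < γ) (hN : w < N)
    (h1 : P + 4 * (x + γ) ≤ P₀) : ∃ J₁ : ℕ, ∀ J ≥ J₁,
      ⌊(N - w - x) * (J : ℝ)⌋₊ ≤ ⌊(N - w + P) * (J : ℝ)⌋₊ ∧
      ⌊(N - w + P) * (J : ℝ)⌋₊ + ⌊γ * (J : ℝ)⌋₊ + 1 ≤
        ⌊(N - w - x) * (J : ℝ)⌋₊ + ⌊P₀ * (J : ℝ)⌋₊ := by
  obtain ⟨J₁, hJ₁⟩ := exists_nat_ge (8 / min x γ)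
  refine ⟨J₁, fun J hJ => ?_⟩
  have hJr : (J₁ : ℝ) ≤ J := by exact_mod_cast hJ
  have hJ0 : (0 : ℝ) ≤ J := Nat.cast_nonneg J
  have hmn : 0 < min x γ := lt_min hx hγ
  have q0 : 8 ≤ min x γ * J := by
    have h1 := hJ₁.trans hJr
    rw [div_le_iff₀ hmn] at h1
    linarith
  have q1 : 8 ≤ x * J := q0.trans (mul_le_mul_of_nonneg_right (min_le_left _ _) hJ0)
  have q2 : 8 ≤ γ * J := q0.trans (mul_le_mul_of_nonneg_right (min_le_right _ _) hJ0)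
  have g1 : (P + 4 * (x + γ)) * J ≤ P₀ * J := mul_le_mul_of_nonneg_right h1 hJ0
  have f1 : (N - w - x) * (J : ℝ) - 1 < ⌊(N - w - x) * (J : ℝ)⌋₊ := Nat.sub_one_lt_floor _
  have f2 : (⌊(N - w + P) * (J : ℝ)⌋₊ : ℝ) ≤ (N - w + P) * J :=
    Nat.floor_le (mul_nonneg (by linarith) hJ0)
  have f3 : P₀ * (J : ℝ) - 1 < ⌊P₀ * (J : ℝ)⌋₊ := Nat.sub_one_lt_floor _
  have f4 : (⌊γ * (J : ℝ)⌋₊ : ℝ) ≤ γ * J := Nat.floor_le (by positivity)
  refine ⟨Nat.floor_le_floor (mul_le_mul_of_nonneg_right (by linarith) hJ0), ?_⟩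
  have h2 : (⌊(N - w + P) * (J : ℝ)⌋₊ : ℝ) + ⌊γ * (J : ℝ)⌋₊ + 1 ≤
      ⌊(N - w - x) * (J : ℝ)⌋₊ + ⌊P₀ * (J : ℝ)⌋₊ := by nlinarith
  exact_mod_cast h2

/-- **Own velocities are visible.** -/
theorem vis_cls {S : PCl m} {C₀ : ℝ} (htm : TmC S C₀) {y : Fin m}
    (hact : Pool.MIC6.ActF S y) {I : Finset (Fin m)} {v : Fin m} {w N P P₀ : ℝ} (hP : 0 ≤ P)
    (hPP : P < P₀) (hNw : w < N) (hrep : RepP S y I v w N P) :
    ∃ x₀ : ℝ, 0 < x₀ ∧ ∀ x : ℝ, 0 < x → x ≤ x₀ → ∀ ε : ℝ, 0 < ε → Bas S (fun J F A =>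
      ∀ (a : PtT F → Fin m → ℝ) (c : PtT F → ℝ),
      ClA F A I v ⌊w * J⌋₊ ⌊x * J⌋₊ ⌊(N - w - x) * J⌋₊ a c → ∀ Q ≤ ⌊(N - w + P) * J⌋₊,
      CH (Pool.Agent.H49.Ent.cond F.p A True) (fun ω => ⌊(2 : ℝ) ^ Q * (F.d ω v -
        c (ptr F J ω) - ∑ k ∈ I, a (ptr F J ω) k * F.d ω k)⌋)
        (fun ω => (F.D ⌊P₀ * J⌋₊ ω, (F.X J ω, F.W ω))) ≤ ε * J) := by
  obtain ⟨x₁, hx₁, hrep⟩ := hrep
  obtain ⟨γ, hγ⟩ : ∃ γ, γ = (P₀ - P) / 8 := ⟨_, rfl⟩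
  have hγ0 : 0 < γ := by rw [hγ]; linarith
  refine ⟨min x₁ γ, lt_min hx₁ hγ0, ?_⟩
  intro x hx hxx ε hε
  have hx1 : x ≤ x₁ := hxx.trans (min_le_left _ _)
  have hx2 : x ≤ γ := hxx.trans (min_le_right _ _)
  obtain ⟨h, hh⟩ : ∃ h, h = min (1 / 4) (ε / (8 * (N - w + P + 5))) := ⟨_, rfl⟩
  have hden : 0 < 8 * (N - w + P + 5) := by linarith
  have hh0 : 0 < h := by
    rw [hh]
    exact lt_min (by norm_num) (by positivity)
  have hh1 : h ≤ 1 / 4 := by rw [hh]; exact min_le_left _ _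
  have hh2 : h * (8 * (N - w + P + 5)) ≤ ε := by
    have : h ≤ ε / (8 * (N - w + P + 5)) := by rw [hh]; exact min_le_right _ _
    rwa [le_div_iff₀ hden] at this
  obtain ⟨τ₁, hτ₁, J₁, hb₁⟩ := hrep x hx hx1 h hh0
  obtain ⟨τ₂, hτ₂, J₂, hb₂⟩ := spr_cls htm hact (γ := γ) hγ0 hh0
  obtain ⟨J₃, hfit⟩ := vis_fit (N := N) (w := w) (x := x) (γ := γ) (P := P) (P₀ := P₀) hP hx hγ0
    hNw (by rw [hγ] at hx2 ⊢; linarith)
  obtain ⟨τ, hτ⟩ : ∃ τ, τ = min τ₁ (τ₂ / 2) := ⟨_, rfl⟩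
  have hτ0 : 0 < τ := by rw [hτ]; exact lt_min hτ₁ (by linarith)
  have t1 : τ ≤ τ₁ := by rw [hτ]; exact min_le_left _ _
  have t2 : 2 * τ ≤ τ₂ := by
    have : τ ≤ τ₂ / 2 := by rw [hτ]; exact min_le_right _ _
    linarith
  obtain ⟨J₄, hJ₄⟩ := exists_nat_ge (Real.log 2 / τ)
  obtain ⟨J₅, hJ₅⟩ := exists_nat_ge ((Real.log 2 + Real.log 9 + 4) / (ε / 2))
  refine ⟨τ, hτ0, max (max J₁ J₂) (max J₃ (max J₄ J₅)), ?_⟩
  intro J hJ F A hAS a c hl Q hQ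
  have j1 : J₁ ≤ J := ((le_max_left _ _).trans (le_max_left _ _)).trans hJ
  have j2 : J₂ ≤ J := ((le_max_right _ _).trans (le_max_left _ _)).trans hJ
  have j3 : J₃ ≤ J := ((le_max_left _ _).trans (le_max_right _ _)).trans hJ
  have j4 : (J₄ : ℝ) ≤ J := by
    exact_mod_cast ((le_max_left _ _).trans ((le_max_right _ _).trans (le_max_right _ _))).trans hJ
  have j5 : (J₅ : ℝ) ≤ J := by
    exact_mod_cast ((le_max_right _ _).trans ((le_max_right _ _).trans (le_max_right _ _))).trans hJ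
  have hJ0 : (0 : ℝ) ≤ J := Nat.cast_nonneg J
  have hlog : Real.log 2 ≤ τ * J := by
    have h1 := hJ₄.trans j4
    rw [div_le_iff₀ hτ0] at h1
    linarith
  have hεJ : Real.log 2 + Real.log 9 + 4 ≤ ε / 2 * J := by
    have h1 := hJ₅.trans j5
    rw [div_le_iff₀ (by linarith)] at h1
    linarith
  have hA0 := (htm τ J F A hτ0 hAS).1
  obtain ⟨p1, p2⟩ := hfit J j3
  obtain ⟨n₀, hn₀⟩ : ∃ n, n = ⌊(N - w - x) * (J : ℝ)⌋₊ := ⟨_, rfl⟩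
  obtain ⟨n₃, hn₃⟩ : ∃ n, n = ⌊(N - w + P) * (J : ℝ)⌋₊ := ⟨_, rfl⟩
  obtain ⟨nγ, hnγ⟩ : ∃ n, n = ⌊γ * (J : ℝ)⌋₊ := ⟨_, rfl⟩
  obtain ⟨nD, hnD⟩ : ∃ n, n = ⌊P₀ * (J : ℝ)⌋₊ := ⟨_, rfl⟩
  rw [← hn₀, ← hn₃] at p1
  rw [← hn₀, ← hn₃, ← hnγ, ← hnD] at p2
  obtain ⟨B₁, b11, b12, p, q, b13⟩ := hb₁ J j1 F A (S.mono t1 hAS) a c hl
  rw [← hn₀] at hl
  rw [← hn₃] at b13 hQ
  rw [← hnD]
  have P0 : (0 : ℝ) < 2 ^ n₀ := by positivity
  have P3 : (0 : ℝ) < 2 ^ n₃ := by positivity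
  have PD : (0 : ℝ) < 2 ^ nD := by positivity
  have PQ : (0 : ℝ) < 2 ^ Q := by positivity
  have hB₁ : S.St (2 * τ) J F B₁ := res_of hτ0.le hAS b11 two_pos hlog (by nlinarith)
  obtain ⟨V, hV⟩ : ∃ V : F.Ω → ℝ, V = fun ω => F.d ω v - c (ptr F J ω) -
    ∑ k ∈ I, a (ptr F J ω) k * F.d ω k := ⟨_, rfl⟩
  have hVb : ∀ ω, A ω → |V ω| ≤ 1 / 2 ^ n₀ := fun ω hω => by
    rw [hV]
    exact (hl.dp ω hω).2.2
  have hVr : ∀ ω, B₁ ω → |V ω - p (ptr F J ω) - q (ptr F J ω) * F.d ω y| ≤ 1 / 2 ^ n₃ :=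
    fun ω hω => by
      rw [hV]
      exact b13 ω hω
  have i1 : (1 : ℝ) / 2 ^ n₃ ≤ 1 / 2 ^ n₀ :=
    one_div_le_one_div_of_le P0 (pow_le_pow_right₀ (by norm_num) p1)
  obtain ⟨B₂, b21, b22, b23⟩ := hb₂ J j2 F B₁ (S.mono t2 hB₁) p q (2 / 2 ^ n₀) (by positivity)
    (fun ω hω => by
      have h1 := hVb ω (b11 ω hω)
      have h2 := hVr ω hω
      have e1 : p (ptr F J ω) + q (ptr F J ω) * F.d ω y =
          V ω - (V ω - p (ptr F J ω) - q (ptr F J ω) * F.d ω y) := by ring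
      rw [e1]
      refine (abs_sub _ _).trans ?_
      have h6 : (2 : ℝ) / 2 ^ n₀ = 1 / 2 ^ n₀ + 1 / 2 ^ n₀ := by ring
      linarith)
  rw [← hnγ] at b23
  have hB₂A : Sub B₂ A := fun ω hω => b11 ω (b21 ω hω)
  have hB₂P : (1 - 2 * h) * Pe F.p A ≤ Pe F.p B₂ := by
    have h1 : (1 - h) * ((1 - h) * Pe F.p A) ≤ (1 - h) * Pe F.p B₁ :=
      mul_le_mul_of_nonneg_left b12 (by linarith)
    nlinarith [mul_nonneg (mul_self_nonneg h) hA0.le]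
  -- the entropy
  obtain ⟨r, hr⟩ : ∃ r, r = Pool.Agent.H49.Ent.cond F.p A True := ⟨_, rfl⟩
  have hrl : IsLaw r := by rw [hr]; exact isLaw_cond F.isLaw hA0
  rw [← hr]
  have hrA : ∀ ω, 0 < r ω → A ω := fun ω hω => by
    rw [hr] at hω
    exact cond_supp hω
  have hbad : Pb r (fun ω => ¬ B₂ ω) ≤ 2 * h := by
    rw [hr, Pool.LA91.Pb_cond hA0, div_le_iff₀ hA0]
    have h1 := Pe_parts (p := F.p) (B := A) (B' := B₂) hB₂A
    linarith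
  have hfl : ∀ ω, ⌊(2 : ℝ) ^ Q * (F.d ω v - c (ptr F J ω) -
      ∑ k ∈ I, a (ptr F J ω) k * F.d ω k)⌋ = ⌊(2 : ℝ) ^ Q * V ω⌋ := fun ω => by
    rw [hV]
  simp only [hfl]
  have key := Pool.P4N.few_ev hrl (d := 1) B₂ (fun ω _ => ⌊(2 : ℝ) ^ Q * V ω⌋)
    (fun ω => (F.D nD ω, (F.X J ω, F.W ω))) (L := 4) (Q := 2 ^ Q + 1) (by norm_num) (by positivity)
    (fun ω ω' hω hω' e1 e2 e3 i => by
      have hD : F.D nD ω = F.D nD ω' := (Prod.ext_iff.1 e3).1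
      have hpt : ptr F J ω = ptr F J ω' := (Prod.ext_iff.1 e3).2
      have hE : |F.d ω y - F.d ω' y| ≤ 1 / 2 ^ nD := near_of_fl (congrFun hD y)
      have h1 := hVr ω (b21 ω e1)
      have h2 := hVr ω' (b21 ω' e2)
      have h3 := b23 ω e1
      rw [← hpt] at h2
      have h4 : |q (ptr F J ω) * (F.d ω y - F.d ω' y)| ≤ 1 / 2 ^ n₃ := by
        rw [abs_mul]
        refine (mul_le_mul h3 hE (abs_nonneg _) (by positivity)).trans ?_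
        rw [mul_div_assoc', mul_div_assoc', mul_one, div_div,
          div_le_div_iff₀ (by positivity) P3, one_mul]
        have h5 : (2 : ℝ) ^ (n₃ + nγ + 1) ≤ 2 ^ (n₀ + nD) :=
          pow_le_pow_right₀ (by norm_num) p2
        rw [pow_add, pow_add, pow_add] at h5
        linarith
      have h5 : V ω - V ω' = (V ω - p (ptr F J ω) - q (ptr F J ω) * F.d ω y) -
          (V ω' - p (ptr F J ω) - q (ptr F J ω) * F.d ω' y) +
          q (ptr F J ω) * (F.d ω y - F.d ω' y) := by ring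
      have h6 : |V ω - V ω'| ≤ 3 / 2 ^ Q := by
        rw [h5]
        refine (abs_add_le _ _).trans ?_
        have h7 := abs_sub (V ω - p (ptr F J ω) - q (ptr F J ω) * F.d ω y)
          (V ω' - p (ptr F J ω) - q (ptr F J ω) * F.d ω' y)
        have h8 : (3 : ℝ) / 2 ^ n₃ = 1 / 2 ^ n₃ + 1 / 2 ^ n₃ + 1 / 2 ^ n₃ := by ring
        have h9 : (3 : ℝ) / 2 ^ n₃ ≤ 3 / 2 ^ Q := by
          refine div_le_div_of_nonneg_left (by norm_num) PQ ?_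
          exact pow_le_pow_right₀ (by norm_num) hQ
        linarith
      have h7 := floor_near h6
      have e4 : (3 : ℝ) + 1 = 4 := by norm_num
      rwa [e4] at h7)
    (fun ω hω i => by
      have h1 := hVb ω (hrA ω hω)
      have h2 : |V ω| ≤ 1 := h1.trans (by
        rw [div_le_one P0]
        exact one_le_pow₀ (by norm_num))
      have h3 := Int.floor_le ((2 : ℝ) ^ Q * V ω)
      have h4 := Int.lt_floor_add_one ((2 : ℝ) ^ Q * V ω)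
      have h5 : |(2 : ℝ) ^ Q * V ω| ≤ 2 ^ Q := by
        rw [abs_mul, abs_of_pos PQ]
        exact mul_le_of_le_one_right PQ.le h2
      obtain ⟨h6, h7⟩ := abs_le.1 h5
      rw [abs_le]
      constructor <;> linarith)
  have hleft : CH r (fun ω => ⌊(2 : ℝ) ^ Q * V ω⌋) (fun ω => (F.D nD ω, (F.X J ω, F.W ω))) ≤
      CH r (fun ω (_ : Fin 1) => ⌊(2 : ℝ) ^ Q * V ω⌋)
        (fun ω => (F.D nD ω, (F.X J ω, F.W ω))) := by
    refine CH_mono_left hrl.nonneg fun ω ω' _ _ e => ?_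
    exact congrFun (Prod.ext_iff.1 e).1 0
  refine hleft.trans (key.trans ?_)
  have l2 : Real.log 2 ≤ 1 := by
    have := Real.log_two_lt_d9
    linarith
  have l20 : 0 < Real.log 2 := Real.log_pos one_lt_two
  have e1 : (2 : ℝ) * 4 + 1 = 9 := by norm_num
  have h1 : Real.log (4 * (2 ^ Q + 1) + 1) ≤ Q + 4 := by
    have h2 : (4 : ℝ) * (2 ^ Q + 1) + 1 ≤ 2 ^ (Q + 4) := by
      rw [pow_add]
      have : (1 : ℝ) ≤ 2 ^ Q := one_le_pow₀ (by norm_num)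
      linarith
    refine (Real.log_le_log (by positivity) h2).trans ?_
    rw [Real.log_pow]
    push_cast
    have h3 : (0 : ℝ) ≤ Q + 4 := by positivity
    nlinarith
  have h2 : (Q : ℝ) ≤ (N - w + P) * J := by
    have h3 : (Q : ℝ) ≤ n₃ := by exact_mod_cast hQ
    refine h3.trans ?_
    rw [hn₃]
    exact Nat.floor_le (mul_nonneg (by linarith) hJ0)
  have h3 : 0 ≤ Pb r (fun ω => ¬ B₂ ω) := by
    unfold Pb
    exact Finset.sum_nonneg fun ω _ => by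
      split_ifs
      · exact hrl.nonneg ω
      · exact le_rfl
  have h4 : Pb r (fun ω => ¬ B₂ ω) * Real.log (4 * (2 ^ Q + 1) + 1) ≤
      2 * h * ((N - w + P) * J + 4) := by
    refine mul_le_mul hbad (h1.trans (by linarith)) (Real.log_nonneg (by
      have : (1 : ℝ) ≤ 2 ^ Q := one_le_pow₀ (by norm_num)
      linarith)) (by linarith)
  have h5 : 2 * h * ((N - w + P) * J) ≤ ε / 4 * J := by
    have h6 : h * (8 * (N - w + P)) ≤ ε := by nlinarith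
    have h7 := mul_le_mul_of_nonneg_right h6 hJ0
    nlinarith
  have h6 : 2 * h * 4 ≤ 2 := by linarith
  rw [e1, Nat.cast_one, one_mul]
  have h7 : 0 ≤ ε / 4 * J := by positivity
  nlinarith

end Pool.OWN72
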