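import Pool.Agent.H72.OWN.Lin
import Pool.Agent.H43.OWN.P5
import Pool.Agent.H45.EXA.Vgr

/-!
# The numbers of an order of one, two or three coordinates
-/

set_option autoImplicit false

namespace Pool.OWN72

open Finset
open Pool.Agent.H49.Ent Pool.Agent.H32.Dense Pool.STK Pool.KA Pool.KSAT Pool.K2S Pool.PB Pool.GEN
open Pool.S6C Pool.REX Pool.REX83

variable {m n J : ℕ}

theorem vs_one (L : Finset (Fin m) → Fin m → ℝ → ℝ → ℝ) (ε : Fin (n + 1) → Fin m) (w : ℝ) :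
    vs L ε w 1 = L ∅ (ε 0) w w := by
  have h1 := vs_succ L ε w 0
  have e1 : ((0 : Fin (n + 1)) : ℕ) + 1 = 1 := by simp
  rw [e1] at h1
  rw [h1]
  unfold vn
  have e2 : (Finset.Iio (0 : Fin (n + 1))) = ∅ := by
    ext x
    simp
  rw [e2, Finset.image_empty]
  rfl

theorem vs_two (L : Finset (Fin m) → Fin m → ℝ → ℝ → ℝ) (ε : Fin (n + 2) → Fin m) (w : ℝ) :
    vs L ε w 2 = L {ε 0} (ε 1) w (vs L ε w 1) := by
  have h1 := vs_succ L ε w 1
  have e1 : ((1 : Fin (n + 2)) : ℕ) = 1 := by simp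
  rw [e1] at h1
  refine h1.trans ?_
  unfold vn
  have e2 : (Finset.Iio (1 : Fin (n + 2))) = {0} := by
    ext x
    simp only [Finset.mem_Iio, Finset.mem_singleton, Fin.lt_def, Fin.ext_iff, e1]
    simp
  rw [e2, Finset.image_singleton, e1]

theorem vs_thr (L : Finset (Fin m) → Fin m → ℝ → ℝ → ℝ) (ε : Fin 3 → Fin m) (w : ℝ) :
    vs L ε w 3 = L {ε 0, ε 1} (ε 2) w (vs L ε w 2) := by
  have h1 := vs_succ L ε w 2
  have e1 : ((2 : Fin 3) : ℕ) = 2 := rfl
  rw [e1] at h1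
  refine h1.trans ?_
  unfold vn
  have e2 : (Finset.Iio (2 : Fin 3)) = {0, 1} := by decide
  rw [e2, e1]
  congr 1
  ext x
  simp [eq_comm]

/-- Greedy: the second number is the smallest one. -/
theorem vs_grd (L : Finset (Fin m) → Fin m → ℝ → ℝ → ℝ) (ε : Fin 3 → Fin m) {w : ℝ}
    (h : Vgr L ε w) : vs L ε w 2 ≤ L {ε 0} (ε 2) w (vs L ε w 1) := by
  have h1 := h 1 2 (by decide)
  have e1 : ((1 : Fin 3) : ℕ) = 1 := rfl
  rw [e1] at h1
  refine h1.trans (le_of_eq ?_)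
  unfold vn
  have e2 : (Finset.Iio (1 : Fin 3)) = {0} := by decide
  rw [e2, Finset.image_singleton, e1]

/-- The sets of a chain. -/
theorem img_zero (c : ℕ → Fin m) : img c 0 = ∅ := by simp [img]

theorem img_two (c : ℕ → Fin m) : img c 2 = {c 0, c 1} := by
  ext x
  simp only [img, Finset.mem_image, Finset.mem_range, Finset.mem_insert, Finset.mem_singleton]
  constructor
  · rintro ⟨i, hi, rfl⟩
    interval_cases i <;> simp
  · rintro (h | h)
    · exact ⟨0, by norm_num, h.symm⟩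
    · exact ⟨1, by norm_num, h.symm⟩

/-- **Exactness at one window** from a bound of the numbers. -/
theorem exa_fin {n₀ : ℕ} {S : PCl m} {v : Vz m} {ε : Fin n₀ → Fin m} {p : ℝ} {x : Fin n₀ → ℝ}
    {T : ℝ} (hs : ∑ j : Fin n₀, (v.b + (1 - v.b) * (p + (1 - p) * x j)) ≤ T)
    (h : ∀ ρ : ℝ, 0 < ρ → Bas S (fun J F A =>
        ((∑ j : Fin n₀, (1 - (v.b + (1 - v.b) * (p + (1 - p) * x j)))) - ρ) *
          Real.log 2 * J ≤ CH (Pool.Agent.H49.Ent.cond F.p A True) (fun ω j => F.X J ω (ε j))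
            (fun ω => (v.y J F ω, F.W ω)))) : ∀ ρ : ℝ, 0 < ρ → Bas S (fun J F A =>
      ((n₀ - T) - ρ) * Real.log 2 * J ≤ CH (Pool.Agent.H49.Ent.cond F.p A True)
        (fun ω j => F.X J ω (ε j)) (fun ω => (v.y J F ω, F.W ω))) := by
  intro ρ hρ
  refine Bas.mono 0 (h ρ hρ) ?_
  intro J _ F A h1
  refine le_trans ?_ h1
  have hJ : (0 : ℝ) ≤ J := Nat.cast_nonneg J
  have hl : 0 ≤ Real.log 2 := Real.log_nonneg (by norm_num)
  refine mul_le_mul_of_nonneg_right (mul_le_mul_of_nonneg_right ?_ hl) hJ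
  rw [Finset.sum_sub_distrib]
  simp only [Finset.sum_const, Finset.card_univ, Fintype.card_fin, nsmul_eq_mul, mul_one]
  linarith

end Pool.OWN72
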